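import Mathlib

set_option autoImplicit false

/-!
LECC for almost all graphs: definitions and module statements (see `/team-store/lr_blueprint.md`).
-/

open Finset Filter
open scoped Classical Topology

namespace Pool.Agent.Helper15.LR

noncomputable section

/-- `√(n log n)` -/
def SS (n : ℕ) : ℝ := Real.sqrt (n * Real.log n)

/-- `±1` -/
def sgn (b : Bool) : ℝ := if b = true then 1 else -1

/-- the edges in `F` can be properly coloured from the lists `L` -/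
def LC {V : Type} (F : Set (Sym2 V)) (L : Sym2 V → Finset ℕ) : Prop :=
  ∃ f : Sym2 V → ℕ, (∀ e ∈ F, f e ∈ L e) ∧
    ∀ u v w : V, s(u, v) ∈ F → s(u, w) ∈ F → v ≠ w → f s(u, v) ≠ f s(u, w)

/-- neighbours of `v` along edges in `F` -/
def nb {V : Type} [Fintype V] (F : Set (Sym2 V)) (v : V) : Finset V :=
  univ.filter (fun u => s(v, u) ∈ F)

/-- degree -/
def dg {V : Type} [Fintype V] (F : Set (Sym2 V)) (v : V) : ℕ := (nb F v).card

/-- number of edges at `v` in `F` with label `o` -/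
def ld {V Λ : Type} [Fintype V] (F : Set (Sym2 V)) (φ : Sym2 V → Λ) (v : V) (o : Λ) : ℕ :=
  ((nb F v).filter (fun u => φ s(v, u) = o)).card

/-- the set of levels crossed by the pair `u v` -/
def pat {V : Type} {K : ℕ} (σ : V → Fin K → Bool) (u v : V) : Finset (Fin K) :=
  univ.filter (fun j => σ u j ≠ σ v j)

/-- all levels allowed for the pair `u v`: the leftover level `none` and the crossed levels -/
def full {V : Type} {K : ℕ} (σ : V → Fin K → Bool) (u v : V) : Finset (Option (Fin K)) :=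
  univ.filter (fun o => ∀ j, o = some j → σ u j ≠ σ v j)

/-- shares of the levels -/
def omg (K : ℕ) (ρ : ℝ) : Option (Fin K) → ℝ
  | none => ρ
  | some _ => (1 - ρ) / K

/-- quasirandomness (lower bound only) -/
def QR {V : Type} [Fintype V] (G : SimpleGraph V) : Prop :=
  ∀ X Y : Finset V, Disjoint X Y →
    (1 / 2 : ℝ) * X.card * Y.card - (Fintype.card V : ℝ) ^ 2 / 10 ^ 4 ≤
      (((X ×ˢ Y).filter (fun p => G.Adj p.1 p.2)).card : ℝ)

/-- probability of an event on a finite product space with coordinate weights `w` -/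
def PP {ι κ : Type} [Fintype ι] [Fintype κ] (w : ι → κ → ℝ) (E : Set (ι → κ)) : ℝ :=
  ∑ x : ι → κ, if x ∈ E then ∏ i, w i (x i) else 0

/-! ### Part A: combinatorial colouring lemmas -/

/-- A1: Galvin's theorem in the form with linear orders (keys) at the vertices of a bipartite graph. -/
def Galvin_stmt : Prop :=
  ∀ (α β : Type) (E : Finset (α × β)) (r s : α × β → ℤ) (L : α × β → Finset ℕ),
    (∀ e ∈ E, ∀ e' ∈ E, e.1 = e'.1 → r e = r e' → e = e') →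
    (∀ e ∈ E, ∀ e' ∈ E, e.2 = e'.2 → s e = s e' → e = e') →
    (∀ e ∈ E, (E.filter (fun e' => e'.1 = e.1 ∧ r e' < r e)).card +
        (E.filter (fun e' => e'.2 = e.2 ∧ s e' < s e)).card < (L e).card) →
    ∃ f : α × β → ℕ, (∀ e ∈ E, f e ∈ L e) ∧
      ∀ e ∈ E, ∀ e' ∈ E, e ≠ e' → (e.1 = e'.1 ∨ e.2 = e'.2) → f e ≠ f e'

/-- A2: Borodin–Kostochka–Woodall orders. -/
def BKW_stmt : Prop :=
  ∀ (α β : Type) (E : Finset (α × β)), ∃ r s : α × β → ℤ,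
    (∀ e ∈ E, ∀ e' ∈ E, e.1 = e'.1 → r e = r e' → e = e') ∧
    (∀ e ∈ E, ∀ e' ∈ E, e.2 = e'.2 → s e = s e' → e = e') ∧
    (∀ e ∈ E, (E.filter (fun e' => e'.1 = e.1 ∧ r e' < r e)).card +
        (E.filter (fun e' => e'.2 = e.2 ∧ s e' < s e)).card <
        max (E.filter (fun e' => e'.1 = e.1)).card (E.filter (fun e' => e'.2 = e.2)).card)

/-- A3: block version of Galvin's theorem. -/
def BlockGalvin_stmt : Prop :=
  ∀ (V : Type) [Fintype V] (F : Set (Sym2 V)) (side : V → Bool) (L : Sym2 V → Finset ℕ)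
    (blk : Sym2 V → ℕ),
    (∀ u v, s(u, v) ∈ F → side u ≠ side v) →
    (∀ a b, s(a, b) ∈ F → side a = true → side b = false →
      ((nb F a).filter (fun u => blk s(a, u) < blk s(a, b))).card +
      ((nb F b).filter (fun u => blk s(a, b) < blk s(b, u))).card +
      max ((nb F a).filter (fun u => blk s(a, u) = blk s(a, b))).card
          ((nb F b).filter (fun u => blk s(b, u) = blk s(a, b))).card
      ≤ (L s(a, b)).card) →
    LC F L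

/-- A4: one level.  Blocks `0` (bursts of `false`-side vertices of `W`), `1` (start), `2` (middle),
`3` (end), `4` (bursts of `true`-side vertices of `W`). -/
def Level_stmt : Prop :=
  ∀ (V : Type) [Fintype V] (F : Set (Sym2 V)) (side : V → Bool) (L : Sym2 V → Finset ℕ)
    (blk : Sym2 V → ℕ) (W : Set V) (t tm x : ℝ), 0 ≤ x →
    (∀ u v, s(u, v) ∈ F → side u ≠ side v) →
    (∀ u v, s(u, v) ∈ F → u ∈ W → v ∉ W) →
    (∀ a b, s(a, b) ∈ F → side a = true → side b = false →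
      (b ∈ W → blk s(a, b) = 0 ∨ blk s(a, b) = 1 ∨ blk s(a, b) = 2) ∧
      (a ∈ W → blk s(a, b) = 2 ∨ blk s(a, b) = 3 ∨ blk s(a, b) = 4) ∧
      (a ∉ W → b ∉ W → blk s(a, b) = 1 ∨ blk s(a, b) = 2 ∨ blk s(a, b) = 3)) →
    (∀ v ∉ W, (ld F blk v 0 : ℝ) ≤ x ∧ (ld F blk v 4 : ℝ) ≤ x) →
    (∀ v, (ld F blk v 1 : ℝ) ≤ t + x ∧ (ld F blk v 2 : ℝ) ≤ tm + x ∧ (ld F blk v 3 : ℝ) ≤ t + x) →
    (∀ a b, s(a, b) ∈ F → a ∉ W → b ∉ W → 2 * t + tm + 6 * x ≤ ((L s(a, b)).card : ℝ)) →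
    (∀ a b, s(a, b) ∈ F → a ∈ W → 1 ≤ blk s(a, b) → blk s(a, b) ≤ 3 →
      t + tm + 4 * x ≤ ((L s(a, b)).card : ℝ)) →
    (∀ a b, s(a, b) ∈ F → a ∈ W → (blk s(a, b) = 0 ∨ blk s(a, b) = 4) →
      (dg F a : ℝ) + x ≤ ((L s(a, b)).card : ℝ)) →
    LC F L

/-! ### Part B: finite product probability -/

/-- B1a: union bound. -/
def Avoid_stmt : Prop :=
  ∀ (ι κ J : Type) [Fintype ι] [Fintype κ] [Fintype J] (w : ι → κ → ℝ) (E : J → Set (ι → κ)),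
    (∀ i k, 0 ≤ w i k) → (∀ i, ∑ k, w i k = 1) → (∑ j, PP w (E j) < 1) →
    ∃ x : ι → κ, (∀ j, x ∉ E j) ∧ ∀ i, 0 < w i (x i)

/-- B1b: Chernoff bound. -/
def Chernoff_stmt : Prop :=
  ∀ (ι κ : Type) [Fintype ι] [Fintype κ] (w : ι → κ → ℝ) (T : Finset ι) (Q : ι → Set κ) (M s : ℝ),
    (∀ i k, 0 ≤ w i k) → (∀ i, ∑ k, w i k = 1) → 0 < M → 0 ≤ s → s ≤ M →
    (∑ i ∈ T, ∑ k, (if k ∈ Q i then w i k else 0) ≤ M) →
    PP w {x | s ≤ |((T.filter (fun i => x i ∈ Q i)).card : ℝ) -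
        ∑ i ∈ T, ∑ k, (if k ∈ Q i then w i k else 0)|} ≤ 2 * Real.exp (-(s ^ 2) / (4 * M))

/-- B1c: Hoeffding bound. -/
def Hoeffding_stmt : Prop :=
  ∀ (ι κ : Type) [Fintype ι] [Fintype κ] (w : ι → κ → ℝ) (T : Finset ι) (c : ι → κ → ℝ) (b s : ℝ),
    (∀ i k, 0 ≤ w i k) → (∀ i, ∑ k, w i k = 1) → 0 < b → 0 ≤ s →
    (∀ i k, |c i k| ≤ b) → (∀ i, ∑ k, w i k * c i k = 0) →
    PP w {x | s ≤ |∑ i ∈ T, c i (x i)|} ≤ 2 * Real.exp (-(s ^ 2) / (2 * T.card * b ^ 2))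

/-- B1d: Markov's inequality for the number of events that happen. -/
def Markov_stmt : Prop :=
  ∀ (ι κ J : Type) [Fintype ι] [Fintype κ] [Fintype J] (w : ι → κ → ℝ) (E : J → Set (ι → κ)) (a : ℝ),
    (∀ i k, 0 ≤ w i k) → (∀ i, ∑ k, w i k = 1) → 0 < a →
    PP w {x | a ≤ ((univ.filter (fun j => x ∈ E j)).card : ℝ)} ≤ (∑ j, PP w (E j)) / a

/-- B2: splitting the colours into levels. -/
def ColorSplit_stmt : Prop :=
  ∀ (K : ℕ) (ε ρ η : ℝ), 1 ≤ K → 0 < ε → ε ≤ 1 → 0 < ρ → ρ ≤ ε ^ 2 / 10 ^ 6 → 0 < η →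
    ∀ᶠ n : ℕ in atTop, ∀ (ι : Type) [Fintype ι] (m : ℕ) (L : ι → Finset ℕ),
      Fintype.card ι ≤ n ^ 2 → m ≤ n → (∀ i, (L i).card = m) →
      ∃ g : ℕ → Option (Fin K),
        (∀ i j, |(((L i).filter (fun x => g x = some j)).card : ℝ) - (1 - ρ) / K * m|
            ≤ 5 * SS n) ∧
        (∀ i, |(((L i).filter (fun x => g x = none)).card : ℝ) - ρ * m| ≤ ε * SS n / 100) ∧
        ((univ.filter (fun i => ∃ j, (((L i).filter (fun x => g x = some j)).card : ℝ)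
            < (1 - ρ) / K * m - ε * SS n / (8 * K))).card : ℝ) ≤ η * n ^ 2

/-- B3: random sign vectors. -/
def Cells_stmt : Prop :=
  ∀ (K : ℕ) (δ κ : ℝ), 0 < δ → 0 < κ →
    ∀ᶠ n : ℕ in atTop, ∀ (V : Type) [Fintype V] (ι : Type) [Fintype ι] (T : ι → Finset V)
      (c : ι → V) (τ : Fin K → V → ℝ),
      Fintype.card V = n → Fintype.card ι ≤ n ^ 3 → (∀ i, c i ∉ T i) → (∀ j v, |τ j v| ≤ n) →
      ∃ σ : V → Fin K → Bool,
        (∀ i (X : Finset (Fin K)),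
          |(((T i).filter (fun u => pat σ (c i) u = X)).card : ℝ) - (1 / 2) ^ K * (T i).card|
            ≤ δ * n) ∧
        (∀ j, |∑ v, sgn (σ v j)| ≤ δ * n) ∧
        (∀ i j, i ≠ j → |∑ v, sgn (σ v i) * sgn (σ v j)| ≤ δ * n) ∧
        (∀ j, |∑ v, sgn (σ v j) * τ j v| ≤ κ * n * SS n)

/-- B4: random labelling of the edges. -/
def Sampling_stmt : Prop :=
  ∀ (B : Type) [Fintype B] (C κ : ℝ), 0 < C → 0 < κ →
    ∀ᶠ n : ℕ in atTop, ∀ (V : Type) [Fintype V] (π : Sym2 V → B → ℝ),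
      Fintype.card V = n → (∀ e b, 0 ≤ π e b) → (∀ e, ∑ b, π e b ≤ 1) → (∀ v b, π s(v, v) b = 0) →
      (∀ v b, ∑ u, π s(v, u) b ≤ C * SS n) →
      ∃ β : Sym2 V → Option B, (∀ e b, β e = some b → 0 < π e b) ∧
        ∀ v b, |((univ.filter (fun u => β s(v, u) = some b)).card : ℝ) - ∑ u, π s(v, u) b|
          ≤ κ * SS n

/-! ### Part C: the leftover level -/

/-- C1. -/
def Leftover_stmt : Prop :=
  ∀ ε : ℝ, 0 < ε → ∃ ρ₀ : ℝ, 0 < ρ₀ ∧ ∀ᶠ n : ℕ in atTop, ∀ (V : Type) [Fintype V]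
    (F : Set (Sym2 V)) (L : Sym2 V → Finset ℕ) (D : ℝ),
    Fintype.card V = n → (∀ v, s(v, v) ∉ F) → 0 ≤ D → D ≤ ρ₀ * n →
    (∀ v, (dg F v : ℝ) ≤ D) → (∀ e ∈ F, D + ε * SS n ≤ ((L e).card : ℝ)) → LC F L

/-! ### Part D: the balanced assignment lemma -/

/-- D: balanced assignment. -/
def BA_stmt : Prop :=
  ∀ (K : ℕ) (ρ c₁ d₀ : ℝ), 1 ≤ K → 0 < ρ → ρ < 1 → 0 < c₁ → 0 < d₀ →
    (1 / 2 : ℝ) ^ K ≤ ρ / 2 → 8 * (1 / 2 : ℝ) ^ (K / 3) ≤ ρ → 8 * (1 / 2 : ℝ) ^ (K / 3) ≤ (1 - ρ) / K →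
    ∃ δ Γ : ℝ, 0 < δ ∧ 0 < Γ ∧
      ∀ (V : Type) [Fintype V] (F : Set (Sym2 V)) (σ : V → Fin K → Bool)
        (A : Sym2 V → Finset (Option (Fin K))) (τ : V → Option (Fin K) → ℝ),
        (∀ v, s(v, v) ∉ F) →
        (∀ v, d₀ * Fintype.card V ≤ (dg F v : ℝ)) →
        (∀ v (X : Finset (Fin K)),
          |(((nb F v).filter (fun u => pat σ v u = X)).card : ℝ) - (1 / 2) ^ K * dg F v|
            ≤ δ * Fintype.card V) →
        (∀ i j, i ≠ j → |∑ v, sgn (σ v i) * sgn (σ v j)| ≤ δ * Fintype.card V) →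
        (∀ u v, s(u, v) ∈ F → (A s(u, v)).Nonempty ∧ A s(u, v) ⊆ full σ u v) →
        (∀ v, (((nb F v).filter (fun u => A s(v, u) ≠ full σ v u)).card : ℝ)
            ≤ δ * Fintype.card V) →
        (∀ v o, |τ v o - omg K ρ o * dg F v| ≤ δ * Fintype.card V) →
        (∀ v, ∑ o, τ v o = dg F v) →
        (∀ j, ∑ v, sgn (σ v j) * τ v (some j) = 0) →
        (∀ j (Z : Finset V), c₁ * Fintype.card V * min (Z.card : ℝ) (Zᶜ.card : ℝ) ≤
          (((Z ×ˢ Zᶜ).filter (fun p => s(p.1, p.2) ∈ F ∧ σ p.1 j ≠ σ p.2 j ∧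
            A s(p.1, p.2) = full σ p.1 p.2)).card : ℝ)) →
        ∃ φ : Sym2 V → Option (Fin K), (∀ e ∈ F, φ e ∈ A e) ∧
          ∀ v o, |(ld F φ v o : ℝ) - τ v o| ≤ Γ

/-! ### Part E: the main deterministic theorem -/

/-- E0: order statistic. -/
def Quantile_stmt : Prop :=
  ∀ (ι : Type) (T : Finset ι) (f : ι → ℝ) (Y : ℝ) (k : ℕ), (∀ i ∈ T, |f i| ≤ Y) → 1 ≤ k →
    k ≤ T.card → ∃ M : ℝ, |M| ≤ Y ∧ k ≤ (T.filter (fun i => M ≤ f i)).card ∧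
      (∑ i ∈ T, f i) ≤ M * T.card + 2 * Y * k

/-- E1: edge expansion of the crossing graph of one level. -/
def Expansion_stmt : Prop :=
  ∀ (V : Type) [Fintype V] (G : SimpleGraph V) (s : V → Bool) (I : Set (Sym2 V)), QR G →
    (|∑ v, sgn (s v)| ≤ (Fintype.card V : ℝ) / 1000) →
    (∀ v, (Fintype.card V : ℝ) / 10 ≤
      (((nb G.edgeSet v).filter (fun u => s v ≠ s u)).card : ℝ)) →
    (∀ v, (((nb G.edgeSet v).filter (fun u => s(v, u) ∈ I)).card : ℝ)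
      ≤ (Fintype.card V : ℝ) / 1000) →
    ∀ Z : Finset V, 1 / 100 * (Fintype.card V : ℝ) * min (Z.card : ℝ) (Zᶜ.card : ℝ) ≤
      (((Z ×ˢ Zᶜ).filter (fun p => s(p.1, p.2) ∈ G.edgeSet ∧ s p.1 ≠ s p.2 ∧
        s(p.1, p.2) ∉ I)).card : ℝ)

/-- E: a quasirandom graph whose degrees are a bit smaller than the lists. -/
def Main_stmt : Prop :=
  ∀ ε C₀ : ℝ, 0 < ε → ε ≤ 1 → ∀ᶠ n : ℕ in atTop, ∀ (V : Type) [Fintype V] (G : SimpleGraph V)
    (m : ℕ) (L : Sym2 V → Finset ℕ), Fintype.card V = n → (n : ℝ) / 3 ≤ m → m ≤ n →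
    (∀ e ∈ G.edgeSet, (L e).card = m) →
    (∀ v, (dg G.edgeSet v : ℝ) ≤ m - ε * SS n) →
    (∀ v, m - C₀ * SS n ≤ (dg G.edgeSet v : ℝ)) →
    QR G → LC G.edgeSet L

/-! ### Part F: vertices of nearly maximum degree -/

/-- F. -/
def Top_stmt : Prop :=
  ∀ᶠ n : ℕ in atTop, ∀ (V : Type) [Fintype V] (G : SimpleGraph V) (L : Sym2 V → Finset ℕ)
    (Δ : ℕ), Fintype.card V = n →
    (∀ v, |(dg G.edgeSet v : ℝ) - n / 2| ≤ SS n) →
    (∀ v, dg G.edgeSet v ≤ Δ) → (∃ v, dg G.edgeSet v = Δ) →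
    (n / 2 + 27 / 50 * SS n ≤ (Δ : ℝ)) →
    ((univ.filter (fun v => n / 2 + 13 / 25 * SS n ≤ (dg G.edgeSet v : ℝ))).card : ℝ)
      ≤ Real.sqrt n →
    (∀ X Y : Finset V, Disjoint X Y → (1 / 2 : ℝ) * X.card * Y.card - (n : ℝ) ^ 2 / 10 ^ 5 ≤
      (((X ×ˢ Y).filter (fun p => G.Adj p.1 p.2)).card : ℝ)) →
    (∀ e ∈ G.edgeSet, Δ ≤ (L e).card) → LC G.edgeSet L

/-! ### Part G: random graphs -/

/-- almost all graphs have the property `P` -/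
def AA (P : ∀ n : ℕ, SimpleGraph (Fin n) → Prop) : Prop :=
  Tendsto (fun n : ℕ => (Nat.card {G : SimpleGraph (Fin n) // ¬ P n G} : ℝ) / 2 ^ (n.choose 2))
    atTop (𝓝 0)

/-- graph attached to a 0/1 vector -/
def gr (n : ℕ) (x : Sym2 (Fin n) → Bool) : SimpleGraph (Fin n) where
  Adj u v := u ≠ v ∧ x s(u, v) = true
  symm := ⟨by
    intro u v h
    exact ⟨h.1.symm, by rw [Sym2.eq_swap]; exact h.2⟩⟩
  loopless := ⟨by intro u h; exact h.1 rfl⟩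

/-- G0: counting graphs is the uniform measure. -/
def Count_stmt : Prop :=
  ∀ (n : ℕ) (Q : SimpleGraph (Fin n) → Prop),
    (Nat.card {G : SimpleGraph (Fin n) // Q G} : ℝ) / 2 ^ (n.choose 2) =
      PP (fun (_ : Sym2 (Fin n)) (_ : Bool) => (1 / 2 : ℝ)) {x | Q (gr n x)}

/-- G1: degrees are concentrated. -/
def Deg_stmt : Prop :=
  AA (fun n G => ∀ v, |(dg G.edgeSet v : ℝ) - n / 2| ≤ SS n)

/-- G2: some vertex has large degree. -/
def Big_stmt : Prop :=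
  AA (fun n G => ∃ v, n / 2 + 27 / 50 * SS n ≤ (dg G.edgeSet v : ℝ))

/-- G3: few vertices have large degree. -/
def Few_stmt : Prop :=
  AA (fun n G => ((univ.filter (fun v => n / 2 + 13 / 25 * SS n ≤ (dg G.edgeSet v : ℝ))).card : ℝ)
      ≤ Real.sqrt n)

/-- G4: quasirandomness. -/
def Quasi_stmt : Prop :=
  AA (fun n G => ∀ X Y : Finset (Fin n), Disjoint X Y →
    (1 / 2 : ℝ) * X.card * Y.card - (n : ℝ) ^ 2 / 10 ^ 5 ≤
      (((X ×ˢ Y).filter (fun p => G.Adj p.1 p.2)).card : ℝ))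

/-- G5: lower tail estimate for the binomial distribution used in G2. -/
def Tail_stmt : Prop :=
  ∀ᶠ N : ℕ in atTop, (N : ℝ) ^ (-(13 / 20) : ℝ) * 2 ^ N ≤
    ∑ k ∈ (range (N + 1)).filter (fun k : ℕ => (N : ℝ) / 2 + 11 / 20 * SS N ≤ k), (N.choose k : ℝ)

/-- H: the final theorem. -/
def Final_stmt : Prop :=
  Tendsto (fun n : ℕ => (Nat.card {G : SimpleGraph (Fin n) // ∀ k : ℕ,
      (G.lineGraph.Colorable k ↔ ∀ L : G.edgeSet → Finset ℕ, (∀ e, k ≤ (L e).card) →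
        ∃ f : G.edgeSet → ℕ, (∀ e, f e ∈ L e) ∧
          ∀ e e', G.lineGraph.Adj e e' → f e ≠ f e')} : ℝ) / 2 ^ (n.choose 2)) atTop (𝓝 1)

end

end Pool.Agent.Helper15.LR
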