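import Pool.Agent.Helper15.LR.Defs

set_option autoImplicit false

/-!
LECC for all large graphs with a drop in the degree sequence (no quasirandomness):
module statements of the second blueprint `/team-store/lr2_blueprint.md`.
-/

open Finset Filter
open scoped Classical Topology

namespace Pool.Agent.Helper15.LR

noncomputable section

/-- R1: rounding (Beck-Fiala with groups, every pair in at most two constraints). -/
def Round_stmt : Prop :=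
  ∀ (ι O C : Type) [Fintype ι] [Fintype O] [Fintype C] (R : ι → O → C → Prop) (w : ι → O → ℝ),
    (∀ i o, 0 ≤ w i o) → (∀ i, ∑ o, w i o = 1) →
    (∀ i o, (univ.filter (fun c => R i o c)).card ≤ 2) →
    ∃ φ : ι → O, (∀ i, 0 < w i (φ i)) ∧
      ∀ c, |((univ.filter (fun i => R i (φ i) c)).card : ℝ) -
        ∑ i, ∑ o, (if R i o c then w i o else 0)| ≤ 4

/-- R2: Galvin's theorem with two block functions, `p` at the `true` side (increasing) and `q` at the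
`false` side (decreasing). -/
def Level2_stmt : Prop :=
  ∀ (V : Type) [Fintype V] (F : Set (Sym2 V)) (side : V → Bool) (L : Sym2 V → Finset ℕ)
    (p q : Sym2 V → ℕ),
    (∀ u v, s(u, v) ∈ F → side u ≠ side v) →
    (∀ a b, s(a, b) ∈ F → side a = true → side b = false →
      ((nb F a).filter (fun u => p s(a, u) ≤ p s(a, b))).card +
        ((nb F b).filter (fun u => q s(a, b) ≤ q s(b, u))).card ≤ (L s(a, b)).card + 1) →
    LC F L

/-- R3: one level. -/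
def Level3_stmt : Prop :=
  ∀ (V : Type) [Fintype V] (F : Set (Sym2 V)) (side : V → Bool) (L : Sym2 V → Finset ℕ)
    (W : Set V) (bad bu : Set (Sym2 V)) (T G x ω : ℝ),
    0 < x → x ≤ G → 100 * G ≤ T → 100 * T ≤ x ^ 2 → 100 * G * ω ≤ x * T →
    (∀ u v, s(u, v) ∈ F → side u ≠ side v) →
    (∀ u v, s(u, v) ∈ bad → u ∉ W) →
    (∀ u v, s(u, v) ∈ bu → (u ∈ W ↔ v ∉ W)) →
    (∀ v, (((nb F v).filter (fun u => s(v, u) ∈ bad ∨ u ∈ W)).card : ℝ) ≤ ω) →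
    (∀ v ∉ W, (dg F v : ℝ) ≤ T) →
    (∀ v ∉ W, (((nb F v).filter (fun u => s(v, u) ∈ bu)).card : ℝ) ≤ x) →
    (∀ v ∈ W, (((nb F v).filter (fun u => s(v, u) ∉ bu)).card : ℝ) ≤ T - 2 * G) →
    (∀ u v, s(u, v) ∈ F → u ∉ W → v ∉ W → s(u, v) ∉ bad →
      T + 10 * x ≤ ((L s(u, v)).card : ℝ)) →
    (∀ e ∈ F, e ∉ bu → T - G + 10 * x ≤ ((L e).card : ℝ)) →
    (∀ u v, s(u, v) ∈ F → s(u, v) ∈ bu → u ∈ W →
      (dg F u : ℝ) + 10 * x ≤ ((L s(u, v)).card : ℝ)) →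
    LC F L

/-- R4: random sign vectors. -/
def Cells2_stmt : Prop :=
  ∀ (K : ℕ) (κ η : ℝ), 0 < κ → 0 < η →
    ∀ᶠ n : ℕ in atTop, ∀ (V : Type) [Fintype V] (ι : Type) [Fintype ι] (T : ι → Finset V)
      (c : ι → V) (T₀ : V → Finset V),
      Fintype.card V = n → Fintype.card ι ≤ n ^ 3 → (∀ i, c i ∉ T i) → (∀ v, v ∉ T₀ v) →
      ∃ σ : V → Fin K → Bool,
        (∀ i (X : Finset (Fin K)),
          |(((T i).filter (fun u => pat σ (c i) u = X)).card : ℝ) - (1 / 2) ^ K * (T i).card|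
            ≤ 3 * SS n) ∧
        ((univ.filter (fun v => ∃ X : Finset (Fin K), κ * SS n <
          |(((T₀ v).filter (fun u => pat σ v u = X)).card : ℝ) - (1 / 2) ^ K * (T₀ v).card|)).card
            : ℝ) ≤ η * n

/-- R5: splitting the colours into levels, lists of size at most `2 n`. -/
def ColorSplit2_stmt : Prop :=
  ∀ (K : ℕ) (ε ρ η : ℝ), 1 ≤ K → 0 < ε → ε ≤ 1 → 0 < ρ → ρ ≤ ε ^ 2 / 10 ^ 7 → 0 < η →
    ∀ᶠ n : ℕ in atTop, ∀ (ι : Type) [Fintype ι] (m : ℕ) (L : ι → Finset ℕ),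
      Fintype.card ι ≤ n ^ 2 → m ≤ 2 * n → (∀ i, (L i).card = m) →
      ∃ g : ℕ → Option (Fin K),
        (∀ i j, |(((L i).filter (fun x => g x = some j)).card : ℝ) - (1 - ρ) / K * m|
            ≤ 8 * SS n) ∧
        (∀ i, |(((L i).filter (fun x => g x = none)).card : ℝ) - ρ * m| ≤ ε * SS n / 100) ∧
        ((univ.filter (fun i => ∃ j, (((L i).filter (fun x => g x = some j)).card : ℝ)
            < (1 - ρ) / K * m - ε * SS n / (8 * K))).card : ℝ) ≤ η * n ^ 2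

/-- natural load of the level `j` at `v`: every edge gives `lam / |pattern|` to each level it crosses -/
def nu {V : Type} [Fintype V] {K : ℕ} (F : Set (Sym2 V)) (σ : V → Fin K → Bool) (lam : ℝ) (v : V)
    (j : Fin K) : ℝ :=
  ∑ u ∈ (nb F v).filter (fun u => σ v j ≠ σ u j), lam / ((pat σ v u).card : ℝ)

/-- R6: assignment of the edges to the levels (`(j, false)` ordinary, `(j, true)` burst). -/
def Assign_stmt : Prop :=
  ∀ (V : Type) [Fintype V] (K : ℕ) (F : Set (Sym2 V)) (σ : V → Fin K → Bool) (lam θ : ℝ)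
    (W Wh : Finset V) (Tp : V → Fin K → Finset V) (β y : V → Fin K → ℝ),
    (∀ v, s(v, v) ∉ F) → 0 < lam → lam ≤ 1 → 0 ≤ θ → K * θ ≤ lam → 2 * K * θ ≤ 1 - lam →
    Wh ⊆ W →
    (∀ v ∈ Wh, ∀ j, ∀ u ∈ Tp v j, s(v, u) ∈ F ∧ u ∉ W ∧ σ v j ≠ σ u j) →
    (∀ v ∈ Wh, ∀ j, |β v j - nu F σ lam v j| ≤
      θ * (((nb F v).filter (fun u => u ∉ W ∧ σ v j ≠ σ u j)).card : ℝ)) →
    (∀ v ∈ Wh, ∀ j, 0 ≤ y v j ∧ y v j ≤ θ * ((Tp v j).card : ℝ)) →
    ∃ φ : Sym2 V → Option (Fin K × Bool),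
      (∀ u v j b, s(u, v) ∈ F → φ s(u, v) = some (j, b) → σ u j ≠ σ v j) ∧
      (∀ u v j, s(u, v) ∈ F → φ s(u, v) = some (j, true) →
        (u ∈ Wh ∧ v ∈ Tp u j) ∨ (v ∈ Wh ∧ u ∈ Tp v j)) ∧
      (∀ v ∈ Wh, ∀ j, (ld F φ v (some (j, false)) : ℝ) ≤ β v j + 4 ∧
        (ld F φ v (some (j, true)) : ℝ) ≤ y v j + 4) ∧
      (∀ v ∈ Wh, (ld F φ v none : ℝ) ≤ dg F v - ∑ j, (β v j + y v j) + 4) ∧
      (∀ v ∉ W, ∀ j, (ld F φ v (some (j, false)) : ℝ) ≤ nu F σ lam v j + W.card * θ + 4 ∧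
        (ld F φ v (some (j, true)) : ℝ) ≤ W.card * θ + 4) ∧
      (∀ v ∉ W, (ld F φ v none : ℝ) ≤ dg F v - ∑ j, nu F σ lam v j + K * W.card * θ + 4) ∧
      (∀ v ∈ W, v ∉ Wh → ∀ j, (ld F φ v (some (j, false)) : ℝ) ≤ nu F σ lam v j + 4 ∧
        ld F φ v (some (j, true)) = 0) ∧
      (∀ v ∈ W, v ∉ Wh → (ld F φ v none : ℝ) ≤ dg F v - ∑ j, nu F σ lam v j + 4)

/-- R7: the natural load of a vertex with uniform patterns. -/
def Nat_stmt : Prop :=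
  ∀ (V : Type) [Fintype V] (K : ℕ) (F : Set (Sym2 V)) (σ : V → Fin K → Bool) (lam d : ℝ) (v : V),
    1 ≤ K → 0 ≤ lam → lam ≤ 1 →
    (∀ X : Finset (Fin K),
      |(((nb F v).filter (fun u => pat σ v u = X)).card : ℝ) - (1 / 2) ^ K * dg F v| ≤ d) →
    ∀ j, |nu F σ lam v j - lam * (1 - (1 / 2) ^ K) / K * dg F v| ≤ 2 ^ K * d

/-- R8: dense case of the main theorem. -/
def Main3_stmt : Prop :=
  ∀ ε c : ℝ, 0 < ε → ε ≤ 1 → 0 < c → ∀ᶠ n : ℕ in atTop, ∀ (V : Type) [Fintype V]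
    (F : Set (Sym2 V)) (m : ℕ) (L : Sym2 V → Finset ℕ), Fintype.card V = n →
    (∀ v, s(v, v) ∉ F) → c * n ≤ m → m ≤ 2 * n → (∀ e ∈ F, (L e).card = m) →
    (∀ v, (dg F v : ℝ) ≤ m - ε * SS n) → LC F L

/-- R9: main theorem: lists of size `D + ε √(n log n)` suffice if all degrees are at most `D`. -/
def Main2_stmt : Prop :=
  ∀ ε : ℝ, 0 < ε → ∀ᶠ n : ℕ in atTop, ∀ (V : Type) [Fintype V]
    (F : Set (Sym2 V)) (L : Sym2 V → Finset ℕ) (D : ℝ), Fintype.card V = n →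
    (∀ v, s(v, v) ∉ F) → (∀ v, (dg F v : ℝ) ≤ D) →
    (∀ e ∈ F, D + ε * SS n ≤ ((L e).card : ℝ)) → LC F L

/-- R10: LECC for graphs in which all but at most `h` vertices have degree at most
`Δ - 2h - ε √(n log n)`. -/
def Gap_stmt : Prop :=
  ∀ ε : ℝ, 0 < ε → ∀ᶠ n : ℕ in atTop, ∀ (V : Type) [Fintype V] (G : SimpleGraph V)
    (L : Sym2 V → Finset ℕ) (Δ h : ℕ), Fintype.card V = n → h < n →
    (∀ v, dg G.edgeSet v ≤ Δ) →
    ((univ.filter (fun v => (Δ : ℝ) - 2 * h - ε * SS n < (dg G.edgeSet v : ℝ))).card ≤ h) →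
    (∀ e ∈ G.edgeSet, Δ ≤ (L e).card) → LC G.edgeSet L

/-- R11: final form of the gap theorem. -/
def GapFinal_stmt : Prop :=
  ∀ ε : ℝ, 0 < ε → ∃ n₀ : ℕ, ∀ (V : Type) [Fintype V] [DecidableEq V] (G : SimpleGraph V)
    [DecidableRel G.Adj] (h : ℕ), n₀ ≤ Fintype.card V → h < Fintype.card V →
    (univ.filter (fun v => (G.maxDegree : ℝ) - 2 * h -
      ε * Real.sqrt (Fintype.card V * Real.log (Fintype.card V)) < (G.degree v : ℝ))).card ≤ h →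
    ∀ k : ℕ, (G.lineGraph.Colorable k ↔ ∀ L : G.edgeSet → Finset ℕ, (∀ e, k ≤ (L e).card) →
        ∃ f : G.edgeSet → ℕ, (∀ e, f e ∈ L e) ∧
          ∀ e e', G.lineGraph.Adj e e' → f e ≠ f e') ∧
      (G.lineGraph.Colorable k ↔ G.maxDegree ≤ k)

/-- R11b: final form of the upper bound. -/
def BoundFinal_stmt : Prop :=
  ∀ ε : ℝ, 0 < ε → ∃ n₀ : ℕ, ∀ (V : Type) [Fintype V] [DecidableEq V] (G : SimpleGraph V)
    [DecidableRel G.Adj], n₀ ≤ Fintype.card V →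
    ∀ L : G.edgeSet → Finset ℕ, (∀ e, (G.maxDegree : ℝ) +
      ε * Real.sqrt (Fintype.card V * Real.log (Fintype.card V)) ≤ ((L e).card : ℝ)) →
        ∃ f : G.edgeSet → ℕ, (∀ e, f e ∈ L e) ∧
          ∀ e e', G.lineGraph.Adj e e' → f e ≠ f e'

end

end Pool.Agent.Helper15.LR
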