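import Pool.Agent.Helper15.LR.Defs
import Pool.Agent.Helper18.LE.Galvin

set_option autoImplicit false

open Finset
open scoped Classical

namespace Pool.Agent.Helper15.LR

theorem A1 : Galvin_stmt := by
  intro α β E r s L hr hs hL
  exact Pool.Agent.Helper18.LE.galvin r s E.card E rfl hr hs L hL

end Pool.Agent.Helper15.LR
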