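import Pool.Agent.Helper15.LR.Defs

set_option autoImplicit false

/-!
Module A2: Borodin–Kostochka–Woodall orders.

Proof.  Induction on the number of edges.  For a set `S` of vertices of one side let `N≥(S)` be the
set of all neighbours `w` of vertices `u ∈ S` with `d(w) ≥ d(u)`.  On one of the two sides there is a
nonempty set `S` of non-isolated vertices with `|N≥(S)| ≤ |S|`; by Hall's theorem a minimal such `S`
gives a nonempty matching `M` covering `S` and (if it is not a single edge) exactly `N≥(S)`.  The
edges of `M` are put first at their end in `S` and last at the other end.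
-/

open Finset
open scoped Classical

namespace Pool.Agent.Helper15.LR

namespace BKW

noncomputable section

variable {α β : Type}

/-- degree on the left side -/
def dX (E : Finset (α × β)) (a : α) : ℕ := (E.filter (fun e' => e'.1 = a)).card

/-- degree on the right side -/
def dY (E : Finset (α × β)) (b : β) : ℕ := (E.filter (fun e' => e'.2 = b)).card

/-- the conclusion for given keys -/
def OK (E : Finset (α × β)) (r s : α × β → ℤ) : Prop :=
  (∀ e ∈ E, ∀ e' ∈ E, e.1 = e'.1 → r e = r e' → e = e') ∧
    (∀ e ∈ E, ∀ e' ∈ E, e.2 = e'.2 → s e = s e' → e = e') ∧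
    (∀ e ∈ E, (E.filter (fun e' => e'.1 = e.1 ∧ r e' < r e)).card +
        (E.filter (fun e' => e'.2 = e.2 ∧ s e' < s e)).card < max (dX E e.1) (dY E e.2))

theorem card_split {γ : Type} [DecidableEq γ] {E M : Finset γ} (hM : M ⊆ E) (P : γ → Prop)
    [DecidablePred P] :
    (E.filter P).card = ((E \ M).filter P).card + (M.filter P).card := by
  rw [← card_union_of_disjoint]
  · congr 1
    ext x
    simp only [mem_filter, mem_union, mem_sdiff]
    constructor
    · rintro ⟨h1, h2⟩
      by_cases h : x ∈ M
      · exact Or.inr ⟨h, h2⟩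
      · exact Or.inl ⟨⟨h1, h⟩, h2⟩
    · rintro (h | h)
      · exact ⟨h.1.1, h.2⟩
      · exact ⟨hM h.1, h.2⟩
  · rw [Finset.disjoint_left]
    intro x hx hx'
    simp only [mem_filter, mem_sdiff] at hx hx'
    exact hx.1.2 hx'.1

/-- adding a matching to the graph -/
theorem step {E M : Finset (α × β)} {r s : α × β → ℤ} (hM : M ⊆ E)
    (hM1 : ∀ e ∈ M, ∀ e' ∈ M, e.1 = e'.1 → e = e')
    (hM2 : ∀ e ∈ M, ∀ e' ∈ M, e.2 = e'.2 → e = e')
    (hc : ∀ e ∈ E, (∃ m ∈ M, m.1 = e.1) → (¬ ∃ m ∈ M, m.2 = e.2) → dY E e.2 < dX E e.1)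
    (hg : OK (E \ M) r s) : ∃ r' s' : α × β → ℤ, OK E r' s' := by
  obtain ⟨L, hL⟩ : ∃ L : ℤ, ∀ e ∈ E, L < r e := by
    obtain ⟨L, hL⟩ := (E.image (fun e => - r e)).exists_le
    refine ⟨- L - 1, fun e he => ?_⟩
    have := hL (- r e) (mem_image_of_mem (fun e => - r e) he)
    omega
  obtain ⟨U, hU⟩ : ∃ U : ℤ, ∀ e ∈ E, s e < U := by
    obtain ⟨U, hU⟩ := (E.image s).exists_le
    refine ⟨U + 1, fun e he => ?_⟩
    have := hU (s e) (mem_image_of_mem s he)
    omega
  obtain ⟨h1, h2, h3⟩ := hg
  refine ⟨fun e => if e ∈ M then L else r e, fun e => if e ∈ M then U else s e, ?_, ?_, ?_⟩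
  · intro e he e' he' hee h
    by_cases hm : e ∈ M <;> by_cases hm' : e' ∈ M
    · exact hM1 e hm e' hm' hee
    · simp only [hm, hm', if_true, if_false] at h
      have := hL e' he'
      omega
    · simp only [hm, hm', if_true, if_false] at h
      have := hL e he
      omega
    · simp only [hm, hm', if_false] at h
      exact h1 e (mem_sdiff.2 ⟨he, hm⟩) e' (mem_sdiff.2 ⟨he', hm'⟩) hee h
  · intro e he e' he' hee h
    by_cases hm : e ∈ M <;> by_cases hm' : e' ∈ M
    · exact hM2 e hm e' hm' hee
    · simp only [hm, hm', if_true, if_false] at h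
      have := hU e' he'
      omega
    · simp only [hm, hm', if_true, if_false] at h
      have := hU e he
      omega
    · simp only [hm, hm', if_false] at h
      exact h2 e (mem_sdiff.2 ⟨he, hm⟩) e' (mem_sdiff.2 ⟨he', hm'⟩) hee h
  · intro e he
    by_cases hm : e ∈ M
    · simp only [hm, if_true]
      have e1 : (E.filter (fun e' => e'.1 = e.1 ∧ (if e' ∈ M then L else r e') < L)).card = 0 := by
        rw [card_eq_zero, filter_eq_empty_iff]
        rintro e' he' ⟨_, h⟩
        by_cases hm' : e' ∈ M
        · simp only [hm', if_true] at h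
          omega
        · simp only [hm', if_false] at h
          have := hL e' he'
          omega
      have e2 : (E.filter (fun e' => e'.2 = e.2 ∧ (if e' ∈ M then U else s e') < U)).card
          < dY E e.2 := by
        refine card_lt_card ?_
        rw [Finset.ssubset_iff_of_subset]
        · refine ⟨e, mem_filter.2 ⟨he, rfl⟩, ?_⟩
          simp [hm]
        · intro e' he'
          rw [mem_filter] at he' ⊢
          exact ⟨he'.1, he'.2.1⟩
      rw [e1]
      have := le_max_right (dX E e.1) (dY E e.2)
      omega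
    · simp only [hm, if_false]
      have he' : e ∈ E \ M := mem_sdiff.2 ⟨he, hm⟩
      have e1 : (E.filter (fun e' => e'.1 = e.1 ∧ (if e' ∈ M then L else r e') < r e)).card =
          ((E \ M).filter (fun e' => e'.1 = e.1 ∧ r e' < r e)).card +
            (M.filter (fun e' => e'.1 = e.1)).card := by
        rw [card_split hM (fun e' : α × β => e'.1 = e.1 ∧ (if e' ∈ M then L else r e') < r e)]
        congr 1
        · congr 1
          refine filter_congr (fun x hx => ?_)
          have : x ∉ M := (mem_sdiff.1 hx).2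
          simp only [this, if_false]
        · congr 1
          refine filter_congr (fun x hx => ?_)
          simp only [hx, if_true]
          exact ⟨fun h => h.1, fun h => ⟨h, hL e he⟩⟩
      have e2 : (E.filter (fun e' => e'.2 = e.2 ∧ (if e' ∈ M then U else s e') < s e)).card =
          ((E \ M).filter (fun e' => e'.2 = e.2 ∧ s e' < s e)).card := by
        rw [card_split hM (fun e' : α × β => e'.2 = e.2 ∧ (if e' ∈ M then U else s e') < s e)]
        have e3 : (M.filter (fun e' => e'.2 = e.2 ∧ (if e' ∈ M then U else s e') < s e)).card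
            = 0 := by
          rw [card_eq_zero, filter_eq_empty_iff]
          rintro e' he' ⟨_, h⟩
          simp only [he', if_true] at h
          have := hU e he
          omega
        rw [e3, add_zero]
        congr 1
        apply filter_congr
        intro x hx
        have : x ∉ M := (mem_sdiff.1 hx).2
        simp only [this, if_false]
      have e4 : dX E e.1 = dX (E \ M) e.1 + (M.filter (fun e' => e'.1 = e.1)).card :=
        card_split hM (fun e' : α × β => e'.1 = e.1)
      have e5 : dY E e.2 = dY (E \ M) e.2 + (M.filter (fun e' => e'.2 = e.2)).card :=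
        card_split hM (fun e' : α × β => e'.2 = e.2)
      have e6 : (M.filter (fun e' => e'.1 = e.1)).card ≤ 1 := by
        rw [card_le_one]
        intro a ha b hb
        rw [mem_filter] at ha hb
        exact hM1 a ha.1 b hb.1 (ha.2.trans hb.2.symm)
      have e7 : (M.filter (fun e' => e'.1 = e.1)).card = 1 →
          (M.filter (fun e' => e'.2 = e.2)).card = 0 → dY E e.2 < dX E e.1 := by
        intro h h'
        refine hc e he ?_ ?_
        · have : (M.filter (fun e' => e'.1 = e.1)).Nonempty := by
            rw [← card_pos]; omega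
          obtain ⟨m, hm⟩ := this
          rw [mem_filter] at hm
          exact ⟨m, hm.1, hm.2⟩
        · rintro ⟨m, hm, hm2⟩
          rw [card_eq_zero, filter_eq_empty_iff] at h'
          exact h' hm hm2
      have h4 := h3 e he'
      rw [e1, e2]
      rw [e4, e5] at e7 ⊢
      rcases max_cases (dX (E \ M) e.1) (dY (E \ M) e.2) with ⟨h5, _⟩ | ⟨h5, _⟩ <;>
      rcases max_cases (dX (E \ M) e.1 + (M.filter (fun e' => e'.1 = e.1)).card)
        (dY (E \ M) e.2 + (M.filter (fun e' => e'.2 = e.2)).card) with ⟨h6, _⟩ | ⟨h6, _⟩ <;>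
      rw [h5] at h4 <;> rw [h6] <;>
      by_cases h7 : (M.filter (fun e' => e'.2 = e.2)).card = 0 <;>
      by_cases h8 : (M.filter (fun e' => e'.1 = e.1)).card = 1 <;>
      first
        | (have := e7 h8 h7; omega)
        | omega

/-- the neighbours of `S` of at least the same degree -/
def Nge (E : Finset (α × β)) (S : Finset α) : Finset β :=
  (E.filter (fun e => e.1 ∈ S ∧ dX E e.1 ≤ dY E e.2)).image Prod.snd

theorem mem_Nge {E : Finset (α × β)} {S : Finset α} {b : β} :
    b ∈ Nge E S ↔ ∃ a ∈ S, (a, b) ∈ E ∧ dX E a ≤ dY E b := by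
  unfold Nge
  rw [mem_image]
  constructor
  · rintro ⟨⟨a, b'⟩, h, rfl⟩
    rw [mem_filter] at h
    exact ⟨a, h.2.1, h.1, h.2.2⟩
  · rintro ⟨a, ha, hab, h⟩
    exact ⟨(a, b), mem_filter.2 ⟨hab, ha, h⟩, rfl⟩

theorem Nge_mono {E : Finset (α × β)} {S T : Finset α} (h : S ⊆ T) : Nge E S ⊆ Nge E T := by
  intro b hb
  rw [mem_Nge] at hb ⊢
  obtain ⟨a, ha, h'⟩ := hb
  exact ⟨a, h ha, h'⟩

/-- existence of the matching -/
theorem exists_matching {E : Finset (α × β)} {S : Finset α} (hS : S.Nonempty)
    (hSE : S ⊆ E.image Prod.fst) (hc : (Nge E S).card ≤ S.card) :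
    ∃ M ⊆ E, M.Nonempty ∧ (∀ e ∈ M, ∀ e' ∈ M, e.1 = e'.1 → e = e') ∧
      (∀ e ∈ M, ∀ e' ∈ M, e.2 = e'.2 → e = e') ∧
      (∀ e ∈ E, (∃ m ∈ M, m.1 = e.1) → (¬ ∃ m ∈ M, m.2 = e.2) → dY E e.2 < dX E e.1) := by
  -- a minimal set
  obtain ⟨S, hS, hmin⟩ : ∃ T : Finset α, (T.Nonempty ∧ T ⊆ E.image Prod.fst ∧
      (Nge E T).card ≤ T.card) ∧ ∀ T' : Finset α, T'.Nonempty → T' ⊂ T →
        T'.card < (Nge E T').card := by
    have key : ∀ n : ℕ, ∀ T : Finset α, T.card = n → (T.Nonempty ∧ T ⊆ E.image Prod.fst ∧
      (Nge E T).card ≤ T.card) → ∃ T : Finset α, (T.Nonempty ∧ T ⊆ E.image Prod.fst ∧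
      (Nge E T).card ≤ T.card) ∧ ∀ T' : Finset α, T'.Nonempty → T' ⊂ T →
        T'.card < (Nge E T').card := by
      intro n
      induction n using Nat.strong_induction_on with
      | _ n ih =>
      intro T hT hT'
      by_cases h : ∃ T' : Finset α, T'.Nonempty ∧ T' ⊂ T ∧ (Nge E T').card ≤ T'.card
      · obtain ⟨T', h1, h2, h3⟩ := h
        exact ih T'.card (hT ▸ card_lt_card h2) T' rfl ⟨h1, h2.subset.trans hT'.2.1, h3⟩
      · push Not at h
        exact ⟨T, hT', h⟩
    exact key _ S rfl ⟨hS, hSE, hc⟩
  obtain ⟨hS1, hS2, hS3⟩ := hS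
  by_cases hcard : (Nge E S).card = S.card
  · -- Hall's theorem
    have hall : ∀ s : Finset {x // x ∈ S}, s.card ≤ (s.biUnion (fun x => Nge E {x.1})).card := by
      intro s
      have hbi : s.biUnion (fun x => Nge E {x.1}) = Nge E (s.map (Function.Embedding.subtype _)) := by
        ext b
        simp only [mem_biUnion, mem_Nge, mem_map, mem_singleton]
        constructor
        · rintro ⟨x, hx, a, rfl, h⟩
          exact ⟨x.1, ⟨x, hx, rfl⟩, h⟩
        · rintro ⟨a, ⟨x, hx, rfl⟩, h⟩
          exact ⟨x, hx, x.1, rfl, h⟩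
      rw [hbi]
      have hc' : (s.map (Function.Embedding.subtype _)).card = s.card := card_map _
      rw [← hc']
      have hsub : s.map (Function.Embedding.subtype _) ⊆ S := by
        intro x hx
        rw [mem_map] at hx
        obtain ⟨y, _, rfl⟩ := hx
        exact y.2
      rcases s.eq_empty_or_nonempty with rfl | hne
      · simp
      · by_cases hss : s.map (Function.Embedding.subtype _) = S
        · rw [hss]
          exact hcard.ge
        · exact (hmin _ (hne.map) (_root_.ssubset_iff_subset_ne.2 ⟨hsub, hss⟩)).le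
    obtain ⟨f, hf, hft⟩ := (Finset.all_card_le_biUnion_card_iff_exists_injective
      (fun x : {x // x ∈ S} => Nge E {x.1})).1 hall
    have hft' : ∀ x : {x // x ∈ S}, (x.1, f x) ∈ E ∧ dX E x.1 ≤ dY E (f x) := by
      intro x
      have := hft x
      rw [mem_Nge] at this
      obtain ⟨a, ha, h⟩ := this
      rw [mem_singleton] at ha
      subst ha
      exact h
    have himg : S.attach.image f = Nge E S := by
      apply eq_of_subset_of_card_le
      · intro b hb
        rw [mem_image] at hb
        obtain ⟨x, _, rfl⟩ := hb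
        exact mem_Nge.2 ⟨x.1, x.2, hft' x⟩
      · rw [card_image_of_injective _ hf, card_attach]
        exact hcard.le
    refine ⟨S.attach.image (fun x => (x.1, f x)), ?_, ?_, ?_, ?_, ?_⟩
    · intro e he
      rw [mem_image] at he
      obtain ⟨x, _, rfl⟩ := he
      exact (hft' x).1
    · obtain ⟨x, hx⟩ := hS1
      exact ⟨_, mem_image_of_mem _ (mem_attach S ⟨x, hx⟩)⟩
    · intro e he e' he' h
      rw [mem_image] at he he'
      obtain ⟨x, _, rfl⟩ := he
      obtain ⟨y, _, rfl⟩ := he'
      have : x = y := Subtype.ext h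
      rw [this]
    · intro e he e' he' h
      rw [mem_image] at he he'
      obtain ⟨x, _, rfl⟩ := he
      obtain ⟨y, _, rfl⟩ := he'
      have : x = y := hf h
      rw [this]
    · rintro ⟨a, b⟩ he ⟨m, hm, hm1⟩ hno
      rw [mem_image] at hm
      obtain ⟨x, _, rfl⟩ := hm
      simp only at hm1 hno ⊢
      by_contra hlt
      rw [not_lt] at hlt
      apply hno
      have : b ∈ Nge E S := mem_Nge.2 ⟨a, hm1 ▸ x.2, he, hlt⟩
      rw [← himg, mem_image] at this
      obtain ⟨y, hy, hyb⟩ := this
      exact ⟨(y.1, f y), mem_image_of_mem _ hy, hyb⟩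
  · -- `S` is a single vertex without neighbours of at least the same degree
    have hlt : (Nge E S).card < S.card := lt_of_le_of_ne hS3 hcard
    obtain ⟨a, ha⟩ := hS1
    have herase : ¬ (S.erase a).Nonempty := by
      intro hne
      have h1 := hmin _ hne (erase_ssubset ha)
      have h2 := card_le_card (Nge_mono (E := E) (erase_subset a S))
      rw [card_erase_of_mem ha] at h1
      omega
    rw [not_nonempty_iff_eq_empty, erase_eq_empty_iff] at herase
    have hSa : S = {a} := by
      rcases herase with h | h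
      · rw [h] at ha; simp at ha
      · exact h
    have hN : Nge E {a} = ∅ := by
      rw [hSa, card_singleton] at hlt
      rw [← card_eq_zero]
      omega
    obtain ⟨⟨a', b⟩, hab, h⟩ := mem_image.1 (hS2 ha)
    simp only at h
    subst h
    refine ⟨{(a', b)}, by simpa using hab, by simp, ?_, ?_, ?_⟩
    · intro e he e' he' _
      rw [mem_singleton] at he he'
      rw [he, he']
    · intro e he e' he' _
      rw [mem_singleton] at he he'
      rw [he, he']
    · rintro ⟨a, b'⟩ he ⟨m, hm, hm1⟩ _
      rw [mem_singleton] at hm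
      subst hm
      simp only at hm1 ⊢
      subst hm1
      by_contra hlt'
      rw [not_lt] at hlt'
      have : b' ∈ Nge E {a'} := mem_Nge.2 ⟨a', by simp, he, hlt'⟩
      rw [hN] at this
      simp at this

/-- swapping the sides -/
def sw (E : Finset (α × β)) : Finset (β × α) := E.image Prod.swap

theorem mem_sw {E : Finset (α × β)} {x : β × α} : x ∈ sw E ↔ x.swap ∈ E := by
  unfold sw
  rw [mem_image]
  constructor
  · rintro ⟨y, hy, rfl⟩
    simpa using hy
  · intro h
    exact ⟨x.swap, h, by simp⟩

theorem card_filter_sw {E : Finset (α × β)} (P : β × α → Prop) [DecidablePred P] :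
    ((sw E).filter P).card = (E.filter (fun e => P e.swap)).card := by
  have : (sw E).filter P = (E.filter (fun e => P e.swap)).image Prod.swap := by
    ext x
    rw [mem_filter, mem_sw, mem_image]
    constructor
    · rintro ⟨h1, h2⟩
      exact ⟨x.swap, mem_filter.2 ⟨h1, by simpa using h2⟩, by simp⟩
    · rintro ⟨y, hy, rfl⟩
      rw [mem_filter] at hy
      exact ⟨by simpa using hy.1, hy.2⟩
  rw [this, card_image_of_injective _ Prod.swap_injective]

theorem card_sw (E : Finset (α × β)) : (sw E).card = E.card :=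
  card_image_of_injective _ Prod.swap_injective

theorem ok_of_sw {E : Finset (α × β)} {r s : β × α → ℤ} (h : OK (sw E) r s) :
    OK E (fun e => s e.swap) (fun e => r e.swap) := by
  obtain ⟨h1, h2, h3⟩ := h
  refine ⟨?_, ?_, ?_⟩
  · intro e he e' he' hee hs
    have := h2 e.swap (mem_sw.2 (by simpa using he)) e'.swap (mem_sw.2 (by simpa using he'))
      hee hs
    exact Prod.swap_injective this
  · intro e he e' he' hee hs
    have := h1 e.swap (mem_sw.2 (by simpa using he)) e'.swap (mem_sw.2 (by simpa using he'))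
      hee hs
    exact Prod.swap_injective this
  · intro e he
    have := h3 e.swap (mem_sw.2 (by simpa using he))
    unfold dX dY at this ⊢
    rw [card_filter_sw, card_filter_sw, card_filter_sw, card_filter_sw] at this
    simp only [Prod.fst_swap, Prod.snd_swap] at this ⊢
    rw [max_comm, add_comm]
    exact this

theorem main : ∀ (n : ℕ) (α β : Type) (E : Finset (α × β)), E.card = n →
    ∃ r s : α × β → ℤ, OK E r s := by
  intro n
  induction n using Nat.strong_induction_on with
  | _ n ih =>
  -- the case of the left side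
  have left : ∀ (α β : Type) (E : Finset (α × β)), E.card = n → ∀ S : Finset α, S.Nonempty →
      S ⊆ E.image Prod.fst → (Nge E S).card ≤ S.card → ∃ r s : α × β → ℤ, OK E r s := by
    intro α β E hE S hS hSE hc
    obtain ⟨M, hM, hne, hM1, hM2, hM3⟩ := exists_matching hS hSE hc
    have hlt : (E \ M).card < n := by
      rw [← hE]
      apply card_lt_card
      rw [Finset.ssubset_iff_of_subset sdiff_subset]
      obtain ⟨m, hm⟩ := hne
      exact ⟨m, hM hm, fun h => (mem_sdiff.1 h).2 hm⟩
    obtain ⟨r, s, h⟩ := ih _ hlt α β (E \ M) rfl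
    exact step hM hM1 hM2 hM3 h
  intro α β E hE
  rcases E.eq_empty_or_nonempty with rfl | hne
  · exact ⟨fun _ => 0, fun _ => 0, by simp [OK]⟩
  by_cases h : (Nge E (E.image Prod.fst)).card ≤ (E.image Prod.fst).card
  · exact left α β E hE _ (hne.image _) subset_rfl h
  · rw [not_le] at h
    have h1 : (Nge E (E.image Prod.fst)).card ≤ (E.image Prod.snd).card := by
      refine card_le_card (image_subset_image (filter_subset _ _))
    have h2 : (Nge (sw E) ((sw E).image Prod.fst)).card ≤ ((sw E).image Prod.snd).card :=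
      card_le_card (image_subset_image (filter_subset _ _))
    have h3 : (sw E).image Prod.snd = E.image Prod.fst := by
      unfold sw
      rw [image_image]
      rfl
    have h4 : (sw E).image Prod.fst = E.image Prod.snd := by
      unfold sw
      rw [image_image]
      rfl
    obtain ⟨r, s, hrs⟩ := left β α (sw E) (by rw [card_sw, hE]) ((sw E).image Prod.fst) (by
      rw [h4]; exact hne.image _) subset_rfl (by
      refine h2.trans ?_
      rw [h3, h4]
      omega)
    exact ⟨_, _, ok_of_sw hrs⟩

end

end BKW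

theorem A2 : BKW_stmt := by
  intro α β E
  obtain ⟨r, s, h⟩ := BKW.main _ α β E rfl
  exact ⟨r, s, h⟩

end Pool.Agent.Helper15.LR
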