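import Pool.Agent.Helper15.LR.Defs

set_option autoImplicit false

/-!
B1a: union bound and Markov's inequality on finite product spaces.
-/

open Finset Filter
open scoped Classical Topology

namespace Pool.Agent.Helper15.LR

noncomputable section

variable {ι κ : Type} [Fintype ι] [Fintype κ]

theorem B1a_sum_prod (f : ι → κ → ℝ) :
    ∑ x : ι → κ, ∏ i, f i (x i) = ∏ i, ∑ k, f i k := by
  rw [Finset.prod_univ_sum, Fintype.piFinset_univ]

theorem B1a_Avoid : Avoid_stmt := by
  intro ι κ J _ _ _ w E hw hw1 hE
  by_contra hcon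
  push Not at hcon
  have h1 : (1 : ℝ) ≤ ∑ j, PP w (E j) := by
    calc (1 : ℝ) = ∑ x : ι → κ, ∏ i, w i (x i) := by
          rw [B1a_sum_prod]
          exact (Finset.prod_eq_one fun i _ => hw1 i).symm
      _ ≤ ∑ x : ι → κ, ∑ j, (if x ∈ E j then ∏ i, w i (x i) else 0) := by
          refine Finset.sum_le_sum fun x _ => ?_
          have h0 : ∀ j, 0 ≤ (if x ∈ E j then ∏ i, w i (x i) else 0) := by
            intro j
            split_ifs
            · exact Finset.prod_nonneg fun i _ => hw i (x i)
            · exact le_rfl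
          by_cases hx : ∃ j, x ∈ E j
          · obtain ⟨j, hj⟩ := hx
            calc ∏ i, w i (x i) = (if x ∈ E j then ∏ i, w i (x i) else 0) := (if_pos hj).symm
              _ ≤ _ := Finset.single_le_sum (f := fun j => if x ∈ E j then ∏ i, w i (x i) else 0)
                  (fun j _ => h0 j) (Finset.mem_univ j)
          · push Not at hx
            obtain ⟨i, hi⟩ := hcon x hx
            have hz : w i (x i) = 0 := le_antisymm hi (hw i (x i))
            rw [Finset.prod_eq_zero (Finset.mem_univ i) hz]
            exact Finset.sum_nonneg fun j _ => by split_ifs <;> exact le_rfl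
      _ = ∑ j, PP w (E j) := by
          rw [Finset.sum_comm]
          rfl
  linarith

theorem B1a_Markov : Markov_stmt := by
  intro ι κ J _ _ _ w E a hw hw1 ha
  rw [le_div_iff₀ ha]
  unfold PP
  rw [Finset.sum_mul, Finset.sum_comm]
  refine Finset.sum_le_sum fun x _ => ?_
  have h0 : 0 ≤ ∏ i, w i (x i) := Finset.prod_nonneg fun i _ => hw i (x i)
  have h1 : ∑ j, (if x ∈ E j then ∏ i, w i (x i) else 0) =
      ((univ.filter (fun j => x ∈ E j)).card : ℝ) * ∏ i, w i (x i) := by
    rw [← Finset.sum_filter, Finset.sum_const, nsmul_eq_mul]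
  rw [h1]
  split_ifs with hx
  · have hx' : a ≤ ((univ.filter (fun j => x ∈ E j)).card : ℝ) := hx
    calc (∏ i, w i (x i)) * a = a * ∏ i, w i (x i) := mul_comm _ _
      _ ≤ _ := mul_le_mul_of_nonneg_right hx' h0
  · rw [zero_mul]
    positivity

end

end Pool.Agent.Helper15.LR
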