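import Pool.Agent.Helper15.LR.Defs

set_option autoImplicit false

/-!
B1b: the Chernoff and Hoeffding bounds on finite product spaces.
-/

open Finset Filter
open scoped Classical Topology

namespace Pool.Agent.Helper15.LR

noncomputable section

variable {ι κ : Type} [Fintype ι] [Fintype κ]

theorem B1b_sum_prod (f : ι → κ → ℝ) :
    ∑ x : ι → κ, ∏ i, f i (x i) = ∏ i, ∑ k, f i k := by
  rw [Finset.prod_univ_sum, Fintype.piFinset_univ]

theorem B1b_PP_le_union (w : ι → κ → ℝ) (hw : ∀ i k, 0 ≤ w i k) {A B C : Set (ι → κ)}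
    (h : A ⊆ B ∪ C) : PP w A ≤ PP w B + PP w C := by
  unfold PP
  rw [← Finset.sum_add_distrib]
  refine Finset.sum_le_sum fun x _ => ?_
  have h0 : 0 ≤ ∏ i, w i (x i) := Finset.prod_nonneg fun i _ => hw i (x i)
  by_cases hA : x ∈ A
  · rw [if_pos hA]
    rcases h hA with hB | hC
    · rw [if_pos hB]
      split_ifs <;> linarith
    · rw [if_pos hC]
      split_ifs <;> linarith
  · rw [if_neg hA]
    split_ifs <;> linarith

theorem B1b_PP_le_one (w : ι → κ → ℝ) (hw : ∀ i k, 0 ≤ w i k) (hw1 : ∀ i, ∑ k, w i k = 1)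
    (A : Set (ι → κ)) : PP w A ≤ 1 := by
  unfold PP
  calc _ ≤ ∑ x : ι → κ, ∏ i, w i (x i) := by
        refine Finset.sum_le_sum fun x _ => ?_
        have h0 : 0 ≤ ∏ i, w i (x i) := Finset.prod_nonneg fun i _ => hw i (x i)
        split_ifs <;> linarith
    _ = 1 := by
        rw [B1b_sum_prod]
        exact Finset.prod_eq_one fun i _ => hw1 i

/-- exponential Markov inequality for a sum of independent terms -/
theorem B1b_tail (w : ι → κ → ℝ) (T : Finset ι) (c : ι → κ → ℝ) (β : ι → ℝ) (lam s : ℝ)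
    (hw : ∀ i k, 0 ≤ w i k) (hw1 : ∀ i, ∑ k, w i k = 1) (hlam : 0 ≤ lam)
    (hβ : ∀ i ∈ T, ∑ k, w i k * Real.exp (lam * c i k) ≤ Real.exp (β i)) :
    PP w {x | s ≤ ∑ i ∈ T, c i (x i)} ≤ Real.exp (∑ i ∈ T, β i - lam * s) := by
  have hstep : ∀ x : ι → κ, (if x ∈ {x : ι → κ | s ≤ ∑ i ∈ T, c i (x i)} then
      ∏ i, w i (x i) else 0) ≤ Real.exp (-(lam * s)) *
        ∏ i, (w i (x i) * (if i ∈ T then Real.exp (lam * c i (x i)) else 1)) := by
    intro x
    have h0 : 0 ≤ ∏ i, w i (x i) := Finset.prod_nonneg fun i _ => hw i (x i)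
    have hprod : ∏ i, (w i (x i) * (if i ∈ T then Real.exp (lam * c i (x i)) else 1)) =
        (∏ i, w i (x i)) * Real.exp (lam * ∑ i ∈ T, c i (x i)) := by
      rw [Finset.prod_mul_distrib, Finset.mul_sum, Real.exp_sum, Finset.prod_ite_mem,
        Finset.univ_inter]
    rw [hprod]
    split_ifs with hx
    · have hx' : s ≤ ∑ i ∈ T, c i (x i) := hx
      have h1 : 1 ≤ Real.exp (-(lam * s)) * Real.exp (lam * ∑ i ∈ T, c i (x i)) := by
        rw [← Real.exp_add]
        apply Real.one_le_exp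
        nlinarith [mul_le_mul_of_nonneg_left hx' hlam]
      calc ∏ i, w i (x i) = (∏ i, w i (x i)) * 1 := (mul_one _).symm
        _ ≤ (∏ i, w i (x i)) * (Real.exp (-(lam * s)) *
            Real.exp (lam * ∑ i ∈ T, c i (x i))) := mul_le_mul_of_nonneg_left h1 h0
        _ = _ := by ring
    · positivity
  unfold PP
  calc _ ≤ ∑ x : ι → κ, Real.exp (-(lam * s)) *
        ∏ i, (w i (x i) * (if i ∈ T then Real.exp (lam * c i (x i)) else 1)) :=
        Finset.sum_le_sum fun x _ => hstep x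
    _ = Real.exp (-(lam * s)) *
        ∏ i, ∑ k, (w i k * (if i ∈ T then Real.exp (lam * c i k) else 1)) := by
        rw [← Finset.mul_sum,
          B1b_sum_prod (fun i k => w i k * (if i ∈ T then Real.exp (lam * c i k) else 1))]
    _ ≤ Real.exp (-(lam * s)) * ∏ i, (if i ∈ T then Real.exp (β i) else 1) := by
        refine mul_le_mul_of_nonneg_left ?_ (Real.exp_pos _).le
        refine Finset.prod_le_prod (fun i _ => ?_) (fun i _ => ?_)
        · refine Finset.sum_nonneg fun k _ => mul_nonneg (hw i k) ?_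
          split_ifs
          · exact (Real.exp_pos _).le
          · exact zero_le_one
        · by_cases hi : i ∈ T
          · simp only [if_pos hi]
            exact hβ i hi
          · simp only [if_neg hi, mul_one]
            exact (hw1 i).le
    _ = Real.exp (∑ i ∈ T, β i - lam * s) := by
        rw [Finset.prod_ite_mem, Finset.univ_inter, ← Real.exp_sum, ← Real.exp_add]
        congr 1
        ring

/-- two-sided version -/
theorem B1b_tail2 (w : ι → κ → ℝ) (T : Finset ι) (c : ι → κ → ℝ) (β : ι → ℝ) (lam s : ℝ)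
    (hw : ∀ i k, 0 ≤ w i k) (hw1 : ∀ i, ∑ k, w i k = 1) (hlam : 0 ≤ lam)
    (hβ : ∀ i ∈ T, ∑ k, w i k * Real.exp (lam * c i k) ≤ Real.exp (β i))
    (hβ' : ∀ i ∈ T, ∑ k, w i k * Real.exp (-lam * c i k) ≤ Real.exp (β i)) :
    PP w {x | s ≤ |∑ i ∈ T, c i (x i)|} ≤ 2 * Real.exp (∑ i ∈ T, β i - lam * s) := by
  have h1 := B1b_tail w T c β lam s hw hw1 hlam hβ
  have h2 := B1b_tail w T (fun i k => -c i k) β lam s hw hw1 hlam (fun i hi => by
    refine le_trans (le_of_eq ?_) (hβ' i hi)
    refine Finset.sum_congr rfl fun k _ => ?_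
    congr 2
    ring)
  have h3 : {x : ι → κ | s ≤ |∑ i ∈ T, c i (x i)|} ⊆
      {x | s ≤ ∑ i ∈ T, c i (x i)} ∪ {x | s ≤ ∑ i ∈ T, -c i (x i)} := by
    intro x hx
    have hx' : s ≤ |∑ i ∈ T, c i (x i)| := hx
    rcases le_abs.1 hx' with h | h
    · exact Or.inl h
    · refine Or.inr ?_
      change s ≤ ∑ i ∈ T, -c i (x i)
      rw [Finset.sum_neg_distrib]
      exact h
  have h4 := B1b_PP_le_union w hw h3
  linarith

/-- moment generating function of a centred indicator -/
theorem B1b_bern (w : κ → ℝ) (Q : Set κ) (hw : ∀ k, 0 ≤ w k) (hw1 : ∑ k, w k = 1) (lam : ℝ)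
    (hlam : |lam| ≤ 1) :
    ∑ k, w k * Real.exp (lam * ((if k ∈ Q then 1 else 0) - ∑ k, (if k ∈ Q then w k else 0))) ≤
      Real.exp ((∑ k, (if k ∈ Q then w k else 0)) * lam ^ 2) := by
  set p : ℝ := ∑ k, (if k ∈ Q then w k else 0) with hp
  have hp0 : 0 ≤ p := Finset.sum_nonneg fun k _ => by
    split_ifs
    · exact hw k
    · exact le_rfl
  have h1 : ∑ k, w k * Real.exp (lam * ((if k ∈ Q then 1 else 0) - p)) =
      Real.exp (-(lam * p)) * (1 + p * (Real.exp lam - 1)) := by
    have h2 : ∀ k, w k * Real.exp (lam * ((if k ∈ Q then 1 else 0) - p)) =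
        Real.exp (-(lam * p)) * (w k + (if k ∈ Q then w k else 0) * (Real.exp lam - 1)) := by
      intro k
      split_ifs with hk
      · have : lam * (1 - p) = -(lam * p) + lam := by ring
        rw [this, Real.exp_add]
        ring
      · have : lam * (0 - p) = -(lam * p) := by ring
        rw [this]
        ring
    rw [Finset.sum_congr rfl fun k _ => h2 k, ← Finset.mul_sum, Finset.sum_add_distrib, hw1,
      ← Finset.sum_mul]
  rw [h1]
  have h3 : 1 + p * (Real.exp lam - 1) ≤ Real.exp (p * (Real.exp lam - 1)) := by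
    have := Real.add_one_le_exp (p * (Real.exp lam - 1))
    linarith
  calc Real.exp (-(lam * p)) * (1 + p * (Real.exp lam - 1))
      ≤ Real.exp (-(lam * p)) * Real.exp (p * (Real.exp lam - 1)) :=
        mul_le_mul_of_nonneg_left h3 (Real.exp_pos _).le
    _ = Real.exp (p * (Real.exp lam - 1 - lam)) := by
        rw [← Real.exp_add]
        congr 1
        ring
    _ ≤ Real.exp (p * lam ^ 2) := by
        apply Real.exp_le_exp.2
        refine mul_le_mul_of_nonneg_left ?_ hp0
        have h4 := Real.abs_exp_sub_one_sub_id_le hlam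
        exact (le_abs_self _).trans h4

theorem B1b_Chernoff : Chernoff_stmt := by
  intro ι κ _ _ w T Q M s hw hw1 hM hs hsM hT
  set p : ι → ℝ := fun i => ∑ k, (if k ∈ Q i then w i k else 0) with hp
  set lam : ℝ := s / (2 * M) with hlam
  have hlam0 : 0 ≤ lam := by positivity
  have hlam1 : lam ≤ 1 := by
    rw [hlam, div_le_one (by positivity)]
    linarith
  have habs : |lam| ≤ 1 := by rw [abs_of_nonneg hlam0]; exact hlam1
  have habs' : |-lam| ≤ 1 := by rw [abs_neg]; exact habs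
  have h1 := B1b_tail2 w T (fun i k => (if k ∈ Q i then 1 else 0) - p i) (fun i => p i * lam ^ 2)
    lam s hw hw1 hlam0 (fun i _ => B1b_bern (w i) (Q i) (hw i) (hw1 i) lam habs) (fun i _ => by
      have := B1b_bern (w i) (Q i) (hw i) (hw1 i) (-lam) habs'
      rwa [neg_sq] at this)
  have hset : {x : ι → κ | s ≤ |((T.filter (fun i => x i ∈ Q i)).card : ℝ) -
        ∑ i ∈ T, ∑ k, (if k ∈ Q i then w i k else 0)|} =
      {x | s ≤ |∑ i ∈ T, ((if x i ∈ Q i then (1 : ℝ) else 0) - p i)|} := by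
    ext x
    have : ((T.filter (fun i => x i ∈ Q i)).card : ℝ) -
        ∑ i ∈ T, ∑ k, (if k ∈ Q i then w i k else 0) =
        ∑ i ∈ T, ((if x i ∈ Q i then (1 : ℝ) else 0) - p i) := by
      rw [Finset.sum_sub_distrib, Finset.card_filter]
      push_cast
      rfl
    simp only [Set.mem_ofPred_eq, this]
  rw [hset]
  refine h1.trans ?_
  refine mul_le_mul_of_nonneg_left ?_ (by norm_num)
  apply Real.exp_le_exp.2
  rw [← Finset.sum_mul]
  have h2 : (∑ i ∈ T, p i) * lam ^ 2 ≤ M * lam ^ 2 := mul_le_mul_of_nonneg_right hT (sq_nonneg _)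
  have h3 : M * lam ^ 2 - lam * s = -(s ^ 2) / (4 * M) := by
    rw [hlam]
    field_simp
    ring
  linarith

theorem B1b_hoeff (w : κ → ℝ) (c : κ → ℝ) (b : ℝ) (hw : ∀ k, 0 ≤ w k) (hw1 : ∑ k, w k = 1)
    (hb : 0 < b) (hc : ∀ k, |c k| ≤ b) (hc0 : ∑ k, w k * c k = 0) (lam : ℝ) :
    ∑ k, w k * Real.exp (lam * c k) ≤ Real.exp (lam ^ 2 * b ^ 2 / 2) := by
  have h1 : ∀ k, Real.exp (lam * c k) ≤
      (b + c k) / (2 * b) * Real.exp (lam * b) + (b - c k) / (2 * b) * Real.exp (-(lam * b)) := by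
    intro k
    obtain ⟨h2, h3⟩ := abs_le.1 (hc k)
    have h4 := convexOn_exp.2 (Set.mem_univ (lam * b)) (Set.mem_univ (-(lam * b)))
      (show 0 ≤ (b + c k) / (2 * b) from div_nonneg (by linarith) (by linarith))
      (show 0 ≤ (b - c k) / (2 * b) from div_nonneg (by linarith) (by linarith))
      (by field_simp; ring)
    have h5 : (b + c k) / (2 * b) * (lam * b) + (b - c k) / (2 * b) * (-(lam * b)) = lam * c k := by
      field_simp
      ring
    simp only [smul_eq_mul] at h4
    rw [h5] at h4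
    exact h4
  calc ∑ k, w k * Real.exp (lam * c k)
      ≤ ∑ k, w k * ((b + c k) / (2 * b) * Real.exp (lam * b) +
          (b - c k) / (2 * b) * Real.exp (-(lam * b))) :=
        Finset.sum_le_sum fun k _ => mul_le_mul_of_nonneg_left (h1 k) (hw k)
    _ = ∑ k, (w k * ((Real.exp (lam * b) + Real.exp (-(lam * b))) / 2) + w k * c k *
          ((Real.exp (lam * b) - Real.exp (-(lam * b))) / (2 * b))) := by
        refine Finset.sum_congr rfl fun k _ => ?_
        field_simp
        ring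
    _ = Real.cosh (lam * b) := by
        rw [Finset.sum_add_distrib, ← Finset.sum_mul, ← Finset.sum_mul, hw1, hc0, Real.cosh_eq]
        ring
    _ ≤ Real.exp ((lam * b) ^ 2 / 2) := Real.cosh_le_exp_half_sq _
    _ = Real.exp (lam ^ 2 * b ^ 2 / 2) := by
        congr 1
        ring

theorem B1b_Hoeffding : Hoeffding_stmt := by
  intro ι κ _ _ w T c b s hw hw1 hb hs hc hc0
  rcases T.eq_empty_or_nonempty with rfl | hT
  · have h1 := B1b_PP_le_one w hw hw1 {x | s ≤ |∑ i ∈ (∅ : Finset ι), c i (x i)|}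
    refine h1.trans ?_
    simp
  have hTpos : (0 : ℝ) < T.card := by exact_mod_cast hT.card_pos
  set lam : ℝ := s / (T.card * b ^ 2) with hlam
  have hlam0 : 0 ≤ lam := by positivity
  have h1 := B1b_tail2 w T c (fun _ => lam ^ 2 * b ^ 2 / 2) lam s hw hw1 hlam0
    (fun i _ => B1b_hoeff (w i) (c i) b (hw i) (hw1 i) hb (hc i) (hc0 i) lam) (fun i _ => by
      have := B1b_hoeff (w i) (c i) b (hw i) (hw1 i) hb (hc i) (hc0 i) (-lam)
      rwa [neg_sq] at this)
  refine h1.trans (le_of_eq ?_)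
  congr 2
  rw [Finset.sum_const, nsmul_eq_mul, hlam]
  field_simp
  ring

end

end Pool.Agent.Helper15.LR
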