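import Pool.Agent.Helper15.LR.Defs3

set_option autoImplicit false

/-!
R1: rounding (Beck–Fiala with groups, every pair in at most two constraints).
-/

open Finset Filter
open scoped Classical Topology

namespace Pool.Agent.Helper15.LR

noncomputable section

section R1

variable {ι O C : Type} [Fintype ι] [Fintype O] [Fintype C]

/-- floating pairs -/
def R1_Fl (x : ι → O → ℝ) : Finset (ι × O) :=
  univ.filter (fun p => 0 < x p.1 p.2 ∧ x p.1 p.2 < 1)

/-- floating pairs in a constraint -/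
def R1_fc (R : ι → O → C → Prop) (x : ι → O → ℝ) (c : C) : Finset (ι × O) :=
  (R1_Fl x).filter (fun p => R p.1 p.2 c)

theorem R1_mem_Fl (x : ι → O → ℝ) (p : ι × O) :
    p ∈ R1_Fl x ↔ 0 < x p.1 p.2 ∧ x p.1 p.2 < 1 := by
  unfold R1_Fl
  simp only [Finset.mem_filter, Finset.mem_univ, true_and]

theorem R1_mem_fc (R : ι → O → C → Prop) (x : ι → O → ℝ) (c : C) (p : ι × O) :
    p ∈ R1_fc R x c ↔ p ∈ R1_Fl x ∧ R p.1 p.2 c := by
  unfold R1_fc
  simp only [Finset.mem_filter]

theorem R1_le_one (x : ι → O → ℝ) (hx : ∀ i o, 0 ≤ x i o) (hs : ∀ i, ∑ o, x i o = 1) (i : ι)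
    (o : O) : x i o ≤ 1 := by
  rw [← hs i]
  exact Finset.single_le_sum (f := fun o => x i o) (fun o _ => hx i o) (Finset.mem_univ o)

theorem R1_two (x : ι → O → ℝ) (hx : ∀ i o, 0 ≤ x i o) (hs : ∀ i, ∑ o, x i o = 1) (i : ι)
    (o o' : O) (h : o ≠ o') : x i o + x i o' ≤ 1 := by
  rw [← hs i, ← Finset.sum_pair (f := fun o => x i o) h]
  exact Finset.sum_le_sum_of_subset_of_nonneg (Finset.subset_univ _) (fun o _ _ => hx i o)

/-- the difference term -/
def R1_d (R : ι → O → C → Prop) (x : ι → O → ℝ) (φ : ι → O) (c : C) (p : ι × O) : ℝ :=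
  if R p.1 p.2 c then ((if φ p.1 = p.2 then 1 else 0) - x p.1 p.2) else 0

theorem R1_count (R : ι → O → C → Prop) (φ : ι → O) (c : C) :
    ((univ.filter (fun i => R i (φ i) c)).card : ℝ) =
      ∑ i, ∑ o, (if R i o c then (if φ i = o then (1:ℝ) else 0) else 0) := by
  rw [Finset.card_filter]
  push_cast
  refine Finset.sum_congr rfl fun i _ => ?_
  rw [Finset.sum_eq_single (φ i)]
  · by_cases h : R i (φ i) c
    · rw [if_pos h, if_pos h, if_pos rfl]
    · rw [if_neg h, if_neg h]
  · intro o _ ho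
    by_cases h : R i o c
    · rw [if_pos h, if_neg (Ne.symm ho)]
    · rw [if_neg h]
  · intro h
    exact absurd (Finset.mem_univ _) h

theorem R1_diff (R : ι → O → C → Prop) (x : ι → O → ℝ) (φ : ι → O) (c : C) :
    ((univ.filter (fun i => R i (φ i) c)).card : ℝ) -
      ∑ i, ∑ o, (if R i o c then x i o else 0) = ∑ p : ι × O, R1_d R x φ c p := by
  rw [R1_count R φ c, Fintype.sum_prod_type, ← Finset.sum_sub_distrib]
  refine Finset.sum_congr rfl fun i _ => ?_
  rw [← Finset.sum_sub_distrib]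
  refine Finset.sum_congr rfl fun o _ => ?_
  unfold R1_d
  dsimp only
  by_cases h : R i o c
  · rw [if_pos h, if_pos h, if_pos h]
  · rw [if_neg h, if_neg h, if_neg h, sub_zero]

theorem R1_direct (R : ι → O → C → Prop) (x : ι → O → ℝ) (hx : ∀ i o, 0 ≤ x i o)
    (hs : ∀ i, ∑ o, x i o = 1) (φ : ι → O) (hφ : ∀ i, 0 < x i (φ i)) (c : C) :
    |((univ.filter (fun i => R i (φ i) c)).card : ℝ) -
      ∑ i, ∑ o, (if R i o c then x i o else 0)| ≤ ((R1_fc R x c).card : ℝ) := by
  rw [R1_diff]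
  have h0 : ∀ p ∉ R1_fc R x c, R1_d R x φ c p = 0 := by
    intro p hp
    unfold R1_d
    by_cases h : R p.1 p.2 c
    · rw [if_pos h]
      have h1 : p ∉ R1_Fl x := fun h2 => hp ((R1_mem_fc R x c p).2 ⟨h2, h⟩)
      rw [R1_mem_Fl] at h1
      by_cases h2 : 0 < x p.1 p.2
      · have h3 : x p.1 p.2 = 1 := le_antisymm (R1_le_one x hx hs _ _) (not_lt.1 fun h4 => h1 ⟨h2, h4⟩)
        have h4 : φ p.1 = p.2 := by
          by_contra h5
          have := R1_two x hx hs p.1 (φ p.1) p.2 h5
          have := hφ p.1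
          linarith
        rw [if_pos h4, h3, sub_self]
      · have h3 : x p.1 p.2 = 0 := le_antisymm (not_lt.1 h2) (hx _ _)
        have h4 : φ p.1 ≠ p.2 := by
          intro h5
          have := hφ p.1
          rw [h5, h3] at this
          exact lt_irrefl _ this
        rw [if_neg h4, h3, sub_zero]
    · rw [if_neg h]
  rw [← Finset.sum_subset (Finset.subset_univ (R1_fc R x c)) (fun p _ hp => h0 p hp)]
  refine (Finset.abs_sum_le_sum_abs _ _).trans ?_
  have h1 : ∀ p ∈ R1_fc R x c, |R1_d R x φ c p| ≤ 1 := by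
    intro p _
    unfold R1_d
    have h2 := hx p.1 p.2
    have h3 := R1_le_one x hx hs p.1 p.2
    by_cases h : R p.1 p.2 c
    · rw [if_pos h]
      by_cases h4 : φ p.1 = p.2
      · rw [if_pos h4, abs_le]
        constructor <;> linarith
      · rw [if_neg h4, abs_le]
        constructor <;> linarith
    · rw [if_neg h, abs_zero]
      exact zero_le_one
  refine (Finset.sum_le_card_nsmul _ _ 1 h1).trans ?_
  rw [nsmul_eq_mul, mul_one]

/-- rows that contain a floating pair -/
def R1_rows (x : ι → O → ℝ) : Finset ι := univ.filter (fun i => ∃ o, (i, o) ∈ R1_Fl x)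

/-- active constraints -/
def R1_act (R : ι → O → C → Prop) (x : ι → O → ℝ) : Finset C :=
  univ.filter (fun c => 5 ≤ (R1_fc R x c).card)

theorem R1_rows_card (x : ι → O → ℝ) (hx : ∀ i o, 0 ≤ x i o) (hs : ∀ i, ∑ o, x i o = 1) :
    2 * (R1_rows x).card ≤ (R1_Fl x).card := by
  have h1 : (R1_Fl x).card = ∑ i ∈ R1_rows x, ((R1_Fl x).filter (fun p => p.1 = i)).card := by
    refine Finset.card_eq_sum_card_fiberwise (f := fun p : ι × O => p.1) (t := R1_rows x) ?_
    intro p hp
    have hp' : p ∈ R1_Fl x := Finset.mem_coe.1 hp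
    exact Finset.mem_coe.2 (Finset.mem_filter.2 ⟨Finset.mem_univ _, p.2, hp'⟩)
  rw [h1, mul_comm, ← smul_eq_mul]
  refine Finset.card_nsmul_le_sum _ _ 2 ?_
  intro i hi
  obtain ⟨o, ho⟩ := (Finset.mem_filter.1 hi).2
  have ho' := (R1_mem_Fl x _).1 ho
  dsimp only at ho'
  have h2 : ∃ o', o' ≠ o ∧ 0 < x i o' := by
    by_contra h3
    push Not at h3
    have h4 : ∑ o', x i o' = x i o := by
      refine Finset.sum_eq_single o ?_ ?_
      · intro o' _ h5
        exact le_antisymm (h3 o' h5) (hx _ _)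
      · intro h5
        exact absurd (Finset.mem_univ _) h5
    rw [hs i] at h4
    linarith [ho'.2]
  obtain ⟨o', h5, h6⟩ := h2
  have h7 : (i, o') ∈ R1_Fl x := by
    rw [R1_mem_Fl]
    dsimp only
    have := R1_two x hx hs i o' o h5
    exact ⟨h6, by linarith [ho'.1]⟩
  have h8 : ({(i, o), (i, o')} : Finset (ι × O)) ⊆ (R1_Fl x).filter (fun p => p.1 = i) := by
    intro p hp
    rw [Finset.mem_insert, Finset.mem_singleton] at hp
    rcases hp with rfl | rfl
    · exact Finset.mem_filter.2 ⟨ho, rfl⟩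
    · exact Finset.mem_filter.2 ⟨h7, rfl⟩
  have h9 : ({(i, o), (i, o')} : Finset (ι × O)).card = 2 := by
    refine Finset.card_pair ?_
    intro h
    exact h5 (Prod.ext_iff.1 h).2.symm
  rw [← h9]
  exact Finset.card_le_card h8

theorem R1_act_card (R : ι → O → C → Prop) (x : ι → O → ℝ)
    (hR : ∀ i o, (univ.filter (fun c => R i o c)).card ≤ 2) :
    5 * (R1_act R x).card ≤ 2 * (R1_Fl x).card := by
  have h1 : 5 * (R1_act R x).card ≤ ∑ c ∈ R1_act R x, (R1_fc R x c).card := by
    rw [mul_comm, ← smul_eq_mul]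
    refine Finset.card_nsmul_le_sum _ _ 5 ?_
    intro c hc
    exact (Finset.mem_filter.1 hc).2
  refine h1.trans ?_
  have h2 : ∑ c ∈ R1_act R x, (R1_fc R x c).card ≤ ∑ c, (R1_fc R x c).card :=
    Finset.sum_le_sum_of_subset (Finset.subset_univ _)
  refine h2.trans ?_
  have h3 : ∑ c, (R1_fc R x c).card =
      ∑ p ∈ R1_Fl x, (univ.filter (fun c => R p.1 p.2 c)).card := by
    unfold R1_fc
    simp only [Finset.card_filter]
    rw [Finset.sum_comm]
  rw [h3, mul_comm, ← smul_eq_mul]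
  refine Finset.sum_le_card_nsmul _ _ 2 ?_
  intro p _
  exact hR p.1 p.2

/-- a nonzero direction -/
theorem R1_dir (R : ι → O → C → Prop) (x : ι → O → ℝ) (hx : ∀ i o, 0 ≤ x i o)
    (hs : ∀ i, ∑ o, x i o = 1) (hR : ∀ i o, (univ.filter (fun c => R i o c)).card ≤ 2)
    (hne : 0 < (R1_Fl x).card) :
    ∃ y : ι → O → ℝ, (∃ i o, y i o ≠ 0) ∧ (∀ i o, (i, o) ∉ R1_Fl x → y i o = 0) ∧
      (∀ i, ∑ o, y i o = 0) ∧
      (∀ c, 5 ≤ (R1_fc R x c).card → ∑ i, ∑ o, (if R i o c then y i o else 0) = 0) := by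
  have hr := R1_rows_card x hx hs
  have ha := R1_act_card R x hR
  -- extension by zero
  let ext : ({p // p ∈ R1_Fl x} → ℝ) → ι → O → ℝ :=
    fun z i o => if h : (i, o) ∈ R1_Fl x then z ⟨(i, o), h⟩ else 0
  have ext_add : ∀ z z' i o, ext (z + z') i o = ext z i o + ext z' i o := by
    intro z z' i o
    by_cases h : (i, o) ∈ R1_Fl x
    · simp only [ext, dif_pos h, Pi.add_apply]
    · simp only [ext, dif_neg h, add_zero]
  have ext_smul : ∀ (a : ℝ) z i o, ext (a • z) i o = a * ext z i o := by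
    intro a z i o
    by_cases h : (i, o) ∈ R1_Fl x
    · simp only [ext, dif_pos h, Pi.smul_apply, smul_eq_mul]
    · simp only [ext, dif_neg h, mul_zero]
  let T : ({p // p ∈ R1_Fl x} → ℝ) →ₗ[ℝ] ({i // i ∈ R1_rows x} → ℝ) × ({c // c ∈ R1_act R x} → ℝ) :=
    { toFun := fun z => (fun i => ∑ o, ext z i.1 o,
        fun c => ∑ i, ∑ o, (if R i o c.1 then ext z i o else 0))
      map_add' := by
        intro z z'
        refine Prod.ext ?_ ?_
        · funext i
          show ∑ o, ext (z + z') i.1 o = ∑ o, ext z i.1 o + ∑ o, ext z' i.1 o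
          rw [← Finset.sum_add_distrib]
          exact Finset.sum_congr rfl fun o _ => ext_add z z' i.1 o
        · funext c
          show ∑ i, ∑ o, (if R i o c.1 then ext (z + z') i o else 0) =
            ∑ i, ∑ o, (if R i o c.1 then ext z i o else 0) +
            ∑ i, ∑ o, (if R i o c.1 then ext z' i o else 0)
          rw [← Finset.sum_add_distrib]
          refine Finset.sum_congr rfl fun i _ => ?_
          rw [← Finset.sum_add_distrib]
          refine Finset.sum_congr rfl fun o _ => ?_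
          by_cases h : R i o c.1
          · rw [if_pos h, if_pos h, if_pos h, ext_add]
          · rw [if_neg h, if_neg h, if_neg h, add_zero]
      map_smul' := by
        intro a z
        refine Prod.ext ?_ ?_
        · funext i
          show ∑ o, ext (a • z) i.1 o = a * ∑ o, ext z i.1 o
          rw [Finset.mul_sum]
          exact Finset.sum_congr rfl fun o _ => ext_smul a z i.1 o
        · funext c
          show ∑ i, ∑ o, (if R i o c.1 then ext (a • z) i o else 0) =
            a * ∑ i, ∑ o, (if R i o c.1 then ext z i o else 0)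
          rw [Finset.mul_sum]
          refine Finset.sum_congr rfl fun i _ => ?_
          rw [Finset.mul_sum]
          refine Finset.sum_congr rfl fun o _ => ?_
          by_cases h : R i o c.1
          · rw [if_pos h, if_pos h, ext_smul]
          · rw [if_neg h, if_neg h, mul_zero] }
  have hker : LinearMap.ker T ≠ ⊥ := by
    refine LinearMap.ker_ne_bot_of_finrank_lt ?_
    rw [Module.finrank_prod, Module.finrank_fintype_fun_eq_card,
      Module.finrank_fintype_fun_eq_card, Module.finrank_fintype_fun_eq_card,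
      Fintype.card_coe, Fintype.card_coe, Fintype.card_coe]
    omega
  obtain ⟨z, hz, hz0⟩ := (Submodule.ne_bot_iff _).1 hker
  have hT : T z = 0 := LinearMap.mem_ker.1 hz
  have hT1 : ∀ i : {i // i ∈ R1_rows x}, ∑ o, ext z i.1 o = 0 := by
    intro i
    have := congrArg (fun q => q.1 i) hT
    exact this
  have hT2 : ∀ c : {c // c ∈ R1_act R x}, ∑ i, ∑ o, (if R i o c.1 then ext z i o else 0) = 0 := by
    intro c
    have := congrArg (fun q => q.2 c) hT
    exact this
  refine ⟨ext z, ?_, ?_, ?_, ?_⟩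
  · by_contra h
    push Not at h
    refine hz0 (funext fun p => ?_)
    have h1 := h p.1.1 p.1.2
    have h2 : (p.1.1, p.1.2) ∈ R1_Fl x := p.2
    simp only [ext, dif_pos h2] at h1
    exact h1
  · intro i o h
    simp only [ext, dif_neg h]
  · intro i
    by_cases h : i ∈ R1_rows x
    · exact hT1 ⟨i, h⟩
    · refine Finset.sum_eq_zero fun o _ => ?_
      have h1 : (i, o) ∉ R1_Fl x := fun h2 =>
        h (Finset.mem_filter.2 ⟨Finset.mem_univ _, o, h2⟩)
      simp only [ext, dif_neg h1]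
  · intro c hc
    exact hT2 ⟨c, Finset.mem_filter.2 ⟨Finset.mem_univ _, hc⟩⟩

theorem R1_move (R : ι → O → C → Prop) (x : ι → O → ℝ) (hx : ∀ i o, 0 ≤ x i o)
    (hs : ∀ i, ∑ o, x i o = 1) (hR : ∀ i o, (univ.filter (fun c => R i o c)).card ≤ 2)
    (hne : 0 < (R1_Fl x).card) :
    ∃ x' : ι → O → ℝ, (∀ i o, 0 ≤ x' i o) ∧ (∀ i, ∑ o, x' i o = 1) ∧
      (R1_Fl x').card < (R1_Fl x).card ∧ (∀ i o, 0 < x' i o → 0 < x i o) ∧
      (∀ c, 5 ≤ (R1_fc R x c).card → ∑ i, ∑ o, (if R i o c then x' i o else 0) =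
        ∑ i, ∑ o, (if R i o c then x i o else 0)) := by
  obtain ⟨y, ⟨i₁, o₁, hy1⟩, hy0, hyr, hyc⟩ := R1_dir R x hx hs hR hne
  have hneg : ∃ o, y i₁ o < 0 := by
    by_contra h
    push Not at h
    have h1 := (Finset.sum_eq_zero_iff_of_nonneg (fun o _ => h o)).1 (hyr i₁) o₁ (Finset.mem_univ _)
    exact hy1 h1
  obtain ⟨o₂, ho₂⟩ := hneg
  let S : Finset (ι × O) := univ.filter (fun p => y p.1 p.2 < 0)
  have hS : S.Nonempty := ⟨(i₁, o₂), Finset.mem_filter.2 ⟨Finset.mem_univ _, ho₂⟩⟩
  obtain ⟨p₀, hp₀, hmin⟩ := Finset.exists_min_image S (fun p => x p.1 p.2 / (-y p.1 p.2)) hS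
  have hp₀' : y p₀.1 p₀.2 < 0 := (Finset.mem_filter.1 hp₀).2
  have hp₀F : p₀ ∈ R1_Fl x := by
    by_contra h
    have := hy0 p₀.1 p₀.2 h
    rw [this] at hp₀'
    exact lt_irrefl _ hp₀'
  let t : ℝ := x p₀.1 p₀.2 / (-y p₀.1 p₀.2)
  have ht : 0 ≤ t := div_nonneg (hx _ _) (by linarith)
  let x' : ι → O → ℝ := fun i o => x i o + t * y i o
  have hx' : ∀ i o, 0 ≤ x' i o := by
    intro i o
    show 0 ≤ x i o + t * y i o
    by_cases h : y i o < 0
    · have h1 := hmin (i, o) (Finset.mem_filter.2 ⟨Finset.mem_univ _, h⟩)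
      dsimp only at h1
      have h2 : t * (-y i o) ≤ x i o := by
        have h3 : (0:ℝ) < -y i o := by linarith
        exact (le_div_iff₀ h3).1 h1
      linarith
    · have := mul_nonneg ht (not_lt.1 h)
      have := hx i o
      linarith
  have hs' : ∀ i, ∑ o, x' i o = 1 := by
    intro i
    show ∑ o, (x i o + t * y i o) = 1
    rw [Finset.sum_add_distrib, ← Finset.mul_sum, hyr i, mul_zero, add_zero, hs i]
  have hout : ∀ i o, (i, o) ∉ R1_Fl x → x' i o = x i o := by
    intro i o h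
    show x i o + t * y i o = x i o
    rw [hy0 i o h, mul_zero, add_zero]
  refine ⟨x', hx', hs', ?_, ?_, ?_⟩
  · have h1 : x' p₀.1 p₀.2 = 0 := by
      show x p₀.1 p₀.2 + x p₀.1 p₀.2 / (-y p₀.1 p₀.2) * y p₀.1 p₀.2 = 0
      have : y p₀.1 p₀.2 ≠ 0 := ne_of_lt hp₀'
      field_simp
      ring
    refine Finset.card_lt_card ((Finset.ssubset_iff_of_subset ?_).2 ⟨p₀, hp₀F, ?_⟩)
    · intro p hp
      by_contra h
      have h2 := hout p.1 p.2 h
      rw [R1_mem_Fl, h2] at hp
      exact h ((R1_mem_Fl x p).2 hp)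
    · rw [R1_mem_Fl, h1]
      exact fun h => lt_irrefl _ h.1
  · intro i o h
    by_cases h1 : (i, o) ∈ R1_Fl x
    · exact ((R1_mem_Fl x _).1 h1).1
    · rwa [hout i o h1] at h
  · intro c hc
    have h1 := hyc c hc
    have h2 : ∑ i, ∑ o, (if R i o c then x' i o else 0) =
        ∑ i, ∑ o, (if R i o c then x i o else 0) + t * ∑ i, ∑ o, (if R i o c then y i o else 0) := by
      rw [Finset.mul_sum, ← Finset.sum_add_distrib]
      refine Finset.sum_congr rfl fun i _ => ?_
      rw [Finset.mul_sum, ← Finset.sum_add_distrib]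
      refine Finset.sum_congr rfl fun o _ => ?_
      by_cases h : R i o c
      · rw [if_pos h, if_pos h, if_pos h]
      · rw [if_neg h, if_neg h, if_neg h, mul_zero, add_zero]
    rw [h2, h1, mul_zero, add_zero]

theorem R1_main (R : ι → O → C → Prop)
    (hR : ∀ i o, (univ.filter (fun c => R i o c)).card ≤ 2) :
    ∀ (N : ℕ) (x : ι → O → ℝ), (R1_Fl x).card ≤ N → (∀ i o, 0 ≤ x i o) →
      (∀ i, ∑ o, x i o = 1) →
      ∃ φ : ι → O, (∀ i, 0 < x i (φ i)) ∧
        ∀ c, |((univ.filter (fun i => R i (φ i) c)).card : ℝ) -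
          ∑ i, ∑ o, (if R i o c then x i o else 0)| ≤ 4 := by
  intro N
  induction N using Nat.strong_induction_on with
  | _ N ih =>
    intro x hN hx hs
    by_cases hact : ∃ c, 5 ≤ (R1_fc R x c).card
    · obtain ⟨c₀, hc₀⟩ := hact
      have hne : 0 < (R1_Fl x).card := by
        have h1 : (R1_fc R x c₀).card ≤ (R1_Fl x).card := Finset.card_le_card (Finset.filter_subset _ _)
        omega
      obtain ⟨x', h1, h2, h3, h4, h5⟩ := R1_move R x hx hs hR hne
      obtain ⟨φ, h6, h7⟩ := ih ((R1_Fl x').card) (by omega) x' le_rfl h1 h2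
      have h8 : ∀ i, 0 < x i (φ i) := fun i => h4 _ _ (h6 i)
      refine ⟨φ, h8, fun c => ?_⟩
      by_cases h9 : 5 ≤ (R1_fc R x c).card
      · rw [← h5 c h9]
        exact h7 c
      · refine (R1_direct R x hx hs φ h8 c).trans ?_
        have : (R1_fc R x c).card ≤ 4 := by omega
        exact_mod_cast this
    · push Not at hact
      have h1 : ∀ i, ∃ o, 0 < x i o := by
        intro i
        by_contra h
        push Not at h
        have h2 : ∑ o, x i o ≤ 0 := Finset.sum_nonpos fun o _ => h o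
        rw [hs i] at h2
        linarith
      choose φ hφ using h1
      refine ⟨φ, hφ, fun c => ?_⟩
      refine (R1_direct R x hx hs φ hφ c).trans ?_
      have h3 := hact c
      have : (R1_fc R x c).card ≤ 4 := by omega
      exact_mod_cast this

end R1

/-- R1: rounding. -/
theorem R1_Round : Round_stmt := by
  intro ι O C _ _ _ R w hw hs hR
  exact R1_main R hR _ w le_rfl hw hs

end

end Pool.Agent.Helper15.LR
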