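import Pool.Agent.Helper15.LR.Defs

set_option autoImplicit false

open Finset Filter
open scoped Classical Topology

namespace Pool.Agent.Helper15.LR

noncomputable section

lemma SS_nonneg (n : ℕ) : 0 ≤ SS n := Real.sqrt_nonneg _

lemma SS_sq (n : ℕ) : SS n ^ 2 = n * Real.log n := by
  unfold SS
  rw [Real.sq_sqrt]
  rcases Nat.eq_zero_or_pos n with h | h
  · simp [h]
  · have : (1 : ℝ) ≤ n := by exact_mod_cast h
    have := Real.log_nonneg this
    positivity

lemma SS_small (κ : ℝ) (hκ : 0 < κ) : ∀ᶠ n : ℕ in atTop, SS n ≤ κ * n := by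
  have h1 : Tendsto (fun x : ℝ => Real.log x / x) atTop (𝓝 0) := by
    have := Real.isLittleO_log_id_atTop
    exact this.tendsto_div_nhds_zero
  have h2 : ∀ᶠ x : ℝ in atTop, Real.log x / x < κ ^ 2 :=
    h1.eventually (gt_mem_nhds (by positivity))
  have h3 : ∀ᶠ n : ℕ in atTop, Real.log (n : ℝ) / n < κ ^ 2 :=
    (tendsto_natCast_atTop_atTop (R := ℝ)).eventually h2
  filter_upwards [h3, eventually_gt_atTop 0] with n hn hn0
  have hn0' : (0 : ℝ) < n := by exact_mod_cast hn0
  have h4 : Real.log n ≤ κ ^ 2 * n := by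
    rw [div_lt_iff₀ hn0'] at hn
    exact hn.le
  unfold SS
  apply Real.sqrt_le_iff.2
  constructor
  · positivity
  · nlinarith [mul_le_mul_of_nonneg_left h4 hn0'.le]

lemma SS_large (C : ℝ) : ∀ᶠ n : ℕ in atTop, C ≤ SS n := by
  have h1 : Tendsto (fun n : ℕ => (n : ℝ)) atTop atTop := tendsto_natCast_atTop_atTop
  filter_upwards [h1.eventually (eventually_ge_atTop (Real.exp 1)),
    h1.eventually (eventually_ge_atTop (C ^ 2))] with n h2 h3
  have hn : (1 : ℝ) ≤ Real.log n := by
    have := Real.log_le_log (Real.exp_pos 1) h2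
    simpa using this
  unfold SS
  have h4 : C ^ 2 ≤ n * Real.log n := by
    have hn0 : (0 : ℝ) ≤ n := Nat.cast_nonneg n
    nlinarith
  exact (le_abs_self C).trans (Real.abs_le_sqrt h4)

lemma LC_mono {V : Type} {F F' : Set (Sym2 V)} {L L' : Sym2 V → Finset ℕ} (h : LC F L)
    (hF : F' ⊆ F) (hL : ∀ e ∈ F', L e ⊆ L' e) : LC F' L' := by
  obtain ⟨f, h1, h2⟩ := h
  exact ⟨f, fun e he => hL e he (h1 e (hF he)), fun u v w h3 h4 => h2 u v w (hF h3) (hF h4)⟩

/-- combine colourings with disjoint groups of colours -/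
lemma LC_combine {V Λ : Type} (F : Set (Sym2 V)) (L : Sym2 V → Finset ℕ) (φ : Sym2 V → Λ)
    (g : ℕ → Λ) (h : ∀ o, LC {e | e ∈ F ∧ φ e = o} (fun e => (L e).filter (fun x => g x = o))) :
    LC F L := by
  choose f h1 h2 using h
  refine ⟨fun e => f (φ e) e, fun e he => ?_, fun u v w h3 h4 h5 => ?_⟩
  · have := h1 (φ e) e ⟨he, rfl⟩
    exact (mem_filter.1 this).1
  · by_cases h6 : φ s(u, v) = φ s(u, w)
    · simp only [h6]
      exact h2 (φ s(u, w)) u v w ⟨h3, h6⟩ ⟨h4, rfl⟩ h5
    · intro h7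
      have h8 := (mem_filter.1 (h1 (φ s(u, v)) s(u, v) ⟨h3, rfl⟩)).2
      have h9 := (mem_filter.1 (h1 (φ s(u, w)) s(u, w) ⟨h4, rfl⟩)).2
      apply h6
      rw [← h8, ← h9]
      exact congrArg g h7

/-- double counting: ordered pairs representing elements of a finite set of edges -/
lemma sum_card_le_two {V : Type} [Fintype V] (B : Finset (Sym2 V)) :
    ∑ v : V, ((univ.filter (fun u : V => s(v, u) ∈ B)).card) ≤ 2 * B.card := by
  have h1 : ∑ v : V, ((univ.filter (fun u : V => s(v, u) ∈ B)).card) =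
      ((univ : Finset (V × V)).filter (fun p => s(p.1, p.2) ∈ B)).card := by
    rw [← univ_product_univ]
    rw [card_filter, sum_product]
    apply sum_congr rfl
    intro v _
    rw [card_filter]
  rw [h1]
  have h2 : ((univ : Finset (V × V)).filter (fun p => s(p.1, p.2) ∈ B)).card ≤
      ∑ b ∈ B, 2 := by
    rw [card_eq_sum_card_fiberwise (f := fun p : V × V => s(p.1, p.2)) (t := B)]
    · apply sum_le_sum
      intro b _
      induction b using Sym2.ind with
      | _ x y =>
        have : (((univ : Finset (V × V)).filter (fun p => s(p.1, p.2) ∈ B)).filter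
            (fun p => s(p.1, p.2) = s(x, y))) ⊆ {(x, y), (y, x)} := by
          intro p hp
          have := (mem_filter.1 hp).2
          rw [Sym2.eq_iff] at this
          rcases this with ⟨h3, h4⟩ | ⟨h3, h4⟩
          · simp [Prod.ext_iff, h3, h4]
          · simp [Prod.ext_iff, h3, h4]
        exact (card_le_card this).trans card_le_two
    · intro p hp
      exact (mem_filter.1 hp).2
  simpa [mul_comm] using h2

lemma nb_ne {V : Type} [Fintype V] {F : Set (Sym2 V)} (hF : ∀ v, s(v, v) ∉ F) {v u : V}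
    (h : u ∈ nb F v) : u ≠ v := by
  rintro rfl
  exact hF _ (mem_filter.1 h).2

lemma mem_nb {V : Type} [Fintype V] {F : Set (Sym2 V)} {v u : V} : u ∈ nb F v ↔ s(v, u) ∈ F := by
  simp [nb]

lemma dg_lt {V : Type} [Fintype V] {F : Set (Sym2 V)} (hF : ∀ v, s(v, v) ∉ F) (v : V) :
    dg F v < Fintype.card V := by
  unfold dg
  rw [← card_univ]
  apply card_lt_card
  rw [ssubset_univ_iff]
  intro h
  have : v ∈ nb F v := by rw [h]; exact mem_univ _
  exact nb_ne hF this rfl

lemma ld_le_dg {V Λ : Type} [Fintype V] (F : Set (Sym2 V)) (φ : Sym2 V → Λ) (v : V) (o : Λ) :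
    ld F φ v o ≤ dg F v := card_filter_le _ _

lemma dg_level {V Λ : Type} [Fintype V] (F : Set (Sym2 V)) (φ : Sym2 V → Λ) (v : V) (o : Λ) :
    dg {e | e ∈ F ∧ φ e = o} v = ld F φ v o := by
  unfold dg ld nb
  congr 1
  ext u
  simp

lemma sgn_mul_self (b : Bool) : sgn b * sgn b = 1 := by
  cases b <;> simp [sgn]

lemma abs_sgn (b : Bool) : |sgn b| = 1 := by
  cases b <;> simp [sgn]

end

end Pool.Agent.Helper15.LR
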