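import Pool.Agent.Helper15.LR.Defs

set_option autoImplicit false

open Finset Filter
open scoped Classical Topology

namespace Pool.Agent.Helper15.LR

noncomputable section

/-- the list edge colouring property for all list sizes -/
def LECP (n : ℕ) (G : SimpleGraph (Fin n)) : Prop := ∀ k : ℕ,
  (G.lineGraph.Colorable k ↔ ∀ L : G.edgeSet → Finset ℕ, (∀ e, k ≤ (L e).card) →
    ∃ f : G.edgeSet → ℕ, (∀ e, f e ∈ L e) ∧ ∀ e e', G.lineGraph.Adj e e' → f e ≠ f e')

theorem colorable_of_lists {V : Type} (G : SimpleGraph V) (k : ℕ)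
    (h : ∀ L : G.edgeSet → Finset ℕ, (∀ e, k ≤ (L e).card) →
      ∃ f : G.edgeSet → ℕ, (∀ e, f e ∈ L e) ∧ ∀ e e', G.lineGraph.Adj e e' → f e ≠ f e') :
    G.lineGraph.Colorable k := by
  obtain ⟨f, hf, hf'⟩ := h (fun _ => range k) (fun _ => by rw [card_range])
  refine ⟨SimpleGraph.Coloring.mk (fun e => (⟨f e, mem_range.mp (hf e)⟩ : Fin k)) ?_⟩
  intro e e' hee h
  exact hf' e e' hee (congrArg Fin.val h)

theorem dg_le_of_colorable {V : Type} [Fintype V] (G : SimpleGraph V) (k : ℕ) (h : G.lineGraph.Colorable k)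
    (v : V) : dg G.edgeSet v ≤ k := by
  obtain ⟨c⟩ := h
  unfold dg
  have h1 : ∀ u : {u // u ∈ nb G.edgeSet v}, s(v, u.1) ∈ G.edgeSet := fun u => (mem_filter.mp u.2).2
  have h2 : (nb G.edgeSet v).attach.card ≤ (univ : Finset (Fin k)).card := by
    refine card_le_card_of_injOn (fun u => c ⟨s(v, u.1), h1 u⟩) (fun _ _ => mem_coe.mpr (mem_univ _)) ?_
    intro u _ u' _ huu
    by_contra hne
    have hadj : G.lineGraph.Adj ⟨s(v, u.1), h1 u⟩ ⟨s(v, u'.1), h1 u'⟩ := by
      rw [SimpleGraph.lineGraph_adj_iff_exists]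
      refine ⟨?_, v, Sym2.mem_mk_left _ _, Sym2.mem_mk_left _ _⟩
      intro he
      apply hne
      have h3 : s(v, u.1) = s(v, u'.1) := congrArg Subtype.val he
      exact Subtype.ext (Sym2.congr_right.mp h3)
    exact c.valid hadj huu
  rw [card_attach, card_univ, Fintype.card_fin] at h2
  exact h2

theorem lists_of_LC {V : Type} (G : SimpleGraph V) (L : G.edgeSet → Finset ℕ)
    (h : LC G.edgeSet (fun e => if he : e ∈ G.edgeSet then L ⟨e, he⟩ else ∅)) :
    ∃ f : G.edgeSet → ℕ, (∀ e, f e ∈ L e) ∧ ∀ e e', G.lineGraph.Adj e e' → f e ≠ f e' := by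
  obtain ⟨f, hf, hf'⟩ := h
  refine ⟨fun e => f e.1, ?_, ?_⟩
  · intro e
    have := hf e.1 e.2
    simp only [dif_pos e.2] at this
    exact this
  · intro e e' hee
    rw [SimpleGraph.lineGraph_adj_iff_exists] at hee
    obtain ⟨hne, v, hv, hv'⟩ := hee
    obtain ⟨a, ha⟩ := hv
    obtain ⟨b, hb⟩ := hv'
    have he := e.2
    have he' := e'.2
    simp only [ha, hb] at he he' ⊢
    refine hf' v a b he he' ?_
    rintro rfl
    exact hne (Subtype.ext (ha.trans hb.symm))

theorem exists_max {n : ℕ} (hn : 0 < n) (G : SimpleGraph (Fin n)) :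
    ∃ Δ : ℕ, (∀ v, dg G.edgeSet v ≤ Δ) ∧ ∃ v, dg G.edgeSet v = Δ := by
  have : Nonempty (Fin n) := ⟨⟨0, hn⟩⟩
  obtain ⟨v, hv⟩ := Finite.exists_max (fun v : Fin n => dg G.edgeSet v)
  exact ⟨dg G.edgeSet v, hv, v, rfl⟩

theorem lecp_of_good (hT : Top_stmt) : ∀ᶠ n : ℕ in atTop, ∀ G : SimpleGraph (Fin n),
    (∀ v, |(dg G.edgeSet v : ℝ) - n / 2| ≤ SS n) →
    (∃ v, n / 2 + 27 / 50 * SS n ≤ (dg G.edgeSet v : ℝ)) →
    (((univ.filter (fun v => n / 2 + 13 / 25 * SS n ≤ (dg G.edgeSet v : ℝ))).card : ℝ)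
      ≤ Real.sqrt n) →
    (∀ X Y : Finset (Fin n), Disjoint X Y → (1 / 2 : ℝ) * X.card * Y.card - (n : ℝ) ^ 2 / 10 ^ 5 ≤
      (((X ×ˢ Y).filter (fun p => G.Adj p.1 p.2)).card : ℝ)) → LECP n G := by
  filter_upwards [hT, eventually_gt_atTop 0] with n hn hn0 G h1 h2 h3 h4 k
  obtain ⟨Δ, hΔ, v, hv⟩ := exists_max hn0 G
  constructor
  · intro hk L hL
    refine lists_of_LC G L ?_
    have hΔk : Δ ≤ k := by
      rw [← hv]
      exact dg_le_of_colorable G k hk v
    refine hn (Fin n) G _ Δ (Fintype.card_fin n) h1 hΔ ⟨v, hv⟩ ?_ h3 h4 ?_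
    · obtain ⟨w, hw⟩ := h2
      refine le_trans hw ?_
      exact_mod_cast hΔ w
    · intro e he
      rw [dif_pos he]
      exact le_trans hΔk (hL _)
  · exact colorable_of_lists G k

theorem PP_true {ι : Type} [Fintype ι] :
    PP (fun (_ : ι) (_ : Bool) => (1 / 2 : ℝ)) {x | True} = 1 := by
  unfold PP
  refine Eq.trans (Finset.sum_congr (g := fun _ => (1 / 2 : ℝ) ^ Fintype.card ι) rfl (fun x _ => ?_)) ?_
  · rw [if_pos (show x ∈ {x : ι → Bool | True} from trivial), prod_const, card_univ]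
  rw [sum_const, card_univ, nsmul_eq_mul]
  have h4 : Fintype.card (ι → Bool) = 2 ^ Fintype.card ι := by
    rw [← Nat.card_eq_fintype_card, ← Nat.card_eq_fintype_card, Nat.card_fun, Nat.card_eq_fintype_card (α := Bool),
      Fintype.card_bool]
  rw [h4]
  push_cast
  rw [← mul_pow]
  norm_num

theorem card_all (h0 : Count_stmt) (n : ℕ) :
    (Nat.card (SimpleGraph (Fin n)) : ℝ) / 2 ^ (n.choose 2) = 1 := by
  have h1 := h0 n (fun _ => True)
  have h2 : Nat.card {G : SimpleGraph (Fin n) // True} = Nat.card (SimpleGraph (Fin n)) :=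
    Nat.card_congr (Equiv.subtypeUnivEquiv (fun _ => trivial))
  rw [h2] at h1
  rw [h1]
  exact PP_true

theorem card_split (n : ℕ) (P : SimpleGraph (Fin n) → Prop) :
    (Nat.card {G : SimpleGraph (Fin n) // P G} : ℝ) + (Nat.card {G : SimpleGraph (Fin n) // ¬ P G} : ℝ) =
      (Nat.card (SimpleGraph (Fin n)) : ℝ) := by
  have : Fintype (SimpleGraph (Fin n)) := Fintype.ofFinite _
  rw [Nat.card_eq_fintype_card, Nat.card_eq_fintype_card, Nat.card_eq_fintype_card]
  have := Fintype.card_subtype_compl P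
  have h2 := Fintype.card_subtype_le P
  have h3 : Fintype.card {G : SimpleGraph (Fin n) // ¬ P G} =
      Fintype.card (SimpleGraph (Fin n)) - Fintype.card {G : SimpleGraph (Fin n) // P G} := by
    convert this using 2
  rw [h3, Nat.cast_sub (by convert h2 using 2)]
  ring

theorem card_mono {n : ℕ} {P Q : SimpleGraph (Fin n) → Prop} (h : ∀ G, P G → Q G) :
    (Nat.card {G : SimpleGraph (Fin n) // P G} : ℝ) ≤ (Nat.card {G : SimpleGraph (Fin n) // Q G} : ℝ) := by
  have : Nat.card {G : SimpleGraph (Fin n) // P G} ≤ Nat.card {G : SimpleGraph (Fin n) // Q G} :=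
    Nat.card_le_card_of_injective (fun G => ⟨G.1, h _ G.2⟩) (fun a b hab => by
      have h5 := congrArg Subtype.val hab
      exact Subtype.ext h5)
  exact_mod_cast this

theorem card_or {n : ℕ} (P Q : SimpleGraph (Fin n) → Prop) :
    (Nat.card {G : SimpleGraph (Fin n) // P G ∨ Q G} : ℝ) ≤
      (Nat.card {G : SimpleGraph (Fin n) // P G} : ℝ) + (Nat.card {G : SimpleGraph (Fin n) // Q G} : ℝ) := by
  have h1 : Nat.card {G : SimpleGraph (Fin n) // P G ∨ Q G} ≤
      Nat.card ({G : SimpleGraph (Fin n) // P G} ⊕ {G : SimpleGraph (Fin n) // Q G}) := by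
    refine Nat.card_le_card_of_injective (fun G => if h : P G.1 then Sum.inl ⟨G.1, h⟩ else
      Sum.inr ⟨G.1, G.2.resolve_left h⟩) ?_
    intro a b hab
    simp only at hab
    by_cases ha : P a.1 <;> by_cases hb : P b.1
    · rw [dif_pos ha, dif_pos hb] at hab
      have h5 := congrArg Subtype.val (Sum.inl.inj hab)
      exact Subtype.ext h5
    · rw [dif_pos ha, dif_neg hb] at hab
      cases hab
    · rw [dif_neg ha, dif_pos hb] at hab
      cases hab
    · rw [dif_neg ha, dif_neg hb] at hab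
      have h5 := congrArg Subtype.val (Sum.inr.inj hab)
      exact Subtype.ext h5
  rw [Nat.card_sum] at h1
  exact_mod_cast h1

/-- **The list edge colouring conjecture holds for almost all graphs**, from the parts F and G. -/
theorem H (h0 : Count_stmt) (hT : Top_stmt) (hD : Deg_stmt) (hB : Big_stmt) (hF : Few_stmt)
    (hQ : Quasi_stmt) : Final_stmt := by
  have hgood := lecp_of_good hT
  have hbad : Tendsto (fun n : ℕ => (Nat.card {G : SimpleGraph (Fin n) // ¬ LECP n G} : ℝ) / 2 ^ (n.choose 2))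
      atTop (𝓝 0) := by
    have hsum := ((hD.add hB).add hF).add hQ
    rw [add_zero, add_zero, add_zero] at hsum
    refine squeeze_zero' (Eventually.of_forall (fun n => by positivity)) ?_ hsum
    filter_upwards [hgood] with n hn
    rw [← add_div, ← add_div, ← add_div]
    apply div_le_div_of_nonneg_right _ (by positivity)
    refine le_trans (card_mono (n := n) (Q := fun G => ((¬ (∀ v, |(dg G.edgeSet v : ℝ) - n / 2| ≤ SS n) ∨
      ¬ (∃ v, n / 2 + 27 / 50 * SS n ≤ (dg G.edgeSet v : ℝ))) ∨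
      ¬ (((univ.filter (fun v => n / 2 + 13 / 25 * SS n ≤ (dg G.edgeSet v : ℝ))).card : ℝ) ≤ Real.sqrt n)) ∨
      ¬ (∀ X Y : Finset (Fin n), Disjoint X Y → (1 / 2 : ℝ) * X.card * Y.card - (n : ℝ) ^ 2 / 10 ^ 5 ≤
      (((X ×ˢ Y).filter (fun p => G.Adj p.1 p.2)).card : ℝ))) ?_) ?_
    · intro G hG
      by_contra hc
      apply hG
      push Not at hc
      obtain ⟨⟨⟨c1, c2⟩, c3⟩, c4⟩ := hc
      exact hn G c1 c2 c3 c4
    · refine le_trans (card_or _ _) (add_le_add ?_ le_rfl)
      refine le_trans (card_or _ _) (add_le_add ?_ le_rfl)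
      exact card_or _ _
  have hmain : Tendsto (fun n : ℕ => (Nat.card {G : SimpleGraph (Fin n) // LECP n G} : ℝ) / 2 ^ (n.choose 2))
      atTop (𝓝 1) := by
    have h1 : (fun n : ℕ => (Nat.card {G : SimpleGraph (Fin n) // LECP n G} : ℝ) / 2 ^ (n.choose 2)) =
        fun n : ℕ => 1 - (Nat.card {G : SimpleGraph (Fin n) // ¬ LECP n G} : ℝ) / 2 ^ (n.choose 2) := by
      funext n
      have h2 := card_split n (LECP n)
      have h3 := card_all h0 n
      rw [← h2, add_div] at h3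
      linarith
    rw [h1]
    have := hbad.const_sub 1
    rwa [sub_zero] at this
  exact hmain

end

end Pool.Agent.Helper15.LR
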