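import Pool.Agent.Helper15.LR.Defs

set_option autoImplicit false

/-!
A4: one level, from the block version of Galvin's theorem.
-/

open Finset Filter
open scoped Classical Topology

namespace Pool.Agent.Helper15.LR

noncomputable section

theorem A4_ld {V : Type} [Fintype V] (F : Set (Sym2 V)) (blk : Sym2 V → ℕ) (v : V) (o : ℕ) :
    ld F blk v o = ((nb F v).filter (fun u => blk s(v, u) = o)).card := by
  unfold ld
  congr

theorem A4_lt {V : Type} [Fintype V] (F : Set (Sym2 V)) (blk : Sym2 V → ℕ) (v : V) (i : ℕ) :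
    ((nb F v).filter (fun u => blk s(v, u) < i)).card = ∑ o ∈ range i, ld F blk v o := by
  rw [Finset.card_eq_sum_card_fiberwise (f := fun u => blk s(v, u)) (t := range i)]
  · refine Finset.sum_congr rfl fun o ho => ?_
    rw [A4_ld, Finset.filter_filter]
    congr 1
    refine Finset.filter_congr fun u _ => ?_
    have := Finset.mem_range.1 ho
    constructor
    · exact fun h => h.2
    · exact fun h => ⟨by omega, h⟩
  · intro u hu
    have h1 := (Finset.mem_filter.1 hu).2
    exact Finset.mem_coe.2 (Finset.mem_range.2 h1)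

theorem A4_gt {V : Type} [Fintype V] (F : Set (Sym2 V)) (blk : Sym2 V → ℕ) (v : V) (i N : ℕ)
    (h : ∀ u ∈ nb F v, blk s(v, u) ≤ N) :
    ((nb F v).filter (fun u => i < blk s(v, u))).card = ∑ o ∈ Finset.Ioc i N, ld F blk v o := by
  rw [Finset.card_eq_sum_card_fiberwise (f := fun u => blk s(v, u)) (t := Finset.Ioc i N)]
  · refine Finset.sum_congr rfl fun o ho => ?_
    rw [A4_ld, Finset.filter_filter]
    congr 1
    refine Finset.filter_congr fun u _ => ?_
    have := Finset.mem_Ioc.1 ho
    constructor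
    · exact fun h => h.2
    · exact fun h => ⟨by omega, h⟩
  · intro u hu
    have h1 := Finset.mem_filter.1 hu
    exact Finset.mem_coe.2 (Finset.mem_Ioc.2 ⟨h1.2, h u h1.1⟩)

theorem A4_dg {V : Type} [Fintype V] (F : Set (Sym2 V)) (blk : Sym2 V → ℕ) (v : V) (N : ℕ)
    (h : ∀ u ∈ nb F v, blk s(v, u) ≤ N) :
    dg F v = ∑ o ∈ range (N + 1), ld F blk v o := by
  rw [← A4_lt F blk v (N + 1)]
  unfold dg
  congr 1
  ext u
  rw [Finset.mem_filter]
  exact ⟨fun hu => ⟨hu, Nat.lt_succ_of_le (h u hu)⟩, fun hu => hu.1⟩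

theorem A4_zero {V : Type} [Fintype V] (F : Set (Sym2 V)) (blk : Sym2 V → ℕ) (v : V) (o : ℕ)
    (h : ∀ u ∈ nb F v, blk s(v, u) ≠ o) : ld F blk v o = 0 := by
  rw [A4_ld, Finset.card_eq_zero, Finset.filter_eq_empty_iff]
  exact fun u hu => h u hu

theorem A4_mem_nb {V : Type} [Fintype V] {F : Set (Sym2 V)} {v u : V} (h : u ∈ nb F v) :
    s(v, u) ∈ F := (Finset.mem_filter.1 h).2

theorem A4_Level (hBG : BlockGalvin_stmt) : Level_stmt := by
  intro V _ F side L blk W t tm x hx hside hW hblk hNW hall hNN hWmid hWburst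
  refine hBG V F side L blk hside ?_
  intro a b hab ha hb
  have hba : s(b, a) ∈ F := by rw [Sym2.eq_swap]; exact hab
  have hswap : blk s(b, a) = blk s(a, b) := by rw [Sym2.eq_swap]
  -- the edges at `a` and at `b`
  have hAu : ∀ u ∈ nb F a, s(a, u) ∈ F ∧ side u = false := by
    intro u hu
    have h1 := A4_mem_nb hu
    refine ⟨h1, ?_⟩
    have h2 := hside a u h1
    rw [ha] at h2
    cases hs : side u with
    | true => exact absurd hs.symm h2
    | false => rfl
  have hBu : ∀ u ∈ nb F b, s(u, b) ∈ F ∧ side u = true ∧ blk s(b, u) = blk s(u, b) := by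
    intro u hu
    have h1 := A4_mem_nb hu
    have h3 : s(u, b) ∈ F := by rw [Sym2.eq_swap]; exact h1
    refine ⟨h3, ?_, by rw [Sym2.eq_swap]⟩
    have h2 := hside b u h1
    rw [hb] at h2
    cases hs : side u with
    | true => rfl
    | false => exact absurd hs.symm h2
  have hle : ∀ a b, s(a, b) ∈ F → side a = true → side b = false → blk s(a, b) ≤ 4 := by
    intro a b h1 h2 h3
    obtain ⟨h4, h5, h6⟩ := hblk a b h1 h2 h3
    by_cases hbW : b ∈ W
    · have := h4 hbW
      omega
    · by_cases haW : a ∈ W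
      · have := h5 haW
        omega
      · have := h6 haW hbW
        omega
  have hA4 : ∀ u ∈ nb F a, blk s(a, u) ≤ 4 := fun u hu => hle a u (hAu u hu).1 ha (hAu u hu).2
  have hB4 : ∀ u ∈ nb F b, blk s(b, u) ≤ 4 := fun u hu => by
    rw [(hBu u hu).2.2]
    exact hle u b (hBu u hu).1 (hBu u hu).2.1 hb
  have hsame_a : ((nb F a).filter (fun u => blk s(a, u) = blk s(a, b))).card =
      ld F blk a (blk s(a, b)) := (A4_ld _ _ _ _).symm
  have hsame_b : ((nb F b).filter (fun u => blk s(b, u) = blk s(a, b))).card =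
      ld F blk b (blk s(a, b)) := (A4_ld _ _ _ _).symm
  rw [hsame_a, hsame_b, A4_lt F blk a, A4_gt F blk b _ 4 hB4]
  -- real bounds
  obtain ⟨a1, a2, a3⟩ := hall a
  obtain ⟨b1, b2, b3⟩ := hall b
  have key : ∀ (X Y Z T : ℕ), ((X : ℝ) + Y + Z ≤ (T : ℝ)) → ∀ Z' : ℕ, ((X : ℝ) + Y + Z' ≤ (T : ℝ)) →
      X + Y + max Z Z' ≤ T := by
    intro X Y Z T h Z' h'
    have h1 : X + Y + Z ≤ T := by exact_mod_cast h
    have h2 : X + Y + Z' ≤ T := by exact_mod_cast h'
    omega
  obtain ⟨h4, h5, h6⟩ := hblk a b hab ha hb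
  have hnn : ∀ v o, (0 : ℝ) ≤ (ld F blk v o : ℝ) := fun v o => Nat.cast_nonneg _
  by_cases hbW : b ∈ W
  · have haW : a ∉ W := hW b a hba hbW
    have hb3 : ld F blk b 3 = 0 := A4_zero F blk b 3 fun u hu => by
      rw [(hBu u hu).2.2]
      have := (hblk u b (hBu u hu).1 (hBu u hu).2.1 hb).1 hbW
      omega
    have hb4 : ld F blk b 4 = 0 := A4_zero F blk b 4 fun u hu => by
      rw [(hBu u hu).2.2]
      have := (hblk u b (hBu u hu).1 (hBu u hu).2.1 hb).1 hbW
      omega
    obtain ⟨a0, a4⟩ := hNW a haW
    rcases h4 hbW with h | h | h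
    · have hL := hWburst b a hba hbW (Or.inl (by rw [hswap, h]))
      rw [Sym2.eq_swap] at hL
      have hdg := A4_dg F blk b 4 hB4
      rw [h]
      simp only [Finset.sum_range_succ, Finset.sum_range_zero, hb3, hb4] at hdg ⊢
      rw [show Finset.Ioc 0 4 = {1, 2, 3, 4} from rfl]
      have hdg' : (dg F b : ℝ) = ld F blk b 0 + ld F blk b 1 + ld F blk b 2 := by
        rw [hdg]; push_cast; ring
      have hs : ∑ o ∈ ({1, 2, 3, 4} : Finset ℕ), ld F blk b o = ld F blk b 1 + ld F blk b 2 := by
        simp [hb3, hb4]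
      rw [hs]
      refine key _ _ _ _ ?_ _ ?_
      · push_cast
        have := hnn b 0
        linarith
      · push_cast
        linarith
    · have hL := hWmid b a hba hbW (by rw [hswap, h]) (by rw [hswap, h]; norm_num)
      rw [Sym2.eq_swap] at hL
      rw [h, show Finset.Ioc 1 4 = {2, 3, 4} from rfl]
      have hs : ∑ o ∈ ({2, 3, 4} : Finset ℕ), ld F blk b o = ld F blk b 2 := by
        simp [hb3, hb4]
      rw [hs]
      simp only [Finset.sum_range_succ, Finset.sum_range_zero]
      refine key _ _ _ _ ?_ _ ?_ <;>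
      · push_cast
        linarith
    · have hL := hWmid b a hba hbW (by rw [hswap, h]; norm_num) (by rw [hswap, h]; norm_num)
      rw [Sym2.eq_swap] at hL
      rw [h, show Finset.Ioc 2 4 = {3, 4} from rfl]
      have hs : ∑ o ∈ ({3, 4} : Finset ℕ), ld F blk b o = 0 := by
        simp [hb3, hb4]
      rw [hs]
      simp only [Finset.sum_range_succ, Finset.sum_range_zero]
      refine key _ _ _ _ ?_ _ ?_ <;>
      · push_cast
        linarith
  · obtain ⟨b0, b4⟩ := hNW b hbW
    by_cases haW : a ∈ W
    · have ha0 : ld F blk a 0 = 0 := A4_zero F blk a 0 fun u hu => by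
        have := (hblk a u (hAu u hu).1 ha (hAu u hu).2).2.1 haW
        omega
      have ha1 : ld F blk a 1 = 0 := A4_zero F blk a 1 fun u hu => by
        have := (hblk a u (hAu u hu).1 ha (hAu u hu).2).2.1 haW
        omega
      rcases h5 haW with h | h | h
      · have hL := hWmid a b hab haW (by rw [h]; norm_num) (by rw [h]; norm_num)
        rw [h, show Finset.Ioc 2 4 = {3, 4} from rfl]
        have hs : ∑ o ∈ ({3, 4} : Finset ℕ), ld F blk b o = ld F blk b 3 + ld F blk b 4 := by
          simp
        rw [hs]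
        simp only [Finset.sum_range_succ, Finset.sum_range_zero, ha0, ha1]
        refine key _ _ _ _ ?_ _ ?_ <;>
        · push_cast
          linarith
      · have hL := hWmid a b hab haW (by rw [h]; norm_num) (by rw [h])
        rw [h, show Finset.Ioc 3 4 = {4} from rfl]
        simp only [Finset.sum_range_succ, Finset.sum_range_zero, ha0, ha1, Finset.sum_singleton]
        refine key _ _ _ _ ?_ _ ?_ <;>
        · push_cast
          linarith
      · have hL := hWburst a b hab haW (Or.inr h)
        have hdg := A4_dg F blk a 4 hA4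
        rw [h, show Finset.Ioc 4 4 = ∅ from rfl]
        simp only [Finset.sum_range_succ, Finset.sum_range_zero, ha0, ha1,
          Finset.sum_empty] at hdg ⊢
        have hdg' : (dg F a : ℝ) = ld F blk a 2 + ld F blk a 3 + ld F blk a 4 := by
          rw [hdg]; push_cast; ring
        refine key _ _ _ _ ?_ _ ?_
        · push_cast
          linarith
        · push_cast
          have := hnn a 4
          linarith
    · obtain ⟨a0, a4⟩ := hNW a haW
      have hL := hNN a b hab haW hbW
      rcases h6 haW hbW with h | h | h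
      · rw [h, show Finset.Ioc 1 4 = {2, 3, 4} from rfl]
        have hs : ∑ o ∈ ({2, 3, 4} : Finset ℕ), ld F blk b o =
            ld F blk b 2 + ld F blk b 3 + ld F blk b 4 := by
          simp [add_assoc]
        rw [hs]
        simp only [Finset.sum_range_succ, Finset.sum_range_zero]
        refine key _ _ _ _ ?_ _ ?_ <;>
        · push_cast
          linarith
      · rw [h, show Finset.Ioc 2 4 = {3, 4} from rfl]
        have hs : ∑ o ∈ ({3, 4} : Finset ℕ), ld F blk b o = ld F blk b 3 + ld F blk b 4 := by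
          simp
        rw [hs]
        simp only [Finset.sum_range_succ, Finset.sum_range_zero]
        refine key _ _ _ _ ?_ _ ?_ <;>
        · push_cast
          linarith
      · rw [h, show Finset.Ioc 3 4 = {4} from rfl]
        simp only [Finset.sum_range_succ, Finset.sum_range_zero, Finset.sum_singleton]
        refine key _ _ _ _ ?_ _ ?_ <;>
        · push_cast
          linarith

end

end Pool.Agent.Helper15.LR
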