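import Pool.Agent.Helper15.LR.Defs

set_option autoImplicit false

open Finset Filter
open scoped Classical Topology

namespace Pool.Agent.Helper15.LR

noncomputable section

namespace B2

theorem omg_nonneg {K : ℕ} {ρ : ℝ} (h0 : 0 < ρ) (h1 : ρ < 1) (k : Option (Fin K)) :
    0 ≤ omg K ρ k := by
  cases k with
  | none => exact h0.le
  | some j =>
    show 0 ≤ (1 - ρ) / K
    exact div_nonneg (by linarith) (Nat.cast_nonneg K)

theorem omg_sum {K : ℕ} {ρ : ℝ} (hK : 1 ≤ K) : ∑ k : Option (Fin K), omg K ρ k = 1 := by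
  have hK' : (K : ℝ) ≠ 0 := by
    have : 0 < K := hK
    positivity
  rw [Fintype.sum_option]
  show ρ + ∑ _i : Fin K, (1 - ρ) / K = 1
  rw [Finset.sum_const, Finset.card_univ, Fintype.card_fin, nsmul_eq_mul]
  field_simp
  ring

/-- singleton -/
def sg {κ : Type} (o : κ) : Set κ := {o}

theorem mem_sg {κ : Type} (o k : κ) : k ∈ sg o ↔ k = o := Iff.rfl

theorem card_eq {κ : Type} (N : ℕ) (L : Finset ℕ) (hL : ∀ x ∈ L, x < N) (x : Fin N → κ)
    (g : ℕ → κ) (hg : ∀ c : Fin N, g c = x c) (o : κ) :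
    ((univ.filter (fun c : Fin N => (c : ℕ) ∈ L)).filter (fun c => x c ∈ sg o)).card =
      (L.filter (fun y => g y = o)).card := by
  rw [← Finset.card_image_of_injective _ Fin.val_injective]
  congr 1
  ext y
  simp only [Finset.mem_image, Finset.mem_filter, Finset.mem_univ, true_and,
    mem_sg]
  constructor
  · rintro ⟨c, ⟨h1, h2⟩, rfl⟩
    exact ⟨h1, by rw [hg, h2]⟩
  · rintro ⟨h1, h2⟩
    refine ⟨⟨y, hL y h1⟩, ⟨h1, ?_⟩, rfl⟩
    rw [← hg]
    exact h2

theorem card_T (N : ℕ) (L : Finset ℕ) (hL : ∀ x ∈ L, x < N) :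
    (univ.filter (fun c : Fin N => (c : ℕ) ∈ L)).card = L.card := by
  rw [← Finset.card_image_of_injective _ Fin.val_injective]
  congr 1
  ext y
  simp only [Finset.mem_image, Finset.mem_filter, Finset.mem_univ, true_and]
  constructor
  · rintro ⟨c, h1, rfl⟩
    exact h1
  · intro h1
    exact ⟨⟨y, hL y h1⟩, h1, rfl⟩

theorem sum_w {K : ℕ} {ρ : ℝ} {N : ℕ} (T : Finset (Fin N)) (o : Option (Fin K)) :
    ∑ _i ∈ T, ∑ k : Option (Fin K), (if k ∈ sg o then omg K ρ k else 0) =
      omg K ρ o * T.card := by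
  simp only [mem_sg, Finset.sum_ite_eq', Finset.mem_univ, if_true,
    Finset.sum_const, nsmul_eq_mul]
  ring

/-- one deviation event -/
theorem dev (h2 : Chernoff_stmt) {K : ℕ} {ρ : ℝ} (hK : 1 ≤ K) (hρ : 0 < ρ) (hρ1 : ρ < 1)
    {N m : ℕ} (L : Finset ℕ) (hL : ∀ x ∈ L, x < N) (hm : L.card = m) (o : Option (Fin K))
    (M s : ℝ) (hM : 0 < M) (hs : 0 ≤ s) (hsM : s ≤ M) (hle : omg K ρ o * m ≤ M) :
    PP (fun (_ : Fin N) (k : Option (Fin K)) => omg K ρ k)
      {x | s ≤ |((((univ.filter (fun c : Fin N => (c : ℕ) ∈ L)).filter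
        (fun c => x c ∈ sg o)).card : ℕ) : ℝ) - omg K ρ o * m|} ≤
      2 * Real.exp (-(s ^ 2) / (4 * M)) := by
  have h := h2 (Fin N) (Option (Fin K)) (fun _ k => omg K ρ k)
    (univ.filter (fun c : Fin N => (c : ℕ) ∈ L)) (fun _ => sg o) M s
    (fun _ k => omg_nonneg hρ hρ1 k) (fun _ => omg_sum hK) hM hs hsM
    (by rw [sum_w, card_T N L hL, hm]; exact hle)
  rw [sum_w, card_T N L hL, hm] at h
  exact h

theorem exists_bound {ι : Type} [Fintype ι] (L : ι → Finset ℕ) :
    ∃ N : ℕ, ∀ i, ∀ x ∈ L i, x < N := by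
  refine ⟨(univ.biUnion L).sup id + 1, fun i x hx => ?_⟩
  have : x ≤ (univ.biUnion L).sup id :=
    Finset.le_sup (f := id) (Finset.mem_biUnion.mpr ⟨i, mem_univ i, hx⟩)
  omega

theorem tendsto_exp {c : ℝ} (hc : 0 < c) :
    Tendsto (fun n : ℕ => Real.exp (-(c * Real.log n))) atTop (𝓝 0) := by
  have h1 : Tendsto (fun n : ℕ => c * Real.log n) atTop atTop :=
    (Real.tendsto_log_atTop.comp tendsto_natCast_atTop_atTop).const_mul_atTop hc
  exact Real.tendsto_exp_neg_atTop_nhds_zero.comp h1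

theorem SS_small {c : ℝ} (hc : 0 < c) : ∀ᶠ n : ℕ in atTop, SS n ≤ c * n := by
  have h1 : Tendsto (fun x : ℝ => Real.log x / x) atTop (𝓝 0) := by
    have := Real.tendsto_pow_log_div_mul_add_atTop 1 0 1 one_ne_zero
    simpa using this
  have h2 : ∀ᶠ x : ℝ in atTop, Real.log x / x ≤ c ^ 2 := by
    have := h1.eventually (gt_mem_nhds (show (0 : ℝ) < c ^ 2 by positivity))
    exact this.mono fun x hx => hx.le
  have h3 := tendsto_natCast_atTop_atTop.eventually h2
  filter_upwards [h3, eventually_ge_atTop 1] with n hn hn1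
  have hn0 : (0 : ℝ) < n := by exact_mod_cast hn1
  unfold SS
  rw [div_le_iff₀ hn0] at hn
  apply Real.sqrt_le_iff.mpr
  refine ⟨by positivity, ?_⟩
  calc (n : ℝ) * Real.log n ≤ n * (c ^ 2 * n) := by
        apply mul_le_mul_of_nonneg_left hn hn0.le
    _ = (c * n) ^ 2 := by ring

theorem SS_sq {n : ℕ} (hn : 1 ≤ n) : SS n ^ 2 = n * Real.log n := by
  unfold SS
  apply Real.sq_sqrt
  exact mul_nonneg (Nat.cast_nonneg n) (Real.log_nonneg (by exact_mod_cast hn))

end B2

open B2

theorem B2 (h1 : Avoid_stmt) (h2 : Chernoff_stmt) (h3 : Markov_stmt) : ColorSplit_stmt := by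
  intro K ε ρ η hK hε hε1 hρ hρε hη
  have hKr : (1 : ℝ) ≤ K := by exact_mod_cast hK
  have hK0 : (0 : ℝ) < K := by linarith
  have hρ1 : ρ < 1 := by
    have : ε ^ 2 ≤ 1 := by nlinarith
    have : ε ^ 2 / 10 ^ 6 ≤ 1 / 10 ^ 6 := by
      apply div_le_div_of_nonneg_right this; norm_num
    have h10 : (1 : ℝ) / 10 ^ 6 < 1 := by norm_num
    linarith
  have hc3 : 0 < ε ^ 2 / (256 * K ^ 2) := by positivity
  have hT : Tendsto (fun n : ℕ => 2 * K * Real.exp (-((17 / 4 : ℝ) * Real.log n)) +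
      2 * Real.exp (-((23 : ℝ) * Real.log n)) +
      2 * K / η * Real.exp (-(ε ^ 2 / (256 * K ^ 2) * Real.log n))) atTop (𝓝 0) := by
    have e1 := (tendsto_exp (show (0 : ℝ) < 17 / 4 by norm_num)).const_mul (2 * (K : ℝ))
    have e2 := (tendsto_exp (show (0 : ℝ) < 23 by norm_num)).const_mul (2 : ℝ)
    have e3 := (tendsto_exp hc3).const_mul (2 * (K : ℝ) / η)
    have := (e1.add e2).add e3
    simpa using this
  filter_upwards [hT.eventually (gt_mem_nhds zero_lt_one), eventually_ge_atTop 2,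
    SS_small (show (0 : ℝ) < 1 / 5 by norm_num), SS_small (show (0 : ℝ) < ρ by positivity)]
    with n hn hn2 hS1 hS2
  intro ι _ m L hι hm hL
  have hn0 : (0 : ℝ) < n := by
    have : 0 < n := by omega
    exact_mod_cast this
  have hlog : 0 ≤ Real.log n := Real.log_nonneg (by
    have : 1 ≤ n := by omega
    exact_mod_cast this)
  have hSS : SS n ^ 2 = n * Real.log n := SS_sq (by omega)
  have hSS0 : 0 ≤ SS n := Real.sqrt_nonneg _
  have hmr : (m : ℝ) ≤ n := by exact_mod_cast hm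
  have hm0 : (0 : ℝ) ≤ m := Nat.cast_nonneg m
  have hιr : (Fintype.card ι : ℝ) ≤ n ^ 2 := by exact_mod_cast hι
  have hα : (1 - ρ) / K ≤ 1 := by
    rw [div_le_one hK0]; linarith
  have hα0 : 0 ≤ (1 - ρ) / K := div_nonneg (by linarith) hK0.le
  have hαm : (1 - ρ) / K * m ≤ n := by nlinarith
  obtain ⟨N, hN⟩ := exists_bound L
  -- the counting functions
  set X : ι → Option (Fin K) → (Fin N → Option (Fin K)) → ℝ := fun i o x =>
    ((((univ.filter (fun c : Fin N => (c : ℕ) ∈ L i)).filter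
        (fun c => x c ∈ sg o)).card : ℕ) : ℝ) with hX
  set w : Fin N → Option (Fin K) → ℝ := fun _ k => omg K ρ k with hw
  have hw0 : ∀ i k, 0 ≤ w i k := fun _ k => omg_nonneg hρ hρ1 k
  have hw1 : ∀ i, ∑ k, w i k = 1 := fun _ => omg_sum hK
  set s3 : ℝ := ε * SS n / (8 * K) with hs3
  have hs30 : 0 ≤ s3 := by positivity
  have hs3n : s3 ≤ n := by
    rw [hs3, div_le_iff₀ (by positivity)]
    nlinarith
  set E1 : ι × Fin K → Set (Fin N → Option (Fin K)) := fun p =>
    {x | 5 * SS n ≤ |X p.1 (some p.2) x - omg K ρ (some p.2) * m|} with hE1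
  set E2 : ι → Set (Fin N → Option (Fin K)) := fun i =>
    {x | ε * SS n / 100 ≤ |X i none x - omg K ρ none * m|} with hE2
  set E3 : ι × Fin K → Set (Fin N → Option (Fin K)) := fun p =>
    {x | s3 ≤ |X p.1 (some p.2) x - omg K ρ (some p.2) * m|} with hE3
  set E4 : Set (Fin N → Option (Fin K)) :=
    {x | η * n ^ 2 ≤ ((univ.filter (fun p => x ∈ E3 p)).card : ℝ)} with hE4
  have hcard : (Fintype.card (ι × Fin K) : ℝ) ≤ n ^ 2 * K := by
    rw [Fintype.card_prod, Fintype.card_fin]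
    push_cast
    exact mul_le_mul_of_nonneg_right hιr hK0.le
  have b1 : ∀ p, PP w (E1 p) ≤ 2 * Real.exp (-((25 / 4 : ℝ) * Real.log n)) := by
    intro p
    have := dev h2 hK hρ hρ1 (L p.1) (hN p.1) (hL p.1) (some p.2) n (5 * SS n) hn0
      (by positivity) (by linarith) hαm
    refine this.trans (le_of_eq ?_)
    congr 2
    rw [mul_pow, hSS]
    field_simp
    ring
  have b2 : ∀ i, PP w (E2 i) ≤ 2 * Real.exp (-((25 : ℝ) * Real.log n)) := by
    intro i
    have := dev h2 hK hρ hρ1 (L i) (hN i) (hL i) none (ρ * n) (ε * SS n / 100) (by positivity)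
      (by positivity) (by nlinarith) (by
        show ρ * (m : ℝ) ≤ ρ * n
        exact mul_le_mul_of_nonneg_left hmr hρ.le)
    refine this.trans ?_
    apply mul_le_mul_of_nonneg_left _ (by norm_num)
    apply Real.exp_le_exp.mpr
    rw [neg_div]
    apply neg_le_neg
    rw [div_pow, mul_pow, hSS, le_div_iff₀ (by positivity)]
    have : 10 ^ 6 * ρ ≤ ε ^ 2 := by
      rw [le_div_iff₀ (by norm_num)] at hρε
      linarith
    have h5 : 0 ≤ (n : ℝ) * Real.log n := by positivity
    nlinarith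
  have b3 : ∀ p, PP w (E3 p) ≤ 2 * Real.exp (-(ε ^ 2 / (256 * K ^ 2) * Real.log n)) := by
    intro p
    have := dev h2 hK hρ hρ1 (L p.1) (hN p.1) (hL p.1) (some p.2) n s3 hn0
      hs30 hs3n hαm
    refine this.trans (le_of_eq ?_)
    congr 2
    rw [hs3, div_pow, mul_pow, hSS]
    field_simp
    ring
  have b4 : PP w E4 ≤ 2 * K / η * Real.exp (-(ε ^ 2 / (256 * K ^ 2) * Real.log n)) := by
    refine (h3 (Fin N) (Option (Fin K)) (ι × Fin K) w E3 (η * n ^ 2) hw0 hw1
      (by positivity)).trans ?_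
    rw [div_le_iff₀ (by positivity)]
    calc ∑ p, PP w (E3 p) ≤ ∑ _p : ι × Fin K,
          2 * Real.exp (-(ε ^ 2 / (256 * K ^ 2) * Real.log n)) := sum_le_sum fun p _ => b3 p
      _ = (Fintype.card (ι × Fin K) : ℝ) *
          (2 * Real.exp (-(ε ^ 2 / (256 * K ^ 2) * Real.log n))) := by
          rw [sum_const, card_univ, nsmul_eq_mul]
      _ ≤ (n ^ 2 * K) * (2 * Real.exp (-(ε ^ 2 / (256 * K ^ 2) * Real.log n))) :=
          mul_le_mul_of_nonneg_right hcard (by positivity)
      _ = _ := by field_simp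
  have exp_split : ∀ c : ℝ, (n : ℝ) ^ 2 * Real.exp (-(c * Real.log n)) =
      Real.exp (-((c - 2) * Real.log n)) := by
    intro c
    have : (n : ℝ) ^ 2 = Real.exp (2 * Real.log n) := by
      rw [mul_comm, Real.exp_mul, Real.exp_log hn0]
      norm_num
    rw [this, ← Real.exp_add]
    congr 1
    ring
  obtain ⟨x, hx, -⟩ := h1 (Fin N) (Option (Fin K)) ((ι × Fin K) ⊕ (ι ⊕ Unit)) w
    (Sum.elim E1 (Sum.elim E2 fun _ => E4)) hw0 hw1 (by
      rw [Fintype.sum_sum_type, Fintype.sum_sum_type]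
      simp only [Sum.elim_inl, Sum.elim_inr]
      have s1 : ∑ p, PP w (E1 p) ≤ 2 * K * Real.exp (-((17 / 4 : ℝ) * Real.log n)) := by
        calc ∑ p, PP w (E1 p) ≤ ∑ _p : ι × Fin K,
              2 * Real.exp (-((25 / 4 : ℝ) * Real.log n)) := sum_le_sum fun p _ => b1 p
          _ = (Fintype.card (ι × Fin K) : ℝ) *
              (2 * Real.exp (-((25 / 4 : ℝ) * Real.log n))) := by
              rw [sum_const, card_univ, nsmul_eq_mul]
          _ ≤ (n ^ 2 * K) * (2 * Real.exp (-((25 / 4 : ℝ) * Real.log n))) :=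
              mul_le_mul_of_nonneg_right hcard (by positivity)
          _ = 2 * K * ((n : ℝ) ^ 2 * Real.exp (-((25 / 4 : ℝ) * Real.log n))) := by ring
          _ = _ := by rw [exp_split]; norm_num
      have s2 : ∑ i, PP w (E2 i) ≤ 2 * Real.exp (-((23 : ℝ) * Real.log n)) := by
        calc ∑ i, PP w (E2 i) ≤ ∑ _i : ι,
              2 * Real.exp (-((25 : ℝ) * Real.log n)) := sum_le_sum fun i _ => b2 i
          _ = (Fintype.card ι : ℝ) *
              (2 * Real.exp (-((25 : ℝ) * Real.log n))) := by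
              rw [sum_const, card_univ, nsmul_eq_mul]
          _ ≤ (n ^ 2) * (2 * Real.exp (-((25 : ℝ) * Real.log n))) :=
              mul_le_mul_of_nonneg_right hιr (by positivity)
          _ = 2 * ((n : ℝ) ^ 2 * Real.exp (-((25 : ℝ) * Real.log n))) := by ring
          _ = _ := by rw [exp_split]; norm_num
      have s3' : ∑ _u : Unit, PP w E4 = PP w E4 := by simp
      rw [s3']
      linarith)
  have hx1 : ∀ p, x ∉ E1 p := fun p => hx (Sum.inl p)
  have hx2 : ∀ i, x ∉ E2 i := fun i => hx (Sum.inr (Sum.inl i))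
  have hx4 : x ∉ E4 := hx (Sum.inr (Sum.inr ()))
  set g : ℕ → Option (Fin K) := fun y => if h : y < N then x ⟨y, h⟩ else none with hg
  have hgx : ∀ c : Fin N, g c = x c := by
    intro c
    simp [hg]
  have hXg : ∀ i o, X i o x = (((L i).filter (fun y => g y = o)).card : ℝ) := by
    intro i o
    rw [hX]
    show (((_ : Finset (Fin N)).card : ℕ) : ℝ) = _
    rw [card_eq N (L i) (hN i) x g hgx o]
    exact congrArg (fun z : Finset ℕ => (z.card : ℝ)) (by ext y; simp only [Finset.mem_filter])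
  refine ⟨g, ?_, ?_, ?_⟩
  · intro i j
    have := hx1 (i, j)
    simp only [hE1, Set.mem_ofPred_eq, not_le] at this
    rw [hXg] at this
    exact this.le
  · intro i
    have := hx2 i
    simp only [hE2, Set.mem_ofPred_eq, not_le] at this
    rw [hXg] at this
    exact this.le
  · simp only [hE4, Set.mem_ofPred_eq, not_le] at hx4
    refine le_trans ?_ hx4.le
    have hsub : (univ.filter (fun i => ∃ j, (((L i).filter (fun x => g x = some j)).card : ℝ)
            < (1 - ρ) / K * m - ε * SS n / (8 * K))) ⊆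
        (univ.filter (fun p => x ∈ E3 p)).image Prod.fst := by
      intro i hi
      rw [mem_filter] at hi
      obtain ⟨-, j, hj⟩ := hi
      rw [mem_image]
      refine ⟨(i, j), ?_, rfl⟩
      rw [mem_filter]
      refine ⟨mem_univ _, ?_⟩
      simp only [hE3, Set.mem_ofPred_eq]
      rw [hXg]
      have h4 : s3 ≤ -((((L i).filter (fun y => g y = some j)).card : ℝ) -
          omg K ρ (some j) * m) := by
        show s3 ≤ -((((L i).filter (fun y => g y = some j)).card : ℝ) - (1 - ρ) / K * m)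
        rw [hs3]
        linarith
      exact h4.trans (neg_le_abs _)
    have := (card_le_card hsub).trans card_image_le
    exact Nat.cast_le.mpr this

end

end Pool.Agent.Helper15.LR
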