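import Pool.Agent.Helper15.LR.Defs

set_option autoImplicit false

/-!
B3 (`Cells_stmt`): random sign vectors.
-/

open Finset Filter
open scoped Classical Topology

namespace Pool.Agent.Helper15.LR

noncomputable section

namespace B3aux

theorem hoeff' (hH : Hoeffding_stmt) {ι κ : Type} [Fintype ι] [Fintype κ] (w : ι → κ → ℝ)
    (hw0 : ∀ i k, 0 ≤ w i k) (hw1 : ∀ i, ∑ k, w i k = 1) (T : Finset ι) (c : ι → κ → ℝ)
    (b s N : ℝ) (hb : 0 < b) (hs : 0 < s) (hc : ∀ i k, |c i k| ≤ b)
    (hc0 : ∀ i, ∑ k, w i k * c i k = 0) (hN : (T.card : ℝ) ≤ N) :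
    PP w {x | s ≤ |∑ i ∈ T, c i (x i)|} ≤ 2 * Real.exp (-(s ^ 2) / (2 * N * b ^ 2)) := by
  rcases T.eq_empty_or_nonempty with hT | hT
  · subst hT
    have h0 : PP w {x | s ≤ |∑ i ∈ (∅ : Finset ι), c i (x i)|} = 0 := by
      unfold PP
      apply Finset.sum_eq_zero
      intro x _
      rw [if_neg]
      simp only [Set.mem_ofPred_eq, Finset.sum_empty, abs_zero, not_le]
      exact hs
    rw [h0]; positivity
  · have hcard : (0 : ℝ) < T.card := by exact_mod_cast hT.card_pos
    refine (hH ι κ w T c b s hw0 hw1 hb hs.le hc hc0).trans ?_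
    have : -(s ^ 2) / (2 * (T.card : ℝ) * b ^ 2) ≤ -(s ^ 2) / (2 * N * b ^ 2) := by
      rw [neg_div, neg_div, neg_le_neg_iff]
      apply div_le_div_of_nonneg_left (by positivity) (by positivity)
      have : (0 : ℝ) < b ^ 2 := by positivity
      nlinarith
    have := Real.exp_le_exp.mpr this
    linarith

/-- the uniform weight on `Fin K → Bool` -/
def uw (V : Type) (K : ℕ) : V → (Fin K → Bool) → ℝ := fun _ _ => (1 / 2 : ℝ) ^ K

theorem uw_sum (V : Type) (K : ℕ) (v : V) : ∑ k, uw V K v k = 1 := by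
  unfold uw
  rw [Finset.sum_const, Finset.card_univ]
  simp

/-- number of vectors with a given difference pattern -/
theorem one_pat {K : ℕ} (z : Fin K → Bool) (X : Finset (Fin K)) :
    (univ.filter (fun k : Fin K → Bool => univ.filter (fun j => z j ≠ k j) = X)).card = 1 := by
  rw [Finset.card_eq_one]
  refine ⟨fun j => if j ∈ X then !(z j) else z j, ?_⟩
  ext k
  simp only [Finset.mem_filter, Finset.mem_univ, true_and, Finset.mem_singleton]
  constructor
  · intro h
    funext j
    have hj : (z j ≠ k j) ↔ j ∈ X := by rw [← h]; simp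
    by_cases hX : j ∈ X
    · rw [if_pos hX]
      have := hj.mpr hX
      cases hz : z j <;> cases hk : k j <;> simp_all
    · rw [if_neg hX]
      have : ¬ (z j ≠ k j) := fun hh => hX (hj.mp hh)
      rw [not_not] at this; exact this.symm
  · intro h
    subst h
    ext j
    simp only [Finset.mem_filter, Finset.mem_univ, true_and]
    by_cases hX : j ∈ X
    · simp only [hX, iff_true]; cases z j <;> simp
    · simp [hX]

theorem sum_sgn {K : ℕ} (j : Fin K) : ∑ k : Fin K → Bool, sgn (k j) = 0 := by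
  apply Finset.sum_involution (fun (k : Fin K → Bool) _ => Function.update k j (!(k j)))
  · intro k _
    simp only [Function.update_self]
    unfold sgn
    cases k j <;> simp
  · intro k _ _ h
    have := congrFun h j
    simp at this
  · intro k _; exact Finset.mem_univ _
  · intro k _
    funext i
    by_cases hi : i = j
    · subst hi; simp
    · simp [hi]

theorem sum_sgn2 {K : ℕ} (i j : Fin K) (hij : i ≠ j) :
    ∑ k : Fin K → Bool, sgn (k i) * sgn (k j) = 0 := by
  apply Finset.sum_involution (fun (k : Fin K → Bool) _ => Function.update k j (!(k j)))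
  · intro k _
    rw [Function.update_self, Function.update_of_ne hij]
    unfold sgn
    cases k j <;> cases k i <;> simp
  · intro k _ _ h
    have := congrFun h j
    simp at this
  · intro k _; exact Finset.mem_univ _
  · intro k _
    funext l
    by_cases hl : l = j
    · subst hl; simp
    · simp [hl]

theorem abs_sgn (b : Bool) : |sgn b| = 1 := by unfold sgn; cases b <;> simp

end B3aux

open B3aux

theorem B3 (hA : Avoid_stmt) (hH : Hoeffding_stmt) : Cells_stmt := by
  intro K δ κ hδ hκ
  -- asymptotics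
  have e1 : Tendsto (fun n : ℕ => (2 : ℝ) * ((n : ℝ) ^ 3 * 4 ^ K + K + K ^ 2) *
      Real.exp (-(δ ^ 2 * n / 2))) atTop (𝓝 0) := by
    have hc : (0 : ℝ) < δ ^ 2 / 2 := by positivity
    have t3 : Tendsto (fun n : ℕ => ((n : ℝ) ^ 3) * Real.exp (-(δ ^ 2 * n / 2))) atTop (𝓝 0) := by
      have := (Real.tendsto_pow_mul_exp_neg_atTop_nhds_zero 3).comp
        ((tendsto_natCast_atTop_atTop (R := ℝ)).const_mul_atTop hc)
      have h2 := this.const_mul ((1 / (δ ^ 2 / 2)) ^ 3)
      rw [mul_zero] at h2
      refine h2.congr (fun n => ?_)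
      simp only [Function.comp]
      have : (δ ^ 2 / 2 : ℝ) ≠ 0 := ne_of_gt hc
      rw [show -(δ ^ 2 / 2 * (n : ℝ)) = -(δ ^ 2 * n / 2) by ring, mul_pow]
      field_simp
    have t0 : Tendsto (fun n : ℕ => Real.exp (-(δ ^ 2 * n / 2))) atTop (𝓝 0) := by
      have := (Real.tendsto_pow_mul_exp_neg_atTop_nhds_zero 0).comp
        ((tendsto_natCast_atTop_atTop (R := ℝ)).const_mul_atTop hc)
      refine this.congr (fun n => ?_)
      simp only [Function.comp, pow_zero, one_mul]
      congr 1; ring
    have h := ((t3.const_mul (2 * 4 ^ K)).add (t0.const_mul (2 * ((K : ℝ) + K ^ 2))))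
    rw [mul_zero, mul_zero, add_zero] at h
    refine h.congr (fun n => ?_)
    ring
  have e2 : Tendsto (fun n : ℕ => (2 : ℝ) * K * Real.exp (-(κ ^ 2 * Real.log n / 2))) atTop
      (𝓝 0) := by
    have hl : Tendsto (fun n : ℕ => κ ^ 2 / 2 * Real.log n) atTop atTop :=
      (Real.tendsto_log_atTop.comp (tendsto_natCast_atTop_atTop (R := ℝ))).const_mul_atTop
        (by positivity)
    have := (Real.tendsto_exp_neg_atTop_nhds_zero.comp hl).const_mul (2 * (K : ℝ))
    rw [mul_zero] at this
    refine this.congr (fun n => ?_)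
    simp only [Function.comp]
    congr 2; ring
  have h1 := e1.eventually_lt_const (show (0 : ℝ) < 1 / 2 by norm_num)
  have h2 := e2.eventually_lt_const (show (0 : ℝ) < 1 / 2 by norm_num)
  filter_upwards [h1, h2, eventually_ge_atTop 2] with n hn1 hn2 hn
  intro V _ ι _ T c τ hV hι _ hτ
  have hnR : (2 : ℝ) ≤ n := by exact_mod_cast hn
  have hnpos : (0 : ℝ) < n := by linarith
  have hlog : 0 < Real.log n := Real.log_pos (by linarith)
  set w := uw V K with hw
  have hw0 : ∀ v k, 0 ≤ w v k := fun v k => by rw [hw]; unfold uw; positivity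
  have hw1 : ∀ v, ∑ k, w v k = 1 := fun v => uw_sum V K v
  have hδn : 0 < δ * n := by positivity
  have hSS : 0 < SS n := by unfold SS; exact Real.sqrt_pos.mpr (by positivity)
  have hSS2 : SS n ^ 2 = n * Real.log n := by unfold SS; exact Real.sq_sqrt (by positivity)
  let J := (ι × Finset (Fin K) × (Fin K → Bool)) ⊕ (Fin K ⊕ ((Fin K × Fin K) ⊕ Fin K))
  let E : J → Set (V → Fin K → Bool) := fun q => match q with
    | Sum.inl (i, X, z) => {x | δ * n ≤ |∑ u ∈ T i,
        ((if univ.filter (fun j => z j ≠ x u j) = X then (1 : ℝ) else 0) - (1 / 2) ^ K)|}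
    | Sum.inr (Sum.inl j) => {x | δ * n ≤ |∑ v, sgn (x v j)|}
    | Sum.inr (Sum.inr (Sum.inl (i, j))) => {x | i ≠ j ∧ δ * n ≤ |∑ v, sgn (x v i) * sgn (x v j)|}
    | Sum.inr (Sum.inr (Sum.inr j)) => {x | κ * n * SS n ≤ |∑ v, sgn (x v j) * τ j v|}
  have hTn : ∀ S : Finset V, (S.card : ℝ) ≤ n := fun S => by
    rw [← hV]; exact_mod_cast Finset.card_le_univ S
  have rw1 : -((δ * n) ^ 2) / (2 * (n : ℝ) * 1 ^ 2) = -(δ ^ 2 * n / 2) := by
    field_simp
  -- bounds
  have bd1 : ∀ i X z, PP w (E (Sum.inl (i, X, z))) ≤ 2 * Real.exp (-(δ ^ 2 * n / 2)) := by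
    intro i X z
    have := hoeff' hH w hw0 hw1 (T i)
      (fun _ k => (if univ.filter (fun j => z j ≠ k j) = X then (1 : ℝ) else 0) - (1 / 2) ^ K)
      1 (δ * n) n one_pos hδn (by
        intro _ k
        have hp : (0 : ℝ) ≤ (1 / 2 : ℝ) ^ K := by positivity
        have hp1 : (1 / 2 : ℝ) ^ K ≤ 1 := pow_le_one₀ (by norm_num) (by norm_num)
        split_ifs
        · rw [abs_le]; constructor <;> linarith
        · rw [abs_le]; constructor <;> linarith) (by
        intro v
        have : ∑ k, w v k * ((if univ.filter (fun j => z j ≠ k j) = X then (1 : ℝ) else 0)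
            - (1 / 2) ^ K) = (1 / 2 : ℝ) ^ K * ∑ k : Fin K → Bool,
            (if univ.filter (fun j => z j ≠ k j) = X then (1 : ℝ) else 0) -
            (1 / 2 : ℝ) ^ K * ∑ k, w v k := by
          rw [Finset.mul_sum, Finset.mul_sum, ← Finset.sum_sub_distrib]
          apply Finset.sum_congr rfl
          intro k _
          simp only [hw, uw]; ring
        rw [this, hw1, Finset.sum_boole, one_pat]
        simp) (hTn _)
    rw [rw1] at this
    exact this
  have bd2 : ∀ j, PP w (E (Sum.inr (Sum.inl j))) ≤ 2 * Real.exp (-(δ ^ 2 * n / 2)) := by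
    intro j
    have := hoeff' hH w hw0 hw1 univ (fun _ k => sgn (k j)) 1 (δ * n) n one_pos hδn
      (fun _ k => (abs_sgn _).le) (by
        intro v
        have : ∑ k, w v k * sgn (k j) = (1 / 2 : ℝ) ^ K * ∑ k : Fin K → Bool, sgn (k j) := by
          rw [Finset.mul_sum]
          simp only [hw, uw]
        rw [this, sum_sgn, mul_zero]) (hTn _)
    rw [rw1] at this
    exact this
  have bd3 : ∀ i j, PP w (E (Sum.inr (Sum.inr (Sum.inl (i, j))))) ≤
      2 * Real.exp (-(δ ^ 2 * n / 2)) := by
    intro i j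
    by_cases hij : i = j
    · have : PP w (E (Sum.inr (Sum.inr (Sum.inl (i, j))))) = 0 := by
        unfold PP
        apply Finset.sum_eq_zero
        intro x _
        rw [if_neg]
        intro hx
        exact hx.1 hij
      rw [this]; positivity
    · have := hoeff' hH w hw0 hw1 univ (fun _ k => sgn (k i) * sgn (k j)) 1 (δ * n) n one_pos hδn
        (fun _ k => by rw [abs_mul, abs_sgn, abs_sgn]; norm_num) (by
          intro v
          have : ∑ k, w v k * (sgn (k i) * sgn (k j)) =
              (1 / 2 : ℝ) ^ K * ∑ k : Fin K → Bool, sgn (k i) * sgn (k j) := by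
            rw [Finset.mul_sum]
            simp only [hw, uw]
          rw [this, sum_sgn2 i j hij, mul_zero]) (hTn _)
      rw [rw1] at this
      refine le_trans (le_of_eq ?_) this
      congr 1
      ext x
      simp only [E, Set.mem_ofPred_eq]
      exact ⟨fun h => h.2, fun h => ⟨hij, h⟩⟩
  have bd4 : ∀ j, PP w (E (Sum.inr (Sum.inr (Sum.inr j)))) ≤
      2 * Real.exp (-(κ ^ 2 * Real.log n / 2)) := by
    intro j
    have := hoeff' hH w hw0 hw1 univ (fun v k => sgn (k j) * τ j v) n (κ * n * SS n) n hnpos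
      (by positivity) (fun v k => by rw [abs_mul, abs_sgn, one_mul]; exact hτ j v) (by
        intro v
        have : ∑ k, w v k * (sgn (k j) * τ j v) =
            (1 / 2 : ℝ) ^ K * τ j v * ∑ k : Fin K → Bool, sgn (k j) := by
          rw [Finset.mul_sum]
          apply Finset.sum_congr rfl
          intro k _
          simp only [hw, uw]; ring
        rw [this, sum_sgn, mul_zero]) (hTn _)
    have rw2 : -((κ * n * SS n) ^ 2) / (2 * (n : ℝ) * (n : ℝ) ^ 2) =
        -(κ ^ 2 * Real.log n / 2) := by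
      rw [mul_pow, hSS2]
      field_simp
    rw [rw2] at this
    exact this
  have hsum : ∑ q, PP w (E q) < 1 := by
    rw [Fintype.sum_sum_type, Fintype.sum_sum_type, Fintype.sum_sum_type]
    have s1 : ∑ q : ι × Finset (Fin K) × (Fin K → Bool), PP w (E (Sum.inl q)) ≤
        ((n : ℝ) ^ 3 * 4 ^ K) * (2 * Real.exp (-(δ ^ 2 * n / 2))) := by
      refine (Finset.sum_le_card_nsmul _ _ (2 * Real.exp (-(δ ^ 2 * n / 2)))
        (fun q _ => bd1 q.1 q.2.1 q.2.2)).trans ?_
      rw [nsmul_eq_mul]
      apply mul_le_mul_of_nonneg_right _ (by positivity)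
      rw [Finset.card_univ, Fintype.card_prod, Fintype.card_prod]
      have : Fintype.card (Finset (Fin K)) * Fintype.card (Fin K → Bool) = 4 ^ K := by
        rw [Fintype.card_finset, Fintype.card_fun, Fintype.card_fin, Fintype.card_bool,
          ← mul_pow]; norm_num
      rw [this]
      push_cast
      apply mul_le_mul_of_nonneg_right _ (by positivity)
      exact_mod_cast hι
    have s2 : ∑ j : Fin K, PP w (E (Sum.inr (Sum.inl j))) ≤
        (K : ℝ) * (2 * Real.exp (-(δ ^ 2 * n / 2))) := by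
      refine (Finset.sum_le_card_nsmul _ _ _ (fun j _ => bd2 j)).trans ?_
      rw [nsmul_eq_mul, Finset.card_univ, Fintype.card_fin]
    have s3 : ∑ q : Fin K × Fin K, PP w (E (Sum.inr (Sum.inr (Sum.inl q)))) ≤
        ((K : ℝ) ^ 2) * (2 * Real.exp (-(δ ^ 2 * n / 2))) := by
      refine (Finset.sum_le_card_nsmul _ _ _ (fun q _ => bd3 q.1 q.2)).trans ?_
      rw [nsmul_eq_mul, Finset.card_univ, Fintype.card_prod, Fintype.card_fin]
      push_cast
      exact le_of_eq (by ring)
    have s4 : ∑ j : Fin K, PP w (E (Sum.inr (Sum.inr (Sum.inr j)))) ≤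
        (K : ℝ) * (2 * Real.exp (-(κ ^ 2 * Real.log n / 2))) := by
      refine (Finset.sum_le_card_nsmul _ _ _ (fun j _ => bd4 j)).trans ?_
      rw [nsmul_eq_mul, Finset.card_univ, Fintype.card_fin]
    have : ((n : ℝ) ^ 3 * 4 ^ K) * (2 * Real.exp (-(δ ^ 2 * n / 2))) +
        ((K : ℝ) * (2 * Real.exp (-(δ ^ 2 * n / 2))) +
        (((K : ℝ) ^ 2) * (2 * Real.exp (-(δ ^ 2 * n / 2))) +
        (K : ℝ) * (2 * Real.exp (-(κ ^ 2 * Real.log n / 2))))) < 1 := by
      have h3 : (2 : ℝ) * ((n : ℝ) ^ 3 * 4 ^ K + K + K ^ 2) * Real.exp (-(δ ^ 2 * n / 2)) +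
        (2 : ℝ) * K * Real.exp (-(κ ^ 2 * Real.log n / 2)) < 1 := by linarith
      nlinarith [h3]
    exact lt_of_le_of_lt (add_le_add s1 (add_le_add s2 (add_le_add s3 s4))) this
  obtain ⟨x, hx, _⟩ := hA V (Fin K → Bool) J w E hw0 hw1 hsum
  refine ⟨x, ?_, ?_, ?_, ?_⟩
  · intro i X
    have := hx (Sum.inl (i, X, x (c i)))
    simp only [E, Set.mem_ofPred_eq, not_le] at this
    rw [Finset.sum_sub_distrib, Finset.sum_const, nsmul_eq_mul, Finset.sum_boole] at this
    have h3 : ((T i).filter (fun u => pat x (c i) u = X)).card =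
        ((T i).filter (fun u => univ.filter (fun j => x (c i) j ≠ x u j) = X)).card := rfl
    rw [h3, mul_comm ((1 / 2 : ℝ) ^ K)]
    exact this.le
  · intro j
    have := hx (Sum.inr (Sum.inl j))
    simp only [E, Set.mem_ofPred_eq, not_le] at this
    exact this.le
  · intro i j hij
    have := hx (Sum.inr (Sum.inr (Sum.inl (i, j))))
    simp only [E, Set.mem_ofPred_eq, not_and, not_le] at this
    exact (this hij).le
  · intro j
    have := hx (Sum.inr (Sum.inr (Sum.inr j)))
    simp only [E, Set.mem_ofPred_eq, not_le] at this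
    exact this.le

end

end Pool.Agent.Helper15.LR
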