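import Pool.Agent.Helper15.LR.B1a
import Pool.Agent.Helper15.LR.B1b

set_option autoImplicit false

/-!
B4: random labelling of the edges.
-/

open Finset Filter
open scoped Classical Topology

namespace Pool.Agent.Helper15.LR

noncomputable section

theorem B4_asymp (c A : ℝ) (hc : 0 < c) (hA : 0 ≤ A) :
    ∀ᶠ n : ℕ in atTop, 3 ≤ n ∧ A * n * Real.exp (-(c * SS n)) < 1 := by
  have h1 : Tendsto (fun n : ℕ => c * Real.sqrt (n : ℝ)) atTop atTop :=
    Tendsto.const_mul_atTop hc (Real.tendsto_sqrt_atTop.comp tendsto_natCast_atTop_atTop)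
  have h2 := (Real.tendsto_pow_mul_exp_neg_atTop_nhds_zero 2).comp h1
  have h3 : (0 : ℝ) < c ^ 2 / (A + 1) := by positivity
  filter_upwards [h2.eventually (gt_mem_nhds h3), eventually_ge_atTop 3] with n hn hn3
  refine ⟨hn3, ?_⟩
  have hn' : (c * Real.sqrt n) ^ 2 * Real.exp (-(c * Real.sqrt n)) < c ^ 2 / (A + 1) := hn
  rw [mul_pow, Real.sq_sqrt (Nat.cast_nonneg n)] at hn'
  have hnpos : (3 : ℝ) ≤ n := by exact_mod_cast hn3
  have hlog : 1 ≤ Real.log n := by
    rw [Real.le_log_iff_exp_le (by linarith)]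
    have := Real.exp_one_lt_d9
    linarith
  have hSS : Real.sqrt n ≤ SS n := by
    unfold SS
    apply Real.sqrt_le_sqrt
    nlinarith
  have h4 : Real.exp (-(c * SS n)) ≤ Real.exp (-(c * Real.sqrt n)) := by
    apply Real.exp_le_exp.2
    nlinarith
  have h5 : (n : ℝ) * Real.exp (-(c * Real.sqrt n)) < 1 / (A + 1) := by
    have h6 : c ^ 2 * ((n : ℝ) * Real.exp (-(c * Real.sqrt n))) < c ^ 2 * (1 / (A + 1)) := by
      calc _ = c ^ 2 * n * Real.exp (-(c * Real.sqrt n)) := by ring
        _ < c ^ 2 / (A + 1) := hn'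
        _ = _ := by ring
    exact lt_of_mul_lt_mul_left h6 (by positivity)
  calc A * n * Real.exp (-(c * SS n)) ≤ A * n * Real.exp (-(c * Real.sqrt n)) := by
        exact mul_le_mul_of_nonneg_left h4 (by positivity)
    _ = A * (n * Real.exp (-(c * Real.sqrt n))) := by ring
    _ ≤ A * (1 / (A + 1)) := mul_le_mul_of_nonneg_left h5.le hA
    _ < 1 := by
        rw [mul_one_div, div_lt_one (by linarith)]
        linarith

theorem B4_Sampling : Sampling_stmt := by
  intro B _ C κ hC hκ
  set M₀ : ℝ := max C κ with hM₀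
  have hM₀pos : 0 < M₀ := lt_of_lt_of_le hC (le_max_left _ _)
  have hc : 0 < κ ^ 2 / (4 * M₀) := by positivity
  filter_upwards [B4_asymp (κ ^ 2 / (4 * M₀)) (2 * Fintype.card B) hc (by positivity)]
    with n hn V _ π hV hπ hπ1 hπ0 hdeg
  obtain ⟨hn3, hn⟩ := hn
  have hSSpos : 0 < SS n := by
    unfold SS
    apply Real.sqrt_pos.2
    have h3 : (3 : ℝ) ≤ n := by exact_mod_cast hn3
    have : 0 < Real.log n := Real.log_pos (by linarith)
    positivity
  -- weights
  set w : Sym2 V → Option B → ℝ := fun e o => match o with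
    | some b => π e b
    | none => 1 - ∑ b, π e b with hw
  have hw0 : ∀ e o, 0 ≤ w e o := by
    intro e o
    cases o with
    | none => simp only [hw]; linarith [hπ1 e]
    | some b => exact hπ e b
  have hw1 : ∀ e, ∑ o, w e o = 1 := by
    intro e
    rw [Fintype.sum_option]
    simp only [hw]
    ring
  obtain ⟨Q, hQ⟩ : ∃ Q : B → Set (Option B), ∀ b k, k ∈ Q b ↔ k = some b :=
    ⟨fun b => {some b}, fun b k => Iff.rfl⟩
  set T : V → Finset (Sym2 V) := fun v => univ.image (fun u => s(v, u)) with hT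
  have hinj : ∀ v : V, Function.Injective (fun u : V => s(v, u)) := by
    intro v u u' h
    exact Sym2.congr_right.1 h
  have hsum : ∀ v (f : Sym2 V → ℝ), ∑ e ∈ T v, f e = ∑ u, f s(v, u) := by
    intro v f
    exact Finset.sum_image fun u _ u' _ h => hinj v h
  have hmean : ∀ v b, ∑ e ∈ T v, ∑ k, (if k ∈ Q b then w e k else 0) =
      ∑ u, π s(v, u) b := by
    intro v b
    rw [hsum]
    refine Finset.sum_congr rfl fun u _ => ?_
    rw [Finset.sum_eq_single (some b)]
    · rw [if_pos ((hQ b _).2 rfl)]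
    · intro o _ ho
      rw [if_neg]
      exact fun h => ho ((hQ b o).1 h)
    · intro h
      exact absurd (Finset.mem_univ _) h
  set E : V × B → Set (Sym2 V → Option B) := fun j => {x | κ * SS n ≤
    |(((T j.1).filter (fun e => x e ∈ Q j.2)).card : ℝ) -
      ∑ e ∈ T j.1, ∑ k, (if k ∈ Q j.2 then w e k else 0)|} with hE
  have hPP : ∀ j, PP w (E j) ≤ 2 * Real.exp (-(κ ^ 2 / (4 * M₀) * SS n)) := by
    intro j
    have h1 := B1b_Chernoff (Sym2 V) (Option B) w (T j.1) (fun _ => Q j.2) (M₀ * SS n)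
      (κ * SS n) hw0 hw1 (by positivity) (by positivity)
      (mul_le_mul_of_nonneg_right (le_max_right _ _) hSSpos.le) (by
        rw [hmean]
        exact (hdeg j.1 j.2).trans (mul_le_mul_of_nonneg_right (le_max_left _ _) hSSpos.le))
    refine h1.trans (le_of_eq ?_)
    congr 2
    field_simp
  have hlt : ∑ j, PP w (E j) < 1 := by
    calc ∑ j, PP w (E j) ≤ ∑ _j : V × B, 2 * Real.exp (-(κ ^ 2 / (4 * M₀) * SS n)) :=
          Finset.sum_le_sum fun j _ => hPP j
      _ = 2 * Fintype.card B * n * Real.exp (-(κ ^ 2 / (4 * M₀) * SS n)) := by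
          rw [Finset.sum_const, nsmul_eq_mul, Finset.card_univ, Fintype.card_prod, hV]
          push_cast
          ring
      _ < 1 := hn
  obtain ⟨x, hx, hx'⟩ := B1a_Avoid (Sym2 V) (Option B) (V × B) w E hw0 hw1 hlt
  refine ⟨x, ?_, ?_⟩
  · intro e b he
    have := hx' e
    rw [he] at this
    exact this
  · intro v b
    have h1 := hx (v, b)
    have h2 : ¬ κ * SS n ≤ |(((T v).filter (fun e => x e ∈ Q b)).card : ℝ)
      - ∑ e ∈ T v, ∑ k, (if k ∈ Q b then w e k else 0)| := h1
    rw [hmean] at h2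
    have h3 : ((T v).filter (fun e => x e ∈ Q b)).card =
        (univ.filter (fun u => x s(v, u) = some b)).card := by
      rw [Finset.filter_image, Finset.card_image_of_injective _ (hinj v)]
      simp only [hQ]
    rw [h3] at h2
    exact (not_le.1 h2).le

end

end Pool.Agent.Helper15.LR
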