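import Pool.Agent.Helper95.LR.C1b

set_option autoImplicit false

open Finset Filter
open scoped Classical Topology

namespace Pool.Agent.Helper15.LR

namespace C1

noncomputable section

theorem ev_log_le (C : ℝ) : ∀ᶠ n : ℕ in atTop, C * Real.log n ≤ Real.sqrt n := by
  have h1 := isLittleO_log_rpow_atTop (r := 1 / 2) (by norm_num)
  have h2 := h1.def (c := 1 / (|C| + 1)) (by positivity)
  have h3 := tendsto_natCast_atTop_atTop (R := ℝ) |>.eventually h2
  filter_upwards [h3, eventually_ge_atTop 1] with n hn hn1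
  have hlog : 0 ≤ Real.log n := Real.log_natCast_nonneg n
  rw [Real.norm_of_nonneg hlog, ← Real.sqrt_eq_rpow, Real.norm_of_nonneg (Real.sqrt_nonneg _)] at hn
  have h4 : (|C| + 1) * Real.log n ≤ Real.sqrt n := by
    calc (|C| + 1) * Real.log n ≤ (|C| + 1) * (1 / (|C| + 1) * Real.sqrt n) :=
          mul_le_mul_of_nonneg_left hn (by positivity)
      _ = Real.sqrt n := by field_simp
  have h5 : C * Real.log n ≤ |C| * Real.log n := mul_le_mul_of_nonneg_right (le_abs_self C) hlog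
  nlinarith

theorem ev_le_log (C : ℝ) : ∀ᶠ n : ℕ in atTop, C ≤ Real.log n :=
  (Real.tendsto_log_atTop.comp (tendsto_natCast_atTop_atTop (R := ℝ))).eventually_ge_atTop C

theorem sum_half (J : ℕ) : ∑ i ∈ range J, (1 / 2 : ℝ) ^ (i + 1) = 1 - (1 / 2) ^ J := by
  induction J with
  | zero => simp
  | succ J ih => rw [sum_range_succ, ih]; ring

theorem sq_succ (j : ℕ) : Real.sqrt ((1 / 2 : ℝ) ^ (j + 1)) ≤ 3 / 4 * Real.sqrt ((1 / 2 : ℝ) ^ j) := by
  rw [show (3 / 4 : ℝ) = Real.sqrt (9 / 16) by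
    rw [show (9 / 16 : ℝ) = (3 / 4) ^ 2 by norm_num, Real.sqrt_sq (by norm_num)],
    ← Real.sqrt_mul (by norm_num)]
  apply Real.sqrt_le_sqrt
  rw [pow_succ]
  have : (0 : ℝ) < (1 / 2) ^ j := by positivity
  nlinarith

theorem sum_sqrt (J : ℕ) : ∑ i ∈ range J, Real.sqrt ((1 / 2 : ℝ) ^ (i + 1)) ≤
    3 - 3 * Real.sqrt ((1 / 2 : ℝ) ^ J) := by
  induction J with
  | zero => simp
  | succ J ih =>
    rw [sum_range_succ]
    have := sq_succ J
    linarith

theorem sum_sqrt_le (J : ℕ) : ∑ i ∈ range J, Real.sqrt ((1 / 2 : ℝ) ^ (i + 1)) ≤ 3 := by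
  have := sum_sqrt J
  have h2 := Real.sqrt_nonneg ((1 / 2 : ℝ) ^ J)
  linarith

theorem mono_list {V : Type} (F : Set (Sym2 V)) (L L' : Sym2 V → Finset ℕ)
    (h : ∀ e ∈ F, L' e ⊆ L e) (hL : LC F L') : LC F L := by
  obtain ⟨f, h1, h2⟩ := hL
  exact ⟨f, fun e he => h e he (h1 e he), h2⟩

/-- the deterministic assembly -/
theorem assemble (hG : BlockGalvin_stmt) {V : Type} [Fintype V] (F : Set (Sym2 V))
    (L : Sym2 V → Finset ℕ) (J : ℕ) (σ : V → Fin J → Bool) (g : ℕ → ℕ) (b : ℕ → ℝ)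
    (h1 : ∀ v a j, j ≤ J → (((nb F v).filter (fun u => lev a (σ u) = j)).card : ℝ) ≤ b j)
    (h2 : ∀ e ∈ F, ∀ j < J, b j ≤ (((L e).filter (fun c => g c = j)).card : ℝ))
    (h3 : ∀ e ∈ F, 2 * b J ≤ (((L e).filter (fun c => g c = J)).card : ℝ)) : LC F L := by
  set lv : Sym2 V → ℕ := Sym2.lift ⟨fun u v => lev (σ u) (σ v), fun u v => lev_comm _ _⟩ with hlv
  have hlv' : ∀ u v, lv s(u, v) = lev (σ u) (σ v) := fun u v => rfl
  have hnb : ∀ (v : V) (j : ℕ), j ≤ J → ((nb {e | e ∈ F ∧ lv e = j} v).card : ℝ) ≤ b j := by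
    intro v j hj
    refine le_trans ?_ (h1 v (σ v) j hj)
    norm_cast
    apply card_le_card
    intro u hu
    rw [mem_nb] at hu
    rw [mem_filter, mem_nb]
    exact ⟨hu.1, hu.2⟩
  refine combine F L (J + 1) lv g ?_ ?_
  · intro e _
    induction e using Sym2.ind with
    | _ u v =>
      rw [hlv']
      have := lev_le (σ u) (σ v)
      omega
  · intro j hj
    rcases Nat.lt_succ_iff_lt_or_eq.mp hj with hj | hj
    · refine hG V _ (fun v => σ v ⟨j, hj⟩) _ (fun _ => 0) ?_ ?_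
      · intro u v huv
        exact lev_ne _ _ j hj huv.2
      · intro a c hac _ _
        simp only [lt_self_iff_false, filter_false, card_empty, zero_add, filter_true]
        apply max_le
        · have := (hnb a j hj.le).trans (h2 s(a, c) hac.1 j hj)
          exact_mod_cast this
        · have := (hnb c j hj.le).trans (h2 s(a, c) hac.1 j hj)
          exact_mod_cast this
    · subst hj
      apply greedy
      intro u v huv
      have h4 := hnb u j le_rfl
      have h5 := hnb v j le_rfl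
      have h6 := h3 s(u, v) huv.1
      have : ((nb {e | e ∈ F ∧ lv e = j} u).card : ℝ) + ((nb {e | e ∈ F ∧ lv e = j} v).card : ℝ)
          ≤ (((L s(u, v)).filter (fun c => g c = j)).card : ℝ) := by linarith
      unfold dg
      exact_mod_cast this

end

end C1

open C1 in
/-- C1: the leftover level. -/
theorem C1 (hG : BlockGalvin_stmt) (hAv : Avoid_stmt) (hCh : Chernoff_stmt) : Leftover_stmt := by
  intro ε hε
  obtain ⟨A, hAdef⟩ : ∃ A : ℝ, A = ε / 40 := ⟨_, rfl⟩
  have hA : 0 < A := by rw [hAdef]; positivity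
  have hεA : ε = 40 * A := by rw [hAdef]; ring
  obtain ⟨ρ, hρdef⟩ : ∃ ρ : ℝ, ρ = A ^ 2 / 20 := ⟨_, rfl⟩
  have hρ : 0 < ρ := by rw [hρdef]; positivity
  have hρA : 20 * ρ = A ^ 2 := by rw [hρdef]; ring
  refine ⟨ρ, hρ, ?_⟩
  filter_upwards [ev_log_le (40 / ρ), ev_log_le (2 * ε / ρ), ev_le_log ((8 * ρ / ε) ^ 2),
    ev_le_log 1, eventually_ge_atTop 16] with n hn1 hn2 hn3 hn4 hn5
  intro V _ F L D hV hloop hD0 hD hdeg hL
  -- basic quantities
  obtain ⟨y, hy⟩ : ∃ y : ℝ, y = Real.sqrt n := ⟨_, rfl⟩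
  obtain ⟨l, hl⟩ : ∃ l : ℝ, l = Real.log n := ⟨_, rfl⟩
  obtain ⟨S, hS⟩ : ∃ S : ℝ, S = SS n := ⟨_, rfl⟩
  have hnR : (16 : ℝ) ≤ n := by exact_mod_cast hn5
  have hy0 : 0 ≤ y := by rw [hy]; exact Real.sqrt_nonneg _
  have hyn : y ^ 2 = n := by rw [hy]; exact Real.sq_sqrt (by linarith)
  have hy4 : 4 ≤ y := by
    by_contra h
    push Not at h
    nlinarith
  rw [← hy, ← hl] at hn1 hn2
  rw [← hl] at hn3 hn4
  rw [← hS] at hL
  have hS2 : S ^ 2 = n * l := by
    rw [hS, hl]; unfold SS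
    exact Real.sq_sqrt (by positivity)
  have hS0 : 0 ≤ S := by rw [hS]; exact Real.sqrt_nonneg _
  have hl40 : 40 * l ≤ ρ * y := by
    have := mul_le_mul_of_nonneg_left hn1 hρ.le
    have h2 : ρ * (40 / ρ * l) = 40 * l := by field_simp
    linarith
  have hl2 : 2 * ε * l ≤ ρ * y := by
    have := mul_le_mul_of_nonneg_left hn2 hρ.le
    have h2 : ρ * (2 * ε / ρ * l) = 2 * ε * l := by field_simp
    linarith
  have hyS : y ≤ S := by
    by_contra h
    push Not at h
    nlinarith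
  have hSy : S ≤ y * l := by
    by_contra h
    push Not at h
    have h1 : (y * l) ^ 2 < S ^ 2 := by
      apply pow_lt_pow_left₀ h (by positivity) (by norm_num)
    have h2 : (y * l) ^ 2 = n * l * l := by rw [mul_pow, hyn]; ring
    nlinarith
  have hρy : ρ * y ≤ 5 * A * S := by
    have h1 : (8 * ρ / ε * y) ^ 2 ≤ S ^ 2 := by
      rw [mul_pow, hyn, hS2]
      nlinarith
    have h2 : 8 * ρ / ε * y ≤ S := by
      by_contra h
      push Not at h
      have := pow_lt_pow_left₀ h hS0 (n := 2) (by norm_num)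
      linarith
    have h3 : ε * (8 * ρ / ε * y) ≤ ε * S := mul_le_mul_of_nonneg_left h2 hε.le
    have h4 : ε * (8 * ρ / ε * y) = 8 * ρ * y := by field_simp
    rw [h4, hεA] at h3
    linarith
  -- the number of levels
  obtain ⟨k, hk1, hk2⟩ := exists_nat_pow_near (x := y) (y := 2) (by linarith) (by norm_num)
  obtain ⟨J, hJ⟩ : ∃ J : ℕ, J = k + 1 := ⟨_, rfl⟩
  have hJ1 : y < 2 ^ J := by rw [hJ]; exact hk2
  have hJ2 : (2 : ℝ) ^ J ≤ 2 * y := by rw [hJ, pow_succ]; linarith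
  have hhalf : (1 / 2 : ℝ) ^ J * 2 ^ J = 1 := by rw [← mul_pow]; norm_num
  have hhp : (0 : ℝ) < (1 / 2) ^ J := by positivity
  have hh1 : (1 / 2 : ℝ) ^ J * y ≤ 1 := by
    calc (1 / 2 : ℝ) ^ J * y ≤ (1 / 2 : ℝ) ^ J * 2 ^ J := mul_le_mul_of_nonneg_left hJ1.le hhp.le
      _ = 1 := hhalf
  have hh2 : 1 ≤ (1 / 2 : ℝ) ^ J * (2 * y) := by
    calc (1 : ℝ) = (1 / 2 : ℝ) ^ J * 2 ^ J := hhalf.symm
      _ ≤ _ := mul_le_mul_of_nonneg_left hJ2 hhp.le
  have hJle : (J : ℝ) + 1 ≤ 2 ^ J := by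
    have : J + 1 ≤ 2 ^ J := Nat.lt_two_pow_self
    exact_mod_cast this
  have hexp : Real.exp (-(5 * l)) * (n : ℝ) ^ 5 = 1 := by
    rw [hl, show (-(5 * Real.log n) : ℝ) = Real.log (((n : ℝ) ^ 5)⁻¹) by
      rw [Real.log_inv, Real.log_pow]; norm_num]
    rw [Real.exp_log (by positivity)]
    have : (n : ℝ) ≠ 0 := by positivity
    field_simp
  have hexp0 : 0 < Real.exp (-(5 * l)) := Real.exp_pos _
  -- lower bound for q J j * ρ * n
  have hqn : ∀ j, ρ * y / 2 ≤ q J j * (ρ * n) := by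
    intro j
    have h1 := q_ge J j
    have h2 : (1 / 2 : ℝ) ^ J * (ρ * n) ≤ q J j * (ρ * n) :=
      mul_le_mul_of_nonneg_right h1 (by positivity)
    refine le_trans ?_ h2
    rw [← hyn]
    have h3 : (ρ * y / 2) * 1 ≤ (ρ * y / 2) * ((1 / 2 : ℝ) ^ J * (2 * y)) :=
      mul_le_mul_of_nonneg_left hh2 (by positivity)
    calc ρ * y / 2 ≤ (ρ * y / 2) * ((1 / 2 : ℝ) ^ J * (2 * y)) := by linarith
      _ = (1 / 2 : ℝ) ^ J * (ρ * y ^ 2) := by ring
  have hs1 : ∀ j, Real.sqrt (4 * (q J j * (ρ * n)) * (5 * l)) = A * Real.sqrt (q J j) * S := by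
    intro j
    have h1 : 4 * (q J j * (ρ * n)) * (5 * l) = (A * S) ^ 2 * q J j := by
      rw [mul_pow, hS2, ← hρA]; ring
    rw [h1, Real.sqrt_mul (by positivity), Real.sqrt_sq (by positivity)]
    ring
  have hs2 : ∀ j, Real.sqrt (4 * (4 * (q J j * (ρ * n))) * (5 * l)) = 2 * A * Real.sqrt (q J j) * S := by
    intro j
    have h1 : 4 * (4 * (q J j * (ρ * n))) * (5 * l) = (2 * A * S) ^ 2 * q J j := by
      rw [mul_pow, hS2, mul_pow, ← hρA]; ring
    rw [h1, Real.sqrt_mul (by positivity), Real.sqrt_sq (by positivity)]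
    ring
  have hs3 : Real.sqrt (4 * (2 * (ρ * n)) * (5 * l)) ≤ 2 * A * S := by
    have h1 : 4 * (2 * (ρ * n)) * (5 * l) ≤ (2 * A * S) ^ 2 := by
      rw [mul_pow, hS2, mul_pow, ← hρA]
      have : 0 ≤ ρ * n * l := by positivity
      nlinarith
    calc Real.sqrt (4 * (2 * (ρ * n)) * (5 * l)) ≤ Real.sqrt ((2 * A * S) ^ 2) :=
          Real.sqrt_le_sqrt h1
      _ = 2 * A * S := Real.sqrt_sq (by positivity)
  -- signs
  obtain ⟨σ, hσ⟩ := signs hAv hCh F J D (ρ * n) (5 * l) hD (by positivity) (by positivity) hdeg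
    (by
      have := hqn J
      have h1 : q J J = (1 / 2) ^ J := by unfold q; rw [if_neg (lt_irrefl _)]
      rw [h1] at this
      linarith)
    (by
      rw [hV]
      have h1 : (2 : ℝ) ^ J * (J + 1) ≤ (2 * y) * (2 * y) := by
        apply mul_le_mul hJ2 (hJle.trans hJ2) (by positivity) (by positivity)
      have h2 : (n : ℝ) * (2 ^ J * (J + 1)) * (2 * Real.exp (-(5 * l))) ≤
          n * ((2 * y) * (2 * y)) * (2 * Real.exp (-(5 * l))) := by
        apply mul_le_mul_of_nonneg_right _ (by positivity)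
        exact mul_le_mul_of_nonneg_left h1 (by positivity)
      have h3 : (n : ℝ) * ((2 * y) * (2 * y)) * (2 * Real.exp (-(5 * l))) =
          8 * (n ^ 2 * Real.exp (-(5 * l))) := by
        rw [show (2 * y) * (2 * y) = 4 * y ^ 2 by ring, hyn]; ring
      have h4 : (n : ℝ) ^ 2 * Real.exp (-(5 * l)) * n ^ 3 = 1 := by
        rw [← hexp]; ring
      have h5 : (16 : ℝ) ^ 3 ≤ (n : ℝ) ^ 3 := pow_le_pow_left₀ (by norm_num) hnR 3
      have h6 : (0 : ℝ) < (n : ℝ) ^ 2 * Real.exp (-(5 * l)) := by positivity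
      nlinarith)
  -- truncated lists
  obtain ⟨m, hm⟩ : ∃ m : ℕ, m = ⌈D + ε * S⌉₊ := ⟨_, rfl⟩
  have hm1 : D + ε * S ≤ m := by rw [hm]; exact Nat.le_ceil _
  have hm2 : (m : ℝ) ≤ D + ε * S + 1 := by
    rw [hm]; exact (Nat.ceil_lt_add_one (by positivity)).le
  have hSpos : 0 < S := by linarith
  have hmpos : 0 < m := by
    have : (0 : ℝ) < m := lt_of_lt_of_le (by positivity) hm1
    exact_mod_cast this
  have hLm : ∀ e ∈ F, m ≤ (L e).card := by
    intro e he
    rw [hm]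
    exact Nat.ceil_le.mpr (hL e he)
  have hLex : ∀ e : Sym2 V, ∃ L' : Finset ℕ, e ∈ F → L' ⊆ L e ∧ L'.card = m := by
    intro e
    by_cases he : e ∈ F
    · obtain ⟨L', h1, h2⟩ := Finset.exists_subset_card_eq (hLm e he)
      exact ⟨L', fun _ => ⟨h1, h2⟩⟩
    · exact ⟨∅, fun h => absurd h he⟩
  choose L' hL' using hLex
  -- colours
  obtain ⟨t0, ht0⟩ : ∃ t0 : ℕ → ℝ, ∀ j, t0 j = (1 / 2) ^ (j + 1) * D +
      3 * A * Real.sqrt ((1 / 2) ^ (j + 1)) * S := ⟨_, fun _ => rfl⟩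
  have ht0n : ∀ j, 0 ≤ t0 j := by intro j; rw [ht0]; positivity
  have hsum0 : ∑ j ∈ range J, t0 j ≤ (1 - (1 / 2) ^ J) * D + 9 * A * S := by
    have h1 : ∑ j ∈ range J, t0 j = (∑ j ∈ range J, (1 / 2 : ℝ) ^ (j + 1)) * D +
        3 * A * (∑ j ∈ range J, Real.sqrt ((1 / 2) ^ (j + 1))) * S := by
      rw [Finset.sum_mul, Finset.mul_sum, Finset.sum_mul, ← Finset.sum_add_distrib]
      exact Finset.sum_congr rfl (fun j _ => ht0 j)
    rw [h1, sum_half]
    have h2 := sum_sqrt_le J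
    have h3 : 3 * A * (∑ j ∈ range J, Real.sqrt ((1 / 2) ^ (j + 1))) * S ≤ 3 * A * 3 * S := by
      apply mul_le_mul_of_nonneg_right _ hS0
      exact mul_le_mul_of_nonneg_left h2 (by positivity)
    linarith
  obtain ⟨t, ht⟩ : ∃ t : ℕ → ℝ, ∀ j, t j = if j < J then t0 j else m - ∑ i ∈ range J, t0 i :=
    ⟨_, fun _ => rfl⟩
  have htlt : ∀ j, j < J → t j = t0 j := fun j hj => by rw [ht, if_pos hj]
  have htJ : t J = m - ∑ i ∈ range J, t0 i := by rw [ht, if_neg (lt_irrefl _)]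
  have htJl : (1 / 2) ^ J * D + 31 * A * S ≤ t J := by
    rw [htJ]
    rw [hεA] at hm1
    linarith
  have htJu : t J ≤ 2 * (ρ * n) := by
    have h1 : 0 ≤ ∑ i ∈ range J, t0 i := Finset.sum_nonneg (fun i _ => ht0n i)
    have h2 : ε * S ≤ ρ * n / 2 := by
      have h3 : ε * S ≤ ε * (y * l) := mul_le_mul_of_nonneg_left hSy hε.le
      have h4 : (2 * ε * l) * y ≤ (ρ * y) * y := mul_le_mul_of_nonneg_right hl2 hy0
      rw [← hyn]
      nlinarith
    have h3 : 1 ≤ ρ * n / 2 := by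
      rw [← hyn]
      nlinarith
    rw [htJ]
    linarith
  obtain ⟨Mb, hMb⟩ : ∃ Mb : ℕ → ℝ, ∀ j, Mb j = if j < J then 4 * (q J j * (ρ * n))
      else 2 * (ρ * n) := ⟨_, fun _ => rfl⟩
  have hMlt : ∀ j, j < J → Mb j = 4 * (q J j * (ρ * n)) := fun j hj => by rw [hMb, if_pos hj]
  have hMJ : Mb J = 2 * (ρ * n) := by rw [hMb, if_neg (lt_irrefl _)]
  have hqlt : ∀ j, j < J → q J j = (1 / 2) ^ (j + 1) := fun j hj => by unfold q; rw [if_pos hj]
  obtain ⟨g, hg⟩ := colours hAv hCh F (fun e => L' e) m hmpos (fun e => (hL' e e.2).2) J t Mb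
    (5 * l)
    (by
      intro j hj
      rcases lt_or_eq_of_le hj with hj | hj
      · rw [htlt j hj]; exact ht0n j
      · rw [hj]; exact le_trans (by positivity) htJl)
    (by
      rw [sum_range_succ, htJ, Finset.sum_congr rfl (fun j hj => htlt j (mem_range.mp hj))]
      ring)
    (by positivity)
    (by
      intro j hj
      rcases lt_or_eq_of_le hj with hj | hj
      · rw [hMlt j hj]
        have := q_pos J j
        positivity
      · rw [hj, hMJ]; positivity)
    (by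
      intro j hj
      rcases lt_or_eq_of_le hj with hj | hj
      · rw [htlt j hj, hMlt j hj, ht0, hqlt j hj]
        have h1 : (1 / 2 : ℝ) ^ (j + 1) * D ≤ (1 / 2) ^ (j + 1) * (ρ * n) :=
          mul_le_mul_of_nonneg_left hD (by positivity)
        have h2 : A * Real.sqrt ((1 / 2) ^ (j + 1)) * S ≤ (1 / 2) ^ (j + 1) * (ρ * n) := by
          have h3 : 4 * (5 * l) ≤ q J j * (ρ * n) := by
            have := hqn j
            linarith
          have h4 := sqrt_le_self_of (by have := q_pos J j; positivity) h3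
          rw [hs1 j, hqlt j hj] at h4
          exact h4
        linarith
      · rw [hj, hMJ]; exact htJu)
    (by
      intro j hj
      rcases lt_or_eq_of_le hj with hj | hj
      · rw [hMlt j hj]
        have h1 := hqn j
        have h2 : 0 < q J j * (ρ * n) := by have := q_pos J j; positivity
        linarith
      · rw [hj, hMJ]
        rw [← hyn]
        nlinarith)
    (by
      have hc : (Fintype.card F : ℝ) ≤ (n : ℝ) ^ 2 := by
        have h1 : Fintype.card F ≤ Fintype.card (V × V) := by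
          have h2 : Fintype.card F ≤ Fintype.card (Sym2 V) :=
            Fintype.card_le_of_injective (fun x => (x : Sym2 V)) Subtype.val_injective
          have h3 : Fintype.card (Sym2 V) ≤ Fintype.card (V × V) :=
            Fintype.card_le_of_surjective (fun p : V × V => s(p.1, p.2)) (by
              intro e
              induction e using Sym2.ind with
              | _ u v => exact ⟨(u, v), rfl⟩)
          exact h2.trans h3
        rw [Fintype.card_prod, hV] at h1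
        have : (Fintype.card F : ℝ) ≤ n * n := by exact_mod_cast h1
        linarith [sq (n : ℝ)]
      have h1 : (Fintype.card F : ℝ) * (J + 1) * (2 * Real.exp (-(5 * l))) ≤
          (n : ℝ) ^ 2 * (2 * y) * (2 * Real.exp (-(5 * l))) := by
        apply mul_le_mul_of_nonneg_right _ (by positivity)
        exact mul_le_mul hc (hJle.trans hJ2) (by positivity) (by positivity)
      have h2 : y ≤ n := by rw [← hyn]; nlinarith
      have h3 : (n : ℝ) ^ 2 * (2 * y) * (2 * Real.exp (-(5 * l))) ≤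
          (n : ℝ) ^ 2 * (2 * n) * (2 * Real.exp (-(5 * l))) := by
        apply mul_le_mul_of_nonneg_right _ (by positivity)
        exact mul_le_mul_of_nonneg_left (by linarith) (by positivity)
      have h4 : (n : ℝ) ^ 2 * (2 * n) * (2 * Real.exp (-(5 * l))) =
          4 * (n ^ 3 * Real.exp (-(5 * l))) := by ring
      have h5 : (n : ℝ) ^ 3 * Real.exp (-(5 * l)) * n ^ 2 = 1 := by
        rw [← hexp]; ring
      have h6 : (16 : ℝ) ^ 2 ≤ (n : ℝ) ^ 2 := pow_le_pow_left₀ (by norm_num) hnR 2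
      have h7 : (0 : ℝ) < (n : ℝ) ^ 3 * Real.exp (-(5 * l)) := by positivity
      nlinarith)
  apply mono_list F L L' (fun e he => (hL' e he).1)
  refine assemble hG F L' J σ g (fun j => q J j * D + A * Real.sqrt (q J j) * S) ?_ ?_ ?_
  · intro v a j hj
    have := hσ v a j hj
    rw [hs1 j] at this
    exact this
  · intro e he j hj
    have h1 := hg ⟨e, he⟩ j hj.le
    rw [htlt j hj, hMlt j hj, hs2 j, ht0, hqlt j hj] at h1
    rw [hqlt j hj]
    linarith
  · intro e he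
    have h1 := hg ⟨e, he⟩ J le_rfl
    rw [hMJ] at h1
    have hqJ : q J J = (1 / 2) ^ J := by unfold q; rw [if_neg (lt_irrefl _)]
    have h2 : Real.sqrt (q J J) ≤ 1 := by
      rw [show (1 : ℝ) = Real.sqrt 1 by rw [Real.sqrt_one]]
      exact Real.sqrt_le_sqrt (q_le_one J J)
    have h3 : A * Real.sqrt (q J J) * S ≤ A * S := by
      have : A * Real.sqrt (q J J) ≤ A * 1 := mul_le_mul_of_nonneg_left h2 hA.le
      calc _ ≤ (A * 1) * S := mul_le_mul_of_nonneg_right this hS0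
        _ = _ := by ring
    have h4 : (1 / 2 : ℝ) ^ J * D ≤ 5 * A * S := by
      have h5 : (1 / 2 : ℝ) ^ J * D ≤ (1 / 2) ^ J * (ρ * n) :=
        mul_le_mul_of_nonneg_left hD hhp.le
      have h6 : (1 / 2 : ℝ) ^ J * (ρ * n) = ((1 / 2) ^ J * y) * (ρ * y) := by
        rw [← hyn]; ring
      have h7 : ((1 / 2 : ℝ) ^ J * y) * (ρ * y) ≤ 1 * (ρ * y) :=
        mul_le_mul_of_nonneg_right hh1 (by positivity)
      linarith
    rw [hqJ] at h3 ⊢
    have h8 : 0 ≤ A * S := by positivity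
    linarith

end Pool.Agent.Helper15.LR
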