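import Pool.Agent.Helper15.LR.Defs2

set_option autoImplicit false

/-!
Module D1a: a minimiser of the quadratic potential is locally optimal.
-/

open Finset Filter
open scoped Classical Topology

namespace Pool.Agent.Helper15.LR

noncomputable section

namespace D1a

variable {V Λ : Type} [Fintype V] [Fintype Λ]

/-- potential -/
def pot (F : Set (Sym2 V)) (τ : V → Λ → ℝ) (ω : Λ → ℝ) (φ : Sym2 V → Λ) : ℝ :=
  ∑ v, ∑ o, ((ld F φ v o : ℝ) - τ v o) ^ 2 / ω o

omit [Fintype Λ] in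
lemma ld_eq (F : Set (Sym2 V)) (φ : Sym2 V → Λ) (w : V) (p : Λ) :
    (ld F φ w p : ℝ) = ∑ x ∈ nb F w, (if φ s(w, x) = p then (1 : ℝ) else 0) := by
  unfold ld
  rw [Finset.card_filter]
  push_cast
  rfl

omit [Fintype Λ] in
lemma ld_update (F : Set (Sym2 V)) (φ : Sym2 V → Λ) (w y : V) (p o' : Λ) (hF : s(w, y) ∈ F) :
    (ld F (Function.update φ s(w, y) o') w p : ℝ) = ld F φ w p +
      ((if p = o' then (1 : ℝ) else 0) - (if p = φ s(w, y) then (1 : ℝ) else 0)) := by
  rw [ld_eq, ld_eq]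
  have hy : y ∈ nb F w := by simp [nb, hF]
  rw [← Finset.add_sum_erase _ _ hy, ← Finset.add_sum_erase _ _ hy]
  have h1 : ∑ x ∈ (nb F w).erase y,
      (if Function.update φ s(w, y) o' s(w, x) = p then (1 : ℝ) else 0) =
      ∑ x ∈ (nb F w).erase y, (if φ s(w, x) = p then (1 : ℝ) else 0) := by
    apply Finset.sum_congr rfl
    intro x hx
    have hne : s(w, x) ≠ s(w, y) := by
      intro h
      exact (Finset.mem_erase.mp hx).1 (Sym2.congr_right.mp h)
    rw [Function.update_of_ne hne]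
  rw [h1, Function.update_self]
  by_cases ha : p = o' <;> by_cases hb : p = φ s(w, y) <;> simp [ha, hb, eq_comm] <;> ring_nf

omit [Fintype Λ] in
lemma ld_update_ne (F : Set (Sym2 V)) (φ : Sym2 V → Λ) (w : V) (e : Sym2 V) (p o' : Λ)
    (hw : w ∉ e) :
    ld F (Function.update φ e o') w p = ld F φ w p := by
  unfold ld
  congr 1
  apply Finset.filter_congr
  intro x _
  have hne : s(w, x) ≠ e := by
    intro h
    apply hw
    rw [← h]
    simp
  rw [Function.update_of_ne hne]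

lemma row_diff (F : Set (Sym2 V)) (τ : V → Λ → ℝ) (ω : Λ → ℝ) (hω : ∀ o, 0 < ω o)
    (φ : Sym2 V → Λ) (w y : V) (o' : Λ)
    (hF : s(w, y) ∈ F) (hne : o' ≠ φ s(w, y)) :
    (∑ o, ((ld F (Function.update φ s(w, y) o') w o : ℝ) - τ w o) ^ 2 / ω o) -
      (∑ o, ((ld F φ w o : ℝ) - τ w o) ^ 2 / ω o) =
      2 * gg F φ τ ω w o' + 1 / ω o' - 2 * gg F φ τ ω w (φ s(w, y)) + 1 / ω (φ s(w, y)) := by
  rw [← Finset.sum_sub_distrib]
  rw [Finset.sum_eq_add o' (φ s(w, y)) hne]
  · rw [ld_update F φ w y _ _ hF, ld_update F φ w y _ _ hF]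
    have h1 := (hω o').ne'
    have h2 := (hω (φ s(w, y))).ne'
    rw [if_pos rfl, if_neg hne, if_neg hne.symm, if_pos rfl]
    unfold gg
    field_simp
    ring
  · intro p _ hp
    rw [ld_update F φ w y _ _ hF, if_neg hp.1, if_neg hp.2]
    simp
  · intro h
    exact absurd (Finset.mem_univ _) h
  · intro h
    exact absurd (Finset.mem_univ _) h

lemma pot_diff (F : Set (Sym2 V)) (τ : V → Λ → ℝ) (ω : Λ → ℝ) (hω : ∀ o, 0 < ω o)
    (φ : Sym2 V → Λ) (u v : V) (o' : Λ) (huv : u ≠ v)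
    (hF : s(u, v) ∈ F) (hne : o' ≠ φ s(u, v)) :
    pot F τ ω (Function.update φ s(u, v) o') - pot F τ ω φ =
      (2 * gg F φ τ ω u o' + 1 / ω o' - 2 * gg F φ τ ω u (φ s(u, v)) + 1 / ω (φ s(u, v))) +
      (2 * gg F φ τ ω v o' + 1 / ω o' - 2 * gg F φ τ ω v (φ s(u, v)) + 1 / ω (φ s(u, v))) := by
  unfold pot
  rw [← Finset.sum_sub_distrib]
  rw [Finset.sum_eq_add u v huv]
  · rw [row_diff F τ ω hω φ u v o' hF hne]
    have hF' : s(v, u) ∈ F := by rw [Sym2.eq_swap]; exact hF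
    have hne' : o' ≠ φ s(v, u) := by rw [Sym2.eq_swap]; exact hne
    have := row_diff F τ ω hω φ v u o' hF' hne'
    have hs : s(v, u) = s(u, v) := Sym2.eq_swap
    rw [hs] at this
    rw [this]
  · intro w _ hw
    rw [sub_eq_zero]
    apply Finset.sum_congr rfl
    intro p _
    rw [ld_update_ne F φ w s(u, v) p o' (by
      simp only [Sym2.mem_iff, not_or]
      exact hw)]
  · intro h
    exact absurd (Finset.mem_univ _) h
  · intro h
    exact absurd (Finset.mem_univ _) h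

end D1a

open D1a in
/-- D1a (with `Λ` nonempty) -/
theorem D1a_main (V Λ : Type) [Fintype V] [Fintype Λ] [Nonempty Λ] (F : Set (Sym2 V))
    (A : Sym2 V → Finset Λ) (τ : V → Λ → ℝ) (ω : Λ → ℝ)
    (hloop : ∀ v, s(v, v) ∉ F) (hω : ∀ o, 0 < ω o) (hA : ∀ e ∈ F, (A e).Nonempty) :
    ∃ φ : Sym2 V → Λ, (∀ e ∈ F, φ e ∈ A e) ∧
      ∀ u v, s(u, v) ∈ F → ∀ o' ∈ A s(u, v),
        gg F φ τ ω u (φ s(u, v)) + gg F φ τ ω v (φ s(u, v)) ≤
          gg F φ τ ω u o' + gg F φ τ ω v o' + 1 / ω (φ s(u, v)) + 1 / ω o' := by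
  set S : Finset (Sym2 V → Λ) := univ.filter (fun φ => ∀ e ∈ F, φ e ∈ A e) with hS
  have hSne : S.Nonempty := by
    refine ⟨fun e => if h : e ∈ F then (hA e h).choose else Classical.arbitrary Λ, ?_⟩
    rw [hS, Finset.mem_filter]
    refine ⟨Finset.mem_univ _, ?_⟩
    intro e he
    have h1 : (if h : e ∈ F then (hA e h).choose else Classical.arbitrary Λ) = (hA e he).choose :=
      dif_pos he
    show (if h : e ∈ F then (hA e h).choose else Classical.arbitrary Λ) ∈ A e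
    rw [h1]
    exact (hA e he).choose_spec
  obtain ⟨φ, hφS, hmin⟩ := Finset.exists_min_image S (pot F τ ω) hSne
  have hφ : ∀ e ∈ F, φ e ∈ A e := (Finset.mem_filter.mp hφS).2
  refine ⟨φ, hφ, ?_⟩
  intro u v huv o' ho'
  have hne : u ≠ v := by
    rintro rfl
    exact hloop u huv
  by_cases hoo : o' = φ s(u, v)
  · rw [hoo]
    have h1 : 0 < 1 / ω (φ s(u, v)) := one_div_pos.mpr (hω _)
    linarith
  · have hmem : Function.update φ s(u, v) o' ∈ S := by
      rw [hS, Finset.mem_filter]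
      refine ⟨Finset.mem_univ _, ?_⟩
      intro e he
      by_cases h : e = s(u, v)
      · rw [h, Function.update_self]
        exact ho'
      · rw [Function.update_of_ne h]
        exact hφ e he
    have h1 := hmin _ hmem
    have h2 := pot_diff F τ ω hω φ u v o' hne huv hoo
    linarith

theorem D1a : LocalOpt_stmt := fun V Λ _ _ _ F A τ ω h1 h2 h3 => D1a_main V Λ F A τ ω h1 h2 h3

end

end Pool.Agent.Helper15.LR
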