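import Pool.Agent.Helper15.LR.Defs2

set_option autoImplicit false

/-!
D1b: the energy inequality (`Energy_stmt`).
-/

open Finset Filter
open scoped Classical Topology

namespace Pool.Agent.Helper15.LR

noncomputable section

namespace D1bAux

/-- total weight of the levels -/
def qq (K : ℕ) (ρ : ℝ) : ℝ := (1 - ρ) / (1 - (1 / 2 : ℝ) ^ K)

/-- the comparison distribution on the allowed levels of a pair with pattern `X` -/
def pw (K : ℕ) (ρ : ℝ) (X : Finset (Fin K)) : Option (Fin K) → ℝ
  | none => if X = ∅ then 1 else 1 - qq K ρ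
  | some j => if j ∈ X then qq K ρ / X.card else 0

section
variable {K : ℕ} {ρ : ℝ}

lemma half_pow_lt (hK : 1 ≤ K) : (1 / 2 : ℝ) ^ K < 1 :=
  pow_lt_one₀ (by norm_num) (by norm_num) (by omega)

lemma qq_pos (hK : 1 ≤ K) (h1 : ρ < 1) : 0 < qq K ρ := by
  have := half_pow_lt hK
  exact div_pos (by linarith) (by linarith)

lemma qq_ge (hK : 1 ≤ K) (h1 : ρ < 1) : 1 - ρ ≤ qq K ρ := by
  have h2 := half_pow_lt hK
  have h3 : 0 < (1 / 2 : ℝ) ^ K := by positivity
  rw [qq, le_div_iff₀ (by linarith)]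
  nlinarith

lemma one_sub_qq (hK : 1 ≤ K) (h0 : 0 < ρ) (hh : (1 / 2 : ℝ) ^ K ≤ ρ / 2) :
    ρ / 2 ≤ 1 - qq K ρ := by
  have h2 := half_pow_lt hK
  have h3 : 0 < (1 / 2 : ℝ) ^ K := by positivity
  have h4 : qq K ρ ≤ 1 - ρ / 2 := by
    rw [qq, div_le_iff₀ (by linarith)]
    nlinarith
  linarith

lemma pw_sum (X : Finset (Fin K)) : ∑ o, pw K ρ X o = 1 := by
  rw [Fintype.sum_option]
  by_cases hX : X = ∅
  · subst hX
    simp [pw]
  · have hc : (X.card : ℝ) ≠ 0 := by
      exact_mod_cast (Finset.card_pos.2 (Finset.nonempty_iff_ne_empty.2 hX)).ne'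
    have : ∑ j : Fin K, pw K ρ X (some j) = qq K ρ := by
      simp only [pw]
      rw [← Finset.sum_filter]
      simp only [Finset.sum_const, nsmul_eq_mul, Finset.filter_mem_eq_inter, Finset.univ_inter]
      field_simp
    rw [this]
    simp [pw, hX]

lemma pw_nonneg (hK : 1 ≤ K) (h0 : 0 < ρ) (h1 : ρ < 1) (hh : (1 / 2 : ℝ) ^ K ≤ ρ / 2)
    (X : Finset (Fin K)) (o : Option (Fin K)) : 0 ≤ pw K ρ X o := by
  have hq := qq_pos hK h1
  have hq' := one_sub_qq hK h0 hh
  cases o with
  | none =>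
    simp only [pw]
    split_ifs
    · norm_num
    · linarith
  | some j =>
    simp only [pw]
    split_ifs
    · positivity
    · exact le_rfl

lemma pw_le_one (hK : 1 ≤ K) (h0 : 0 < ρ) (h1 : ρ < 1) (hh : (1 / 2 : ℝ) ^ K ≤ ρ / 2)
    (X : Finset (Fin K)) (o : Option (Fin K)) : pw K ρ X o ≤ 1 := by
  rw [← pw_sum (ρ := ρ) X]
  exact Finset.single_le_sum (fun o _ => pw_nonneg hK h0 h1 hh X o) (Finset.mem_univ o)

lemma card_sum (j : Fin K) :
    ∑ X : Finset (Fin K), (if j ∈ X then (1 : ℝ) / X.card else 0) = (2 ^ K - 1) / K := by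
  have hK : 0 < K := j.pos
  have hsym : ∀ i : Fin K, ∑ X : Finset (Fin K), (if i ∈ X then (1 : ℝ) / X.card else 0) =
      ∑ X : Finset (Fin K), (if j ∈ X then (1 : ℝ) / X.card else 0) := by
    intro i
    refine Fintype.sum_equiv (Equiv.finsetCongr (Equiv.swap i j)) _ _ ?_
    intro X
    have h1 : j ∈ (Equiv.finsetCongr (Equiv.swap i j)) X ↔ i ∈ X := by
      simp [Equiv.finsetCongr_apply, Finset.mem_map_equiv]
    simp only [h1]
    simp [Equiv.finsetCongr_apply]
  have htot : ∑ i : Fin K, ∑ X : Finset (Fin K), (if i ∈ X then (1 : ℝ) / X.card else 0) =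
      2 ^ K - 1 := by
    rw [Finset.sum_comm]
    have : ∀ X : Finset (Fin K), ∑ i : Fin K, (if i ∈ X then (1 : ℝ) / X.card else 0) =
        1 - (if X = ∅ then 1 else 0) := by
      intro X
      rw [← Finset.sum_filter]
      simp only [Finset.sum_const, nsmul_eq_mul, Finset.filter_mem_eq_inter, Finset.univ_inter]
      by_cases hX : X = ∅
      · simp [hX]
      · have hc : (X.card : ℝ) ≠ 0 := by
          exact_mod_cast (Finset.card_pos.2 (Finset.nonempty_iff_ne_empty.2 hX)).ne'
        simp only [hX, if_false]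
        field_simp
        simp
    simp only [this, Finset.sum_sub_distrib]
    simp
  have hK' : (K : ℝ) ≠ 0 := by exact_mod_cast hK.ne'
  rw [eq_div_iff hK', ← htot, Finset.sum_congr rfl (fun i _ => hsym i)]
  simp [mul_comm]

lemma pw_avg (hK : 1 ≤ K) (o : Option (Fin K)) :
    ∑ X : Finset (Fin K), pw K ρ X o * (1 / 2) ^ K = omg K ρ o := by
  have h2 := half_pow_lt hK
  have h3 : 0 < (1 / 2 : ℝ) ^ K := by positivity
  have h5 : (2 : ℝ) ^ K * (1 / 2) ^ K = 1 := by
    rw [← mul_pow]; norm_num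
  have h6 : (1 - (1 / 2 : ℝ) ^ K) ≠ 0 := by linarith
  have h7 : qq K ρ * (1 - (1 / 2) ^ K) = 1 - ρ := by
    rw [qq]; field_simp
  rw [← Finset.sum_mul]
  cases o with
  | none =>
    simp only [pw, omg]
    have : ∀ X : Finset (Fin K), (if X = ∅ then (1 : ℝ) else 1 - qq K ρ) =
        (1 - qq K ρ) + (if X = ∅ then qq K ρ else 0) := by
      intro X
      split_ifs <;> ring
    simp only [this, Finset.sum_add_distrib]
    simp only [Finset.sum_const, Finset.card_univ, Fintype.card_finset, Fintype.card_fin,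
      nsmul_eq_mul, Nat.cast_pow, Nat.cast_ofNat, Finset.sum_ite_eq', Finset.mem_univ, if_true]
    have : (2 ^ K * (1 - qq K ρ) + qq K ρ) * (1 / 2) ^ K =
        (2 ^ K * (1 / 2) ^ K) * (1 - qq K ρ) + qq K ρ * (1 / 2) ^ K := by ring
    rw [this, h5]
    linarith
  | some j =>
    simp only [pw, omg]
    have : ∀ X : Finset (Fin K), (if j ∈ X then qq K ρ / (X.card : ℝ) else 0) =
        qq K ρ * (if j ∈ X then (1 : ℝ) / X.card else 0) := by
      intro X
      split_ifs <;> ring
    simp only [this, ← Finset.mul_sum, card_sum j]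
    have hK' : (K : ℝ) ≠ 0 := by exact_mod_cast (show K ≠ 0 by omega)
    have : qq K ρ * ((2 ^ K - 1) / K) * (1 / 2) ^ K =
        qq K ρ * ((2 ^ K * (1 / 2) ^ K) - (1 / 2) ^ K) / K := by ring
    rw [this, h5, h7]

lemma pw_ge (hK : 1 ≤ K) (h0 : 0 < ρ) (h1 : ρ < 1) (hh : (1 / 2 : ℝ) ^ K ≤ ρ / 2)
    (X : Finset (Fin K)) (j : Fin K) (hj : j ∈ X) :
    min ((1 - ρ) / K) (ρ / 2) ≤ pw K ρ X (some j) ∧
      min ((1 - ρ) / K) (ρ / 2) ≤ pw K ρ X none := by
  have hX : X ≠ ∅ := Finset.ne_empty_of_mem hj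
  constructor
  · refine (min_le_left _ _).trans ?_
    simp only [pw, hj, if_true]
    have hc : (0 : ℝ) < X.card := by
      exact_mod_cast Finset.card_pos.2 ⟨j, hj⟩
    have hc' : (X.card : ℝ) ≤ K := by
      have := Finset.card_le_univ X
      rw [Fintype.card_fin] at this
      exact_mod_cast this
    exact div_le_div₀ (qq_pos hK h1).le (qq_ge hK h1) hc hc'
  · refine (min_le_right _ _).trans ?_
    simp only [pw, hX, if_false]
    exact one_sub_qq hK h0 hh

/-- pointwise estimate for a full pair -/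
lemma full_pair (hK : 1 ≤ K) (h0 : 0 < ρ) (h1 : ρ < 1) (hh : (1 / 2 : ℝ) ^ K ≤ ρ / 2)
    (X : Finset (Fin K)) (G : Option (Fin K) → ℝ) (a c : ℝ)
    (hG : ∀ o, (∀ j, o = some j → j ∈ X) → a ≤ G o + c) :
    a ≤ ∑ o, pw K ρ X o * G o + c ∧ ∀ j ∈ X,
      a + min ((1 - ρ) / K) (ρ / 2) * |G (some j) - G none| ≤ ∑ o, pw K ρ X o * G o + c := by
  set x₀ := min ((1 - ρ) / (K : ℝ)) (ρ / 2) with hx0
  have hx0pos : 0 ≤ x₀ := by
    rw [hx0]; refine le_min (div_nonneg (by linarith) (by positivity)) (by linarith)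
  have hpw0 : ∀ o, ¬ (∀ j, o = some j → j ∈ X) → pw K ρ X o = 0 := by
    intro o ho
    cases o with
    | none => exact absurd (fun j hj => by cases hj) ho
    | some j =>
      have : j ∉ X := fun hj => ho (fun i hi => by cases hi; exact hj)
      simp [pw, this]
  have hterm : ∀ o, pw K ρ X o * (a - c) ≤ pw K ρ X o * G o := by
    intro o
    by_cases ho : ∀ j, o = some j → j ∈ X
    · exact mul_le_mul_of_nonneg_left (by linarith [hG o ho]) (pw_nonneg hK h0 h1 hh X o)
    · rw [hpw0 o ho]; simp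
  have hsum1 : ∑ o, pw K ρ X o * (a - c) = a - c := by
    rw [← Finset.sum_mul, pw_sum, one_mul]
  refine ⟨?_, ?_⟩
  · have := Finset.sum_le_sum (fun o (_ : o ∈ (univ : Finset (Option (Fin K)))) => hterm o)
    linarith
  · intro j hj
    obtain ⟨hp1, hp2⟩ := pw_ge hK h0 h1 hh X j hj
    rw [← hx0] at hp1 hp2
    have hGj : a - c ≤ G (some j) := by
      have := hG (some j) (fun i hi => by cases hi; exact hj)
      linarith
    have hGn : a - c ≤ G none := by
      have := hG none (fun i hi => by cases hi)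
      linarith
    have e1 : ∑ o, pw K ρ X o * (G o - (a - c)) = ∑ o, pw K ρ X o * G o - (a - c) := by
      rw [← hsum1, ← Finset.sum_sub_distrib]
      refine Finset.sum_congr rfl (fun o _ => ?_)
      rw [hsum1]; ring
    have e2 : pw K ρ X (some j) * (G (some j) - (a - c)) + pw K ρ X none * (G none - (a - c)) ≤
        ∑ o, pw K ρ X o * (G o - (a - c)) := by
      rw [Fintype.sum_option, add_comm]
      refine add_le_add le_rfl ?_
      refine Finset.single_le_sum (f := fun i => pw K ρ X (some i) * (G (some i) - (a - c)))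
        (fun i _ => ?_) (Finset.mem_univ j)
      have := hterm (some i)
      show 0 ≤ pw K ρ X (some i) * (G (some i) - (a - c))
      rw [mul_sub]; linarith
    have e3 : x₀ * |G (some j) - G none| ≤
        pw K ρ X (some j) * (G (some j) - (a - c)) + pw K ρ X none * (G none - (a - c)) := by
      have f1 : x₀ * (G (some j) - (a - c)) ≤ pw K ρ X (some j) * (G (some j) - (a - c)) :=
        mul_le_mul_of_nonneg_right hp1 (by linarith)
      have f2 : x₀ * (G none - (a - c)) ≤ pw K ρ X none * (G none - (a - c)) :=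
        mul_le_mul_of_nonneg_right hp2 (by linarith)
      have f3 : |G (some j) - G none| ≤ (G (some j) - (a - c)) + (G none - (a - c)) := by
        rw [abs_le]; constructor <;> linarith
      have := mul_le_mul_of_nonneg_left f3 hx0pos
      linarith
    linarith

end

section
variable {V : Type} [Fintype V]

lemma mem_nb {F : Set (Sym2 V)} {v u : V} : u ∈ nb F v ↔ s(v, u) ∈ F := by
  simp [nb]

lemma swap_sum (F : Set (Sym2 V)) (f : V → V → ℝ) :
    ∑ v, ∑ u ∈ nb F v, f v u = ∑ v, ∑ u ∈ nb F v, f u v := by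
  refine Finset.sum_comm' ?_
  intro x y
  simp [mem_nb, Sym2.eq_swap (a := x) (b := y)]

lemma fib_sum {Λ : Type} [Fintype Λ] (F : Set (Sym2 V)) (φ : Sym2 V → Λ) (v : V) (h : Λ → ℝ) :
    ∑ u ∈ nb F v, h (φ s(v, u)) = ∑ o, (ld F φ v o : ℝ) * h o := by
  rw [← Finset.sum_fiberwise (nb F v) (fun u => φ s(v, u))]
  refine Finset.sum_congr rfl (fun o _ => ?_)
  rw [Finset.sum_congr rfl (g := fun _ => h o)]
  · rw [Finset.sum_const, nsmul_eq_mul]; rfl
  · intro u hu
    rw [(Finset.mem_filter.1 hu).2]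

omit [Fintype V] in
lemma pat_symm {K : ℕ} (σ : V → Fin K → Bool) (u v : V) : pat σ u v = pat σ v u := by
  ext j; simp [pat, ne_comm]

lemma pat_sum {K : ℕ} (F : Set (Sym2 V)) (σ : V → Fin K → Bool) (v : V)
    (h : Finset (Fin K) → ℝ) :
    ∑ u ∈ nb F v, h (pat σ v u) =
      ∑ X, (((nb F v).filter (fun u => pat σ v u = X)).card : ℝ) * h X := by
  rw [← Finset.sum_fiberwise (nb F v) (fun u => pat σ v u)]
  refine Finset.sum_congr rfl (fun o _ => ?_)
  rw [Finset.sum_congr rfl (g := fun _ => h o)]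
  · rw [Finset.sum_const, nsmul_eq_mul]
  · intro u hu
    rw [(Finset.mem_filter.1 hu).2]

end

end D1bAux

open D1bAux in
theorem D1b : Energy_stmt := by
  intro K ρ hK h0 h1 hh
  refine ⟨min ((1 - ρ) / K) (ρ / 2), 2 * 2 ^ K + 6, 2 * (1 / ρ + K / (1 - ρ)), ?_, by positivity,
    ?_, ?_⟩
  · have hKpos : (0 : ℝ) < K := by exact_mod_cast hK
    exact lt_min (div_pos (by linarith) hKpos) (by linarith)
  · have hKpos : (0 : ℝ) < K := by exact_mod_cast hK
    have : 0 < 1 - ρ := by linarith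
    positivity
  intro δ hδ V _ F σ A τ φ hloop hpat hφ hbad hτ hopt j
  have hKpos : (0 : ℝ) < K := by exact_mod_cast hK
  have h1' : 0 < 1 - ρ := by linarith
  set x₀ := min ((1 - ρ) / (K : ℝ)) (ρ / 2) with hx0
  set c := 2 * (1 / ρ + K / (1 - ρ)) with hc
  set n : ℝ := (Fintype.card V : ℝ) with hn
  set g := gg F φ τ (omg K ρ) with hg
  have hn0 : 0 ≤ n := by rw [hn]; positivity
  have homg : ∀ o, 0 < omg K ρ o := by
    intro o
    cases o with
    | none => exact h0
    | some j => exact div_pos h1' hKpos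
  have homgc : ∀ o, 1 / omg K ρ o ≤ 1 / ρ + K / (1 - ρ) := by
    intro o
    have a1 : 0 < 1 / ρ := by positivity
    have a2 : 0 < (K : ℝ) / (1 - ρ) := by positivity
    cases o with
    | none => simp only [omg]; linarith
    | some j =>
      simp only [omg]
      rw [one_div_div]; linarith
  have hc0 : 0 < c := by rw [hc]; positivity
  -- notation
  let S : V → ℝ := fun v => ∑ o, |g v o|
  have hS : ∀ v, 0 ≤ S v := fun v => Finset.sum_nonneg (fun o _ => abs_nonneg _)
  let G : V → V → Option (Fin K) → ℝ := fun v u o => g v o + g u o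
  let p : V → V → Option (Fin K) → ℝ := fun v u => pw K ρ (pat σ v u)
  have hGabs : ∀ v u o, |G v u o| ≤ S v + S u := by
    intro v u o
    have e1 : |g v o| ≤ S v :=
      Finset.single_le_sum (f := fun o => |g v o|) (fun o _ => abs_nonneg _) (Finset.mem_univ o)
    have e2 : |g u o| ≤ S u :=
      Finset.single_le_sum (f := fun o => |g u o|) (fun o _ => abs_nonneg _) (Finset.mem_univ o)
    calc |G v u o| ≤ |g v o| + |g u o| := abs_add_le _ _
      _ ≤ _ := add_le_add e1 e2
  have hpG : ∀ v u, |∑ o, p v u o * G v u o| ≤ S v + S u := by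
    intro v u
    calc |∑ o, p v u o * G v u o| ≤ ∑ o, |p v u o * G v u o| := Finset.abs_sum_le_sum_abs _ _
      _ ≤ ∑ o, p v u o * (S v + S u) := by
          refine Finset.sum_le_sum (fun o _ => ?_)
          rw [abs_mul, abs_of_nonneg (pw_nonneg hK h0 h1 hh _ _)]
          exact mul_le_mul_of_nonneg_left (hGabs v u o) (pw_nonneg hK h0 h1 hh _ _)
      _ = S v + S u := by rw [← Finset.sum_mul, pw_sum, one_mul]
  -- pair estimate
  have hpair : ∀ v, ∀ u ∈ nb F v,
      G v u (φ s(v, u)) +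
        (if σ v j ≠ σ u j ∧ A s(v, u) = full σ v u then
          x₀ * |(g v (some j) - g v none) + (g u (some j) - g u none)| else 0) ≤
      ∑ o, p v u o * G v u o + c +
        (if A s(v, u) ≠ full σ v u then 2 * (S v + S u) else 0) := by
    intro v u hu
    have hF := mem_nb.1 hu
    by_cases hA : A s(v, u) = full σ v u
    · have hfull : ∀ o : Option (Fin K), (∀ j, o = some j → j ∈ pat σ v u) →
          o ∈ full σ v u := by
        intro o ho
        simp only [full, Finset.mem_filter, Finset.mem_univ, true_and]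
        intro i hi
        have := ho i hi
        simpa [pat] using this
      have hGo : ∀ o : Option (Fin K), (∀ j, o = some j → j ∈ pat σ v u) →
          G v u (φ s(v, u)) ≤ G v u o + c := by
        intro o ho
        have h3 := hopt v u hF o (by rw [hA]; exact hfull o ho)
        have h4 := homgc o
        have h5 := homgc (φ s(v, u))
        show g v (φ s(v, u)) + g u (φ s(v, u)) ≤ g v o + g u o + c
        rw [hc]; linarith
      obtain ⟨f1, f2⟩ := full_pair hK h0 h1 hh (pat σ v u) (G v u) (G v u (φ s(v, u))) c hGo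
      rw [if_neg (not_not.2 hA), add_zero]
      by_cases hj : σ v j ≠ σ u j
      · rw [if_pos ⟨hj, hA⟩]
        have f3 := f2 j (by simp [pat, hj])
        have e : G v u (some j) - G v u none =
            (g v (some j) - g v none) + (g u (some j) - g u none) := by
          show (g v (some j) + g u (some j)) - (g v none + g u none) = _
          ring
        rw [e] at f3
        exact f3
      · rw [if_neg (fun h => hj h.1), add_zero]
        exact f1
    · rw [if_neg (fun h => hA h.2), if_pos hA]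
      have e1 := (abs_le.1 (hGabs v u (φ s(v, u)))).2
      have e2 := (abs_le.1 (hpG v u)).1
      linarith
  have hsum := Finset.sum_le_sum (fun v (_ : v ∈ (univ : Finset V)) =>
    Finset.sum_le_sum (fun u hu => hpair v u hu))
  simp only [Finset.sum_add_distrib] at hsum
  -- the terms
  have t1 : ∑ v, ∑ u ∈ nb F v, G v u (φ s(v, u)) = 2 * ∑ v, ∑ o, (ld F φ v o : ℝ) * g v o := by
    have a1 : ∑ v, ∑ u ∈ nb F v, G v u (φ s(v, u)) =
        ∑ v, ∑ u ∈ nb F v, g v (φ s(v, u)) + ∑ v, ∑ u ∈ nb F v, g u (φ s(v, u)) := by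
      simp only [G, Finset.sum_add_distrib]
    have a2 : ∑ v, ∑ u ∈ nb F v, g u (φ s(v, u)) = ∑ v, ∑ u ∈ nb F v, g v (φ s(v, u)) := by
      rw [swap_sum F (fun v u => g u (φ s(v, u)))]
      refine Finset.sum_congr rfl (fun v _ => Finset.sum_congr rfl (fun u _ => ?_))
      rw [Sym2.eq_swap]
    have a3 : ∑ v, ∑ u ∈ nb F v, g v (φ s(v, u)) = ∑ v, ∑ o, (ld F φ v o : ℝ) * g v o :=
      Finset.sum_congr rfl (fun v _ => fib_sum F φ v (g v))
    rw [a1, a2, a3]; ring
  have t2 : ∑ v, ∑ u ∈ nb F v, (∑ o, p v u o * G v u o) =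
      2 * ∑ v, ∑ o, (∑ u ∈ nb F v, p v u o) * g v o := by
    have a1 : ∑ v, ∑ u ∈ nb F v, (∑ o, p v u o * G v u o) =
        ∑ v, ∑ u ∈ nb F v, (∑ o, p v u o * g v o) + ∑ v, ∑ u ∈ nb F v, (∑ o, p v u o * g u o) := by
      simp only [G, mul_add, Finset.sum_add_distrib]
    have a2 : ∑ v, ∑ u ∈ nb F v, (∑ o, p v u o * g u o) =
        ∑ v, ∑ u ∈ nb F v, (∑ o, p v u o * g v o) := by
      rw [swap_sum F (fun v u => ∑ o, p v u o * g u o)]
      refine Finset.sum_congr rfl (fun v _ => Finset.sum_congr rfl (fun u _ => ?_))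
      refine Finset.sum_congr rfl (fun o _ => ?_)
      simp only [p]
      rw [pat_symm]
    have a3 : ∑ v, ∑ u ∈ nb F v, (∑ o, p v u o * g v o) =
        ∑ v, ∑ o, (∑ u ∈ nb F v, p v u o) * g v o := by
      refine Finset.sum_congr rfl (fun v _ => ?_)
      rw [Finset.sum_comm]
      refine Finset.sum_congr rfl (fun o _ => ?_)
      rw [Finset.sum_mul]
    rw [a1, a2, a3]; ring
  have t3 : ∀ v, ∀ o, |∑ u ∈ nb F v, p v u o - omg K ρ o * dg F v| ≤ 2 ^ K * (δ * n) := by
    intro v o
    have a1 : ∑ u ∈ nb F v, p v u o =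
        ∑ X, (((nb F v).filter (fun u => pat σ v u = X)).card : ℝ) * pw K ρ X o :=
      pat_sum F σ v (fun X => pw K ρ X o)
    have a2 : omg K ρ o * dg F v = ∑ X : Finset (Fin K), ((1 / 2) ^ K * (dg F v : ℝ)) * pw K ρ X o := by
      rw [← pw_avg hK o, Finset.sum_mul]
      refine Finset.sum_congr rfl (fun X _ => by ring)
    rw [a1, a2, ← Finset.sum_sub_distrib]
    calc |∑ X : Finset (Fin K), ((((nb F v).filter (fun u => pat σ v u = X)).card : ℝ) * pw K ρ X o -
            ((1 / 2) ^ K * (dg F v : ℝ)) * pw K ρ X o)|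
        ≤ ∑ X : Finset (Fin K), |(((nb F v).filter (fun u => pat σ v u = X)).card : ℝ) * pw K ρ X o -
            ((1 / 2) ^ K * (dg F v : ℝ)) * pw K ρ X o| := Finset.abs_sum_le_sum_abs _ _
      _ ≤ ∑ X : Finset (Fin K), δ * n := by
          refine Finset.sum_le_sum (fun X _ => ?_)
          rw [← sub_mul, abs_mul, abs_of_nonneg (pw_nonneg hK h0 h1 hh X o)]
          calc _ ≤ (δ * n) * 1 := mul_le_mul (hpat v X) (pw_le_one hK h0 h1 hh X o)
                (pw_nonneg hK h0 h1 hh X o) (by positivity)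
            _ = δ * n := mul_one _
      _ = 2 ^ K * (δ * n) := by
          simp only [Finset.sum_const, Finset.card_univ, Fintype.card_finset, Fintype.card_fin,
            nsmul_eq_mul, Nat.cast_pow, Nat.cast_ofNat]
  -- per vertex comparison
  have t4 : ∀ v, ∑ o, (∑ u ∈ nb F v, p v u o) * g v o ≤
      ∑ o, (ld F φ v o : ℝ) * g v o + (2 ^ K + 1) * (δ * n) * S v := by
    intro v
    have a1 : ∀ o, (∑ u ∈ nb F v, p v u o) * g v o ≤
        (ld F φ v o : ℝ) * g v o + (2 ^ K + 1) * (δ * n) * |g v o| := by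
      intro o
      have b1 : (ld F φ v o : ℝ) = omg K ρ o * g v o + τ v o := by
        rw [hg]; simp only [gg]
        have := (homg o).ne'
        field_simp
        ring
      have b2 : (∑ u ∈ nb F v, p v u o - omg K ρ o * dg F v) * g v o ≤
          2 ^ K * (δ * n) * |g v o| := by
        calc _ ≤ |(∑ u ∈ nb F v, p v u o - omg K ρ o * dg F v) * g v o| := le_abs_self _
          _ ≤ _ := by
            rw [abs_mul]
            exact mul_le_mul_of_nonneg_right (t3 v o) (abs_nonneg _)
      have b3 : (omg K ρ o * dg F v - τ v o) * g v o ≤ (δ * n) * |g v o| := by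
        calc _ ≤ |(omg K ρ o * dg F v - τ v o) * g v o| := le_abs_self _
          _ ≤ _ := by
            rw [abs_mul, abs_sub_comm]
            exact mul_le_mul_of_nonneg_right (hτ v o) (abs_nonneg _)
      have b4 : 0 ≤ omg K ρ o * g v o * g v o := by
        rw [mul_assoc]; exact mul_nonneg (homg o).le (mul_self_nonneg _)
      rw [b1]
      nlinarith
    calc ∑ o, (∑ u ∈ nb F v, p v u o) * g v o ≤
        ∑ o, ((ld F φ v o : ℝ) * g v o + (2 ^ K + 1) * (δ * n) * |g v o|) :=
          Finset.sum_le_sum (fun o _ => a1 o)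
      _ = _ := by rw [Finset.sum_add_distrib, ← Finset.mul_sum]
  have t5 : ∑ v, ∑ o, (∑ u ∈ nb F v, p v u o) * g v o ≤
      ∑ v, ∑ o, (ld F φ v o : ℝ) * g v o + (2 ^ K + 1) * (δ * n) * ∑ v, S v := by
    calc _ ≤ ∑ v, (∑ o, (ld F φ v o : ℝ) * g v o + (2 ^ K + 1) * (δ * n) * S v) :=
          Finset.sum_le_sum (fun v _ => t4 v)
      _ = _ := by rw [Finset.sum_add_distrib, ← Finset.mul_sum]
  -- constant term
  have hcard : (Fintype.card V : ℝ) = n := rfl
  have t6 : ∑ v : V, ∑ u ∈ nb F v, c ≤ c * n ^ 2 := by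
    calc ∑ v : V, ∑ u ∈ nb F v, c ≤ ∑ v : V, n * c := by
          refine Finset.sum_le_sum (fun v _ => ?_)
          rw [Finset.sum_const, nsmul_eq_mul]
          refine mul_le_mul_of_nonneg_right ?_ hc0.le
          rw [hn]
          exact_mod_cast Finset.card_le_univ _
      _ = c * n ^ 2 := by
          rw [Finset.sum_const, nsmul_eq_mul, Finset.card_univ]
          rw [hcard]; ring
  have t7 : ∑ v, ∑ u ∈ nb F v, (if A s(v, u) ≠ full σ v u then 2 * (S v + S u) else 0) ≤
      4 * (δ * n) * ∑ v, S v := by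
    have hfs : ∀ v u : V, full σ v u = full σ u v := by
      intro v u; ext o; simp [full, ne_comm]
    have a1 : ∑ v, ∑ u ∈ nb F v, (if A s(v, u) ≠ full σ v u then 2 * (S v + S u) else 0) =
        4 * ∑ v, ∑ u ∈ nb F v, (if A s(v, u) ≠ full σ v u then S v else 0) := by
      have b1 : ∑ v, ∑ u ∈ nb F v, (if A s(v, u) ≠ full σ v u then S u else 0) =
          ∑ v, ∑ u ∈ nb F v, (if A s(v, u) ≠ full σ v u then S v else 0) := by
        rw [swap_sum F (fun v u => if A s(v, u) ≠ full σ v u then S u else 0)]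
        refine Finset.sum_congr rfl (fun v _ => Finset.sum_congr rfl (fun u _ => ?_))
        rw [Sym2.eq_swap, hfs]
      have b2 : ∑ v, ∑ u ∈ nb F v, (if A s(v, u) ≠ full σ v u then 2 * (S v + S u) else 0) =
          2 * (∑ v, ∑ u ∈ nb F v, (if A s(v, u) ≠ full σ v u then S v else 0) +
            ∑ v, ∑ u ∈ nb F v, (if A s(v, u) ≠ full σ v u then S u else 0)) := by
        rw [← Finset.sum_add_distrib, Finset.mul_sum]
        refine Finset.sum_congr rfl (fun v _ => ?_)
        rw [← Finset.sum_add_distrib, Finset.mul_sum]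
        refine Finset.sum_congr rfl (fun u _ => ?_)
        split_ifs <;> ring
      rw [b2, b1]; ring
    rw [a1]
    have a2 : ∀ v, ∑ u ∈ nb F v, (if A s(v, u) ≠ full σ v u then S v else 0) ≤ (δ * n) * S v := by
      intro v
      rw [← Finset.sum_filter, Finset.sum_const, nsmul_eq_mul]
      exact mul_le_mul_of_nonneg_right (hbad v) (hS v)
    have a3 : ∑ v, ∑ u ∈ nb F v, (if A s(v, u) ≠ full σ v u then S v else 0) ≤
        (δ * n) * ∑ v, S v := by
      rw [Finset.mul_sum]
      exact Finset.sum_le_sum (fun v _ => a2 v)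
    linarith
  have t8 : ∑ v, ∑ u ∈ nb F v, (if σ v j ≠ σ u j ∧ A s(v, u) = full σ v u then
      x₀ * |(g v (some j) - g v none) + (g u (some j) - g u none)| else 0) =
      x₀ * ∑ v, ∑ u ∈ (nb F v).filter (fun u => σ v j ≠ σ u j ∧ A s(v, u) = full σ v u),
        |(g v (some j) - g v none) + (g u (some j) - g u none)| := by
    rw [Finset.mul_sum]
    refine Finset.sum_congr rfl (fun v _ => ?_)
    rw [← Finset.sum_filter, Finset.mul_sum]
  rw [t1, t2, t8] at hsum
  have hfin : x₀ * ∑ v, ∑ u ∈ (nb F v).filter (fun u => σ v j ≠ σ u j ∧ A s(v, u) = full σ v u),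
        |(g v (some j) - g v none) + (g u (some j) - g u none)| ≤
      (2 * 2 ^ K + 6) * δ * n * ∑ v, S v + c * n ^ 2 := by
    have e : (2 * 2 ^ K + 6) * δ * n * ∑ v, S v =
        2 * ((2 ^ K + 1) * (δ * n) * ∑ v, S v) + 4 * (δ * n) * ∑ v, S v := by ring
    rw [e]
    linarith
  exact hfin

end

end Pool.Agent.Helper15.LR
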