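import Pool.Agent.Helper15.LR.Defs2

set_option autoImplicit false

/-!
D2a: discrete coarea inequality.
-/

open Finset Filter
open scoped Classical Topology

namespace Pool.Agent.Helper15.LR

/-- the inequality for a nonnegative function with small support -/
private theorem coarea_pos (V : Type) [Fintype V] (R : V → V → Prop) (c : ℝ)
    (hsym : ∀ u v, R u v → R v u)
    (hexp : ∀ Z : Finset V, c * min (Z.card : ℝ) (Zᶜ.card : ℝ) ≤
      (((Z ×ˢ Zᶜ).filter (fun p => R p.1 p.2)).card : ℝ)) :
    ∀ (N : ℕ) (p : V → ℝ), (∀ v, 0 ≤ p v) → (univ.filter (fun v => 0 < p v)).card = N →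
      (univ.filter (fun v => 0 < p v)).card ≤ ((univ.filter (fun v => 0 < p v))ᶜ).card →
      c * ∑ v, p v ≤ (1 / 2) * ∑ v, ∑ u ∈ univ.filter (fun u => R v u), |p v - p u| := by
  intro N
  induction N using Nat.strong_induction_on with
  | _ N ih =>
    intro p hp hN hle
    set Z := univ.filter (fun v => 0 < p v) with hZ
    by_cases hne : Z.Nonempty
    · obtain ⟨z, hz, hzmin⟩ := Finset.exists_min_image Z p hne
      set m := p z with hm
      have hmpos : 0 < m := by
        have := (Finset.mem_filter.mp hz).2
        exact this
      let p' : V → ℝ := fun v => p v - if v ∈ Z then m else 0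
      have hp'nn : ∀ v, 0 ≤ p' v := by
        intro v
        by_cases hv : v ∈ Z
        · have := hzmin v hv
          simp only [p', hv, if_true]; linarith
        · simp only [p', hv, if_false]; have := hp v; linarith
      have hsub : (univ.filter (fun v => 0 < p' v)) ⊂ Z := by
        rw [Finset.ssubset_iff_of_subset]
        · refine ⟨z, hz, ?_⟩
          intro hmem
          have := (Finset.mem_filter.mp hmem).2
          simp only [p', hz, if_true] at this
          linarith
        · intro v hv
          by_contra hvZ
          have h1 := (Finset.mem_filter.mp hv).2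
          simp only [p', hvZ, if_false] at h1
          exact hvZ (Finset.mem_filter.mpr ⟨mem_univ v, by linarith⟩)
      have hlt : (univ.filter (fun v => 0 < p' v)).card < N := by
        rw [← hN]; exact Finset.card_lt_card hsub
      have hle' : (univ.filter (fun v => 0 < p' v)).card ≤
          ((univ.filter (fun v => 0 < p' v))ᶜ).card := by
        have h1 : (univ.filter (fun v => 0 < p' v)).card ≤ Z.card := Finset.card_le_card hsub.1
        have h2 : Zᶜ.card ≤ ((univ.filter (fun v => 0 < p' v))ᶜ).card :=
          Finset.card_le_card (Finset.compl_subset_compl.mpr hsub.1)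
        omega
      have key := ih _ hlt p' hp'nn rfl hle'
      -- sums
      have hs1 : ∑ v, p v = ∑ v, p' v + m * Z.card := by
        have : ∑ v, p v = ∑ v, (p' v + if v ∈ Z then m else 0) := by
          apply Finset.sum_congr rfl; intro v _; simp [p']
        rw [this, Finset.sum_add_distrib]
        congr 1
        rw [← Finset.sum_filter, Finset.sum_const, nsmul_eq_mul, mul_comm]
        congr 3
        ext v; simp
      have habs : ∀ v u, |p v - p u| = |p' v - p' u| +
          m * ((if v ∈ Z ∧ u ∉ Z then 1 else 0) + (if u ∈ Z ∧ v ∉ Z then 1 else 0)) := by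
        intro v u
        have hnz : ∀ w, w ∉ Z → p w = 0 := by
          intro w hw
          have h1 := hp w
          by_contra h2
          exact hw (Finset.mem_filter.mpr ⟨mem_univ w, lt_of_le_of_ne h1 (Ne.symm h2)⟩)
        by_cases hv : v ∈ Z <;> by_cases hu : u ∈ Z
        · simp [p', hv, hu]
        · have h1 := hnz u hu
          have h2 := hp'nn v
          have h3 := hp v
          simp only [p', hv, hu, if_true, if_false, not_false_iff, and_true, and_false,
            not_true] at *
          rw [h1]
          rw [abs_of_nonneg (by linarith), abs_of_nonneg (by linarith)]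
          ring
        · have h1 := hnz v hv
          have h2 := hp'nn u
          have h3 := hp u
          simp only [p', hv, hu, if_true, if_false, not_false_iff, and_true, and_false,
            not_true] at *
          rw [h1]
          rw [abs_of_nonpos (by linarith), abs_of_nonpos (by linarith)]
          ring
        · simp [p', hv, hu]
      have hcount1 : ∑ v, ∑ u ∈ univ.filter (fun u => R v u),
          (if v ∈ Z ∧ u ∉ Z then (1:ℝ) else 0) =
          (((Z ×ˢ Zᶜ).filter (fun p => R p.1 p.2)).card : ℝ) := by
        rw [Finset.card_filter, Nat.cast_sum, Finset.sum_product]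
        have : ∀ v : V, ∑ u ∈ univ.filter (fun u => R v u),
            (if v ∈ Z ∧ u ∉ Z then (1:ℝ) else 0) =
            if v ∈ Z then ∑ u ∈ Zᶜ, (if R v u then (1:ℝ) else 0) else 0 := by
          intro v
          by_cases hv : v ∈ Z
          · simp only [hv, true_and, if_true]
            rw [← Finset.sum_filter, ← Finset.sum_filter, Finset.filter_filter]
            apply Finset.sum_congr _ (fun _ _ => rfl)
            ext u; simp [and_comm]
          · simp [hv]
        rw [Finset.sum_congr rfl (fun v _ => this v), ← Finset.sum_filter]
        apply Finset.sum_congr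
        · ext v; simp
        · intro v _
          apply Finset.sum_congr rfl
          intro u _
          push_cast
          rfl
      have hcount2 : ∑ v, ∑ u ∈ univ.filter (fun u => R v u),
          (if u ∈ Z ∧ v ∉ Z then (1:ℝ) else 0) =
          (((Z ×ˢ Zᶜ).filter (fun p => R p.1 p.2)).card : ℝ) := by
        rw [← hcount1]
        simp only [Finset.sum_filter]
        rw [Finset.sum_comm]
        apply Finset.sum_congr rfl; intro v _
        apply Finset.sum_congr rfl; intro u _
        have : R u v ↔ R v u := ⟨hsym u v, hsym v u⟩
        simp only [this]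
      have hs2 : ∑ v, ∑ u ∈ univ.filter (fun u => R v u), |p v - p u| =
          ∑ v, ∑ u ∈ univ.filter (fun u => R v u), |p' v - p' u| +
          2 * m * (((Z ×ˢ Zᶜ).filter (fun p => R p.1 p.2)).card : ℝ) := by
        simp only [habs, Finset.sum_add_distrib, ← Finset.mul_sum, mul_add]
        rw [hcount1, hcount2]; ring
      have hE := hexp Z
      have hmin : min (Z.card : ℝ) (Zᶜ.card : ℝ) = Z.card := by
        apply min_eq_left; exact_mod_cast hle
      rw [hmin] at hE
      rw [hs1, hs2]
      have : m * (c * Z.card) ≤ m * (((Z ×ˢ Zᶜ).filter (fun p => R p.1 p.2)).card : ℝ) :=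
        mul_le_mul_of_nonneg_left hE hmpos.le
      linarith
    · have h0 : ∀ v, p v = 0 := by
        intro v
        have h1 := hp v
        by_contra h2
        exact hne ⟨v, Finset.mem_filter.mpr ⟨mem_univ v, lt_of_le_of_ne h1 (Ne.symm h2)⟩⟩
      simp [h0]

/-- a median exists -/
private theorem exists_median (V : Type) [Fintype V] (h : V → ℝ) :
    ∃ a : ℝ, (univ.filter (fun v => a < h v)).card ≤ ((univ.filter (fun v => a < h v))ᶜ).card ∧
      (univ.filter (fun v => h v < a)).card ≤ ((univ.filter (fun v => h v < a))ᶜ).card := by
  by_cases hV : Nonempty V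
  · let S : Finset V := univ.filter (fun v => 2 * (univ.filter (fun w => h v < h w)).card ≤
      Fintype.card V)
    have hS : S.Nonempty := by
      obtain ⟨z, -, hz⟩ := Finset.exists_max_image (univ : Finset V) h univ_nonempty
      refine ⟨z, Finset.mem_filter.mpr ⟨mem_univ z, ?_⟩⟩
      have : (univ.filter (fun w => h z < h w)) = ∅ := by
        ext w; simp; exact hz w (mem_univ w)
      rw [this]; simp
    obtain ⟨v0, hv0, hmin⟩ := Finset.exists_min_image S h hS
    refine ⟨h v0, ?_, ?_⟩
    · have h1 := (Finset.mem_filter.mp hv0).2
      rw [Finset.card_compl]; omega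
    · by_contra hcon
      rw [Finset.card_compl] at hcon
      push Not at hcon
      have hpos : 0 < (univ.filter (fun v => h v < h v0)).card := by
        have := Fintype.card_pos (α := V)
        omega
      obtain ⟨w, hw, hwmax⟩ := Finset.exists_max_image _ h (Finset.card_pos.mp hpos)
      have hw' := (Finset.mem_filter.mp hw).2
      have hcompl : (univ.filter (fun u => h w < h u)) ⊆ (univ.filter (fun v => h v < h v0))ᶜ := by
        intro u hu
        rw [Finset.mem_compl]
        intro hu2
        have h3 := hwmax u hu2
        have h4 := (Finset.mem_filter.mp hu).2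
        linarith
      have hc := Finset.card_le_card hcompl
      rw [Finset.card_compl] at hc
      have hle : (univ.filter (fun v => h v < h v0)).card ≤ Fintype.card V :=
        Finset.card_le_univ _
      have hwS : w ∈ S := by
        refine Finset.mem_filter.mpr ⟨mem_univ w, ?_⟩
        omega
      have := hmin w hwS
      linarith
  · refine ⟨0, ?_, ?_⟩ <;>
    · have : IsEmpty V := not_nonempty_iff.mp hV
      simp

theorem D2a : Coarea_stmt := by
  intro V _ R c hc hsym hexp h
  obtain ⟨a, ha1, ha2⟩ := exists_median V h
  refine ⟨a, ?_⟩
  have e1 : (univ.filter (fun v => 0 < max (h v - a) 0)) = univ.filter (fun v => a < h v) := by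
    ext v; simp
  have e2 : (univ.filter (fun v => 0 < max (a - h v) 0)) = univ.filter (fun v => h v < a) := by
    ext v; simp
  have k1 := coarea_pos V R c hsym hexp _ (fun v => max (h v - a) 0)
    (fun v => le_max_right _ _) rfl (by rw [e1]; exact ha1)
  have k2 := coarea_pos V R c hsym hexp _ (fun v => max (a - h v) 0)
    (fun v => le_max_right _ _) rfl (by rw [e2]; exact ha2)
  have f1 : ∀ v, |h v - a| = max (h v - a) 0 + max (a - h v) 0 := by
    intro v
    rcases le_total a (h v) with h1 | h1
    · rw [abs_of_nonneg (by linarith), max_eq_left (by linarith), max_eq_right (by linarith)]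
      ring
    · rw [abs_of_nonpos (by linarith), max_eq_right (by linarith), max_eq_left (by linarith)]
      ring
  have f2 : ∀ v u, |h v - h u| = |max (h v - a) 0 - max (h u - a) 0| +
      |max (a - h v) 0 - max (a - h u) 0| := by
    intro v u
    rcases le_total a (h v) with h1 | h1 <;> rcases le_total a (h u) with h2 | h2
    · rw [max_eq_left (by linarith : (0:ℝ) ≤ h v - a), max_eq_left (by linarith : (0:ℝ) ≤ h u - a),
        max_eq_right (by linarith : a - h v ≤ 0), max_eq_right (by linarith : a - h u ≤ 0)]
      simp
    · rw [max_eq_left (by linarith : (0:ℝ) ≤ h v - a), max_eq_right (by linarith : h u - a ≤ 0),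
        max_eq_right (by linarith : a - h v ≤ 0), max_eq_left (by linarith : (0:ℝ) ≤ a - h u)]
      rw [abs_of_nonneg (by linarith), abs_of_nonneg (by linarith), abs_of_nonpos (by linarith)]
      ring
    · rw [max_eq_right (by linarith : h v - a ≤ 0), max_eq_left (by linarith : (0:ℝ) ≤ h u - a),
        max_eq_left (by linarith : (0:ℝ) ≤ a - h v), max_eq_right (by linarith : a - h u ≤ 0)]
      rw [abs_of_nonpos (by linarith), abs_of_nonpos (by linarith), abs_of_nonneg (by linarith)]
      ring
    · rw [max_eq_right (by linarith : h v - a ≤ 0), max_eq_right (by linarith : h u - a ≤ 0),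
        max_eq_left (by linarith : (0:ℝ) ≤ a - h v), max_eq_left (by linarith : (0:ℝ) ≤ a - h u)]
      have : a - h v - (a - h u) = -(h v - h u) := by ring
      rw [this, abs_neg]; simp
  simp only [f1, f2, Finset.sum_add_distrib, mul_add]
  linarith

end Pool.Agent.Helper15.LR
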