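import Pool.Agent.Helper15.LR.Defs2

set_option autoImplicit false

/-!
D2b: linear algebra with nearly orthogonal sign vectors.
-/

open Finset Filter
open scoped Classical Topology

namespace Pool.Agent.Helper15.LR

noncomputable section

private theorem sgn_mul_self (b : Bool) : sgn b * sgn b = 1 := by
  unfold sgn
  split_ifs <;> norm_num

private theorem abs_sgn (b : Bool) : |sgn b| = 1 := by
  unfold sgn
  split_ifs <;> norm_num

theorem D2b : Ortho_stmt := by
  intro K ρ hK hρ0 hρ1 V _ σ g Ξ h1 h2 h3 h4
  choose a ha using h4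
  set n : ℝ := (Fintype.card V : ℝ) with hn
  have hn0 : 0 ≤ n := Nat.cast_nonneg _
  have hK0 : (2 : ℝ) ≤ K := by exact_mod_cast hK
  set α : ℝ := (1 - ρ) / K with hα
  have hαK : α * K = 1 - ρ := by rw [hα]; field_simp
  have hα0 : 0 < α := by rw [hα]; apply div_pos <;> linarith
  have hα2 : α ≤ 1 / 2 := by nlinarith
  have : Nonempty (Fin K) := ⟨⟨0, by omega⟩⟩
  set s : Fin K → V → ℝ := fun j v => sgn (σ v j) with hs
  set er : Fin K → V → ℝ := fun j v => g v (some j) - g v none - a j * sgn (σ v j) with her
  have her' : ∀ j, ∑ v, |er j v| ≤ Ξ := ha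
  have hΞ : 0 ≤ Ξ := (Finset.sum_nonneg fun v _ => abs_nonneg _).trans
    (her' (Classical.arbitrary (Fin K)))
  have hgj : ∀ v j, g v (some j) = g v none + a j * s j v + er j v := by
    intro v j
    simp only [hs, her]
    ring
  have hg0 : ∀ v, g v none = -α * ∑ j, (a j * s j v + er j v) := by
    intro v
    have h := h2 v
    rw [Fintype.sum_option] at h
    simp only [omg] at h
    have h5 : ∑ j, (1 - ρ) / K * g v (some j) = α * (K * g v none + ∑ j, (a j * s j v + er j v)) := by
      rw [← Finset.mul_sum, ← hα]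
      congr 1
      rw [Finset.sum_congr rfl (fun j _ => show g v (some j) = g v none + (a j * s j v + er j v) by
        rw [hgj]; ring), Finset.sum_add_distrib]
      simp
    rw [h5] at h
    have h6 : (ρ + α * K) * g v none = -α * ∑ j, (a j * s j v + er j v) := by linarith
    rw [hαK] at h6
    linarith
  obtain ⟨j0, hj0⟩ := Finite.exists_max (fun j => |a j|)
  set B : ℝ := |a j0| with hB
  have hB0 : 0 ≤ B := abs_nonneg _
  -- inner products
  have hQ : ∀ i j, |∑ v, s j v * er i v| ≤ Ξ := by
    intro i j
    refine (Finset.abs_sum_le_sum_abs _ _).trans ((Finset.sum_le_sum fun v _ => ?_).trans (her' i))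
    rw [abs_mul]
    simp only [hs, abs_sgn, one_mul]
    exact le_rfl
  have hP : ∀ j, ∑ v, s j v * s j v = n := by
    intro j
    simp only [hs, sgn_mul_self]
    simp [hn]
  have key : B * n * (1 - α) ≤ α * ((K - 1) * (B * n / 4)) + α * (K * Ξ) + Ξ := by
    have e1 : ∑ v, s j0 v * g v none + a j0 * n + ∑ v, s j0 v * er j0 v = 0 := by
      have h := h3 j0
      rw [← hP j0, Finset.mul_sum, ← Finset.sum_add_distrib, ← Finset.sum_add_distrib, ← h]
      refine Finset.sum_congr rfl fun v _ => ?_
      rw [hgj]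
      simp only [hs]
      ring
    have e2 : ∑ v, s j0 v * g v none =
        -α * (∑ i, a i * ∑ v, s j0 v * s i v) - α * ∑ i, ∑ v, s j0 v * er i v := by
      have : ∀ v, s j0 v * g v none =
          -α * (∑ i, a i * (s j0 v * s i v)) - α * ∑ i, s j0 v * er i v := by
        intro v
        rw [hg0 v, Finset.sum_add_distrib, mul_add, mul_add, Finset.mul_sum, Finset.mul_sum,
          Finset.mul_sum, Finset.mul_sum, Finset.mul_sum, Finset.mul_sum]
        rw [sub_eq_add_neg, ← Finset.sum_neg_distrib]
        congr 1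
        · refine Finset.sum_congr rfl fun i _ => ?_
          ring
        · refine Finset.sum_congr rfl fun i _ => ?_
          ring
      rw [Finset.sum_congr rfl fun v _ => this v, Finset.sum_sub_distrib, ← Finset.mul_sum,
        ← Finset.mul_sum, Finset.sum_comm, Finset.sum_comm (f := fun v i => s j0 v * er i v)]
      simp only [Finset.mul_sum]
    have e3 : ∑ i, a i * ∑ v, s j0 v * s i v =
        a j0 * n + ∑ i ∈ univ.erase j0, a i * ∑ v, s j0 v * s i v := by
      rw [← Finset.add_sum_erase _ _ (Finset.mem_univ j0), hP]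
    set R : ℝ := ∑ i ∈ univ.erase j0, a i * ∑ v, s j0 v * s i v with hR
    set S : ℝ := ∑ i, ∑ v, s j0 v * er i v with hS
    set Q : ℝ := ∑ v, s j0 v * er j0 v with hQ'
    have e4 : a j0 * n * (1 - α) = α * R + α * S - Q := by
      rw [e2, e3] at e1
      linarith
    have hRb : |R| ≤ (K - 1) * (B * n / 4) := by
      rw [hR]
      refine (Finset.abs_sum_le_sum_abs _ _).trans ?_
      have : ∀ i ∈ univ.erase j0, |a i * ∑ v, s j0 v * s i v| ≤ B * n / 4 := by
        intro i hi
        rw [abs_mul]
        have h5 := h1 j0 i (Finset.ne_of_mem_erase hi).symm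
        have h6 := hj0 i
        calc |a i| * |∑ v, s j0 v * s i v| ≤ B * (n / 4) :=
              mul_le_mul h6 h5 (abs_nonneg _) hB0
          _ = B * n / 4 := by ring
      refine (Finset.sum_le_sum this).trans ?_
      rw [Finset.sum_const, Finset.card_erase_of_mem (Finset.mem_univ _), Finset.card_univ,
        Fintype.card_fin, nsmul_eq_mul, Nat.cast_sub (by omega), Nat.cast_one]
    have hSb : |S| ≤ K * Ξ := by
      rw [hS]
      refine (Finset.abs_sum_le_sum_abs _ _).trans ((Finset.sum_le_sum fun i _ => hQ i j0).trans ?_)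
      simp
    have hQb : |Q| ≤ Ξ := hQ j0 j0
    have h1α : 0 ≤ 1 - α := by linarith
    calc B * n * (1 - α) = |a j0 * n * (1 - α)| := by
          rw [abs_mul, abs_mul, abs_of_nonneg hn0, abs_of_nonneg h1α]
      _ = |α * R + α * S - Q| := by rw [e4]
      _ ≤ |α * R| + |α * S| + |Q| := by
          refine (abs_sub _ _).trans ?_
          gcongr
          exact abs_add_le _ _
      _ = α * |R| + α * |S| + |Q| := by rw [abs_mul, abs_mul, abs_of_pos hα0]
      _ ≤ _ := by gcongr
  have hBn : B * n ≤ 8 * Ξ := by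
    have h0 : 0 ≤ B * n := mul_nonneg hB0 hn0
    have h5 : B * n / 2 ≤ B * n * (1 - α) := by nlinarith
    have h6 : α * ((K - 1) * (B * n / 4)) ≤ B * n / 4 := by
      have : α * (K - 1) ≤ 1 := by nlinarith
      nlinarith
    have h7 : α * (K * Ξ) ≤ Ξ := by
      have : α * K ≤ 1 := by linarith
      nlinarith
    linarith
  have hG0 : ∑ v, |g v none| ≤ 9 * Ξ := by
    have h5 : ∀ v, |g v none| ≤ α * ∑ j, (B + |er j v|) := by
      intro v
      rw [hg0 v, abs_mul, abs_neg, abs_of_pos hα0]
      refine mul_le_mul_of_nonneg_left ?_ hα0.le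
      refine (Finset.abs_sum_le_sum_abs _ _).trans (Finset.sum_le_sum fun j _ => ?_)
      refine (abs_add_le _ _).trans ?_
      rw [abs_mul]
      simp only [hs, abs_sgn, mul_one]
      gcongr
      exact hj0 j
    refine (Finset.sum_le_sum fun v _ => h5 v).trans ?_
    rw [← Finset.mul_sum, Finset.sum_comm]
    have h6 : ∀ j ∈ (univ : Finset (Fin K)), ∑ v, (B + |er j v|) ≤ 9 * Ξ := by
      intro j _
      rw [Finset.sum_add_distrib]
      have : ∑ _v : V, B = B * n := by simp [hn, mul_comm]
      rw [this]
      linarith [her' j]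
    have h7 := Finset.sum_le_sum h6
    rw [Finset.sum_const, Finset.card_univ, Fintype.card_fin, nsmul_eq_mul] at h7
    calc _ ≤ α * (K * (9 * Ξ)) := mul_le_mul_of_nonneg_left h7 hα0.le
      _ = (α * K) * (9 * Ξ) := by ring
      _ ≤ 1 * (9 * Ξ) := by
          refine mul_le_mul_of_nonneg_right ?_ (by linarith)
          linarith
      _ = 9 * Ξ := one_mul _
  have hGj : ∀ j, ∑ v, |g v (some j)| ≤ 18 * Ξ := by
    intro j
    have h5 : ∀ v, |g v (some j)| ≤ |g v none| + B + |er j v| := by
      intro v
      rw [hgj v j]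
      refine (abs_add_le _ _).trans ?_
      gcongr
      refine (abs_add_le _ _).trans ?_
      gcongr
      rw [abs_mul]
      simp only [hs, abs_sgn, mul_one]
      exact hj0 j
    refine (Finset.sum_le_sum fun v _ => h5 v).trans ?_
    rw [Finset.sum_add_distrib, Finset.sum_add_distrib]
    have : ∑ _v : V, B = B * n := by simp [hn, mul_comm]
    rw [this]
    linarith [her' j]
  rw [Finset.sum_comm, Fintype.sum_option]
  have h8 := Finset.sum_le_sum fun j (_ : j ∈ (univ : Finset (Fin K))) => hGj j
  rw [Finset.sum_const, Finset.card_univ, Fintype.card_fin, nsmul_eq_mul] at h8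
  nlinarith

end

end Pool.Agent.Helper15.LR
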