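import Pool.Agent.Helper15.LR.Defs2

set_option autoImplicit false

open Finset Filter
open scoped Classical Topology

namespace Pool.Agent.Helper15.LR

noncomputable section

namespace D3

/-- edges at `u` whose pattern avoids `J` -/
lemma card_avoid {V : Type} [Fintype V] {K : ℕ} (F : Set (Sym2 V)) (σ : V → Fin K → Bool) (u : V)
    (e : ℝ) (he : 0 ≤ e)
    (h : ∀ X : Finset (Fin K),
      |(((nb F u).filter (fun v => pat σ u v = X)).card : ℝ) - (1 / 2) ^ K * dg F u| ≤ e)
    (J : Finset (Fin K)) :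
    (((nb F u).filter (fun v => Disjoint (pat σ u v) J)).card : ℝ) ≤
      (1 / 2) ^ J.card * dg F u + 2 ^ K * e := by
  have h1 : ((nb F u).filter (fun v => Disjoint (pat σ u v) J)).card =
      ∑ X ∈ (Jᶜ).powerset,
        (((nb F u).filter (fun v => Disjoint (pat σ u v) J)).filter
          (fun v => pat σ u v = X)).card := by
    apply Finset.card_eq_sum_card_fiberwise
    intro v hv
    have hv' := (Finset.mem_filter.1 (Finset.mem_coe.1 hv)).2
    rw [Finset.mem_coe, Finset.mem_powerset]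
    intro j hj
    rw [Finset.mem_compl]
    exact fun hj' => (Finset.disjoint_left.1 hv') hj hj'
  have h2 : (((nb F u).filter (fun v => Disjoint (pat σ u v) J)).card : ℝ) ≤
      ∑ X ∈ (Jᶜ).powerset, ((1 / 2) ^ K * dg F u + e) := by
    rw [h1]
    push_cast
    apply Finset.sum_le_sum
    intro X _
    have h3 : ((((nb F u).filter (fun v => Disjoint (pat σ u v) J)).filter
          (fun v => pat σ u v = X)).card : ℝ) ≤
        (((nb F u).filter (fun v => pat σ u v = X)).card : ℝ) := by
      exact_mod_cast Finset.card_le_card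
        (Finset.filter_subset_filter _ (Finset.filter_subset _ _))
    have h4 := (abs_le.1 (h X)).2
    linarith
  rw [Finset.sum_const, Finset.card_powerset, Finset.card_compl, Fintype.card_fin, nsmul_eq_mul]
    at h2
  have hJ : J.card ≤ K := by
    have := Finset.card_le_univ J
    rwa [Fintype.card_fin] at this
  have h5 : ((2 ^ (K - J.card) : ℕ) : ℝ) * (1 / 2) ^ K = (1 / 2) ^ J.card := by
    push_cast
    have : (1 / 2 : ℝ) ^ K = (1 / 2) ^ (K - J.card) * (1 / 2) ^ J.card := by
      rw [← pow_add]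
      congr 1
      omega
    rw [this, ← mul_assoc, ← mul_pow]
    norm_num
  have h6 : ((2 ^ (K - J.card) : ℕ) : ℝ) ≤ 2 ^ K := by
    push_cast
    exact pow_le_pow_right₀ (by norm_num) (Nat.sub_le _ _)
  calc _ ≤ _ := h2
    _ = (((2 ^ (K - J.card) : ℕ) : ℝ) * (1 / 2) ^ K) * dg F u
        + ((2 ^ (K - J.card) : ℕ) : ℝ) * e := by ring
    _ ≤ _ := by
      rw [h5]
      have := mul_le_mul_of_nonneg_right h6 he
      linarith

/-- if all typical edges with property `P` have their label in `J` -/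
lemma sum_ld {V Λ : Type} [Fintype V] (F : Set (Sym2 V)) (φ : Sym2 V → Λ) (u : V)
    (J : Finset Λ) (P T : V → Prop) (b : ℝ)
    (hT : (((nb F u).filter (fun v => ¬ T v)).card : ℝ) ≤ b)
    (h : ∀ v ∈ nb F u, T v → P v → φ s(u, v) ∈ J) :
    (dg F u : ℝ) - (((nb F u).filter (fun v => ¬ P v)).card : ℝ) - b ≤
      ∑ o ∈ J, (ld F φ u o : ℝ) := by
  have h1 : ∑ o ∈ J, ld F φ u o = ((nb F u).filter (fun v => φ s(u, v) ∈ J)).card := by
    rw [Finset.card_eq_sum_card_fiberwise (f := fun v => φ s(u, v)) (t := J)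
      (by intro v hv; exact (Finset.mem_filter.1 (Finset.mem_coe.1 hv)).2)]
    apply Finset.sum_congr rfl
    intro o ho
    unfold ld
    congr 1
    ext v
    simp only [Finset.mem_filter]
    constructor
    · rintro ⟨ha, hb⟩
      exact ⟨⟨ha, by rw [hb]; exact ho⟩, hb⟩
    · rintro ⟨⟨ha, _⟩, hb⟩
      exact ⟨ha, hb⟩
  have h2 : dg F u ≤ ((nb F u).filter (fun v => φ s(u, v) ∈ J)).card +
      ((nb F u).filter (fun v => ¬ P v)).card + ((nb F u).filter (fun v => ¬ T v)).card := by
    unfold dg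
    have h3 : nb F u ⊆ ((nb F u).filter (fun v => φ s(u, v) ∈ J)) ∪
        ((nb F u).filter (fun v => ¬ P v)) ∪ ((nb F u).filter (fun v => ¬ T v)) := by
      intro v hv
      simp only [Finset.mem_union, Finset.mem_filter, hv, true_and]
      by_cases hP : P v
      · by_cases hT' : T v
        · exact Or.inl (Or.inl (h v hv hT' hP))
        · exact Or.inr hT'
      · exact Or.inl (Or.inr hP)
    calc _ ≤ _ := Finset.card_le_card h3
      _ ≤ _ := Finset.card_union_le _ _
      _ ≤ _ := Nat.add_le_add_right (Finset.card_union_le _ _) _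
  rw [← h1] at h2
  have h3 : (dg F u : ℝ) ≤ ∑ o ∈ J, (ld F φ u o : ℝ) +
      (((nb F u).filter (fun v => ¬ P v)).card : ℝ)
      + (((nb F u).filter (fun v => ¬ T v)).card : ℝ) := by
    exact_mod_cast h2
  linarith

lemma ld_total {V Λ : Type} [Fintype V] [Fintype Λ] (F : Set (Sym2 V)) (φ : Sym2 V → Λ) (u : V) :
    ∑ o, (ld F φ u o : ℝ) = dg F u := by
  have h1 : ∑ o, ld F φ u o = dg F u := by
    unfold ld dg
    rw [Finset.card_eq_sum_card_fiberwise (f := fun v => φ s(u, v)) (t := Finset.univ)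
      (by intro v _; exact Finset.mem_coe.2 (Finset.mem_univ _))]
  exact_mod_cast h1

lemma omg_sum (K : ℕ) (ρ : ℝ) (hK : 1 ≤ K) : ∑ o, omg K ρ o = 1 := by
  rw [Fintype.sum_option]
  simp only [omg, Finset.sum_const, Finset.card_univ, Fintype.card_fin, nsmul_eq_mul]
  have : (K : ℝ) ≠ 0 := by positivity
  field_simp
  ring


/-- the case of a very negative coordinate is impossible -/
lemma lower {K : ℕ} {ρ : ℝ} (hK : 1 ≤ K) (w₀ : ℝ) (hw₀ : 0 < w₀) (hw₀ρ : w₀ ≤ ρ)
    (hw₀K : w₀ ≤ (1 - ρ) / K) (hq : 8 * (1 / 2 : ℝ) ^ (K / 3) ≤ w₀) (hρ : 0 < ρ) (hρ1 : ρ < 1)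
    {V : Type} [Fintype V] (F : Set (Sym2 V)) (σ : V → Fin K → Bool)
    (τ : V → Option (Fin K) → ℝ) (φ : Sym2 V → Option (Fin K)) (u : V) (e γ : ℝ) (he : 0 ≤ e)
    (hγ : 0 < γ) (T : V → Prop)
    (hT : (((nb F u).filter (fun v => ¬ T v)).card : ℝ) ≤ 2 * e)
    (hD : 0 < (dg F u : ℝ))
    (hE : (2 ^ K + K + 3) * e ≤ w₀ / 8 * dg F u)
    (hpat : ∀ X : Finset (Fin K),
      |(((nb F u).filter (fun v => pat σ u v = X)).card : ℝ) - (1 / 2) ^ K * dg F u| ≤ e)
    (hτ : ∀ o, |τ u o - omg K ρ o * dg F u| ≤ e)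
    (hτs : ∑ o, τ u o = dg F u)
    (hφ : ∀ v, s(u, v) ∈ F → φ s(u, v) ∈ full σ u v)
    (hstep : ∀ v ∈ nb F u, T v → ∀ o' ∈ full σ u v,
      gg F φ τ (omg K ρ) u (φ s(u, v)) ≤ gg F φ τ (omg K ρ) u o' + γ) (o₁ : Option (Fin K)) :
    -(2 * γ) ≤ gg F φ τ (omg K ρ) u o₁ := by
  by_contra hcon
  push Not at hcon
  set g : Option (Fin K) → ℝ := fun o => gg F φ τ (omg K ρ) u o with hg
  obtain ⟨o₀, -, ho₀⟩ := Finset.exists_min_image (Finset.univ : Finset (Option (Fin K))) g
    ⟨none, Finset.mem_univ _⟩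
  have hmin : ∀ o, g o₀ ≤ g o := fun o => ho₀ o (Finset.mem_univ _)
  have hmn : g o₀ < -(2 * γ) := lt_of_le_of_lt (hmin o₁) hcon
  have hKr : (1 : ℝ) ≤ K := by exact_mod_cast hK
  have hω : ∀ o, w₀ ≤ omg K ρ o := by
    intro o
    cases o with
    | none => exact hw₀ρ
    | some j => exact hw₀K
  have hωpos : ∀ o, 0 < omg K ρ o := fun o => lt_of_lt_of_le hw₀ (hω o)
  have hωs : ∑ o, omg K ρ o = 1 := omg_sum K ρ hK
  have hld : ∀ o, (ld F φ u o : ℝ) = τ u o + omg K ρ o * g o := by
    intro o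
    have : omg K ρ o * g o = (ld F φ u o : ℝ) - τ u o := by
      simp only [hg, gg]
      field_simp [(hωpos o).ne']
    linarith
  have hlds : ∑ o, (ld F φ u o : ℝ) = dg F u := ld_total F φ u
  have hzero : ∑ o, omg K ρ o * g o = 0 := by
    have h1 : ∑ o, (ld F φ u o : ℝ) = ∑ o, (τ u o + omg K ρ o * g o) :=
      Finset.sum_congr rfl (fun o _ => hld o)
    rw [Finset.sum_add_distrib, hlds, hτs] at h1
    linarith
  set J₁ : Finset (Option (Fin K)) := Finset.univ.filter (fun o => g o ≤ g o₀ + γ) with hJ₁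
  set J₂ : Finset (Option (Fin K)) := Finset.univ.filter (fun o => g o ≤ g o₀ + 2 * γ) with hJ₂
  -- upper bounds for the loads of the labels in J
  have hup : ∀ J : Finset (Option (Fin K)), (∀ o ∈ J, g o < 0) →
      ∑ o ∈ J, (ld F φ u o : ℝ) ≤ (∑ o ∈ J, omg K ρ o) * dg F u + (K + 1) * e := by
    intro J hJ
    have h1 : ∀ o ∈ J, (ld F φ u o : ℝ) ≤ omg K ρ o * dg F u + e := by
      intro o ho
      have h2 := (abs_le.1 (hτ o)).2
      have h3 := hld o
      have h4 : omg K ρ o * g o ≤ 0 := mul_nonpos_of_nonneg_of_nonpos (hωpos o).le (hJ o ho).le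
      linarith
    calc _ ≤ ∑ o ∈ J, (omg K ρ o * dg F u + e) := Finset.sum_le_sum h1
      _ = (∑ o ∈ J, omg K ρ o) * dg F u + J.card * e := by
        rw [Finset.sum_add_distrib, Finset.sum_mul, Finset.sum_const, nsmul_eq_mul]
      _ ≤ _ := by
        have h2 : (J.card : ℝ) ≤ K + 1 := by
          have := Finset.card_le_univ J
          rw [Fintype.card_option, Fintype.card_fin] at this
          exact_mod_cast this
        have := mul_le_mul_of_nonneg_right h2 he
        linarith
  have hJ₂neg : ∀ o ∈ J₂, g o < 0 := by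
    intro o ho
    have := (Finset.mem_filter.1 ho).2
    linarith
  have hJ₁neg : ∀ o ∈ J₁, g o < 0 := by
    intro o ho
    have := (Finset.mem_filter.1 ho).2
    linarith
  -- J₂ carries nearly everything
  have hlow₂ : (1 - (1 / 2 : ℝ) ^ (K / 3)) * dg F u - 2 ^ K * e - 2 * e ≤
      ∑ o ∈ J₂, (ld F φ u o : ℝ) := by
    by_cases hnone : none ∈ J₁
    · have h1 := sum_ld F φ u J₂ (fun _ => True) T (2 * e) hT (by
        intro v hv hTv _
        have h2 := hstep v hv hTv none (by
          unfold full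
          simp)
        have h3 := (Finset.mem_filter.1 hnone).2
        refine Finset.mem_filter.2 ⟨Finset.mem_univ _, ?_⟩
        simp only [hg] at h3 ⊢
        linarith)
      simp only [not_true_eq_false, Finset.filter_false, Finset.card_empty, Nat.cast_zero,
        sub_zero] at h1
      have h2 : 0 ≤ (1 / 2 : ℝ) ^ (K / 3) * dg F u := by positivity
      have h3 : 0 ≤ (2 : ℝ) ^ K * e := by positivity
      linarith
    · -- J₁ consists of levels
      have hlow₁ : (1 / 2 : ℝ) * dg F u - 2 ^ K * e - 2 * e ≤ ∑ o ∈ J₁, (ld F φ u o : ℝ) := by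
        have ho₀J : o₀ ∈ J₁ := Finset.mem_filter.2 ⟨Finset.mem_univ _, by linarith⟩
        cases hc : o₀ with
        | none => exact absurd (hc ▸ ho₀J) hnone
        | some j =>
          have h1 := sum_ld F φ u J₁ (fun v => ¬ Disjoint (pat σ u v) {j}) T (2 * e) hT (by
            intro v hv hTv hP
            have h2 := hstep v hv hTv o₀ (by
              rw [hc]
              rw [Finset.disjoint_singleton_right, not_not] at hP
              unfold full
              refine Finset.mem_filter.2 ⟨Finset.mem_univ _, ?_⟩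
              intro j' hj'
              have : j = j' := Option.some.inj hj'
              rw [← this]
              exact (Finset.mem_filter.1 hP).2)
            refine Finset.mem_filter.2 ⟨Finset.mem_univ _, ?_⟩
            exact h2)
          simp only [not_not] at h1
          have h2 := card_avoid F σ u e he hpat {j}
          rw [Finset.card_singleton, pow_one] at h2
          linarith
      have h1 := hup J₁ hJ₁neg
      -- the levels in J₁
      set J : Finset (Fin K) := Finset.univ.filter (fun j => some j ∈ J₁) with hJ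
      have hJeq : J₁ = J.image some := by
        ext o
        cases o with
        | none => simp [hnone]
        | some j => simp [hJ]
      have hJω : ∑ o ∈ J₁, omg K ρ o = J.card * ((1 - ρ) / K) := by
        rw [hJeq, Finset.sum_image (fun a _ b _ h => Option.some.inj h)]
        simp only [omg, Finset.sum_const, nsmul_eq_mul]
      rw [hJω] at h1
      have hw12 : w₀ ≤ 1 / 2 := by
        have h5 : (1 - ρ) / K ≤ 1 - ρ := by
          rw [div_le_iff₀ (by positivity)]
          nlinarith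
        linarith
      have h3 : (1 / 3 : ℝ) * dg F u ≤ J.card * ((1 - ρ) / K) * dg F u := by
        have h6 : (2 ^ K + K + 3) * e ≤ 1 / 6 * dg F u := by
          refine hE.trans ?_
          nlinarith
        nlinarith
      have h4 : (1 / 3 : ℝ) ≤ J.card * ((1 - ρ) / K) := le_of_mul_le_mul_right h3 hD
      have h5 : (K : ℝ) ≤ 3 * J.card := by
        have h7 : (J.card : ℝ) * ((1 - ρ) / K) ≤ J.card * (1 / K) := by
          apply mul_le_mul_of_nonneg_left _ (Nat.cast_nonneg _)
          apply div_le_div_of_nonneg_right _ (by positivity)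
          linarith
        have h8 : (1 / 3 : ℝ) ≤ J.card * (1 / K) := h4.trans h7
        rw [mul_one_div, le_div_iff₀ (by positivity)] at h8
        linarith
      have h6 : K / 3 ≤ J.card := by
        have : K ≤ 3 * J.card := by exact_mod_cast h5
        omega
      have h7 := sum_ld F φ u J₂ (fun v => ¬ Disjoint (pat σ u v) J) T (2 * e) hT (by
        intro v hv hTv hP
        rw [Finset.not_disjoint_iff] at hP
        obtain ⟨j, hj, hjJ⟩ := hP
        have h2 := hstep v hv hTv (some j) (by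
          unfold full
          refine Finset.mem_filter.2 ⟨Finset.mem_univ _, ?_⟩
          intro j' hj'
          have : j = j' := Option.some.inj hj'
          rw [← this]
          exact (Finset.mem_filter.1 hj).2)
        have h8 := (Finset.mem_filter.1 (Finset.mem_filter.1 hjJ).2).2
        refine Finset.mem_filter.2 ⟨Finset.mem_univ _, ?_⟩
        simp only [hg] at h8 ⊢
        linarith)
      simp only [not_not] at h7
      have h8 := card_avoid F σ u e he hpat J
      have h9 : (1 / 2 : ℝ) ^ J.card ≤ (1 / 2) ^ (K / 3) :=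
        pow_le_pow_of_le_one (by norm_num) (by norm_num) h6
      have h10 := mul_le_mul_of_nonneg_right h9 hD.le
      linarith
  have hup₂ := hup J₂ hJ₂neg
  -- J₂ is everything
  have hJ₂all : ∀ o, o ∈ J₂ := by
    intro o
    by_contra ho
    have h1 : ∑ o ∈ J₂, omg K ρ o ≤ 1 - w₀ := by
      have h2 : ∑ o ∈ J₂, omg K ρ o + ∑ o' ∈ {o}, omg K ρ o' ≤ ∑ o, omg K ρ o := by
        rw [← Finset.sum_union (by simpa using ho)]
        exact Finset.sum_le_sum_of_subset_of_nonneg (Finset.subset_univ _)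
          (fun i _ _ => (hωpos i).le)
      rw [hωs, Finset.sum_singleton] at h2
      have := hω o
      linarith
    have h2 : (∑ o ∈ J₂, omg K ρ o) * dg F u ≤ (1 - w₀) * dg F u :=
      mul_le_mul_of_nonneg_right h1 hD.le
    have h3 : (1 / 2 : ℝ) ^ (K / 3) * dg F u ≤ w₀ / 8 * dg F u :=
      mul_le_mul_of_nonneg_right (by linarith) hD.le
    have h4 : 0 < w₀ * dg F u := mul_pos hw₀ hD
    nlinarith
  have : ∑ o, omg K ρ o * g o < 0 := by
    apply Finset.sum_neg (fun o _ => mul_neg_of_pos_of_neg (hωpos o) (hJ₂neg o (hJ₂all o)))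
    exact ⟨none, Finset.mem_univ _⟩
  linarith

end D3

theorem D3 : Boot_stmt := by
  intro K ρ d₀ hK hρ hρ1 hd₀ hq1 hq2
  have hKr : (1 : ℝ) ≤ K := by exact_mod_cast hK
  set w₀ : ℝ := min ρ ((1 - ρ) / K) with hw₀d
  have hw₀ : 0 < w₀ := lt_min hρ (div_pos (by linarith) (by linarith))
  have hw₀ρ : w₀ ≤ ρ := min_le_left _ _
  have hw₀K : w₀ ≤ (1 - ρ) / K := min_le_right _ _
  have hq : 8 * (1 / 2 : ℝ) ^ (K / 3) ≤ w₀ := le_min hq1 hq2
  have hcK : (0 : ℝ) < 8 * (2 ^ K + K + 3) := by positivity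
  refine ⟨d₀ * w₀ / (8 * (2 ^ K + K + 3)), by positivity, ?_⟩
  intro δ C' hδ hδ₀ hC'
  set Λ : ℝ := (C' + 1) / δ with hΛ
  have hΛpos : 0 < Λ := by positivity
  set γ : ℝ := 2 * Λ + 2 / w₀ with hγd
  have hγ : 0 < γ := by positivity
  refine ⟨2 * γ, by positivity, ?_⟩
  intro V _ F σ A τ φ hloop hdeg hpat hφ hA hτ hτs hopt hsum u o
  have hn : 0 < (Fintype.card V : ℝ) := by
    have : 0 < Fintype.card V := Fintype.card_pos_iff.2 ⟨u⟩
    exact_mod_cast this
  have hD : 0 < (dg F u : ℝ) := lt_of_lt_of_le (mul_pos hd₀ hn) (hdeg u)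
  have hω : ∀ o, w₀ ≤ omg K ρ o := by
    intro o
    cases o with
    | none => exact hw₀ρ
    | some j => exact hw₀K
  have hωpos : ∀ o, 0 < omg K ρ o := fun o => lt_of_lt_of_le hw₀ (hω o)
  have hωs : ∑ o, omg K ρ o = 1 := D3.omg_sum K ρ hK
  have hpatfull : ∀ u v, full σ u v = full σ v u := by
    intro u v
    unfold full
    ext o
    simp only [Finset.mem_filter, Finset.mem_univ, true_and]
    exact ⟨fun h j hj => (h j hj).symm, fun h j hj => (h j hj).symm⟩
  -- few vertices with large error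
  have hbad : ((Finset.univ.filter (fun v => ¬ (∑ o, |gg F φ τ (omg K ρ) v o| ≤ Λ))).card : ℝ)
      ≤ δ * Fintype.card V := by
    have h1 : ((Finset.univ.filter
        (fun v => ¬ (∑ o, |gg F φ τ (omg K ρ) v o| ≤ Λ))).card : ℝ) * Λ ≤
        ∑ v, ∑ o, |gg F φ τ (omg K ρ) v o| := by
      rw [← nsmul_eq_mul]
      calc _ ≤ ∑ v ∈ Finset.univ.filter (fun v => ¬ (∑ o, |gg F φ τ (omg K ρ) v o| ≤ Λ)),
            ∑ o, |gg F φ τ (omg K ρ) v o| := by
            apply Finset.card_nsmul_le_sum
            intro v hv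
            have := (Finset.mem_filter.1 hv).2
            push Not at this
            exact this.le
        _ ≤ _ := Finset.sum_le_sum_of_subset_of_nonneg (Finset.filter_subset _ _)
            (fun v _ _ => Finset.sum_nonneg (fun o _ => abs_nonneg _))
    have h2 : ((Finset.univ.filter
        (fun v => ¬ (∑ o, |gg F φ τ (omg K ρ) v o| ≤ Λ))).card : ℝ) * Λ ≤
        (δ * Fintype.card V) * Λ := by
      refine (h1.trans hsum).trans ?_
      have : (δ * Fintype.card V) * Λ = (C' + 1) * Fintype.card V := by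
        rw [hΛ]
        field_simp
      rw [this]
      nlinarith
    exact le_of_mul_le_mul_right h2 hΛpos
  -- typical neighbours
  have key : ∀ o₁, -(2 * γ) ≤ gg F φ τ (omg K ρ) u o₁ := by
    intro o₁
    refine D3.lower hK w₀ hw₀ hw₀ρ hw₀K hq hρ hρ1 F σ τ φ u (δ * Fintype.card V) γ
      (by positivity) hγ
      (fun v => A s(u, v) = full σ u v ∧ ∑ o, |gg F φ τ (omg K ρ) v o| ≤ Λ)
      ?_ hD ?_ (hpat u) (hτ u) (hτs u) (fun v hv => hφ u v hv) ?_ o₁
    · have h1 : (nb F u).filter (fun v => ¬ (A s(u, v) = full σ u v ∧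
          ∑ o, |gg F φ τ (omg K ρ) v o| ≤ Λ)) ⊆
          (nb F u).filter (fun v => A s(u, v) ≠ full σ u v) ∪
          Finset.univ.filter (fun v => ¬ (∑ o, |gg F φ τ (omg K ρ) v o| ≤ Λ)) := by
        intro v hv
        rw [Finset.mem_filter] at hv
        rw [Finset.mem_union, Finset.mem_filter, Finset.mem_filter]
        by_cases hc : A s(u, v) = full σ u v
        · right
          refine ⟨Finset.mem_univ _, fun h => hv.2 ⟨hc, h⟩⟩
        · left
          exact ⟨hv.1, hc⟩
      have h2 : (((nb F u).filter (fun v => ¬ (A s(u, v) = full σ u v ∧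
          ∑ o, |gg F φ τ (omg K ρ) v o| ≤ Λ))).card : ℝ) ≤
          (((nb F u).filter (fun v => A s(u, v) ≠ full σ u v)).card : ℝ) +
          ((Finset.univ.filter (fun v => ¬ (∑ o, |gg F φ τ (omg K ρ) v o| ≤ Λ))).card : ℝ) := by
        exact_mod_cast (Finset.card_le_card h1).trans (Finset.card_union_le _ _)
      have h3 : (((nb F u).filter (fun v => A s(u, v) ≠ full σ u v)).card : ℝ) ≤
          δ * Fintype.card V := by
        convert hA u
      have h4 : (((nb F u).filter (fun v => ¬ (A s(u, v) = full σ u v ∧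
          ∑ o, |gg F φ τ (omg K ρ) v o| ≤ Λ))).card : ℝ) ≤ 2 * (δ * Fintype.card V) := by
        linarith
      convert h4
    · have h1 : (2 ^ K + K + 3) * (δ * Fintype.card V) ≤ w₀ / 8 * (d₀ * Fintype.card V) := by
        rw [le_div_iff₀ hcK] at hδ₀
        nlinarith
      refine h1.trans ?_
      exact mul_le_mul_of_nonneg_left (hdeg u) (by positivity)
    · rintro v hv ⟨hAv, hΛv⟩ o' ho'
      have hF : s(u, v) ∈ F := (Finset.mem_filter.1 hv).2
      have h1 := hopt u v hF o' (by rw [hAv]; exact ho')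
      have h2 : ∀ o, |gg F φ τ (omg K ρ) v o| ≤ Λ := fun o =>
        (Finset.single_le_sum (f := fun o => |gg F φ τ (omg K ρ) v o|)
          (fun i _ => abs_nonneg _) (Finset.mem_univ o)).trans hΛv
      have h3 := (abs_le.1 (h2 o')).2
      have h4 := (abs_le.1 (h2 (φ s(u, v)))).1
      have h5 : ∀ o, 1 / omg K ρ o ≤ 1 / w₀ := fun o =>
        one_div_le_one_div_of_le hw₀ (hω o)
      have h6 := h5 o'
      have h7 := h5 (φ s(u, v))
      have h8 : 2 / w₀ = 1 / w₀ + 1 / w₀ := by ring
      rw [hγd, h8]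
      linarith
  -- upper bound
  have hld : ∀ o, omg K ρ o * gg F φ τ (omg K ρ) u o = (ld F φ u o : ℝ) - τ u o := by
    intro o
    unfold gg
    field_simp [(hωpos o).ne']
  have hlds : ∑ o, (ld F φ u o : ℝ) = dg F u := D3.ld_total F φ u
  have hzero : ∑ o, omg K ρ o * gg F φ τ (omg K ρ) u o = 0 := by
    rw [Finset.sum_congr rfl (fun o _ => hld o), Finset.sum_sub_distrib, hlds, hτs u]
    ring
  have hω1 : omg K ρ o ≤ 1 := by
    rw [← hωs]
    exact Finset.single_le_sum (fun i _ => (hωpos i).le) (Finset.mem_univ o)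
  rw [← hld o, abs_le]
  constructor
  · have h1 := mul_le_mul_of_nonneg_left (key o) (hωpos o).le
    nlinarith
  · have h1 : ∑ o' ∈ Finset.univ.erase o, omg K ρ o' * (-(2 * γ)) ≤
        ∑ o' ∈ Finset.univ.erase o, omg K ρ o' * gg F φ τ (omg K ρ) u o' :=
      Finset.sum_le_sum (fun o' _ => mul_le_mul_of_nonneg_left (key o') (hωpos o').le)
    have h2 := Finset.add_sum_erase Finset.univ
      (fun o' => omg K ρ o' * gg F φ τ (omg K ρ) u o') (Finset.mem_univ o)
    have h3 := Finset.add_sum_erase Finset.univ (fun o' => omg K ρ o') (Finset.mem_univ o)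
    rw [← Finset.sum_mul] at h1
    rw [hzero] at h2
    rw [hωs] at h3
    have h4 : ∑ o' ∈ Finset.univ.erase o, omg K ρ o' ≤ 1 := by
      have := (hωpos o).le
      linarith
    nlinarith

end

end Pool.Agent.Helper15.LR
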