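import Pool.Agent.Helper15.LR.Defs2

set_option autoImplicit false

open Finset Filter
open scoped Classical Topology

namespace Pool.Agent.Helper15.LR

theorem D4_omg_pos (K : ℕ) (ρ : ℝ) (hK : 1 ≤ K) (h0 : 0 < ρ) (h1 : ρ < 1)
    (o : Option (Fin K)) : 0 < omg K ρ o := by
  have hK' : (0 : ℝ) < K := by exact_mod_cast hK
  cases o with
  | none => exact h0
  | some j => exact div_pos (by linarith) hK'

theorem D4_sum_ld {V Λ : Type} [Fintype V] [Fintype Λ] (F : Set (Sym2 V)) (φ : Sym2 V → Λ)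
    (v : V) : ∑ o, ld F φ v o = dg F v := by
  unfold ld dg
  rw [Finset.card_eq_sum_card_fiberwise (f := fun u => φ s(v, u)) (t := univ)
    (fun x _ => by simp)]

theorem D4_sgn_add {a b : Bool} (h : a ≠ b) : sgn a + sgn b = 0 := by
  cases a <;> cases b <;> simp_all [sgn]

theorem D4_sgn_sq (a : Bool) : sgn a * sgn a = 1 := by
  cases a <;> simp [sgn]

theorem D4_sgn_abs (a : Bool) : |sgn a| = 1 := by
  cases a <;> simp [sgn]

theorem D4_full_comm {V : Type} {K : ℕ} (σ : V → Fin K → Bool) (u v : V) :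
    full σ u v = full σ v u := by
  unfold full
  ext o
  simp only [mem_filter, mem_univ, true_and]
  constructor
  · intro h j hj
    exact (h j hj).symm
  · intro h j hj
    exact (h j hj).symm

theorem D4_handshake {V : Type} [Fintype V] {K : ℕ} (F : Set (Sym2 V))
    (φ : Sym2 V → Option (Fin K)) (σ : V → Fin K → Bool)
    (hφ : ∀ u v, s(u, v) ∈ F → φ s(u, v) ∈ full σ u v) (j : Fin K) :
    ∑ v, sgn (σ v j) * (ld F φ v (some j) : ℝ) = 0 := by
  have hld : ∀ v, (ld F φ v (some j) : ℝ) =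
      ∑ u, (if s(v, u) ∈ F ∧ φ s(v, u) = some j then (1 : ℝ) else 0) := by
    intro v
    unfold ld nb
    rw [Finset.filter_filter, Finset.sum_boole]
    apply congrArg
    apply congrArg
    ext a
    simp only [mem_filter]
  have h1 : ∑ v, sgn (σ v j) * (ld F φ v (some j) : ℝ) =
      ∑ v, ∑ u, sgn (σ v j) * (if s(v, u) ∈ F ∧ φ s(v, u) = some j then (1 : ℝ) else 0) := by
    apply Finset.sum_congr rfl
    intro v _
    rw [hld v, Finset.mul_sum]
  have h2 : ∑ v, sgn (σ v j) * (ld F φ v (some j) : ℝ) =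
      ∑ v, ∑ u, sgn (σ u j) * (if s(v, u) ∈ F ∧ φ s(v, u) = some j then (1 : ℝ) else 0) := by
    rw [h1, Finset.sum_comm]
    apply Finset.sum_congr rfl
    intro v _
    apply Finset.sum_congr rfl
    intro u _
    rw [Sym2.eq_swap]
  have h3 : (∑ v, ∑ u, sgn (σ v j) *
        (if s(v, u) ∈ F ∧ φ s(v, u) = some j then (1 : ℝ) else 0)) +
      (∑ v, ∑ u, sgn (σ u j) *
        (if s(v, u) ∈ F ∧ φ s(v, u) = some j then (1 : ℝ) else 0)) = 0 := by
    rw [← Finset.sum_add_distrib]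
    apply Finset.sum_eq_zero
    intro v _
    rw [← Finset.sum_add_distrib]
    apply Finset.sum_eq_zero
    intro u _
    rw [← add_mul]
    by_cases hc : s(v, u) ∈ F ∧ φ s(v, u) = some j
    · have hf := hφ v u hc.1
      rw [hc.2] at hf
      unfold full at hf
      simp only [mem_filter, mem_univ, true_and] at hf
      have := hf j rfl
      rw [D4_sgn_add this, zero_mul]
    · rw [if_neg hc, mul_zero]
  linarith [h1, h2, h3]

theorem D4 (hLoc : LocalOpt_stmt) (hEn : Energy_stmt) (hCo : Coarea_stmt) (hOr : Ortho_stmt)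
    (hBo : Boot_stmt) : BA_stmt := by
  intro K ρ c₁ d₀ hK hρ0 hρ1 hc₁ hd₀ hK1 hK2 hK3
  have hK2' : 2 ≤ K := by
    by_contra hlt
    have : K = 1 := by omega
    subst this
    norm_num at hK3
    linarith
  obtain ⟨x₀, C₁, C₂, hx₀, hC₁, hC₂, hE⟩ := hEn K ρ hK hρ0 hρ1 hK1
  obtain ⟨δ₀, hδ₀, hB⟩ := hBo K ρ d₀ hK hρ0 hρ1 hd₀ hK2 hK3
  have hKpos : (0 : ℝ) < K := by exact_mod_cast hK
  set P : ℝ := 20 * ((K : ℝ) + 1) with hP
  have hPpos : 0 < P := by rw [hP]; positivity
  set δ : ℝ := min δ₀ (min (1 / 4) (x₀ * c₁ / (P * C₁))) with hδ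
  have hδpos : 0 < δ := by
    rw [hδ]
    refine lt_min hδ₀ (lt_min (by norm_num) (by positivity))
  have hδ1 : δ ≤ δ₀ := min_le_left _ _
  have hδ2 : δ ≤ 1 / 4 := le_trans (min_le_right _ _) (min_le_left _ _)
  have hδ3 : δ ≤ x₀ * c₁ / (P * C₁) := le_trans (min_le_right _ _) (min_le_right _ _)
  have hδ4 : P * C₁ * δ ≤ x₀ * c₁ := by
    rw [le_div_iff₀ (by positivity)] at hδ3
    linarith
  set C' : ℝ := P * C₂ / (x₀ * c₁) with hC'
  have hC'0 : 0 ≤ C' := by rw [hC']; positivity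
  obtain ⟨Γ, hΓ, hB'⟩ := hB δ C' hδpos hδ1 hC'0
  refine ⟨δ, Γ, hδpos, hΓ, ?_⟩
  intro V _ F σ A τ hF hdeg hpat hsig hA hbad hτ hτs hτsgn hexp
  have hω := D4_omg_pos K ρ hK hρ0 hρ1
  obtain ⟨φ, hφA, hφopt⟩ := hLoc V (Option (Fin K)) F A τ (omg K ρ) hF hω (by
    intro e he
    induction e using Sym2.ind with
    | _ u v => exact (hA u v he).1)
  refine ⟨φ, hφA, ?_⟩
  have hφfull : ∀ u v, s(u, v) ∈ F → φ s(u, v) ∈ full σ u v := by
    intro u v huv
    exact (hA u v huv).2 (hφA _ huv)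
  rcases isEmpty_or_nonempty V with hV | hV
  · intro v
    exact (hV.false v).elim
  have hn : (0 : ℝ) < Fintype.card V := by exact_mod_cast Fintype.card_pos
  set n : ℝ := (Fintype.card V : ℝ) with hndef
  have hE' := hE δ hδpos V F σ A τ φ hF hpat hφfull hbad hτ hφopt
  set G1 : ℝ := ∑ v, ∑ o, |gg F φ τ (omg K ρ) v o| with hG1
  have hG10 : 0 ≤ G1 := by
    rw [hG1]
    exact Finset.sum_nonneg (fun v _ => Finset.sum_nonneg (fun o _ => abs_nonneg _))
  set Ξ : ℝ := (C₁ * δ * G1 + C₂ * n) / (2 * x₀ * c₁) with hΞ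
  have hmain : ∀ j : Fin K, ∃ a : ℝ, ∑ v, |gg F φ τ (omg K ρ) v (some j) -
      gg F φ τ (omg K ρ) v none - a * sgn (σ v j)| ≤ Ξ := by
    intro j
    obtain ⟨a, ha⟩ := hCo V (fun u v => s(u, v) ∈ F ∧ σ u j ≠ σ v j ∧
        A s(u, v) = full σ u v) (c₁ * n) (by positivity)
      (by
        rintro u v ⟨h1, h2, h3⟩
        refine ⟨?_, h2.symm, ?_⟩
        · rw [Sym2.eq_swap]; exact h1
        · rw [Sym2.eq_swap, h3, D4_full_comm])
      (fun Z => le_trans (hexp j Z) (le_of_eq (by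
        apply congrArg
        apply congrArg
        ext p
        simp only [mem_filter])))
      (fun v => sgn (σ v j) * (gg F φ τ (omg K ρ) v (some j) - gg F φ τ (omg K ρ) v none))
    refine ⟨a, ?_⟩
    have hleft : ∑ v, |sgn (σ v j) * (gg F φ τ (omg K ρ) v (some j) -
        gg F φ τ (omg K ρ) v none) - a| = ∑ v, |gg F φ τ (omg K ρ) v (some j) -
      gg F φ τ (omg K ρ) v none - a * sgn (σ v j)| := by
      apply Finset.sum_congr rfl
      intro v _
      have hfac : gg F φ τ (omg K ρ) v (some j) - gg F φ τ (omg K ρ) v none - a * sgn (σ v j)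
          = sgn (σ v j) * (sgn (σ v j) * (gg F φ τ (omg K ρ) v (some j) -
        gg F φ τ (omg K ρ) v none) - a) := by
        have hs := D4_sgn_sq (σ v j)
        rw [mul_sub, ← mul_assoc, hs]
        ring
      rw [hfac, abs_mul, D4_sgn_abs, one_mul]
    have hright : ∑ v, ∑ u ∈ univ.filter (fun u => s(v, u) ∈ F ∧ σ v j ≠ σ u j ∧
          A s(v, u) = full σ v u),
          |sgn (σ v j) * (gg F φ τ (omg K ρ) v (some j) - gg F φ τ (omg K ρ) v none) -
            sgn (σ u j) * (gg F φ τ (omg K ρ) u (some j) - gg F φ τ (omg K ρ) u none)| =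
        ∑ v, ∑ u ∈ (nb F v).filter (fun u => σ v j ≠ σ u j ∧ A s(v, u) = full σ v u),
            |(gg F φ τ (omg K ρ) v (some j) - gg F φ τ (omg K ρ) v none) +
              (gg F φ τ (omg K ρ) u (some j) - gg F φ τ (omg K ρ) u none)| := by
      apply Finset.sum_congr rfl
      intro v _
      have hset : univ.filter (fun u => s(v, u) ∈ F ∧ σ v j ≠ σ u j ∧
          A s(v, u) = full σ v u) =
          (nb F v).filter (fun u => σ v j ≠ σ u j ∧ A s(v, u) = full σ v u) := by
        unfold nb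
        rw [Finset.filter_filter]
      rw [hset]
      apply Finset.sum_congr rfl
      intro u hu
      have hne : σ v j ≠ σ u j := (Finset.mem_filter.mp hu).2.1
      have hs : sgn (σ u j) = - sgn (σ v j) := by
        have := D4_sgn_add hne
        linarith
      rw [hs]
      have hfac : sgn (σ v j) * (gg F φ τ (omg K ρ) v (some j) - gg F φ τ (omg K ρ) v none) -
            -sgn (σ v j) * (gg F φ τ (omg K ρ) u (some j) - gg F φ τ (omg K ρ) u none) =
            sgn (σ v j) * ((gg F φ τ (omg K ρ) v (some j) - gg F φ τ (omg K ρ) v none) +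
              (gg F φ τ (omg K ρ) u (some j) - gg F φ τ (omg K ρ) u none)) := by ring
      rw [hfac, abs_mul, D4_sgn_abs, one_mul]
    have ha' : c₁ * n * ∑ v, |gg F φ τ (omg K ρ) v (some j) -
      gg F φ τ (omg K ρ) v none - a * sgn (σ v j)| ≤ 1 / 2 * 
        ∑ v, ∑ u ∈ (nb F v).filter (fun u => σ v j ≠ σ u j ∧ A s(v, u) = full σ v u),
            |(gg F φ τ (omg K ρ) v (some j) - gg F φ τ (omg K ρ) v none) +
              (gg F φ τ (omg K ρ) u (some j) - gg F φ τ (omg K ρ) u none)| := by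
      rw [← hleft, ← hright]
      refine le_trans ha (le_of_eq ?_)
      congr 1
      apply Finset.sum_congr rfl
      intro v _
      apply Finset.sum_congr
      · ext u
        simp only [mem_filter]
      · intro u _
        rfl
    have hEj := hE' j
    set S1 : ℝ := ∑ v, |gg F φ τ (omg K ρ) v (some j) -
      gg F φ τ (omg K ρ) v none - a * sgn (σ v j)| with hS1
    set S2 : ℝ := ∑ v, ∑ u ∈ (nb F v).filter (fun u => σ v j ≠ σ u j ∧ A s(v, u) = full σ v u),
            |(gg F φ τ (omg K ρ) v (some j) - gg F φ τ (omg K ρ) v none) +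
              (gg F φ τ (omg K ρ) u (some j) - gg F φ τ (omg K ρ) u none)| with hS2
    have hcomb : n * (2 * x₀ * c₁ * S1) ≤ n * (C₁ * δ * G1 + C₂ * n) := by
      have e1 : x₀ * (c₁ * n * S1) ≤ x₀ * (1 / 2 * S2) := mul_le_mul_of_nonneg_left ha' hx₀.le
      have e2 : x₀ * S2 ≤ C₁ * δ * n * G1 + C₂ * n ^ 2 := hEj
      nlinarith [e1, e2]
    have hcomb' : 2 * x₀ * c₁ * S1 ≤ C₁ * δ * G1 + C₂ * n := le_of_mul_le_mul_left hcomb hn
    rw [hΞ, le_div_iff₀ (by positivity)]
    linarith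
  have hzero : ∀ v, ∑ o, omg K ρ o * gg F φ τ (omg K ρ) v o = 0 := by
    intro v
    have h1 : ∀ o, omg K ρ o * gg F φ τ (omg K ρ) v o = (ld F φ v o : ℝ) - τ v o := by
      intro o
      unfold gg
      exact mul_div_cancel₀ _ (hω o).ne'
    rw [Finset.sum_congr rfl (fun o _ => h1 o), Finset.sum_sub_distrib, hτs v]
    have h2 : ∑ o, (ld F φ v o : ℝ) = (dg F v : ℝ) := by
      rw [← D4_sum_ld F φ v]
      push_cast
      rfl
    rw [h2, sub_self]
  have hsz : ∀ j, ∑ v, sgn (σ v j) * gg F φ τ (omg K ρ) v (some j) = 0 := by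
    intro j
    have h1 : ∀ v, sgn (σ v j) * gg F φ τ (omg K ρ) v (some j) =
        (sgn (σ v j) * (ld F φ v (some j) : ℝ) - sgn (σ v j) * τ v (some j)) / omg K ρ (some j) := by
      intro v
      unfold gg
      ring
    rw [Finset.sum_congr rfl (fun v _ => h1 v), ← Finset.sum_div, Finset.sum_sub_distrib,
      D4_handshake F φ σ hφfull j, hτsgn j]
    simp
  have hG := hOr K ρ hK2' hρ0 hρ1 V σ (gg F φ τ (omg K ρ)) Ξ
    (by
      intro i j hij
      refine le_trans (hsig i j hij) ?_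
      nlinarith [hδ2, hn])
    hzero hsz hmain
  have hfin : G1 ≤ C' * n := by
    have e1 : G1 ≤ P * Ξ := hG
    have e2 : P * Ξ * (2 * x₀ * c₁) = P * (C₁ * δ * G1 + C₂ * n) := by
      rw [hΞ]
      field_simp
    have hxc : 0 < x₀ * c₁ := by positivity
    have e3 : G1 * (2 * (x₀ * c₁)) ≤ P * (C₁ * δ * G1 + C₂ * n) := by
      have := mul_le_mul_of_nonneg_right e1 (by positivity : (0 : ℝ) ≤ 2 * x₀ * c₁)
      linarith [e2]
    have e4 : P * C₁ * δ * G1 ≤ x₀ * c₁ * G1 := mul_le_mul_of_nonneg_right hδ4 hG10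
    have e5 : G1 * (x₀ * c₁) ≤ P * C₂ * n := by nlinarith [e3, e4]
    rw [hC', div_mul_eq_mul_div, le_div_iff₀ hxc]
    exact e5
  exact hB' V F σ A τ φ hF hdeg hpat hφfull hbad hτ hτs hφopt hfin

end Pool.Agent.Helper15.LR
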