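import Pool.Agent.Helper15.LR.Defs

set_option autoImplicit false

/-!
Parts of the balanced assignment lemma (`BA_stmt`), see `/team-store/lr_blueprint.md`.
-/

open Finset Filter
open scoped Classical Topology

namespace Pool.Agent.Helper15.LR

noncomputable section

/-- normalised load error -/
def gg {V Λ : Type} [Fintype V] (F : Set (Sym2 V)) (φ : Sym2 V → Λ) (τ : V → Λ → ℝ) (ω : Λ → ℝ)
    (v : V) (o : Λ) : ℝ := ((ld F φ v o : ℝ) - τ v o) / ω o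

/-- D1a: a minimiser of the quadratic potential is locally optimal. -/
def LocalOpt_stmt : Prop :=
  ∀ (V Λ : Type) [Fintype V] [Fintype Λ] [Nonempty Λ] (F : Set (Sym2 V)) (A : Sym2 V → Finset Λ)
    (τ : V → Λ → ℝ) (ω : Λ → ℝ),
    (∀ v, s(v, v) ∉ F) → (∀ o, 0 < ω o) → (∀ e ∈ F, (A e).Nonempty) →
    ∃ φ : Sym2 V → Λ, (∀ e ∈ F, φ e ∈ A e) ∧
      ∀ u v, s(u, v) ∈ F → ∀ o' ∈ A s(u, v),
        gg F φ τ ω u (φ s(u, v)) + gg F φ τ ω v (φ s(u, v)) ≤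
          gg F φ τ ω u o' + gg F φ τ ω v o' + 1 / ω (φ s(u, v)) + 1 / ω o'

/-- D1b: the energy inequality. -/
def Energy_stmt : Prop :=
  ∀ (K : ℕ) (ρ : ℝ), 1 ≤ K → 0 < ρ → ρ < 1 → (1 / 2 : ℝ) ^ K ≤ ρ / 2 →
    ∃ x₀ C₁ C₂ : ℝ, 0 < x₀ ∧ 0 < C₁ ∧ 0 < C₂ ∧
      ∀ (δ : ℝ), 0 < δ → ∀ (V : Type) [Fintype V] (F : Set (Sym2 V)) (σ : V → Fin K → Bool)
        (A : Sym2 V → Finset (Option (Fin K))) (τ : V → Option (Fin K) → ℝ)
        (φ : Sym2 V → Option (Fin K)),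
        (∀ v, s(v, v) ∉ F) →
        (∀ v (X : Finset (Fin K)),
          |(((nb F v).filter (fun u => pat σ v u = X)).card : ℝ) - (1 / 2) ^ K * dg F v|
            ≤ δ * Fintype.card V) →
        (∀ u v, s(u, v) ∈ F → φ s(u, v) ∈ full σ u v) →
        (∀ v, (((nb F v).filter (fun u => A s(v, u) ≠ full σ v u)).card : ℝ)
            ≤ δ * Fintype.card V) →
        (∀ v o, |τ v o - omg K ρ o * dg F v| ≤ δ * Fintype.card V) →
        (∀ u v, s(u, v) ∈ F → ∀ o' ∈ A s(u, v),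
          gg F φ τ (omg K ρ) u (φ s(u, v)) + gg F φ τ (omg K ρ) v (φ s(u, v)) ≤
            gg F φ τ (omg K ρ) u o' + gg F φ τ (omg K ρ) v o' +
              1 / omg K ρ (φ s(u, v)) + 1 / omg K ρ o') →
        ∀ j : Fin K,
          x₀ * ∑ v, ∑ u ∈ (nb F v).filter (fun u => σ v j ≠ σ u j ∧ A s(v, u) = full σ v u),
            |(gg F φ τ (omg K ρ) v (some j) - gg F φ τ (omg K ρ) v none) +
              (gg F φ τ (omg K ρ) u (some j) - gg F φ τ (omg K ρ) u none)| ≤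
          C₁ * δ * Fintype.card V * (∑ v, ∑ o, |gg F φ τ (omg K ρ) v o|)
            + C₂ * (Fintype.card V : ℝ) ^ 2

/-- D2a: discrete coarea inequality. -/
def Coarea_stmt : Prop :=
  ∀ (V : Type) [Fintype V] (R : V → V → Prop) (c : ℝ), 0 ≤ c → (∀ u v, R u v → R v u) →
    (∀ Z : Finset V, c * min (Z.card : ℝ) (Zᶜ.card : ℝ) ≤
      (((Z ×ˢ Zᶜ).filter (fun p => R p.1 p.2)).card : ℝ)) →
    ∀ h : V → ℝ, ∃ a : ℝ, c * ∑ v, |h v - a| ≤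
      (1 / 2) * ∑ v, ∑ u ∈ univ.filter (fun u => R v u), |h v - h u|

/-- D2b: linear algebra with nearly orthogonal sign vectors. -/
def Ortho_stmt : Prop :=
  ∀ (K : ℕ) (ρ : ℝ), 2 ≤ K → 0 < ρ → ρ < 1 →
    ∀ (V : Type) [Fintype V] (σ : V → Fin K → Bool) (g : V → Option (Fin K) → ℝ) (Ξ : ℝ),
      (∀ i j, i ≠ j → |∑ v, sgn (σ v i) * sgn (σ v j)| ≤ (Fintype.card V : ℝ) / 4) →
      (∀ v, ∑ o, omg K ρ o * g v o = 0) →
      (∀ j, ∑ v, sgn (σ v j) * g v (some j) = 0) →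
      (∀ j, ∃ a : ℝ, ∑ v, |g v (some j) - g v none - a * sgn (σ v j)| ≤ Ξ) →
      ∑ v, ∑ o, |g v o| ≤ 20 * (K + 1) * Ξ

/-- D3: bootstrapping. -/
def Boot_stmt : Prop :=
  ∀ (K : ℕ) (ρ d₀ : ℝ), 1 ≤ K → 0 < ρ → ρ < 1 → 0 < d₀ →
    8 * (1 / 2 : ℝ) ^ (K / 3) ≤ ρ → 8 * (1 / 2 : ℝ) ^ (K / 3) ≤ (1 - ρ) / K →
    ∃ δ₀ : ℝ, 0 < δ₀ ∧ ∀ (δ C' : ℝ), 0 < δ → δ ≤ δ₀ → 0 ≤ C' → ∃ Γ : ℝ, 0 < Γ ∧
      ∀ (V : Type) [Fintype V] (F : Set (Sym2 V)) (σ : V → Fin K → Bool)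
        (A : Sym2 V → Finset (Option (Fin K))) (τ : V → Option (Fin K) → ℝ)
        (φ : Sym2 V → Option (Fin K)),
        (∀ v, s(v, v) ∉ F) →
        (∀ v, d₀ * Fintype.card V ≤ (dg F v : ℝ)) →
        (∀ v (X : Finset (Fin K)),
          |(((nb F v).filter (fun u => pat σ v u = X)).card : ℝ) - (1 / 2) ^ K * dg F v|
            ≤ δ * Fintype.card V) →
        (∀ u v, s(u, v) ∈ F → φ s(u, v) ∈ full σ u v) →
        (∀ v, (((nb F v).filter (fun u => A s(v, u) ≠ full σ v u)).card : ℝ)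
            ≤ δ * Fintype.card V) →
        (∀ v o, |τ v o - omg K ρ o * dg F v| ≤ δ * Fintype.card V) →
        (∀ v, ∑ o, τ v o = dg F v) →
        (∀ u v, s(u, v) ∈ F → ∀ o' ∈ A s(u, v),
          gg F φ τ (omg K ρ) u (φ s(u, v)) + gg F φ τ (omg K ρ) v (φ s(u, v)) ≤
            gg F φ τ (omg K ρ) u o' + gg F φ τ (omg K ρ) v o' +
              1 / omg K ρ (φ s(u, v)) + 1 / omg K ρ o') →
        (∑ v, ∑ o, |gg F φ τ (omg K ρ) v o| ≤ C' * Fintype.card V) →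
        ∀ v o, |(ld F φ v o : ℝ) - τ v o| ≤ Γ

end

end Pool.Agent.Helper15.LR
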