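import Pool.Agent.Helper15.LR.Ei

set_option autoImplicit false

open Finset Filter
open scoped Classical Topology

namespace Pool.Agent.Helper15.LR

noncomputable section

/-- a lower bound for `n` -/
lemma ev_ge (c : ℝ) : ∀ᶠ n : ℕ in atTop, c ≤ (n : ℝ) :=
  (tendsto_natCast_atTop_atTop (R := ℝ)).eventually (eventually_ge_atTop c)

theorem E (hBA : BA_stmt) (hCS : ColorSplit_stmt) (hCells : Cells_stmt) (hSamp : Sampling_stmt)
    (hLeft : Leftover_stmt) (hLevel : Level_stmt) (hQ : Quantile_stmt) (hExp : Expansion_stmt) :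
    Main_stmt := by
  intro ε C₀ hε hε1
  obtain ⟨ρ₀, hρ₀, hL0⟩ := hLeft (ε / 5) (by positivity)
  set ρ : ℝ := min (min ρ₀ (ε ^ 2 / 10 ^ 6)) (1 / 10) with hρdef
  have hρ : 0 < ρ := by rw [hρdef]; positivity
  have hρ1 : ρ ≤ 1 / 10 := min_le_right _ _
  have hρ2 : ρ ≤ ρ₀ := (min_le_left _ _).trans (min_le_left _ _)
  have hρ3 : ρ ≤ ε ^ 2 / 10 ^ 6 := (min_le_left _ _).trans (min_le_right _ _)
  obtain ⟨K, hK1, hK2, hK3, hK4⟩ := exists_K ρ hρ hρ1
  obtain ⟨δ₀, Γ, hδ₀, hΓ, hBA'⟩ := hBA K ρ (1 / 100) (1 / 4) hK1 hρ (by linarith) (by norm_num)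
    (by norm_num) hK2 hK3 hK4
  have hKr : (1 : ℝ) ≤ K := by exact_mod_cast hK1
  have hKp : (0 : ℝ) < K := by linarith
  set δ : ℝ := min δ₀ (1 / 1000) with hδdef
  have hδ : 0 < δ := by rw [hδdef]; positivity
  have hδ1 : δ ≤ 1 / 1000 := min_le_right _ _
  have hδ2 : δ ≤ δ₀ := min_le_left _ _
  set q : ℝ := ε / (10 ^ 4 * K) with hqdef
  have hq : 0 < q := by rw [hqdef]; positivity
  have hqK : 10 ^ 4 * K * q = ε := by rw [hqdef]; field_simp
  have hq1 : q ≤ 1 / 10 ^ 4 := by
    rw [hqdef, div_le_div_iff₀ (by positivity) (by positivity)]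
    nlinarith
  set κ : ℝ := ε / (1000 * K) with hκdef
  have hκ : 0 < κ := by rw [hκdef]; positivity
  have hκK : 1000 * K * κ = ε := by rw [hκdef]; field_simp
  set η₂ : ℝ := min (q * ε / (20000 * K)) (δ / 10) with hη₂def
  have hη₂ : 0 < η₂ := by rw [hη₂def]; positivity
  have hη₂1 : 20000 * K * η₂ ≤ q * ε := by
    have h1 : η₂ ≤ q * ε / (20000 * K) := min_le_left _ _
    rw [le_div_iff₀ (by positivity)] at h1
    linarith
  have hη₂2 : 10 * η₂ ≤ δ := by
    have h1 : η₂ ≤ δ / 10 := min_le_right _ _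
    linarith
  set δ' : ℝ := min δ (min (q / (10 * 2 ^ K)) (1 / (100 * 2 ^ K))) with hδ'def
  have hδ' : 0 < δ' := by rw [hδ'def]; positivity
  have hδ'3 : δ' ≤ δ := min_le_left _ _
  have hδ'1 : 2 ^ K * δ' ≤ q / 10 := by
    have h1 : δ' ≤ q / (10 * 2 ^ K) := (min_le_right _ _).trans (min_le_left _ _)
    rw [le_div_iff₀ (by positivity)] at h1
    linarith
  have hδ'2 : 2 ^ K * δ' ≤ 1 / 100 := by
    have h1 : δ' ≤ 1 / (100 * 2 ^ K) := (min_le_right _ _).trans (min_le_right _ _)
    rw [le_div_iff₀ (by positivity)] at h1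
    linarith
  have hη : 0 < η₂ * δ / 8 := by positivity
  filter_upwards [hCS K ε ρ (η₂ * δ / 8) hK1 hε hε1 hρ hρ3 hη, hCells K δ' κ hδ' hκ,
    hSamp (Fin K) 100 κ (by norm_num) hκ, hSamp (Fin K × Bool) 100 κ (by norm_num) hκ, hL0,
    SS_large (Γ * (125 * (8 * K)) / ε), SS_large 1,
    SS_small (ε / (10 ^ 6 * K ^ 2)) (by positivity), SS_small (q / (100 * K)) (by positivity),
    SS_small (δ / (100 * K * (|C₀| + 10))) (by positivity), SS_small (ρ / 10) (by positivity),
    ev_ge (1 / q), ev_ge (K + 1), ev_ge 1] with n hn1 hn2 hn3 hn4 hn5 hn6 hn7 hn8 hn9 hn10 hn11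
      hn12 hn13 hn14
  intro V _ G m L hV hm1 hm2 hL hd1 hd2 hQR
  have hS : 0 < SS n := by linarith
  have hn0 : (0 : ℝ) < n := by linarith
  have hVn : (Fintype.card V : ℝ) = n := by rw [hV]
  -- parameters
  have e8 : 10 ^ 6 * K ^ 2 * SS n ≤ ε * n := by
    have : ε / (10 ^ 6 * K ^ 2) * n = ε * n / (10 ^ 6 * K ^ 2) := by ring
    rw [this, le_div_iff₀ (by positivity)] at hn8
    linarith
  have e9 : 100 * K * SS n ≤ q * n := by
    have : q / (100 * K) * n = q * n / (100 * K) := by ring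
    rw [this, le_div_iff₀ (by positivity)] at hn9
    linarith
  have e10 : 100 * K * (|C₀| + 10) * SS n ≤ δ * n := by
    have : δ / (100 * K * (|C₀| + 10)) * n = δ * n / (100 * K * (|C₀| + 10)) := by ring
    rw [this, le_div_iff₀ (by positivity)] at hn10
    linarith
  have e6 : Γ ≤ ε * SS n / (8 * K) / 125 := by
    rw [div_le_iff₀ hε] at hn6
    rw [div_div, le_div_iff₀ (by positivity)]
    linarith
  let P : Par :=
    { n := n
      m := m
      K := K
      S := SS n
      ε := ε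
      ρ := ρ
      s0 := ε * SS n / (8 * K)
      am := (1 - ρ) / K * m
      δ := δ
      q := q
      η := η₂
      Γ := Γ
      err := κ * SS n
      C := |C₀|
      hK := hKr
      hS := hS
      hε := hε
      hε1 := hε1
      hρ := hρ
      hρ1 := hρ1
      hs0 := by positivity
      hKs0 := by field_simp
      ham := by field_simp
      hm3 := hm1
      hmn := by exact_mod_cast hm2
      hδ := hδ
      hδ1 := hδ1
      hq := hq
      hη0 := hη₂.le
      hΓ0 := hΓ.le
      hΓ := e6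
      herr0 := by positivity
      herr := by
        rw [← hκK]
        apply le_of_eq
        field_simp
        norm_num
      hC := abs_nonneg _
      hb1 := e8
      hb2 := e9
      hb3 := e10
      hb4 := by linarith
      hη1 := by
        rw [mul_div_assoc', le_div_iff₀ (by positivity)]
        have h1 : 20000 * K * η₂ * SS n ≤ q * ε * SS n := mul_le_mul_of_nonneg_right hη₂1 hS.le
        have h2 : 0 ≤ q * ε * SS n := by positivity
        linarith
      hη2 := hη₂2
      hη3 := by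
        rw [le_div_iff₀ (by positivity)]
        have h1 : 20000 * K * η₂ * (K * SS n) ≤ q * ε * (K * SS n) :=
          mul_le_mul_of_nonneg_right hη₂1 (by positivity)
        have h2 : q * ε * (K * SS n) = ε * SS n * (ε / 10 ^ 4) := by
          rw [← hqK]; ring
        have h3 : ε * SS n * (ε / 10 ^ 4) ≤ ε * SS n * 1 :=
          mul_le_mul_of_nonneg_left (by linarith) (by positivity)
        have h4 : 0 ≤ ε * SS n := by positivity
        linarith }
  -- splitting of the colours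
  obtain ⟨g, hg1, hg2, hg3⟩ := hn1 {e : Sym2 V // e ∈ G.edgeSet} m (fun i => L i.1)
    (by
      refine (Fintype.card_subtype_le _).trans ?_
      rw [← hV]
      exact card_sym2_le V) hm2 (fun i => hL i.1 i.2)
  have hell1 : ∀ e ∈ G.edgeSet, ∀ j, |(ell L g (some j) e : ℝ) - P.am| ≤ 5 * SS n := by
    intro e he j
    rw [ell_some]
    exact hg1 ⟨e, he⟩ j
  have hell2 : ∀ e ∈ G.edgeSet, |(ell L g none e : ℝ) - ρ * m| ≤ ε * SS n / 100 := by
    intro e he
    rw [ell_none]
    exact hg2 ⟨e, he⟩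
  -- bad edges
  set B : Finset (Sym2 V) := univ.filter (fun e => e ∈ G.edgeSet ∧
    ∃ j, ¬ (P.am - P.s0 ≤ (ell L g (some j) e : ℝ))) with hB
  have hBc : (B.card : ℝ) ≤ η₂ * δ / 8 * (Fintype.card V : ℝ) ^ 2 := by
    rw [hVn]
    refine le_trans ?_ hg3
    have : B ⊆ (univ.filter (fun i : {e : Sym2 V // e ∈ G.edgeSet} =>
        ∃ j, (((L i.1).filter (fun x => g x = some j)).card : ℝ)
            < (1 - ρ) / K * m - ε * SS n / (8 * K))).image Subtype.val := by
      intro e he
      rw [hB, mem_filter] at he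
      obtain ⟨_, he1, j, hj⟩ := he
      rw [mem_image]
      refine ⟨⟨e, he1⟩, ?_, rfl⟩
      rw [mem_filter]
      refine ⟨mem_univ _, j, ?_⟩
      rw [ell_some] at hj
      exact not_le.1 hj
    exact_mod_cast (card_le_card this).trans card_image_le
  obtain ⟨W, hW1, hW2⟩ := exists_W B η₂ δ hδ (by rw [hV]; exact_mod_cast hn0) hBc
  have hW1' : (W.card : ℝ) ≤ η₂ * n := by rw [← hVn]; exact hW1
  have hdC : ∀ v, (m : ℝ) - |C₀| * SS n ≤ (dg G.edgeSet v : ℝ) := by
    intro v
    have h1 := hd2 v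
    have h2 : C₀ * SS n ≤ |C₀| * SS n := mul_le_mul_of_nonneg_right (le_abs_self _) hS.le
    linarith
  have hCS' : |C₀| * SS n ≤ n / 1000 := by
    have h1 : |C₀| * SS n ≤ 100 * K * (|C₀| + 10) * SS n := by
      apply mul_le_mul_of_nonneg_right _ hS.le
      have h2 : 0 ≤ |C₀| := abs_nonneg _
      have h4 : |C₀| ≤ K * |C₀| := le_mul_of_one_le_left h2 hKr
      linarith
    have h3 : δ * n ≤ 1 / 1000 * n := mul_le_mul_of_nonneg_right hδ1 hn0.le
    linarith
  have hηn : η₂ * n ≤ n / 10 ^ 4 := by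
    have h1 : η₂ ≤ 1 / 10 ^ 4 := by linarith
    have := mul_le_mul_of_nonneg_right h1 hn0.le
    linarith
  obtain ⟨M, Tp, t1, t2, t3, t4, t5⟩ := tops hQ G L g W n m (SS n) ε ρ P.am q hS hε hq hn0 hqK
    (by linarith) P.ham
    (by
      rw [div_le_iff₀ hq] at hn12
      linarith)
    (fun e he => by rw [hL e he]) hell1 hell2
    (by
      intro v
      have h1 := hdC v
      linarith)
  apply local_main hExp hLevel G hQR P rfl hVn.symm L g W M Tp δ' (κ * SS n) hd1 hdC
    (fun e he j => by have := (abs_le.1 (hell1 e he j)).1; linarith)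
    (fun e he => by have := (abs_le.1 (hell2 e he)).1; linarith)
    hW1'
    (by
      intro v hv
      have h1 := hW2 v hv
      rw [hVn] at h1
      refine le_trans ?_ h1
      have : (nb G.edgeSet v).filter
          (fun u => ∃ j, ¬ (P.am - P.s0 ≤ (ell L g (some j) s(v, u) : ℝ))) ⊆
          univ.filter (fun u => s(v, u) ∈ B) := by
        intro u hu
        rw [mem_filter, mem_nb] at hu
        rw [mem_filter, hB, mem_filter]
        exact ⟨mem_univ _, mem_univ _, hu.1, hu.2⟩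
      exact_mod_cast card_le_card this)
    t1 t2 t3 t4 t5 hδ'.le hδ'1 hδ'2 hδ'3 P.herr
  · rw [hV]
    have h1 : K + 1 ≤ n := by exact_mod_cast hn13
    have h2 : 1 ≤ n := by exact_mod_cast hn14
    nlinarith
  · intro ι _ T c τ h1 h2 h3
    obtain ⟨σ, s1, s2, s3, s4⟩ := hn2 V ι T c τ hV (by rw [← hV]; exact h1) h2
      (fun j v => by rw [← hVn]; exact h3 j v)
    rw [hVn]
    refine ⟨σ, s1, s2, s3, fun j => ?_⟩
    have := s4 j
    linarith
  · intro π h1 h2 h3 h4
    exact hn3 V π hV h1 h2 h3 h4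
  · intro π h1 h2 h3 h4
    exact hn4 V π hV h1 h2 h3 h4
  · intro F L' D h1 h2 h3 h4 h5
    exact hn5 V F L' D hV h1 h2
      (h3.trans (mul_le_mul_of_nonneg_right hρ2 (Nat.cast_nonneg _))) h4 h5
  · apply BAProp_mono hδ2
    intro F σ A τ
    exact hBA' V F σ A τ

end

end Pool.Agent.Helper15.LR
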