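import Pool.Agent.Helper15.LR.Defs

/-!
E0: the order statistic `M` (the `k`-th largest value).
-/

open Finset Filter
open scoped Classical Topology

namespace Pool.Agent.Helper15.LR

theorem E0 : Quantile_stmt := by
  intro ι T f Y k hY hk1 hkT
  have hTne : T.Nonempty := Finset.card_pos.mp (by omega)
  have hY0 : 0 ≤ Y := by
    obtain ⟨i, hi⟩ := hTne
    exact le_trans (abs_nonneg _) (hY i hi)
  let S : Finset ℝ := (T.image f).filter (fun v => k ≤ (T.filter (fun j => v ≤ f j)).card)
  have hSne : S.Nonempty := by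
    obtain ⟨i, hi, hmin⟩ := T.exists_min_image f hTne
    refine ⟨f i, ?_⟩
    simp only [S, Finset.mem_filter, Finset.mem_image]
    refine ⟨⟨i, hi, rfl⟩, ?_⟩
    rw [Finset.filter_true_of_mem hmin]
    exact hkT
  let M : ℝ := S.max' hSne
  have hM : M ∈ S := S.max'_mem hSne
  have hMmax : ∀ v ∈ S, v ≤ M := fun v hv => S.le_max' v hv
  have hM' := hM
  simp only [S, Finset.mem_filter, Finset.mem_image] at hM'
  obtain ⟨⟨i0, hi0, hfi0⟩, hMk⟩ := hM'
  have hlt : (T.filter (fun j => M < f j)).card < k := by
    by_contra hcon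
    push Not at hcon
    have hne : (T.filter (fun j => M < f j)).Nonempty := Finset.card_pos.mp (by omega)
    obtain ⟨i, hi, hmin⟩ := (T.filter (fun j => M < f j)).exists_min_image f hne
    have hi' := Finset.mem_filter.mp hi
    have hmem : f i ∈ S := by
      simp only [S, Finset.mem_filter, Finset.mem_image]
      refine ⟨⟨i, hi'.1, rfl⟩, le_trans hcon (Finset.card_le_card ?_)⟩
      intro j hj
      have hj' := Finset.mem_filter.mp hj
      exact Finset.mem_filter.mpr ⟨hj'.1, hmin j hj⟩
    exact absurd (hMmax _ hmem) (not_le.mpr hi'.2)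
  have hMY : |M| ≤ Y := by
    rw [← hfi0]; exact hY i0 hi0
  refine ⟨M, hMY, hMk, ?_⟩
  have h1 : ∀ i ∈ T, f i ≤ M + (if M < f i then 2 * Y else 0) := by
    intro i hi
    by_cases h : M < f i
    · rw [if_pos h]
      have := (abs_le.mp (hY i hi)).2
      have := (abs_le.mp hMY).1
      linarith
    · rw [if_neg h]
      linarith [not_lt.mp h]
  calc ∑ i ∈ T, f i ≤ ∑ i ∈ T, (M + (if M < f i then 2 * Y else 0)) := Finset.sum_le_sum h1
    _ = M * T.card + 2 * Y * ((T.filter (fun j => M < f j)).card : ℝ) := by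
        rw [Finset.sum_add_distrib, Finset.sum_const, ← Finset.sum_filter, Finset.sum_const]
        simp only [nsmul_eq_mul]
        ring
    _ ≤ M * T.card + 2 * Y * k := by
        have : ((T.filter (fun j => M < f j)).card : ℝ) ≤ k := by exact_mod_cast hlt.le
        have := mul_le_mul_of_nonneg_left this (by linarith : (0:ℝ) ≤ 2 * Y)
        linarith

end Pool.Agent.Helper15.LR
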