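import Pool.Agent.Helper15.LR.Defs

set_option autoImplicit false

open Finset Filter
open scoped Classical Topology

namespace Pool.Agent.Helper15.LR

noncomputable section

/-- counting ordered pairs by the first coordinate -/
lemma E1_card {V : Type} (X Y : Finset V) (P : V → V → Prop)
    [DecidablePred (fun p : V × V => P p.1 p.2)] [∀ u, DecidablePred (fun v => P u v)] :
    (((X ×ˢ Y).filter (fun p : V × V => P p.1 p.2)).card : ℝ) =
      ∑ u ∈ X, ((Y.filter (fun v => P u v)).card : ℝ) := by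
  rw [Finset.card_filter, Finset.sum_product]
  push_cast
  refine Finset.sum_congr rfl fun u _ => ?_
  rw [Finset.card_filter]
  push_cast
  refine Finset.sum_congr rfl fun v _ => ?_
  by_cases h : P u v <;> simp [h]

/-- the main inequality when `Z` is the smaller side -/
lemma E1_small {V : Type} [Fintype V] (G : SimpleGraph V) (s : V → Bool) (I : Set (Sym2 V))
    (hQR : QR G)
    (hbal : |∑ v, sgn (s v)| ≤ (Fintype.card V : ℝ) / 1000)
    (hdeg : ∀ v, (Fintype.card V : ℝ) / 10 ≤
      (((nb G.edgeSet v).filter (fun u => s v ≠ s u)).card : ℝ))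
    (hI : ∀ v, (((nb G.edgeSet v).filter (fun u => s(v, u) ∈ I)).card : ℝ)
      ≤ (Fintype.card V : ℝ) / 1000)
    (Z : Finset V) (hZ : (Z.card : ℝ) ≤ (Zᶜ.card : ℝ)) :
    1 / 100 * (Fintype.card V : ℝ) * (Z.card : ℝ) ≤
      (((Z ×ˢ Zᶜ).filter (fun p : V × V => s(p.1, p.2) ∈ G.edgeSet ∧ s p.1 ≠ s p.2 ∧
        s(p.1, p.2) ∉ I)).card : ℝ) := by
  classical
  set n : ℝ := (Fintype.card V : ℝ) with hn
  have hn0 : 0 ≤ n := Nat.cast_nonneg _
  have hzz : (Z.card : ℝ) + (Zᶜ.card : ℝ) = n := by
    rw [hn]; exact_mod_cast Finset.card_add_card_compl Z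
  set z : ℝ := (Z.card : ℝ) with hz
  have hz0 : 0 ≤ z := Nat.cast_nonneg _
  have hzn : z ≤ n / 2 := by linarith
  by_cases hsmall : z ≤ n / 20
  · -- every vertex of Z has many good neighbours outside Z
    rw [E1_card Z Zᶜ (fun u v => s(u, v) ∈ G.edgeSet ∧ s u ≠ s v ∧ s(u, v) ∉ I)]
    have hu : ∀ u ∈ Z, n / 100 ≤
        (((Zᶜ).filter (fun v => s(u, v) ∈ G.edgeSet ∧ s u ≠ s v ∧ s(u, v) ∉ I)).card : ℝ) := by
      intro u _
      have hsub : (nb G.edgeSet u).filter (fun v => s u ≠ s v) ⊆
          ((Zᶜ).filter (fun v => s(u, v) ∈ G.edgeSet ∧ s u ≠ s v ∧ s(u, v) ∉ I)) ∪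
            ((nb G.edgeSet u).filter (fun v => s(u, v) ∈ I) ∪ Z) := by
        intro v hv
        simp only [nb, Finset.mem_filter, Finset.mem_univ, true_and, Finset.mem_union,
          Finset.mem_compl] at hv ⊢
        by_cases h1 : v ∈ Z
        · exact Or.inr (Or.inr h1)
        · by_cases h2 : s(u, v) ∈ I
          · exact Or.inr (Or.inl ⟨hv.1, h2⟩)
          · exact Or.inl ⟨h1, hv.1, hv.2, h2⟩
      have hcard := (Finset.card_le_card hsub).trans ((Finset.card_union_le _ _).trans
        (Nat.add_le_add_left (Finset.card_union_le _ _) _))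
      have hcard' : (((nb G.edgeSet u).filter (fun v => s u ≠ s v)).card : ℝ) ≤
          (((Zᶜ).filter (fun v => s(u, v) ∈ G.edgeSet ∧ s u ≠ s v ∧ s(u, v) ∉ I)).card : ℝ) +
            ((((nb G.edgeSet u).filter (fun v => s(u, v) ∈ I)).card : ℝ) + z) := by
        rw [hz]
        exact_mod_cast hcard
      have h1 := hdeg u
      have h2 := hI u
      linarith
    have := Finset.card_nsmul_le_sum Z _ _ hu
    rw [nsmul_eq_mul] at this
    calc 1 / 100 * n * z = z * (n / 100) := by ring
      _ ≤ _ := this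
  · push Not at hsmall
    -- the two sides of the bipartition
    set A : Finset V := univ.filter (fun v => s v = true) with hA
    set B : Finset V := univ.filter (fun v => s v = false) with hB
    have hAB : ((A.card : ℝ)) + (B.card : ℝ) = n := by
      have : A.card + B.card = Fintype.card V := by
        have h := Finset.card_filter_add_card_filter_not (s := (univ : Finset V))
          (fun v => s v = true)
        have hB' : univ.filter (fun v => ¬ (s v = true)) = B := by
          rw [hB]; ext v; simp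
        rw [hB'] at h
        rw [hA, h]; rfl
      rw [hn]; exact_mod_cast this
    have hsum : ∑ v, sgn (s v) = (A.card : ℝ) - (B.card : ℝ) := by
      have : ∀ v, sgn (s v) = (if s v = true then (1:ℝ) else 0) - (if s v = false then (1:ℝ) else 0) := by
        intro v
        unfold sgn
        cases s v <;> simp
      rw [Finset.sum_congr rfl fun v _ => this v, Finset.sum_sub_distrib]
      rw [hA, hB, Finset.card_filter, Finset.card_filter]
      push_cast
      rfl
    rw [hsum] at hbal
    have hb1 := (abs_le.mp hbal).1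
    have hb2 := (abs_le.mp hbal).2
    have hAge : n / 2 - n / 2000 ≤ (A.card : ℝ) := by linarith
    have hBge : n / 2 - n / 2000 ≤ (B.card : ℝ) := by linarith
    set a : ℝ := ((Z ∩ A).card : ℝ) with ha
    set b : ℝ := ((Z ∩ B).card : ℝ) with hb
    have ha0 : 0 ≤ a := Nat.cast_nonneg _
    have hb0 : 0 ≤ b := Nat.cast_nonneg _
    have hdisjAB : Disjoint A B := by
      rw [Finset.disjoint_left]
      intro v h1 h2
      rw [hA, Finset.mem_filter] at h1
      rw [hB, Finset.mem_filter] at h2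
      rw [h1.2] at h2
      exact absurd h2.2 (by simp)
    have hab : a + b = z := by
      have h1 : (Z ∩ A) ∪ (Z ∩ B) = Z := by
        rw [← Finset.inter_union_distrib_left]
        have : A ∪ B = univ := by
          ext v
          simp only [hA, hB, Finset.mem_union, Finset.mem_filter, Finset.mem_univ, true_and,
            iff_true]
          cases s v <;> simp
        rw [this, Finset.inter_univ]
      have h2 : Disjoint (Z ∩ A) (Z ∩ B) :=
        hdisjAB.mono Finset.inter_subset_right Finset.inter_subset_right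
      have h3 := Finset.card_union_of_disjoint h2
      rw [h1] at h3
      rw [ha, hb, hz]; exact_mod_cast h3.symm
    have hBZ : ((B \ Z).card : ℝ) = (B.card : ℝ) - b := by
      have := Finset.card_sdiff_add_card_inter B Z
      rw [Finset.inter_comm B Z] at this
      have h : ((B \ Z).card : ℝ) + b = (B.card : ℝ) := by rw [hb]; exact_mod_cast this
      linarith
    have hAZ : ((A \ Z).card : ℝ) = (A.card : ℝ) - a := by
      have := Finset.card_sdiff_add_card_inter A Z
      rw [Finset.inter_comm A Z] at this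
      have h : ((A \ Z).card : ℝ) + a = (A.card : ℝ) := by rw [ha]; exact_mod_cast this
      linarith
    have q1 := hQR (Z ∩ A) (B \ Z) (hdisjAB.mono Finset.inter_subset_right Finset.sdiff_subset)
    have q2 := hQR (Z ∩ B) (A \ Z)
      (hdisjAB.symm.mono Finset.inter_subset_right Finset.sdiff_subset)
    rw [hBZ] at q1
    rw [hAZ] at q2
    -- the pairs
    have hsub : ((Z ∩ A) ×ˢ (B \ Z)).filter (fun p : V × V => G.Adj p.1 p.2) ∪
        ((Z ∩ B) ×ˢ (A \ Z)).filter (fun p : V × V => G.Adj p.1 p.2) ⊆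
        ((Z ×ˢ Zᶜ).filter (fun p : V × V => s(p.1, p.2) ∈ G.edgeSet ∧ s p.1 ≠ s p.2 ∧
          s(p.1, p.2) ∉ I)) ∪
        ((Z ×ˢ (univ : Finset V)).filter (fun p : V × V => s(p.1, p.2) ∈ G.edgeSet ∧
          s(p.1, p.2) ∈ I)) := by
      intro p hp
      simp only [Finset.mem_union, Finset.mem_filter, Finset.mem_product, Finset.mem_inter,
        Finset.mem_sdiff, hA, hB, Finset.mem_univ, true_and, Finset.mem_compl,
        SimpleGraph.mem_edgeSet] at hp ⊢
      rcases hp with ⟨⟨⟨h1, h2⟩, h3, h4⟩, h5⟩ | ⟨⟨⟨h1, h2⟩, h3, h4⟩, h5⟩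
      · by_cases h6 : s(p.1, p.2) ∈ I
        · exact Or.inr ⟨⟨h1, trivial⟩, h5, h6⟩
        · exact Or.inl ⟨⟨h1, h4⟩, h5, by rw [h2, h3]; simp, h6⟩
      · by_cases h6 : s(p.1, p.2) ∈ I
        · exact Or.inr ⟨⟨h1, trivial⟩, h5, h6⟩
        · exact Or.inl ⟨⟨h1, h4⟩, h5, by rw [h2, h3]; simp, h6⟩
    have hdisj : Disjoint (((Z ∩ A) ×ˢ (B \ Z)).filter (fun p : V × V => G.Adj p.1 p.2))
        (((Z ∩ B) ×ˢ (A \ Z)).filter (fun p : V × V => G.Adj p.1 p.2)) := by
      rw [Finset.disjoint_left]
      intro p h1 h2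
      rw [Finset.mem_filter, Finset.mem_product, Finset.mem_inter] at h1 h2
      exact (Finset.disjoint_left.mp hdisjAB) h1.1.1.2 h2.1.1.2
    have hc1 := Finset.card_le_card hsub
    rw [Finset.card_union_of_disjoint hdisj] at hc1
    have hc2 := hc1.trans (Finset.card_union_le _ _)
    have hc3 : ((((Z ∩ A) ×ˢ (B \ Z)).filter (fun p : V × V => G.Adj p.1 p.2)).card : ℝ) +
        ((((Z ∩ B) ×ˢ (A \ Z)).filter (fun p : V × V => G.Adj p.1 p.2)).card : ℝ) ≤
        (((Z ×ˢ Zᶜ).filter (fun p : V × V => s(p.1, p.2) ∈ G.edgeSet ∧ s p.1 ≠ s p.2 ∧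
          s(p.1, p.2) ∉ I)).card : ℝ) +
        (((Z ×ˢ (univ : Finset V)).filter (fun p : V × V => s(p.1, p.2) ∈ G.edgeSet ∧
          s(p.1, p.2) ∈ I)).card : ℝ) := by exact_mod_cast hc2
    -- few pairs in I
    have hI' : (((Z ×ˢ (univ : Finset V)).filter (fun p : V × V => s(p.1, p.2) ∈ G.edgeSet ∧
          s(p.1, p.2) ∈ I)).card : ℝ) ≤ z * (n / 1000) := by
      rw [E1_card Z univ (fun u v => s(u, v) ∈ G.edgeSet ∧ s(u, v) ∈ I)]
      have h : ∀ u ∈ Z, ((univ.filter (fun v => s(u, v) ∈ G.edgeSet ∧ s(u, v) ∈ I)).card : ℝ) ≤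
          n / 1000 := by
        intro u _
        have := hI u
        unfold nb at this
        rw [Finset.filter_filter] at this
        exact this
      have := Finset.sum_le_card_nsmul Z _ _ h
      rw [nsmul_eq_mul] at this
      exact this
    -- arithmetic
    have key : 1 / 100 * n * z + z * (n / 1000) ≤
        (1 / 2 * a * ((B.card : ℝ) - b) - n ^ 2 / 10 ^ 4) +
        (1 / 2 * b * ((A.card : ℝ) - a) - n ^ 2 / 10 ^ 4) := by
      have e1 : a * (n / 2 - n / 2000) ≤ a * (B.card : ℝ) := mul_le_mul_of_nonneg_left hBge ha0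
      have e2 : b * (n / 2 - n / 2000) ≤ b * (A.card : ℝ) := mul_le_mul_of_nonneg_left hAge hb0
      have e3 : 4 * (a * b) ≤ z ^ 2 := by
        rw [← hab]; nlinarith [sq_nonneg (a - b)]
      have e4 : z ^ 2 ≤ z * (n / 2) := by
        rw [sq]; exact mul_le_mul_of_nonneg_left hzn hz0
      have e5 : n * n ≤ 20 * (z * n) := by
        have : n ≤ 20 * z := by linarith
        calc n * n ≤ (20 * z) * n := mul_le_mul_of_nonneg_right this hn0
          _ = 20 * (z * n) := by ring
      have e6 : 0 ≤ z * n := mul_nonneg hz0 hn0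
      have e7 : (a + b) * (n / 2 - n / 2000) ≤ a * (B.card : ℝ) + b * (A.card : ℝ) := by
        have := add_le_add e1 e2
        linarith [this]
      rw [hab] at e7
      nlinarith [e3, e4, e5, e6, e7]
    linarith

/-- **E1**. -/
theorem E1 : Expansion_stmt := by
  intro V _ G s I hQR hbal hdeg hI Z
  by_cases hZ : (Z.card : ℝ) ≤ (Zᶜ.card : ℝ)
  · rw [min_eq_left hZ]
    exact E1_small G s I hQR hbal hdeg hI Z hZ
  · push Not at hZ
    rw [min_eq_right hZ.le]
    have h := E1_small G s I hQR hbal hdeg hI Zᶜ (by rw [compl_compl]; exact hZ.le)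
    rw [compl_compl] at h
    refine h.trans (le_of_eq ?_)
    norm_cast
    refine Finset.card_bij' (fun p _ => (p.2, p.1)) (fun p _ => (p.2, p.1)) ?_ ?_ ?_ ?_
    · intro p hp
      simp only [Finset.mem_filter, Finset.mem_product, Finset.mem_compl] at hp ⊢
      rw [Sym2.eq_swap (a := p.2) (b := p.1)]
      exact ⟨⟨hp.1.2, hp.1.1⟩, hp.2.1, fun h => hp.2.2.1 h.symm, hp.2.2.2⟩
    · intro p hp
      simp only [Finset.mem_filter, Finset.mem_product, Finset.mem_compl] at hp ⊢
      rw [Sym2.eq_swap (a := p.2) (b := p.1)]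
      exact ⟨⟨hp.1.2, hp.1.1⟩, hp.2.1, fun h => hp.2.2.1 h.symm, hp.2.2.2⟩
    · intro p _; rfl
    · intro p _; rfl

end

end Pool.Agent.Helper15.LR
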