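import Pool.Agent.Helper15.LR.Ea

set_option autoImplicit false

open Finset Filter
open scoped Classical Topology

namespace Pool.Agent.Helper15.LR

noncomputable section

/-- what random sampling gives for a fixed vertex set -/
def SampProp (V B : Type) [Fintype V] [Fintype B] (Cm err : ℝ) : Prop :=
  ∀ π : Sym2 V → B → ℝ, (∀ e b, 0 ≤ π e b) → (∀ e, ∑ b, π e b ≤ 1) → (∀ v b, π s(v, v) b = 0) →
      (∀ v b, ∑ u, π s(v, u) b ≤ Cm) →
      ∃ β : Sym2 V → Option B, (∀ e b, β e = some b → 0 < π e b) ∧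
        ∀ v b, |((univ.filter (fun u => β s(v, u) = some b)).card : ℝ) - ∑ u, π s(v, u) b| ≤ err

/-- selection of the bursts -/
lemma bursts {V : Type} [Fintype V] {K : ℕ} (W : Finset V) (Tp : V → Fin K → Finset V)
    (ys : V → Fin K → ℝ) (Ym cm Cm err : ℝ)
    (hTp : ∀ v ∈ W, ∀ j, ∀ u ∈ Tp v j, u ∉ W) (hy0 : ∀ v j, 0 ≤ ys v j) (hy1 : ∀ v j, ys v j ≤ Ym)
    (hcm : 0 < cm) (hcard : ∀ v ∈ W, ∀ j, cm ≤ ((Tp v j).card : ℝ)) (hK : K * (Ym / cm) ≤ 1)
    (hs : SampProp V (Fin K) Cm err) (hC1 : Ym ≤ Cm) (hC2 : W.card * (Ym / cm) ≤ Cm) :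
    ∃ β : Sym2 V → Option (Fin K),
      (∀ v u j, β s(v, u) = some j → v ∈ W → u ∈ Tp v j) ∧
      (∀ v u j, β s(v, u) = some j → v ∈ W ∨ u ∈ W) ∧
      (∀ v ∈ W, ∀ j, |((univ.filter (fun u => β s(v, u) = some j)).card : ℝ) - ys v j| ≤ err) ∧
      (∀ v ∉ W, ∀ j, ((univ.filter (fun u => β s(v, u) = some j)).card : ℝ)
        ≤ W.card * (Ym / cm) + err) := by
  set h : Fin K → V → V → ℝ := fun j v u =>
    if v ∈ W ∧ u ∈ Tp v j then ys v j / (Tp v j).card else 0 with hh
  have h0 : ∀ j v u, 0 ≤ h j v u := by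
    intro j v u
    simp only [hh]
    split_ifs
    · exact div_nonneg (hy0 v j) (Nat.cast_nonneg _)
    · exact le_rfl
  have hYm : ∀ (v : V) (j : Fin K), 0 ≤ Ym := fun v j => (hy0 v j).trans (hy1 v j)
  have h1 : ∀ j v u, h j v u ≤ Ym / cm := by
    intro j v u
    simp only [hh]
    split_ifs with h2
    · exact div_le_div₀ (hYm v j) (hy1 v j) hcm (hcard v h2.1 j)
    · exact div_nonneg (hYm v j) hcm.le
  set π : Sym2 V → Fin K → ℝ := fun e j =>
    Sym2.lift ⟨fun v u => h j v u + h j u v, fun v u => add_comm _ _⟩ e with hπ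
  have hπe : ∀ v u j, π s(v, u) j = h j v u + h j u v := by
    intro v u j
    simp only [hπ, Sym2.lift_mk]
  have hW0 : ∀ j v u, v ∈ W → h j u v = 0 := by
    intro j v u hv
    simp only [hh]
    rw [if_neg]
    rintro ⟨h2, h3⟩
    exact hTp u h2 j v h3 hv
  have hN0 : ∀ j v u, v ∉ W → h j v u = 0 := by
    intro j v u hv
    simp only [hh]
    rw [if_neg]
    rintro ⟨h2, h3⟩
    exact hv h2
  have hle : ∀ v u j, π s(v, u) j ≤ Ym / cm := by
    intro v u j
    rw [hπe]
    by_cases hv : v ∈ W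
    · rw [hW0 j v u hv, add_zero]; exact h1 j v u
    · rw [hN0 j v u hv, zero_add]; exact h1 j u v
  have hsumW : ∀ v ∈ W, ∀ j, ∑ u, π s(v, u) j = ys v j := by
    intro v hv j
    have : ∑ u, π s(v, u) j = ∑ u, if u ∈ Tp v j then ys v j / (Tp v j).card else 0 := by
      apply sum_congr rfl
      intro u _
      rw [hπe, hW0 j v u hv, add_zero]
      simp only [hh, hv, true_and]
    rw [this, ← sum_filter, sum_const, filter_mem_eq_inter, univ_inter, nsmul_eq_mul]
    have h3 : (0 : ℝ) < ((Tp v j).card : ℝ) := lt_of_lt_of_le hcm (hcard v hv j)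
    field_simp
  have hsumN : ∀ v ∉ W, ∀ j, ∑ u, π s(v, u) j ≤ W.card * (Ym / cm) := by
    intro v hv j
    have : ∑ u, π s(v, u) j = ∑ u ∈ W, π s(v, u) j := by
      symm
      apply sum_subset (subset_univ _)
      intro u _ hu
      rw [hπe, hN0 j v u hv, hN0 j u v hu, zero_add]
    rw [this]
    calc ∑ u ∈ W, π s(v, u) j ≤ ∑ u ∈ W, Ym / cm := sum_le_sum (fun u _ => hle v u j)
      _ = W.card * (Ym / cm) := by rw [sum_const, nsmul_eq_mul]
  obtain ⟨β, hβ1, hβ2'⟩ := hs π
    (by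
      intro e b
      induction e using Sym2.ind with
      | _ v u => rw [hπe]; exact add_nonneg (h0 _ _ _) (h0 _ _ _))
    (by
      intro e
      induction e using Sym2.ind with
      | _ v u =>
        calc ∑ b, π s(v, u) b ≤ ∑ b : Fin K, Ym / cm := sum_le_sum (fun b _ => hle v u b)
          _ = K * (Ym / cm) := by simp
          _ ≤ 1 := hK)
    (by
      intro v b
      rw [hπe]
      by_cases hv : v ∈ W
      · rw [hW0 b v v hv, add_zero]
      · rw [hN0 b v v hv, add_zero])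
    (by
      intro v b
      by_cases hv : v ∈ W
      · rw [hsumW v hv b]; exact (hy1 v b).trans hC1
      · exact (hsumN v hv b).trans hC2)
  have hβ2 : ∀ v j, |((univ.filter (fun u => β s(v, u) = some j)).card : ℝ) -
      ∑ u, π s(v, u) j| ≤ err := by
    intro v j
    convert hβ2' v j
  refine ⟨β, ?_, ?_, ?_, ?_⟩
  · intro v u j h3 hv
    have h4 := hβ1 _ _ h3
    rw [hπe, hW0 j v u hv, add_zero] at h4
    simp only [hh] at h4
    split_ifs at h4 with h5
    · exact h5.2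
    · exact absurd h4 (lt_irrefl _)
  · intro v u j h3
    have h4 := hβ1 _ _ h3
    by_contra h5
    push Not at h5
    rw [hπe, hN0 j v u h5.1, hN0 j u v h5.2, add_zero] at h4
    exact absurd h4 (lt_irrefl _)
  · intro v hv j
    have := hβ2 v j
    rwa [hsumW v hv j] at this
  · intro v hv j
    have h3 := (abs_le.1 (hβ2 v j)).2
    have h4 := hsumN v hv j
    linarith

end

end Pool.Agent.Helper15.LR
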