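import Pool.Agent.Helper15.LR.Eb

set_option autoImplicit false

open Finset Filter
open scoped Classical Topology

namespace Pool.Agent.Helper15.LR

noncomputable section

/-- `e` has an end in `W` on the side `b` at level `j` -/
def WS {V : Type} {K : ℕ} (W : Finset V) (sg : V → Fin K → Bool) (j : Fin K) (b : Bool)
    (e : Sym2 V) : Prop := ∃ v ∈ W, v ∈ e ∧ sg v j = b

/-- edges of the level `j` outside the bursts, at `v` -/
def Rs {V : Type} [Fintype V] {K : ℕ} (F : Set (Sym2 V)) (φ β₁ : Sym2 V → Option (Fin K)) (v : V)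
    (j : Fin K) : Finset V :=
  univ.filter (fun u => s(v, u) ∈ F ∧ φ s(v, u) = some j ∧ β₁ s(v, u) = none)

/-- probability of the thin block of the side `b` -/
def pr {V : Type} {K : ℕ} (W : Finset V) (sg : V → Fin K → Bool) (t T0 : ℝ) (j : Fin K) (b : Bool)
    (e : Sym2 V) : ℝ :=
  if WS W sg j b e then 0 else if WS W sg j (!b) e then t / (T0 - t) else t / T0

def ppi {V : Type} {K : ℕ} (F : Set (Sym2 V)) (W : Finset V) (sg : V → Fin K → Bool)
    (φ β₁ : Sym2 V → Option (Fin K)) (t T0 : ℝ) (e : Sym2 V) (q : Fin K × Bool) : ℝ :=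
  if e ∈ F ∧ φ e = some q.1 ∧ β₁ e = none then pr W sg t T0 q.1 q.2 e else 0

lemma pr_nonneg {V : Type} {K : ℕ} (W : Finset V) (sg : V → Fin K → Bool) {t T0 : ℝ} (ht : 0 < t)
    (hT : 4 * t ≤ T0) (j : Fin K) (b : Bool) (e : Sym2 V) : 0 ≤ pr W sg t T0 j b e := by
  unfold pr
  have h1 : 0 < T0 - t := by linarith
  have h2 : 0 < T0 := by linarith
  split_ifs <;> positivity

lemma pr_le {V : Type} {K : ℕ} (W : Finset V) (sg : V → Fin K → Bool) {t T0 : ℝ} (ht : 0 < t)
    (hT : 4 * t ≤ T0) (j : Fin K) (b : Bool) (e : Sym2 V) :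
    pr W sg t T0 j b e ≤ t / (T0 - t) := by
  unfold pr
  have h1 : 0 < T0 - t := by linarith
  have h2 : 0 < T0 := by linarith
  split_ifs
  · positivity
  · exact le_rfl
  · exact div_le_div_of_nonneg_left ht.le h1 (by linarith)

lemma sum_ppi {V : Type} [Fintype V] {K : ℕ} (F : Set (Sym2 V)) (W : Finset V)
    (sg : V → Fin K → Bool) (φ β₁ : Sym2 V → Option (Fin K)) (t T0 : ℝ) (v : V) (j : Fin K)
    (b : Bool) :
    ∑ u, ppi F W sg φ β₁ t T0 s(v, u) (j, b) = ∑ u ∈ Rs F φ β₁ v j, pr W sg t T0 j b s(v, u) := by
  unfold ppi Rs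
  rw [sum_filter]

/-- splitting of the levels into blocks -/
lemma blocks {V : Type} [Fintype V] {K : ℕ} (F : Set (Sym2 V)) (W : Finset V)
    (sg : V → Fin K → Bool) (φ β₁ : Sym2 V → Option (Fin K)) (t T0 err x Cm : ℝ)
    (ht : 0 < t) (hT : 4 * t ≤ T0) (herr : 0 ≤ err)
    (hWW : ∀ u v j, s(u, v) ∈ F → φ s(u, v) = some j → u ∈ W → v ∉ W)
    (hβ : ∀ e j, β₁ e = some j → e ∈ F ∧ φ e = some j)
    (hβW : ∀ u v j, β₁ s(u, v) = some j → u ∈ W ∨ v ∈ W)
    (hcr : ∀ u v j, s(u, v) ∈ F → φ s(u, v) = some j → sg u j ≠ sg v j)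
    (hbN : ∀ v ∉ W, ∀ j, ((univ.filter (fun u => β₁ s(v, u) = some j)).card : ℝ) ≤ x)
    (hrN : ∀ v ∉ W, ∀ j, ((Rs F φ β₁ v j).card : ℝ) ≤ T0)
    (hrW : ∀ v ∈ W, ∀ j, ((Rs F φ β₁ v j).card : ℝ) ≤ T0 - t + err)
    (hs : SampProp V (Fin K × Bool) Cm err) (hC : T0 * (t / (T0 - t)) ≤ Cm)
    (hC' : (T0 - t + err) * (t / (T0 - t)) ≤ Cm)
    (hx1 : t ^ 2 / (T0 - t) + err ≤ x) (hx2 : W.card * (t / T0) + 2 * err ≤ x) :
    ∃ blk : Sym2 V → ℕ, ∀ j,
      (∀ a b, s(a, b) ∈ F → φ s(a, b) = some j → sg a j = true → sg b j = false →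
        (b ∈ W → blk s(a, b) = 0 ∨ blk s(a, b) = 1 ∨ blk s(a, b) = 2) ∧
        (a ∈ W → blk s(a, b) = 2 ∨ blk s(a, b) = 3 ∨ blk s(a, b) = 4) ∧
        (a ∉ W → b ∉ W → blk s(a, b) = 1 ∨ blk s(a, b) = 2 ∨ blk s(a, b) = 3)) ∧
      (∀ v ∉ W, (ld {e | e ∈ F ∧ φ e = some j} blk v 0 : ℝ) ≤ x ∧
        (ld {e | e ∈ F ∧ φ e = some j} blk v 4 : ℝ) ≤ x) ∧
      (∀ v, (ld {e | e ∈ F ∧ φ e = some j} blk v 1 : ℝ) ≤ t + x ∧
        (ld {e | e ∈ F ∧ φ e = some j} blk v 2 : ℝ) ≤ (T0 - 2 * t) + x ∧
        (ld {e | e ∈ F ∧ φ e = some j} blk v 3 : ℝ) ≤ t + x) ∧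
      (∀ e, e ∈ F → φ e = some j → (blk e = 0 ∨ blk e = 4) → β₁ e = some j) := by
  have h1 : 0 < T0 - t := by linarith
  have h2 : 0 < T0 := by linarith
  have hp1 : t / (T0 - t) ≤ 1 / 2 := by rw [div_le_iff₀ h1]; linarith
  have hp0 : 0 ≤ t / (T0 - t) := by positivity
  set π := ppi F W sg φ β₁ t T0 with hπ
  have hπ0 : ∀ e q, 0 ≤ π e q := by
    intro e q
    simp only [hπ, ppi]
    split_ifs
    · exact pr_nonneg W sg ht hT _ _ _
    · exact le_rfl
  have hsum1 : ∀ v j b, ∑ u, π s(v, u) (j, b) ≤ (Rs F φ β₁ v j).card * (t / (T0 - t)) := by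
    intro v j b
    rw [hπ, sum_ppi]
    calc ∑ u ∈ Rs F φ β₁ v j, pr W sg t T0 j b s(v, u)
        ≤ ∑ u ∈ Rs F φ β₁ v j, t / (T0 - t) := sum_le_sum (fun u _ => pr_le W sg ht hT _ _ _)
      _ = _ := by rw [sum_const, nsmul_eq_mul]
  obtain ⟨β₂, hβ1, hβ2⟩ := hs π hπ0
    (by
      intro e
      rw [Fintype.sum_prod_type]
      have h3 : ∀ j : Fin K, ∑ b : Bool, π e (j, b) ≤ if φ e = some j then 1 else 0 := by
        intro j
        rw [Fintype.sum_bool]
        split_ifs with h4
        · have h5 : ∀ b, π e (j, b) ≤ 1 / 2 := by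
            intro b
            simp only [hπ, ppi]
            split_ifs
            · exact (pr_le W sg ht hT _ _ _).trans hp1
            · norm_num
          linarith [h5 true, h5 false]
        · have h5 : ∀ b, π e (j, b) = 0 := by
            intro b
            simp only [hπ, ppi]
            rw [if_neg]
            rintro ⟨_, h6, _⟩
            exact h4 h6
          rw [h5, h5, add_zero]
      calc ∑ j : Fin K, ∑ b : Bool, π e (j, b) ≤ ∑ j : Fin K, if φ e = some j then (1 : ℝ) else 0 :=
            sum_le_sum (fun j _ => h3 j)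
        _ ≤ 1 := by
            rcases h4 : φ e with _ | j0
            · simp
            · simp)
    (by
      intro v q
      simp only [hπ, ppi]
      rw [if_neg]
      rintro ⟨h3, h4, _⟩
      exact hcr v v q.1 h3 h4 rfl)
    (by
      rintro v ⟨j, b⟩
      refine (hsum1 v j b).trans ?_
      by_cases hv : v ∈ W
      · exact (mul_le_mul_of_nonneg_right (hrW v hv j) hp0).trans hC'
      · exact (mul_le_mul_of_nonneg_right (hrN v hv j) hp0).trans hC)
  have hβ3 : ∀ e j b, β₂ e = some (j, b) → e ∈ F ∧ φ e = some j ∧ β₁ e = none ∧ ¬ WS W sg j b e := by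
    intro e j b h3
    have h4 := hβ1 _ _ h3
    simp only [hπ, ppi] at h4
    split_ifs at h4 with h5
    · refine ⟨h5.1, h5.2.1, h5.2.2, ?_⟩
      intro h6
      unfold pr at h4
      rw [if_pos h6] at h4
      exact absurd h4 (lt_irrefl _)
    · exact absurd h4 (lt_irrefl _)
  set blk : Sym2 V → ℕ := fun e =>
    match β₁ e with
    | some j => if WS W sg j false e then 0 else 4
    | none => match β₂ e with
      | some (_, true) => 1
      | some (_, false) => 3
      | none => 2 with hblk
  -- values of blk
  have hb0 : ∀ e, blk e = 0 → ∃ j, β₁ e = some j ∧ WS W sg j false e := by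
    intro e h3
    simp only [hblk] at h3
    rcases h4 : β₁ e with _ | j
    · rw [h4] at h3
      rcases h5 : β₂ e with _ | ⟨j, b⟩
      · rw [h5] at h3; simp at h3
      · rw [h5] at h3; cases b <;> simp at h3
    · rw [h4] at h3
      refine ⟨j, rfl, ?_⟩
      by_contra h6
      simp [h6] at h3
  have hb4 : ∀ e, blk e = 4 → ∃ j, β₁ e = some j ∧ ¬ WS W sg j false e := by
    intro e h3
    simp only [hblk] at h3
    rcases h4 : β₁ e with _ | j
    · rw [h4] at h3
      rcases h5 : β₂ e with _ | ⟨j, b⟩
      · rw [h5] at h3; simp at h3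
      · rw [h5] at h3; cases b <;> simp at h3
    · rw [h4] at h3
      refine ⟨j, rfl, ?_⟩
      intro h6
      simp [h6] at h3
  have hb1 : ∀ e, blk e = 1 ↔ ∃ j, β₂ e = some (j, true) := by
    intro e
    constructor
    · intro h3
      simp only [hblk] at h3
      rcases h4 : β₁ e with _ | j
      · rw [h4] at h3
        rcases h5 : β₂ e with _ | ⟨j, b⟩
        · rw [h5] at h3; simp at h3
        · rw [h5] at h3
          cases b
          · simp at h3
          · exact ⟨j, rfl⟩
      · rw [h4] at h3
        dsimp only at h3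
        split_ifs at h3 <;> simp at h3
    · rintro ⟨j, h3⟩
      have h4 := (hβ3 e j true h3).2.2.1
      simp only [hblk, h4, h3]
  have hb3 : ∀ e, blk e = 3 ↔ ∃ j, β₂ e = some (j, false) := by
    intro e
    constructor
    · intro h3
      simp only [hblk] at h3
      rcases h4 : β₁ e with _ | j
      · rw [h4] at h3
        rcases h5 : β₂ e with _ | ⟨j, b⟩
        · rw [h5] at h3; simp at h3
        · rw [h5] at h3
          cases b
          · exact ⟨j, rfl⟩
          · simp at h3
      · rw [h4] at h3
        dsimp only at h3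
        split_ifs at h3 <;> simp at h3
    · rintro ⟨j, h3⟩
      have h4 := (hβ3 e j false h3).2.2.1
      simp only [hblk, h4, h3]
  have hb2 : ∀ e, blk e = 2 ↔ β₁ e = none ∧ β₂ e = none := by
    intro e
    constructor
    · intro h3
      simp only [hblk] at h3
      rcases h4 : β₁ e with _ | j
      · rw [h4] at h3
        rcases h5 : β₂ e with _ | ⟨j, b⟩
        · exact ⟨rfl, rfl⟩
        · rw [h5] at h3; cases b <;> simp at h3
      · rw [h4] at h3
        dsimp only at h3
        split_ifs at h3 <;> simp at h3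
    · rintro ⟨h3, h4⟩
      simp only [hblk, h3, h4]
  have hble : ∀ e, blk e = 0 ∨ blk e = 1 ∨ blk e = 2 ∨ blk e = 3 ∨ blk e = 4 := by
    intro e
    simp only [hblk]
    rcases h4 : β₁ e with _ | j
    · dsimp only
      rcases h5 : β₂ e with _ | ⟨j, b⟩
      · simp
      · cases b <;> simp
    · dsimp only
      split_ifs <;> simp
  -- counts
  have hc1 : ∀ v j, ld {e | e ∈ F ∧ φ e = some j} blk v 1 =
      (univ.filter (fun u => β₂ s(v, u) = some (j, true))).card := by
    intro v j
    unfold ld nb
    congr 1
    ext u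
    simp only [mem_filter, mem_univ, true_and, Set.mem_setOf_eq, hb1]
    constructor
    · rintro ⟨⟨h3, h4⟩, j', h5⟩
      have h6 := (hβ3 _ _ _ h5).2.1
      rw [h4] at h6
      rw [h5, Option.some.inj h6]
    · intro h3
      have h4 := hβ3 _ _ _ h3
      exact ⟨⟨h4.1, h4.2.1⟩, j, h3⟩
  have hc3 : ∀ v j, ld {e | e ∈ F ∧ φ e = some j} blk v 3 =
      (univ.filter (fun u => β₂ s(v, u) = some (j, false))).card := by
    intro v j
    unfold ld nb
    congr 1
    ext u
    simp only [mem_filter, mem_univ, true_and, Set.mem_setOf_eq, hb3]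
    constructor
    · rintro ⟨⟨h3, h4⟩, j', h5⟩
      have h6 := (hβ3 _ _ _ h5).2.1
      rw [h4] at h6
      rw [h5, Option.some.inj h6]
    · intro h3
      have h4 := hβ3 _ _ _ h3
      exact ⟨⟨h4.1, h4.2.1⟩, j, h3⟩
  have hc2 : ∀ v j, (ld {e | e ∈ F ∧ φ e = some j} blk v 2 : ℝ) =
      (Rs F φ β₁ v j).card - (univ.filter (fun u => β₂ s(v, u) = some (j, true))).card
        - (univ.filter (fun u => β₂ s(v, u) = some (j, false))).card := by
    intro v j
    have h3 : (Rs F φ β₁ v j).card = ld {e | e ∈ F ∧ φ e = some j} blk v 2 +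
        ((univ.filter (fun u => β₂ s(v, u) = some (j, true))).card +
        (univ.filter (fun u => β₂ s(v, u) = some (j, false))).card) := by
      unfold ld
      rw [← card_union_of_disjoint, ← card_union_of_disjoint]
      · congr 1
        ext u
        simp only [Rs, mem_filter, mem_univ, true_and, nb, Set.mem_setOf_eq, mem_union, hb2]
        constructor
        · rintro ⟨h3, h4, h5⟩
          rcases h6 : β₂ s(v, u) with _ | ⟨j', b⟩
          · left; exact ⟨⟨h3, h4⟩, h5, rfl⟩
          · right
            have h7 := (hβ3 _ _ _ h6).2.1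
            rw [h4] at h7
            have h8 := Option.some.inj h7
            subst h8
            cases b
            · right; rfl
            · left; rfl
        · rintro (⟨⟨h3, h4⟩, h5, h6⟩ | h3 | h3)
          · exact ⟨h3, h4, h5⟩
          · have h7 := hβ3 _ _ _ h3
            exact ⟨h7.1, h7.2.1, h7.2.2.1⟩
          · have h7 := hβ3 _ _ _ h3
            exact ⟨h7.1, h7.2.1, h7.2.2.1⟩
      · rw [disjoint_left]
        intro u h3 h4
        simp only [mem_filter] at h3
        have h5 := ((hb2 _).1 h3.2).2
        rw [mem_union, mem_filter, mem_filter] at h4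
        rcases h4 with h4 | h4
        · rw [h5] at h4; simp at h4
        · rw [h5] at h4; simp at h4
      · rw [disjoint_left]
        intro u h3 h4
        rw [mem_filter] at h3 h4
        rw [h3.2] at h4
        simp at h4
    have h4 : ((Rs F φ β₁ v j).card : ℝ) = ld {e | e ∈ F ∧ φ e = some j} blk v 2 +
        ((univ.filter (fun u => β₂ s(v, u) = some (j, true))).card +
        (univ.filter (fun u => β₂ s(v, u) = some (j, false))).card) := by
      rw [h3]; push_cast; ring
    linarith
  have hβ2' : ∀ v j b, |((univ.filter (fun u => β₂ s(v, u) = some (j, b))).card : ℝ) -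
      ∑ u, π s(v, u) (j, b)| ≤ err := by
    intro v j b
    convert hβ2 v (j, b)
  refine ⟨blk, fun j => ⟨?_, ?_, ?_, ?_⟩⟩
  · intro a b hab hφ ha hb
    refine ⟨fun hbW => ?_, fun haW => ?_, fun haW hbW => ?_⟩
    · have hWF : WS W sg j false s(a, b) := ⟨b, hbW, by simp, hb⟩
      rcases hble s(a, b) with h | h | h | h | h
      · exact Or.inl h
      · exact Or.inr (Or.inl h)
      · exact Or.inr (Or.inr h)
      · exfalso
        obtain ⟨j', h3⟩ := (hb3 _).1 h
        have h4 := hβ3 _ _ _ h3
        rw [hφ] at h4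
        have h5 := Option.some.inj h4.2.1
        subst h5
        exact h4.2.2.2 hWF
      · exfalso
        obtain ⟨j', h3, h4⟩ := hb4 _ h
        have h5 := (hβ _ _ h3).2
        rw [hφ] at h5
        have h6 := Option.some.inj h5
        subst h6
        exact h4 hWF
    · have hWT : WS W sg j true s(a, b) := ⟨a, haW, by simp, ha⟩
      have hbW : b ∉ W := hWW a b j hab hφ haW
      have hWF : ¬ WS W sg j false s(a, b) := by
        rintro ⟨v, hv, hv2, hv3⟩
        rcases Sym2.mem_iff.1 hv2 with h | h
        · rw [h, ha] at hv3; exact absurd hv3 (by simp)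
        · rw [h] at hv; exact hbW hv
      rcases hble s(a, b) with h | h | h | h | h
      · exfalso
        obtain ⟨j', h3, h4⟩ := hb0 _ h
        have h5 := (hβ _ _ h3).2
        rw [hφ] at h5
        have h6 := Option.some.inj h5
        subst h6
        exact hWF h4
      · exfalso
        obtain ⟨j', h3⟩ := (hb1 _).1 h
        have h4 := hβ3 _ _ _ h3
        rw [hφ] at h4
        have h5 := Option.some.inj h4.2.1
        subst h5
        exact h4.2.2.2 hWT
      · exact Or.inl h
      · exact Or.inr (Or.inl h)
      · exact Or.inr (Or.inr h)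
    · rcases hble s(a, b) with h | h | h | h | h
      · exfalso
        obtain ⟨j', h3, h4⟩ := hb0 _ h
        rcases hβW _ _ _ h3 with h5 | h5
        · exact haW h5
        · exact hbW h5
      · exact Or.inl h
      · exact Or.inr (Or.inl h)
      · exact Or.inr (Or.inr h)
      · exfalso
        obtain ⟨j', h3, h4⟩ := hb4 _ h
        rcases hβW _ _ _ h3 with h5 | h5
        · exact haW h5
        · exact hbW h5
  · intro v hv
    have h3 : ∀ i : ℕ, (∀ e, blk e = i → ∃ j, β₁ e = some j) →
        (ld {e | e ∈ F ∧ φ e = some j} blk v i : ℝ) ≤ x := by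
      intro i hi
      refine le_trans ?_ (hbN v hv j)
      have : ld {e | e ∈ F ∧ φ e = some j} blk v i ≤
          (univ.filter (fun u => β₁ s(v, u) = some j)).card := by
        apply card_le_card
        intro u hu
        simp only [mem_filter, mem_nb] at hu
        obtain ⟨j', h4⟩ := hi _ hu.2
        have h5 := (hβ _ _ h4).2
        rw [hu.1.2] at h5
        rw [mem_filter]
        exact ⟨mem_univ _, by rw [h4, Option.some.inj h5]⟩
      exact_mod_cast this
    exact ⟨h3 0 (fun e he => by obtain ⟨j, h, _⟩ := hb0 e he; exact ⟨j, h⟩),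
      h3 4 (fun e he => by obtain ⟨j, h, _⟩ := hb4 e he; exact ⟨j, h⟩)⟩
  · intro v
    rw [hc1, hc3, hc2]
    have hE : ∀ b, ((univ.filter (fun u => β₂ s(v, u) = some (j, b))).card : ℝ) ≤ t + x := by
      intro b
      have h3 := (abs_le.1 (hβ2' v j b)).2
      have h4 := hsum1 v j b
      by_cases hv : v ∈ W
      · have h5 : ((Rs F φ β₁ v j).card : ℝ) * (t / (T0 - t)) ≤ (T0 - t + err) * (t / (T0 - t)) :=
          mul_le_mul_of_nonneg_right (hrW v hv j) hp0
        have h6 : (T0 - t + err) * (t / (T0 - t)) = t + err * (t / (T0 - t)) := by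
          field_simp
        have h7 : err * (t / (T0 - t)) ≤ err * (1 / 2) := mul_le_mul_of_nonneg_left hp1 herr
        have h8 : 0 ≤ t ^ 2 / (T0 - t) := by positivity
        have h9 : 0 ≤ (W.card : ℝ) * (t / T0) := by positivity
        linarith
      · have h5 : ((Rs F φ β₁ v j).card : ℝ) * (t / (T0 - t)) ≤ T0 * (t / (T0 - t)) :=
          mul_le_mul_of_nonneg_right (hrN v hv j) hp0
        have h6 : T0 * (t / (T0 - t)) = t + t ^ 2 / (T0 - t) := by
          field_simp
          ring
        linarith
    refine ⟨hE true, ?_, hE false⟩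
    have h3 := (abs_le.1 (hβ2' v j true)).1
    have h4 := (abs_le.1 (hβ2' v j false)).1
    by_cases hv : v ∈ W
    · -- one of the two sides has probability `t/(T0-t)`
      have key : (Rs F φ β₁ v j).card * (t / (T0 - t)) ≤
          ∑ u, π s(v, u) (j, true) + ∑ u, π s(v, u) (j, false) := by
        rw [hπ, sum_ppi, sum_ppi, ← sum_add_distrib]
        calc ((Rs F φ β₁ v j).card : ℝ) * (t / (T0 - t))
            = ∑ u ∈ Rs F φ β₁ v j, t / (T0 - t) := by rw [sum_const, nsmul_eq_mul]
          _ ≤ _ := by
            apply sum_le_sum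
            intro u hu
            have hu' := (mem_filter.1 hu).2
            have huW : u ∉ W := hWW v u j hu'.1 hu'.2.1 hv
            cases hsv : sg v j
            · have hA : WS W sg j false s(v, u) := ⟨v, hv, by simp, hsv⟩
              have hB : ¬ WS W sg j true s(v, u) := by
                rintro ⟨w, hw, hw2, hw3⟩
                rcases Sym2.mem_iff.1 hw2 with h | h
                · rw [h, hsv] at hw3; exact absurd hw3 (by simp)
                · rw [h] at hw; exact huW hw
              have h5 : pr W sg t T0 j true s(v, u) = t / (T0 - t) := by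
                unfold pr
                rw [if_neg hB, Bool.not_true, if_pos hA]
              have h6 := pr_nonneg W sg ht hT j false s(v, u)
              linarith
            · have hA : WS W sg j true s(v, u) := ⟨v, hv, by simp, hsv⟩
              have hB : ¬ WS W sg j false s(v, u) := by
                rintro ⟨w, hw, hw2, hw3⟩
                rcases Sym2.mem_iff.1 hw2 with h | h
                · rw [h, hsv] at hw3; exact absurd hw3 (by simp)
                · rw [h] at hw; exact huW hw
              have h5 : pr W sg t T0 j false s(v, u) = t / (T0 - t) := by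
                unfold pr
                rw [if_neg hB, Bool.not_false, if_pos hA]
              have h6 := pr_nonneg W sg ht hT j true s(v, u)
              linarith
      have h5 : ((Rs F φ β₁ v j).card : ℝ) * (1 - t / (T0 - t)) ≤
          (T0 - t + err) * (1 - t / (T0 - t)) :=
        mul_le_mul_of_nonneg_right (hrW v hv j) (by linarith)
      have h6 : (T0 - t + err) * (1 - t / (T0 - t)) = T0 - 2 * t + err * (1 - t / (T0 - t)) := by
        field_simp
        ring
      have h7 : err * (1 - t / (T0 - t)) ≤ err * 1 := mul_le_mul_of_nonneg_left (by linarith) herr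
      -- D1 + D3 ≥ key - 2 err ; one of the counts is zero, but the crude bound suffices
      have h9 : 0 ≤ (W.card : ℝ) * (t / T0) := by positivity
      -- use that one of the labels does not occur
      rcases hsv : sg v j with _ | _
      · have hz : ∑ u, π s(v, u) (j, false) = 0 := by
          rw [hπ, sum_ppi]
          apply sum_eq_zero
          intro u hu
          have hA : WS W sg j false s(v, u) := ⟨v, hv, by simp, hsv⟩
          unfold pr
          rw [if_pos hA]
        have hz' : (0 : ℝ) ≤ ((univ.filter (fun u => β₂ s(v, u) = some (j, false))).card : ℝ) :=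
          Nat.cast_nonneg _
        linarith
      · have hz : ∑ u, π s(v, u) (j, true) = 0 := by
          rw [hπ, sum_ppi]
          apply sum_eq_zero
          intro u hu
          have hA : WS W sg j true s(v, u) := ⟨v, hv, by simp, hsv⟩
          unfold pr
          rw [if_pos hA]
        have hz' : (0 : ℝ) ≤ ((univ.filter (fun u => β₂ s(v, u) = some (j, true))).card : ℝ) :=
          Nat.cast_nonneg _
        linarith
    · have key : (Rs F φ β₁ v j).card * (2 * (t / T0)) - W.card * (t / T0) ≤
          ∑ u, π s(v, u) (j, true) + ∑ u, π s(v, u) (j, false) := by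
        rw [hπ, sum_ppi, sum_ppi, ← sum_add_distrib]
        have h5 : ∀ u ∈ Rs F φ β₁ v j, 2 * (t / T0) - (if u ∈ W then t / T0 else 0) ≤
            pr W sg t T0 j true s(v, u) + pr W sg t T0 j false s(v, u) := by
          intro u hu
          have hle : t / T0 ≤ t / (T0 - t) :=
            div_le_div_of_nonneg_left ht.le h1 (by linarith)
          by_cases huW : u ∈ W
          · rw [if_pos huW]
            cases hsu : sg u j
            · have hA : WS W sg j false s(v, u) := ⟨u, huW, by simp, hsu⟩
              have hB : ¬ WS W sg j true s(v, u) := by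
                rintro ⟨w, hw, hw2, hw3⟩
                rcases Sym2.mem_iff.1 hw2 with h | h
                · rw [h] at hw; exact hv hw
                · rw [h, hsu] at hw3; exact absurd hw3 (by simp)
              have h5 : pr W sg t T0 j true s(v, u) = t / (T0 - t) := by
                unfold pr
                rw [if_neg hB, Bool.not_true, if_pos hA]
              have h6 := pr_nonneg W sg ht hT j false s(v, u)
              linarith
            · have hA : WS W sg j true s(v, u) := ⟨u, huW, by simp, hsu⟩
              have hB : ¬ WS W sg j false s(v, u) := by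
                rintro ⟨w, hw, hw2, hw3⟩
                rcases Sym2.mem_iff.1 hw2 with h | h
                · rw [h] at hw; exact hv hw
                · rw [h, hsu] at hw3; exact absurd hw3 (by simp)
              have h5 : pr W sg t T0 j false s(v, u) = t / (T0 - t) := by
                unfold pr
                rw [if_neg hB, Bool.not_false, if_pos hA]
              have h6 := pr_nonneg W sg ht hT j true s(v, u)
              linarith
          · rw [if_neg huW]
            have hB : ∀ b, ¬ WS W sg j b s(v, u) := by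
              rintro b ⟨w, hw, hw2, hw3⟩
              rcases Sym2.mem_iff.1 hw2 with h | h
              · rw [h] at hw; exact hv hw
              · rw [h] at hw; exact huW hw
            have h5 : ∀ b, pr W sg t T0 j b s(v, u) = t / T0 := by
              intro b
              unfold pr
              rw [if_neg (hB b), if_neg (hB (!b))]
            rw [h5, h5]
            linarith
        have h6 : ∑ u ∈ Rs F φ β₁ v j, (if u ∈ W then t / T0 else 0) ≤ W.card * (t / T0) := by
          rw [← sum_filter, sum_const, nsmul_eq_mul]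
          apply mul_le_mul_of_nonneg_right _ (by positivity)
          have : ((Rs F φ β₁ v j).filter (fun u => u ∈ W)).card ≤ W.card :=
            card_le_card (fun u hu => (mem_filter.1 hu).2)
          exact_mod_cast this
        have h7 := sum_le_sum h5
        rw [sum_sub_distrib, sum_const, nsmul_eq_mul] at h7
        linarith
      have h5 : ((Rs F φ β₁ v j).card : ℝ) * (1 - 2 * (t / T0)) ≤ T0 * (1 - 2 * (t / T0)) := by
        apply mul_le_mul_of_nonneg_right (hrN v hv j)
        have : t / T0 ≤ 1 / 4 := by rw [div_le_iff₀ h2]; linarith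
        linarith
      have h6 : T0 * (1 - 2 * (t / T0)) = T0 - 2 * t := by
        field_simp
      linarith
  · intro e he hφ h
    rcases h with h | h
    · obtain ⟨j', h3, h4⟩ := hb0 _ h
      have h5 := (hβ _ _ h3).2
      rw [hφ] at h5
      rw [h3, Option.some.inj h5]
    · obtain ⟨j', h3, h4⟩ := hb4 _ h
      have h5 := (hβ _ _ h3).2
      rw [hφ] at h5
      rw [h3, Option.some.inj h5]

end

end Pool.Agent.Helper15.LR
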