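import Pool.Agent.Helper15.LR.Ec

set_option autoImplicit false

open Finset Filter
open scoped Classical Topology

namespace Pool.Agent.Helper15.LR

noncomputable section

/-- number of colours of the group `o` in the list of `e` -/
def ell {V Λ : Type} (L : Sym2 V → Finset ℕ) (g : ℕ → Λ) (o : Λ) (e : Sym2 V) : ℕ :=
  ((L e).filter (fun x => g x = o)).card

lemma ell_some {V : Type} {K : ℕ} (L : Sym2 V → Finset ℕ) (g : ℕ → Option (Fin K)) (j : Fin K)
    (e : Sym2 V) : ell L g (some j) e = ((L e).filter (fun x => g x = some j)).card := by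
  unfold ell
  congr

lemma ell_none {V : Type} {K : ℕ} (L : Sym2 V → Finset ℕ) (g : ℕ → Option (Fin K))
    (e : Sym2 V) : ell L g none e = ((L e).filter (fun x => g x = none)).card := by
  unfold ell
  congr

lemma Rs_card {V : Type} [Fintype V] {K : ℕ} (F : Set (Sym2 V)) (φ β₁ : Sym2 V → Option (Fin K))
    (hβ : ∀ e j, β₁ e = some j → e ∈ F ∧ φ e = some j) (v : V) (j : Fin K) :
    ((Rs F φ β₁ v j).card : ℝ) = (ld F φ v (some j) : ℝ) -
      ((univ.filter (fun u => β₁ s(v, u) = some j)).card : ℝ) := by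
  have h : ld F φ v (some j) = (Rs F φ β₁ v j).card +
      (univ.filter (fun u => β₁ s(v, u) = some j)).card := by
    unfold ld
    rw [← card_union_of_disjoint]
    · congr 1
      ext u
      simp only [Rs, nb, mem_filter, mem_univ, true_and, mem_union]
      constructor
      · rintro ⟨h1, h2⟩
        rcases h3 : β₁ s(v, u) with _ | j'
        · left; exact ⟨h1, h2, rfl⟩
        · right
          have h4 := (hβ _ _ h3).2
          rw [h2] at h4
          rw [Option.some.inj h4]
      · rintro (⟨h1, h2, _⟩ | h1)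
        · exact ⟨h1, h2⟩
        · exact hβ _ _ h1
    · rw [disjoint_left]
      intro u h3 h4
      simp only [Rs, mem_filter] at h3 h4
      rw [h3.2.2.2] at h4
      simp at h4
  rw [h]; push_cast; ring

/-- assembly of the levels -/
lemma core (hLevel : Level_stmt) {V : Type} [Fintype V] {K : ℕ} (F : Set (Sym2 V))
    (L : Sym2 V → Finset ℕ) (g : ℕ → Option (Fin K)) (W : Finset V)
    (sg : V → Fin K → Bool) (β₁ φ : Sym2 V → Option (Fin K)) (M : V → Fin K → ℝ)
    (am s0 t err Cm : ℝ) (hs0 : 0 ≤ s0) (ht : 0 < t) (hT : 4 * t ≤ am - 4 * s0) (herr : 0 ≤ err)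
    (hWW : ∀ u v j, s(u, v) ∈ F → φ s(u, v) = some j → u ∈ W → v ∉ W)
    (hβ : ∀ e j, β₁ e = some j → e ∈ F ∧ φ e = some j)
    (hβW : ∀ u v j, β₁ s(u, v) = some j → u ∈ W ∨ v ∈ W)
    (hcr : ∀ u v j, s(u, v) ∈ F → φ s(u, v) = some j → sg u j ≠ sg v j)
    (hβM : ∀ v u j, v ∈ W → β₁ s(v, u) = some j → am + M v j ≤ (ell L g (some j) s(v, u) : ℝ))
    (hbN : ∀ v ∉ W, ∀ j, ((univ.filter (fun u => β₁ s(v, u) = some j)).card : ℝ) ≤ s0 / 4)
    (hlN : ∀ v ∉ W, ∀ j, (ld F φ v (some j) : ℝ) ≤ am - 4 * s0)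
    (hlW : ∀ v ∈ W, ∀ j, (ld F φ v (some j) : ℝ) ≤ am + M v j - s0 / 4)
    (hbW : ∀ v ∈ W, ∀ j, (ld F φ v (some j) : ℝ) -
      ((univ.filter (fun u => β₁ s(v, u) = some j)).card : ℝ) ≤ am - 4 * s0 - t + err)
    (hs : SampProp V (Fin K × Bool) Cm err)
    (hC : (am - 4 * s0) * (t / (am - 4 * s0 - t)) ≤ Cm)
    (hC' : (am - 4 * s0 - t + err) * (t / (am - 4 * s0 - t)) ≤ Cm)
    (hx1 : t ^ 2 / (am - 4 * s0 - t) + err ≤ s0 / 4)
    (hx2 : W.card * (t / (am - 4 * s0)) + 2 * err ≤ s0 / 4)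
    (hL1 : ∀ e ∈ F, ∀ j, am - t ≤ (ell L g (some j) e : ℝ))
    (hL2 : ∀ u v j, s(u, v) ∈ F → φ s(u, v) = some j → u ∉ W → v ∉ W →
      am - s0 ≤ (ell L g (some j) s(u, v) : ℝ))
    (hnone : LC {e | e ∈ F ∧ φ e = none} (fun e => (L e).filter (fun x => g x = none))) :
    LC F L := by
  obtain ⟨blk, hblk⟩ := blocks F W sg φ β₁ t (am - 4 * s0) err (s0 / 4) Cm ht hT herr hWW hβ hβW hcr
    hbN (fun v hv j => by
      rw [Rs_card F φ β₁ hβ]
      have h1 := hlN v hv j
      have h2 : (0 : ℝ) ≤ ((univ.filter (fun u => β₁ s(v, u) = some j)).card : ℝ) :=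
        Nat.cast_nonneg _
      linarith) (fun v hv j => by
      rw [Rs_card F φ β₁ hβ]
      exact hbW v hv j) hs hC hC' hx1 hx2
  apply LC_combine F L φ g
  intro o
  rcases o with _ | j
  · convert hnone
  · obtain ⟨h1, h2, h3, h4⟩ := hblk j
    have hF' : ∀ e, e ∈ {e | e ∈ F ∧ φ e = some j} ↔ e ∈ F ∧ φ e = some j := fun e => Iff.rfl
    have := hLevel V {e | e ∈ F ∧ φ e = some j} (fun v => sg v j)
      (fun e => (L e).filter (fun x => g x = some j)) blk (↑W) t (am - 4 * s0 - 2 * t) (s0 / 4)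
      (by linarith)
      (fun u v huv => hcr u v j huv.1 huv.2)
      (fun u v huv hu => by
        rw [mem_coe] at hu ⊢
        exact hWW u v j huv.1 huv.2 hu)
      (fun a b hab ha hb => by
        have := h1 a b hab.1 hab.2 ha hb
        simpa only [mem_coe] using this)
      (fun v hv => by
        rw [mem_coe] at hv
        exact h2 v hv)
      h3
      (fun a b hab ha hb => by
        rw [mem_coe] at ha hb
        have h5 := hL2 a b j hab.1 hab.2 ha hb
        rw [ell_some] at h5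
        linarith)
      (fun a b hab ha h5 h6 => by
        have h7 := hL1 _ hab.1 j
        rw [ell_some] at h7
        linarith)
      (fun a b hab ha h5 => by
        rw [mem_coe] at ha
        have h6 := h4 _ hab.1 hab.2 h5
        have h7 := hβM a b j ha h6
        rw [ell_some] at h7
        have h8 := hlW a ha j
        rw [dg_level]
        linarith)
    convert this

end

end Pool.Agent.Helper15.LR
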