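import Pool.Agent.Helper15.LR.Ed

set_option autoImplicit false

open Finset Filter
open scoped Classical Topology

namespace Pool.Agent.Helper15.LR

noncomputable section

lemma card_mem_sets {K : ℕ} (j : Fin K) :
    2 * ((univ : Finset (Finset (Fin K))).filter (fun X => j ∈ X)).card = 2 ^ K := by
  have h1 : ((univ : Finset (Finset (Fin K))).filter (fun X => j ∈ X)).card =
      ((univ : Finset (Finset (Fin K))).filter (fun X => ¬ j ∈ X)).card := by
    apply card_nbij' (fun X => X.erase j) (fun X => insert j X)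
    · intro X _
      simp
    · intro X _
      simp
    · intro X hX
      have : j ∈ X := (mem_filter.1 hX).2
      exact insert_erase this
    · intro X hX
      have : j ∉ X := (mem_filter.1 hX).2
      exact erase_insert this
  have h2 := card_filter_add_card_filter_not (s := (univ : Finset (Finset (Fin K))))
    (fun X => j ∈ X)
  rw [card_univ, Fintype.card_finset, Fintype.card_fin] at h2
  omega

lemma mem_pat {V : Type} {K : ℕ} (σ : V → Fin K → Bool) (u v : V) (j : Fin K) :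
    j ∈ pat σ u v ↔ σ u j ≠ σ v j := by
  simp [pat]

lemma pat_comm {V : Type} {K : ℕ} (σ : V → Fin K → Bool) (u v : V) : pat σ u v = pat σ v u := by
  ext j
  rw [mem_pat, mem_pat]
  exact ne_comm

lemma full_comm {V : Type} {K : ℕ} (σ : V → Fin K → Bool) (u v : V) : full σ u v = full σ v u := by
  ext o
  simp only [full, mem_filter, mem_univ, true_and]
  constructor
  · intro h j hj; exact (h j hj).symm
  · intro h j hj; exact (h j hj).symm

/-- many neighbours are across -/
lemma cross_ge {V : Type} [Fintype V] {K : ℕ} (σ : V → Fin K → Bool) (T : Finset V) (v : V)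
    (d : ℝ) (h : ∀ X : Finset (Fin K),
      |((T.filter (fun u => pat σ v u = X)).card : ℝ) - (1 / 2) ^ K * T.card| ≤ d) (j : Fin K) :
    (T.card : ℝ) / 2 - 2 ^ K * d ≤ ((T.filter (fun u => σ v j ≠ σ u j)).card : ℝ) := by
  set P := (univ : Finset (Finset (Fin K))).filter (fun X => j ∈ X) with hP
  have h1 : ((T.filter (fun u => σ v j ≠ σ u j)).card : ℝ) =
      ∑ X ∈ P, ((T.filter (fun u => pat σ v u = X)).card : ℝ) := by
    have h2 : (T.filter (fun u => σ v j ≠ σ u j)).card =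
        ∑ X ∈ P, (T.filter (fun u => pat σ v u = X)).card := by
      rw [card_eq_sum_card_fiberwise (f := fun u => pat σ v u) (t := P)]
      · apply sum_congr rfl
        intro X hX
        congr 1
        ext u
        simp only [mem_filter]
        constructor
        · rintro ⟨⟨h3, _⟩, h5⟩
          exact ⟨h3, h5⟩
        · rintro ⟨h3, h5⟩
          refine ⟨⟨h3, ?_⟩, h5⟩
          have h6 : j ∈ X := (mem_filter.1 hX).2
          rw [← h5, mem_pat] at h6
          exact h6
      · intro u hu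
        have hu' := (mem_filter.1 hu).2
        rw [hP]
        simp only [coe_filter, mem_univ, true_and, Set.mem_setOf_eq]
        rw [mem_pat]
        exact hu'
    rw [h2]; push_cast; rfl
  have hc : (P.card : ℝ) = 2 ^ K / 2 := by
    have := card_mem_sets j
    have h2 : (2 : ℝ) * P.card = 2 ^ K := by exact_mod_cast this
    linarith
  rw [h1]
  have h3 : ∑ X ∈ P, ((1 / 2 : ℝ) ^ K * T.card - d) ≤
      ∑ X ∈ P, ((T.filter (fun u => pat σ v u = X)).card : ℝ) := by
    apply sum_le_sum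
    intro X _
    have := (abs_le.1 (h X)).1
    linarith
  refine le_trans ?_ h3
  rw [sum_const, nsmul_eq_mul, hc]
  have hd : 0 ≤ d := (abs_nonneg _).trans (h ∅)
  have h4 : (2 : ℝ) ^ K / 2 * ((1 / 2 : ℝ) ^ K * T.card - d) =
      (T.card : ℝ) / 2 - 2 ^ K / 2 * d := by
    have h5 : (2 : ℝ) ^ K * (1 / 2 : ℝ) ^ K = 1 := by
      rw [← mul_pow]; norm_num
    linear_combination (T.card : ℝ) / 2 * h5
  rw [h4]
  have h6 : (0 : ℝ) < 2 ^ K := by positivity
  nlinarith

/-- correction of the targets -/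
lemma theta_fix {V : Type} [Fintype V] {K : ℕ} (σ : V → Fin K → Bool) (τ₀ : V → Fin K → ℝ)
    (c : ℝ) (hn : 0 < Fintype.card V)
    (h : ∀ j, |∑ v, sgn (σ v j) * τ₀ v j| ≤ c * Fintype.card V) :
    ∃ τ : V → Fin K → ℝ, (∀ v j, |τ v j - τ₀ v j| ≤ c) ∧ ∀ j, ∑ v, sgn (σ v j) * τ v j = 0 := by
  have hn' : (0 : ℝ) < Fintype.card V := by exact_mod_cast hn
  refine ⟨fun v j => τ₀ v j - (∑ v, sgn (σ v j) * τ₀ v j) / Fintype.card V * sgn (σ v j), ?_, ?_⟩
  · intro v j
    have h1 : τ₀ v j - (∑ v, sgn (σ v j) * τ₀ v j) / Fintype.card V * sgn (σ v j) - τ₀ v j =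
      -((∑ v, sgn (σ v j) * τ₀ v j) / Fintype.card V * sgn (σ v j)) := by ring
    simp only [h1]
    rw [abs_neg, abs_mul, abs_sgn, mul_one, abs_div, abs_of_pos hn', div_le_iff₀ hn']
    exact h j
  · intro j
    have h1 : ∀ v, sgn (σ v j) *
        (τ₀ v j - (∑ v, sgn (σ v j) * τ₀ v j) / Fintype.card V * sgn (σ v j)) =
        sgn (σ v j) * τ₀ v j - (∑ v, sgn (σ v j) * τ₀ v j) / Fintype.card V := by
      intro v
      have := sgn_mul_self (σ v j)
      linear_combination -((∑ v, sgn (σ v j) * τ₀ v j) / Fintype.card V) * this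
    rw [sum_congr rfl (fun v _ => h1 v), sum_sub_distrib, sum_const, card_univ, nsmul_eq_mul]
    field_simp
    ring

/-- allowed levels -/
def alw {V : Type} {K : ℕ} (σ : V → Fin K → Bool) (W : Finset V) (β : Sym2 V → Option (Fin K))
    (good : Sym2 V → Fin K → Prop) (e : Sym2 V) : Finset (Option (Fin K)) :=
  univ.filter (fun o => (∀ j, β e = some j → o = some j) ∧
    (β e = none → ((∀ v ∈ e, v ∈ W) → o = none) ∧
      ∀ j, o = some j → (∀ u v, e = s(u, v) → σ u j ≠ σ v j) ∧ ((∀ v ∈ e, v ∉ W) → good e j)))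

lemma mem_full {V : Type} {K : ℕ} (σ : V → Fin K → Bool) (u v : V) (o : Option (Fin K)) :
    o ∈ full σ u v ↔ ∀ j, o = some j → σ u j ≠ σ v j := by
  simp [full]

lemma mem_alw {V : Type} {K : ℕ} (σ : V → Fin K → Bool) (W : Finset V)
    (β : Sym2 V → Option (Fin K)) (good : Sym2 V → Fin K → Prop) (u v : V)
    (o : Option (Fin K)) :
    o ∈ alw σ W β good s(u, v) ↔ (∀ j, β s(u, v) = some j → o = some j) ∧
    (β s(u, v) = none → ((u ∈ W → v ∈ W → o = none) ∧
      ∀ j, o = some j → σ u j ≠ σ v j ∧ (u ∉ W → v ∉ W → good s(u, v) j))) := by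
  unfold alw
  rw [mem_filter]
  simp only [mem_univ, true_and]
  have h1 : (∀ w ∈ s(u, v), w ∈ W) ↔ (u ∈ W ∧ v ∈ W) := by
    constructor
    · intro h; exact ⟨h u (by simp), h v (by simp)⟩
    · rintro ⟨h2, h3⟩ w hw
      rcases Sym2.mem_iff.1 hw with h | h
      · rw [h]; exact h2
      · rw [h]; exact h3
  have h1' : (∀ w ∈ s(u, v), w ∉ W) ↔ (u ∉ W ∧ v ∉ W) := by
    constructor
    · intro h; exact ⟨h u (by simp), h v (by simp)⟩
    · rintro ⟨h2, h3⟩ w hw
      rcases Sym2.mem_iff.1 hw with h | h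
      · rw [h]; exact h2
      · rw [h]; exact h3
  have h2 : ∀ j, (∀ u' v', s(u, v) = s(u', v') → σ u' j ≠ σ v' j) ↔ σ u j ≠ σ v j := by
    intro j
    constructor
    · intro h; exact h u v rfl
    · intro h u' v' h3
      rcases Sym2.eq_iff.1 h3 with ⟨h4, h5⟩ | ⟨h4, h5⟩
      · rw [← h4, ← h5]; exact h
      · rw [← h4, ← h5]; exact h.symm
  rw [h1, h1']
  simp only [h2]
  constructor
  · rintro ⟨h3, h4⟩
    refine ⟨h3, fun h5 => ⟨fun h6 h7 => (h4 h5).1 ⟨h6, h7⟩, fun j hj =>
      ⟨((h4 h5).2 j hj).1, fun h6 h7 => ((h4 h5).2 j hj).2 ⟨h6, h7⟩⟩⟩⟩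
  · rintro ⟨h3, h4⟩
    refine ⟨h3, fun h5 => ⟨fun h6 => (h4 h5).1 h6.1 h6.2, fun j hj =>
      ⟨((h4 h5).2 j hj).1, fun h6 => ((h4 h5).2 j hj).2 h6.1 h6.2⟩⟩⟩

/-- `BA_stmt` for a fixed vertex set -/
def BAProp (V : Type) [Fintype V] (K : ℕ) (ρ c₁ d₀ δ Γ : ℝ) : Prop :=
  ∀ (F : Set (Sym2 V)) (σ : V → Fin K → Bool)
        (A : Sym2 V → Finset (Option (Fin K))) (τ : V → Option (Fin K) → ℝ),
        (∀ v, s(v, v) ∉ F) →
        (∀ v, d₀ * Fintype.card V ≤ (dg F v : ℝ)) →
        (∀ v (X : Finset (Fin K)),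
          |(((nb F v).filter (fun u => pat σ v u = X)).card : ℝ) - (1 / 2) ^ K * dg F v|
            ≤ δ * Fintype.card V) →
        (∀ i j, i ≠ j → |∑ v, sgn (σ v i) * sgn (σ v j)| ≤ δ * Fintype.card V) →
        (∀ u v, s(u, v) ∈ F → (A s(u, v)).Nonempty ∧ A s(u, v) ⊆ full σ u v) →
        (∀ v, (((nb F v).filter (fun u => A s(v, u) ≠ full σ v u)).card : ℝ)
            ≤ δ * Fintype.card V) →
        (∀ v o, |τ v o - omg K ρ o * dg F v| ≤ δ * Fintype.card V) →
        (∀ v, ∑ o, τ v o = dg F v) →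
        (∀ j, ∑ v, sgn (σ v j) * τ v (some j) = 0) →
        (∀ j (Z : Finset V), c₁ * Fintype.card V * min (Z.card : ℝ) (Zᶜ.card : ℝ) ≤
          (((Z ×ˢ Zᶜ).filter (fun p => s(p.1, p.2) ∈ F ∧ σ p.1 j ≠ σ p.2 j ∧
            A s(p.1, p.2) = full σ p.1 p.2)).card : ℝ)) →
        ∃ φ : Sym2 V → Option (Fin K), (∀ e ∈ F, φ e ∈ A e) ∧
          ∀ v o, |(ld F φ v o : ℝ) - τ v o| ≤ Γ

/-- the assignment of levels -/
lemma assign (hExp : Expansion_stmt) {V : Type} [Fintype V] {K : ℕ} (G : SimpleGraph V)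
    (hQR : QR G) (ρ δ Γ : ℝ) (hBA : BAProp V K ρ (1 / 100) (1 / 4) δ Γ)
    (σ : V → Fin K → Bool) (W : Finset V)
    (β : Sym2 V → Option (Fin K)) (good : Sym2 V → Fin K → Prop) (τ : V → Option (Fin K) → ℝ)
    (hδ : δ ≤ 1 / 1000)
    (hd : ∀ v, (1 / 4 : ℝ) * Fintype.card V ≤ (dg G.edgeSet v : ℝ))
    (hpat : ∀ v (X : Finset (Fin K)),
          |(((nb G.edgeSet v).filter (fun u => pat σ v u = X)).card : ℝ)
            - (1 / 2) ^ K * dg G.edgeSet v| ≤ δ * Fintype.card V)
    (hsgn : ∀ j, |∑ v, sgn (σ v j)| ≤ (Fintype.card V : ℝ) / 1000)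
    (hpair : ∀ i j, i ≠ j → |∑ v, sgn (σ v i) * sgn (σ v j)| ≤ δ * Fintype.card V)
    (hcr : ∀ v j, (Fintype.card V : ℝ) / 10 ≤
      (((nb G.edgeSet v).filter (fun u => σ v j ≠ σ u j)).card : ℝ))
    (hβ : ∀ u v j, β s(u, v) = some j → s(u, v) ∈ G.edgeSet ∧ σ u j ≠ σ v j)
    (hβW : ∀ u v j, β s(u, v) = some j → u ∈ W → v ∉ W)
    (hI1 : ∀ v ∈ W, (W.card : ℝ) + ((univ.filter (fun u => β s(v, u) ≠ none)).card : ℝ)
      ≤ δ * Fintype.card V)
    (hI2 : ∀ v ∉ W, (W.card : ℝ) + ((univ.filter (fun u => β s(v, u) ≠ none)).card : ℝ)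
      + (((nb G.edgeSet v).filter (fun u => ∃ j, ¬ good s(v, u) j)).card : ℝ)
      ≤ δ * Fintype.card V)
    (hτ1 : ∀ v o, |τ v o - omg K ρ o * dg G.edgeSet v| ≤ δ * Fintype.card V)
    (hτ2 : ∀ v, ∑ o, τ v o = dg G.edgeSet v)
    (hτ3 : ∀ j, ∑ v, sgn (σ v j) * τ v (some j) = 0) :
    ∃ φ : Sym2 V → Option (Fin K),
      (∀ v o, |(ld G.edgeSet φ v o : ℝ) - τ v o| ≤ Γ) ∧
      (∀ e j, β e = some j → e ∈ G.edgeSet ∧ φ e = some j) ∧
      (∀ u v j, s(u, v) ∈ G.edgeSet → φ s(u, v) = some j → σ u j ≠ σ v j) ∧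
      (∀ u v j, s(u, v) ∈ G.edgeSet → φ s(u, v) = some j → u ∈ W → v ∉ W) ∧
      (∀ u v j, s(u, v) ∈ G.edgeSet → φ s(u, v) = some j → β s(u, v) = none → u ∉ W → v ∉ W →
        good s(u, v) j) := by
  have hne : ∀ v, s(v, v) ∉ G.edgeSet := by
    intro v h
    rw [SimpleGraph.mem_edgeSet] at h
    exact G.irrefl h
  have hAne : ∀ u v, s(u, v) ∈ G.edgeSet →
      (alw σ W β good s(u, v)).Nonempty ∧ alw σ W β good s(u, v) ⊆ full σ u v := by
    intro u v huv
    constructor
    · rcases h : β s(u, v) with _ | j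
      · refine ⟨none, ?_⟩
        rw [mem_alw]
        refine ⟨fun j hj => ?_, fun _ => ⟨fun _ _ => rfl, fun j hj => ?_⟩⟩
        · rw [h] at hj; simp at hj
        · simp at hj
      · refine ⟨some j, ?_⟩
        rw [mem_alw]
        refine ⟨fun j' hj => ?_, fun h' => ?_⟩
        · rw [h] at hj; exact hj
        · rw [h] at h'; simp at h'
    · intro o ho
      rw [mem_alw] at ho
      rw [mem_full]
      intro j hj
      rcases h : β s(u, v) with _ | j'
      · exact ((ho.2 h).2 j hj).1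
      · have h1 := ho.1 j' h
        rw [hj] at h1
        rw [Option.some.inj h1]
        exact (hβ u v j' h).2
  -- irregular edges
  have hreg : ∀ v u, u ∉ W ∨ v ∉ W → β s(v, u) = none →
      (u ∉ W → v ∉ W → ∀ j, good s(v, u) j) → alw σ W β good s(v, u) = full σ v u := by
    intro v u h1 h2 h3
    ext o
    rw [mem_alw, mem_full]
    constructor
    · rintro ⟨_, h5⟩ j hj
      exact ((h5 h2).2 j hj).1
    · intro h4
      refine ⟨fun j hj => ?_, fun _ => ⟨fun h5 h6 => ?_, fun j hj => ⟨h4 j hj, fun h5 h6 => ?_⟩⟩⟩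
      · rw [h2] at hj; simp at hj
      · rcases h1 with h1 | h1
        · exact absurd h6 h1
        · exact absurd h5 h1
      · exact h3 h6 h5 j
  have hI : ∀ v, (((nb G.edgeSet v).filter
      (fun u => alw σ W β good s(v, u) ≠ full σ v u)).card : ℝ) ≤ δ * Fintype.card V := by
    intro v
    by_cases hv : v ∈ W
    · refine le_trans ?_ (hI1 v hv)
      have h1 : (nb G.edgeSet v).filter (fun u => alw σ W β good s(v, u) ≠ full σ v u) ⊆
          W ∪ univ.filter (fun u => β s(v, u) ≠ none) := by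
        intro u hu
        rw [mem_filter] at hu
        rw [mem_union, mem_filter]
        by_contra h2
        push Not at h2
        exact hu.2 (hreg v u (Or.inl h2.1) (h2.2 (mem_univ _)) (fun _ h3 => absurd hv h3))
      have h2 := (card_le_card h1).trans (card_union_le _ _)
      exact_mod_cast h2
    · refine le_trans ?_ (hI2 v hv)
      have h1 : (nb G.edgeSet v).filter (fun u => alw σ W β good s(v, u) ≠ full σ v u) ⊆
          W ∪ univ.filter (fun u => β s(v, u) ≠ none) ∪
            (nb G.edgeSet v).filter (fun u => ∃ j, ¬ good s(v, u) j) := by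
        intro u hu
        rw [mem_filter] at hu
        rw [mem_union, mem_union, mem_filter, mem_filter]
        by_contra h2
        push Not at h2
        exact hu.2 (hreg v u (Or.inl h2.1.1) (h2.1.2 (mem_univ _)) (fun _ _ => h2.2 hu.1))
      have h2 := (card_le_card h1).trans ((card_union_le _ _).trans
        (Nat.add_le_add_right (card_union_le _ _) _))
      exact_mod_cast h2
  obtain ⟨φ, hφ1, hφ2⟩ := hBA G.edgeSet σ (alw σ W β good) τ hne hd hpat hpair hAne hI hτ1 hτ2 hτ3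
    (by
      intro j Z
      have h1 := hExp V G (fun v => σ v j)
        {e | ∃ u v, e = s(u, v) ∧ alw σ W β good e ≠ full σ u v} hQR (hsgn j)
        (by
          intro v
          have := hcr v j
          convert this)
        (by
          intro v
          refine le_trans ?_ ((hI v).trans ?_)
          · have : (nb G.edgeSet v).filter (fun u => s(v, u) ∈
                {e | ∃ u v, e = s(u, v) ∧ alw σ W β good e ≠ full σ u v}) ⊆
                (nb G.edgeSet v).filter (fun u => alw σ W β good s(v, u) ≠ full σ v u) := by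
              intro u hu
              rw [mem_filter] at hu ⊢
              refine ⟨hu.1, ?_⟩
              obtain ⟨u', v', h3, h4⟩ := hu.2
              rcases Sym2.eq_iff.1 h3 with ⟨h5, h6⟩ | ⟨h5, h6⟩
              · rw [← h5, ← h6] at h4; exact h4
              · rw [← h5, ← h6] at h4
                rw [full_comm]
                exact h4
            exact_mod_cast card_le_card this
          · have : (0 : ℝ) ≤ Fintype.card V := Nat.cast_nonneg _
            nlinarith) Z
      refine h1.trans ?_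
      have : (Z ×ˢ Zᶜ).filter (fun p => s(p.1, p.2) ∈ G.edgeSet ∧ σ p.1 j ≠ σ p.2 j ∧
          s(p.1, p.2) ∉ {e | ∃ u v, e = s(u, v) ∧ alw σ W β good e ≠ full σ u v}) ⊆
          (Z ×ˢ Zᶜ).filter (fun p => s(p.1, p.2) ∈ G.edgeSet ∧ σ p.1 j ≠ σ p.2 j ∧
            alw σ W β good s(p.1, p.2) = full σ p.1 p.2) := by
        intro p hp
        rw [mem_filter] at hp ⊢
        refine ⟨hp.1, hp.2.1, hp.2.2.1, ?_⟩
        by_contra h2
        exact hp.2.2.2 ⟨p.1, p.2, rfl, h2⟩
      exact_mod_cast card_le_card this)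
  refine ⟨φ, hφ2, ?_, ?_, ?_, ?_⟩
  · intro e j hj
    induction e using Sym2.ind with
    | _ u v =>
      have h1 := (hβ u v j hj).1
      have h2 := hφ1 _ h1
      rw [mem_alw] at h2
      exact ⟨h1, h2.1 j hj⟩
  · intro u v j huv hj
    have h2 := (hAne u v huv).2 (hφ1 _ huv)
    rw [mem_full] at h2
    exact h2 j hj
  · intro u v j huv hj hu hv
    have h2 := hφ1 _ huv
    rw [mem_alw] at h2
    rcases h : β s(u, v) with _ | j'
    · have := (h2.2 h).1 hu hv
      rw [this] at hj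
      simp at hj
    · exact hβW u v j' h hu hv
  · intro u v j huv hj hn hu hv
    have h2 := hφ1 _ huv
    rw [mem_alw] at h2
    exact ((h2.2 hn).2 j hj).2 hu hv

end

end Pool.Agent.Helper15.LR
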