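import Pool.Agent.Helper15.LR.Ee

set_option autoImplicit false

open Finset Filter
open scoped Classical Topology

namespace Pool.Agent.Helper15.LR

noncomputable section

/-- the numerical constants of the local theorem -/
structure Par where
  n : ℝ
  m : ℝ
  K : ℝ
  S : ℝ
  ε : ℝ
  ρ : ℝ
  s0 : ℝ
  am : ℝ
  δ : ℝ
  q : ℝ
  η : ℝ
  Γ : ℝ
  err : ℝ
  C : ℝ
  hK : 1 ≤ K
  hS : 0 < S
  hε : 0 < ε
  hε1 : ε ≤ 1
  hρ : 0 < ρ
  hρ1 : ρ ≤ 1 / 10
  hs0 : 0 < s0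
  hKs0 : 8 * K * s0 = ε * S
  ham : K * am = (1 - ρ) * m
  hm3 : n / 3 ≤ m
  hmn : m ≤ n
  hδ : 0 < δ
  hδ1 : δ ≤ 1 / 1000
  hq : 0 < q
  hη0 : 0 ≤ η
  hΓ0 : 0 ≤ Γ
  hΓ : Γ ≤ s0 / 125
  herr0 : 0 ≤ err
  herr : err ≤ s0 / 125
  hC : 0 ≤ C
  hb1 : 10 ^ 6 * K ^ 2 * S ≤ ε * n
  hb2 : 100 * K * S ≤ q * n
  hb3 : 100 * K * (C + 10) * S ≤ δ * n
  hb4 : 10 * S ≤ ρ * n
  hη1 : 2000 * η * S ≤ q * s0
  hη2 : 10 * η ≤ δ
  hη3 : 1000 * η * K * S ≤ s0

namespace Par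

variable (P : Par)

lemma n_pos : 0 < P.n := by
  have h1 := P.hb1; have h2 := P.hS; have h3 := P.hK; have h4 := P.hε
  have h5 : 0 < 10 ^ 6 * P.K ^ 2 * P.S := by positivity
  have h6 : 0 < P.ε * P.n := lt_of_lt_of_le h5 h1
  exact (mul_pos_iff_of_pos_left h4).1 h6

lemma s0_le : 8 * P.s0 ≤ P.S := by
  have h1 := P.hKs0; have h2 := P.hS; have h3 := P.hK; have h4 := P.hε1; have h5 := P.hs0
  nlinarith [mul_le_mul_of_nonneg_right h3 h5.le, mul_le_mul_of_nonneg_right h4 h2.le]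

lemma Ks0_le : 8 * P.K * P.s0 ≤ P.S := by
  have h1 := P.hKs0; have h2 := P.hS; have h4 := P.hε1
  nlinarith [mul_le_mul_of_nonneg_right h4 h2.le]

lemma S_le : 10 ^ 6 * P.K ^ 2 * P.S ≤ P.n := by
  have h1 := P.hb1; have h2 := P.n_pos; have h3 := P.hε1
  nlinarith

lemma KS_le : 10 ^ 6 * P.K * P.S ≤ P.n := by
  have h1 := P.S_le; have h2 := P.hS; have h3 := P.hK
  have h4 : P.K * P.S ≤ P.K ^ 2 * P.S := by
    apply mul_le_mul_of_nonneg_right _ h2.le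
    nlinarith
  nlinarith

lemma S_le' : 10 ^ 6 * P.S ≤ P.n := by
  have h1 := P.KS_le; have h2 := P.hS; have h3 := P.hK
  nlinarith [mul_le_mul_of_nonneg_right h3 h2.le]

lemma am_ge : 3 * P.n ≤ 10 * (P.K * P.am) := by
  have h1 := P.ham; have h2 := P.hm3; have h3 := P.hρ1; have h4 := P.n_pos
  have h5 : (9 / 10 : ℝ) * P.m ≤ (1 - P.ρ) * P.m := by
    apply mul_le_mul_of_nonneg_right _ (by linarith)
    linarith
  linarith

/-- `T0 = am - 4 s0`, `t = 25 S` -/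
lemma T_ge : P.n ≤ 4 * P.K * (P.am - 4 * P.s0 - 25 * P.S) := by
  have h1 := P.am_ge; have h2 := P.KS_le; have h3 := P.Ks0_le; have h4 := P.n_pos
  have h5 := P.hS
  have h6 : P.K * (P.am - 4 * P.s0 - 25 * P.S) = P.K * P.am - 4 * P.K * P.s0 - 25 * (P.K * P.S) := by
    ring
  have h7 : P.S ≤ P.n / 10 ^ 6 := by
    have := P.S_le'; linarith
  nlinarith

lemma T_pos : 0 < P.am - 4 * P.s0 - 25 * P.S := by
  have h1 := P.T_ge; have h2 := P.n_pos; have h3 := P.hK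
  by_contra h
  push Not at h
  nlinarith

lemma hT : 4 * (25 * P.S) ≤ P.am - 4 * P.s0 := by
  have h1 := P.T_ge; have h2 := P.n_pos; have h3 := P.hK; have h4 := P.KS_le; have h5 := P.hS
  have h6 : P.K * (75 * P.S) ≤ P.K * (P.am - 4 * P.s0 - 25 * P.S) := by nlinarith
  have h7 := le_of_mul_le_mul_left h6 (by linarith)
  linarith

lemma tT : 25 * P.S / (P.am - 4 * P.s0 - 25 * P.S) ≤ 1 / 3 := by
  rw [div_le_iff₀ P.T_pos]
  have := P.hT
  linarith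

lemma hC1 : (P.am - 4 * P.s0) * (25 * P.S / (P.am - 4 * P.s0 - 25 * P.S)) ≤ 100 * P.S := by
  have h1 := P.T_pos
  have h2 := P.tT; have h3 := P.hS
  have h4 : (P.am - 4 * P.s0) * (25 * P.S / (P.am - 4 * P.s0 - 25 * P.S)) =
      25 * P.S + 25 * P.S * (25 * P.S / (P.am - 4 * P.s0 - 25 * P.S)) := by
    field_simp
    ring
  rw [h4]
  nlinarith

lemma hC2 : (P.am - 4 * P.s0 - 25 * P.S + P.err) * (25 * P.S / (P.am - 4 * P.s0 - 25 * P.S)) ≤
    100 * P.S := by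
  have h1 := P.T_pos
  have h2 := P.tT; have h3 := P.hS; have h5 := P.herr; have h6 := P.s0_le; have h7 := P.herr0
  have h4 : (P.am - 4 * P.s0 - 25 * P.S + P.err) * (25 * P.S / (P.am - 4 * P.s0 - 25 * P.S)) =
      25 * P.S + P.err * (25 * P.S / (P.am - 4 * P.s0 - 25 * P.S)) := by
    field_simp
  rw [h4]
  have h8 : 0 ≤ 25 * P.S / (P.am - 4 * P.s0 - 25 * P.S) := by positivity
  nlinarith

lemma hx1 : (25 * P.S) ^ 2 / (P.am - 4 * P.s0 - 25 * P.S) + P.err ≤ P.s0 / 4 := by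
  have h1 := P.T_pos
  have h2 := P.T_ge; have h3 := P.hb1; have h4 := P.hKs0; have h5 := P.hS; have h6 := P.hs0
  have h7 := P.herr; have hK := P.hK
  have h8 : (25 * P.S) ^ 2 / (P.am - 4 * P.s0 - 25 * P.S) ≤ P.s0 / 8 := by
    rw [div_le_iff₀ h1]
    -- multiply by `32 K`
    have h9 : P.s0 * P.n ≤ P.s0 * (4 * P.K * (P.am - 4 * P.s0 - 25 * P.S)) :=
      mul_le_mul_of_nonneg_left h2 h6.le
    have h10 : P.s0 * (10 ^ 6 * P.K ^ 2 * P.S) ≤ P.s0 * (P.ε * P.n) :=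
      mul_le_mul_of_nonneg_left h3 h6.le
    -- `ε * S = 8 K s0`, so `S * (s0 * ε * n) = ...`
    have h11 : 10 ^ 6 * P.K ^ 2 * P.S * P.S ≤ 8 * P.K * P.s0 * P.n := by
      have : 10 ^ 6 * P.K ^ 2 * P.S * P.S ≤ P.ε * P.n * P.S :=
        mul_le_mul_of_nonneg_right h3 h5.le
      have h12 : P.ε * P.n * P.S = 8 * P.K * P.s0 * P.n := by
        rw [h4]; ring
      linarith
    have h12 : P.K * (10 ^ 6 * P.K * P.S * P.S) ≤ P.K * (8 * P.s0 * P.n) := by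
      calc P.K * (10 ^ 6 * P.K * P.S * P.S) = 10 ^ 6 * P.K ^ 2 * P.S * P.S := by ring
        _ ≤ 8 * P.K * P.s0 * P.n := h11
        _ = P.K * (8 * P.s0 * P.n) := by ring
    have h13 := le_of_mul_le_mul_left h12 (by linarith)
    have h14 : P.K * (10 ^ 6 * P.S * P.S) ≤ P.K * (32 * (P.s0 * (P.am - 4 * P.s0 - 25 * P.S))) := by
      nlinarith
    have h15 := le_of_mul_le_mul_left h14 (by linarith)
    nlinarith
  linarith

lemma hx2 (w : ℝ) (hw : w ≤ P.η * P.n) (hw0 : 0 ≤ w) :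
    w * (25 * P.S / (P.am - 4 * P.s0)) + 2 * P.err ≤ P.s0 / 4 := by
  have h1 := P.T_pos
  have h2 := P.T_ge; have h3 := P.hη3; have h5 := P.hS; have h6 := P.hs0
  have h7 := P.herr; have hK := P.hK; have hη0 := P.hη0; have hn := P.n_pos
  have h0 : 0 < P.am - 4 * P.s0 := by linarith
  have h8 : w * (25 * P.S / (P.am - 4 * P.s0)) ≤ P.s0 / 8 := by
    rw [← mul_div_assoc, div_le_iff₀ h0]
    have h9 : P.n ≤ 4 * P.K * (P.am - 4 * P.s0) := by nlinarith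
    have h10 : w * (25 * P.S) ≤ P.η * P.n * (25 * P.S) :=
      mul_le_mul_of_nonneg_right hw (by positivity)
    have h11 : P.η * P.n * (25 * P.S) ≤ P.η * (4 * P.K * (P.am - 4 * P.s0)) * (25 * P.S) := by
      apply mul_le_mul_of_nonneg_right _ (by positivity)
      exact mul_le_mul_of_nonneg_left h9 hη0
    have h12 : P.η * (4 * P.K * (P.am - 4 * P.s0)) * (25 * P.S) =
        (100 * P.η * P.K * P.S) * (P.am - 4 * P.s0) := by ring
    have h13 : (100 * P.η * P.K * P.S) * (P.am - 4 * P.s0) ≤ P.s0 / 10 * (P.am - 4 * P.s0) := by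
      apply mul_le_mul_of_nonneg_right _ h0.le
      linarith
    nlinarith
  linarith

/-- bursts at the other vertices -/
lemma hbN (w : ℝ) (hw : w ≤ P.η * P.n) (hw0 : 0 ≤ w) :
    w * (31 * P.S / (P.q * P.n / 3)) + P.err ≤ P.s0 / 4 := by
  have h1 := P.hη1; have h2 := P.hq; have hn := P.n_pos; have h3 := P.hS; have h4 := P.herr
  have h5 := P.hs0
  have h6 : w * (31 * P.S / (P.q * P.n / 3)) ≤ P.s0 / 20 := by
    rw [← mul_div_assoc, div_le_iff₀ (by positivity)]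
    have h7 : w * (31 * P.S) ≤ P.η * P.n * (31 * P.S) :=
      mul_le_mul_of_nonneg_right hw (by positivity)
    have h8 : 2000 * P.η * P.S * P.n ≤ P.q * P.s0 * P.n := mul_le_mul_of_nonneg_right h1 hn.le
    nlinarith
  linarith

end Par

end

end Pool.Agent.Helper15.LR
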