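import Pool.Agent.Helper15.LR.Ef

set_option autoImplicit false

open Finset Filter
open scoped Classical Topology

namespace Pool.Agent.Helper15.LR

noncomputable section

/-- `Cells_stmt` for a fixed vertex set -/
def CellsProp (V : Type) [Fintype V] (K : ℕ) (δ κS : ℝ) : Prop :=
  ∀ (ι : Type) [Fintype ι] (T : ι → Finset V) (c : ι → V) (τ : Fin K → V → ℝ),
      Fintype.card ι ≤ (Fintype.card V) ^ 3 → (∀ i, c i ∉ T i) →
      (∀ j v, |τ j v| ≤ Fintype.card V) →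
      ∃ σ : V → Fin K → Bool,
        (∀ i (X : Finset (Fin K)),
          |(((T i).filter (fun u => pat σ (c i) u = X)).card : ℝ) - (1 / 2) ^ K * (T i).card|
            ≤ δ * Fintype.card V) ∧
        (∀ j, |∑ v, sgn (σ v j)| ≤ δ * Fintype.card V) ∧
        (∀ i j, i ≠ j → |∑ v, sgn (σ v i) * sgn (σ v j)| ≤ δ * Fintype.card V) ∧
        (∀ j, |∑ v, sgn (σ v j) * τ j v| ≤ κS * Fintype.card V)

/-- `Leftover_stmt` for a fixed vertex set -/
def LeftProp (V : Type) [Fintype V] (Dm sl : ℝ) : Prop :=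
  ∀ (F : Set (Sym2 V)) (L : Sym2 V → Finset ℕ) (D : ℝ),
    (∀ v, s(v, v) ∉ F) → 0 ≤ D → D ≤ Dm →
    (∀ v, (dg F v : ℝ) ≤ D) → (∀ e ∈ F, D + sl ≤ ((L e).card : ℝ)) → LC F L

/-- signs, corrected targets -/
lemma signs {V : Type} [Fintype V] {K : ℕ} (G : SimpleGraph V) (δ' κS : ℝ)
    (hCells : CellsProp V K δ' κS) (hn : 0 < Fintype.card V)
    (hK : K + 1 ≤ (Fintype.card V) ^ 2)
    (τ₀ : V → Fin K → ℝ) (hτ₀ : ∀ v j, |τ₀ v j| ≤ Fintype.card V)
    (Tp : V → Fin K → Finset V) (hTp : ∀ v j, v ∉ Tp v j) :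
    ∃ (σ : V → Fin K → Bool) (τ : V → Fin K → ℝ),
      (∀ v (X : Finset (Fin K)), |(((nb G.edgeSet v).filter (fun u => pat σ v u = X)).card : ℝ)
          - (1 / 2) ^ K * dg G.edgeSet v| ≤ δ' * Fintype.card V) ∧
      (∀ v j, ((Tp v j).card : ℝ) / 2 - 2 ^ K * (δ' * Fintype.card V) ≤
        (((Tp v j).filter (fun u => σ v j ≠ σ u j)).card : ℝ)) ∧
      (∀ v j, (dg G.edgeSet v : ℝ) / 2 - 2 ^ K * (δ' * Fintype.card V) ≤
        (((nb G.edgeSet v).filter (fun u => σ v j ≠ σ u j)).card : ℝ)) ∧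
      (∀ j, |∑ v, sgn (σ v j)| ≤ δ' * Fintype.card V) ∧
      (∀ i j, i ≠ j → |∑ v, sgn (σ v i) * sgn (σ v j)| ≤ δ' * Fintype.card V) ∧
      (∀ v j, |τ v j - τ₀ v j| ≤ κS) ∧
      (∀ j, ∑ v, sgn (σ v j) * τ v j = 0) := by
  have hnb : ∀ v, v ∉ nb G.edgeSet v := by
    intro v h
    rw [mem_nb, SimpleGraph.mem_edgeSet] at h
    exact G.irrefl h
  obtain ⟨σ, h1, h2, h3, h4⟩ := hCells (V × Option (Fin K))
    (fun p => p.2.elim (nb G.edgeSet p.1) (Tp p.1)) (fun p => p.1) (fun j v => τ₀ v j)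
    (by
      rw [Fintype.card_prod, Fintype.card_option, Fintype.card_fin]
      calc Fintype.card V * (K + 1) ≤ Fintype.card V * (Fintype.card V) ^ 2 :=
            Nat.mul_le_mul_left _ hK
        _ = (Fintype.card V) ^ 3 := by ring)
    (by
      rintro ⟨v, o⟩
      rcases o with _ | j
      · exact hnb v
      · exact hTp v j)
    (fun j v => hτ₀ v j)
  obtain ⟨τ, h5, h6⟩ := theta_fix σ τ₀ κS hn h4
  refine ⟨σ, τ, fun v X => ?_, fun v j => ?_, fun v j => ?_, h2, h3, h5, h6⟩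
  · exact h1 (v, none) X
  · exact cross_ge σ (Tp v j) v _ (fun X => h1 (v, some j) X) j
  · exact cross_ge σ (nb G.edgeSet v) v _ (fun X => h1 (v, none) X) j

end

end Pool.Agent.Helper15.LR
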