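import Pool.Agent.Helper15.LR.Eg

set_option autoImplicit false

open Finset Filter
open scoped Classical Topology

namespace Pool.Agent.Helper15.LR

noncomputable section

lemma card_ne_none {V : Type} [Fintype V] {K : ℕ} (β : Sym2 V → Option (Fin K)) (v : V) :
    (univ.filter (fun u => β s(v, u) ≠ none)).card =
      ∑ j, (univ.filter (fun u => β s(v, u) = some j)).card := by
  rw [← card_biUnion]
  · congr 1
    ext u
    simp only [mem_filter, mem_univ, true_and, mem_biUnion]
    exact Option.ne_none_iff_exists'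
  · intro i _ j _ hij
    rw [Function.onFun, disjoint_left]
    intro u h1 h2
    rw [mem_filter] at h1 h2
    rw [h1.2] at h2
    exact hij (Option.some.inj h2.2)

theorem local_main (hExp : Expansion_stmt) (hLevel : Level_stmt) {V : Type} [Fintype V] {K : ℕ}
    (G : SimpleGraph V) (hQR : QR G) (P : Par) (hPK : P.K = K) (hPn : P.n = Fintype.card V)
    (L : Sym2 V → Finset ℕ) (g : ℕ → Option (Fin K)) (W : Finset V)
    (M : V → Fin K → ℝ) (Tp : V → Fin K → Finset V) (δ' κS : ℝ)
    (hd1 : ∀ v, (dg G.edgeSet v : ℝ) ≤ P.m - P.ε * P.S)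
    (hd2 : ∀ v, P.m - P.C * P.S ≤ (dg G.edgeSet v : ℝ))
    (hg1 : ∀ e ∈ G.edgeSet, ∀ j, P.am - 5 * P.S ≤ (ell L g (some j) e : ℝ))
    (hg2 : ∀ e ∈ G.edgeSet, P.ρ * P.m - P.ε * P.S / 100 ≤ (ell L g none e : ℝ))
    (hW : (W.card : ℝ) ≤ P.η * P.n)
    (hbad : ∀ v ∉ W, (((nb G.edgeSet v).filter
      (fun u => ∃ j, ¬ (P.am - P.s0 ≤ (ell L g (some j) s(v, u) : ℝ)))).card : ℝ)
        ≤ P.δ / 4 * P.n)
    (hM : ∀ v ∈ W, ∀ j, |M v j| ≤ 5 * P.S)
    (hMs : ∀ v ∈ W, -(P.ε * P.S / 50) ≤ ∑ j, M v j)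
    (hTp0 : ∀ v j, v ∉ Tp v j)
    (hTp1 : ∀ v ∈ W, ∀ j, ∀ u ∈ Tp v j, u ∉ W ∧ s(v, u) ∈ G.edgeSet ∧
      P.am + M v j ≤ (ell L g (some j) s(v, u) : ℝ))
    (hTp2 : ∀ v ∈ W, ∀ j, P.q * P.n ≤ ((Tp v j).card : ℝ))
    (hδ' : 0 ≤ δ') (hδ'1 : 2 ^ K * δ' ≤ P.q / 10) (hδ'2 : 2 ^ K * δ' ≤ 1 / 100) (hδ'3 : δ' ≤ P.δ)
    (hκ : κS ≤ P.s0 / 125)
    (hn2 : K + 1 ≤ (Fintype.card V) ^ 2)
    (hCells : CellsProp V K δ' κS)
    (hs1 : SampProp V (Fin K) (100 * P.S) P.err)
    (hs2 : SampProp V (Fin K × Bool) (100 * P.S) P.err)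
    (hLeft : LeftProp V (P.ρ * P.n) (P.ε / 5 * P.S))
    (hBA : BAProp V K P.ρ (1 / 100) (1 / 4) P.δ P.Γ) : LC G.edgeSet L := by
  -- numerical facts
  have nK := P.hK
  have nS := P.hS
  have nε := P.hε
  have nε1 := P.hε1
  have nρ := P.hρ
  have nρ1 := P.hρ1
  have ns0 := P.hs0
  have nKs0 := P.hKs0
  have nam := P.ham
  have nm3 := P.hm3
  have nmn := P.hmn
  have nδ := P.hδ
  have nδ1 := P.hδ1
  have nq := P.hq
  have nη0 := P.hη0
  have nΓ0 := P.hΓ0
  have nΓ := P.hΓ
  have nerr0 := P.herr0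
  have nerr := P.herr
  have nC := P.hC
  have nb1 := P.hb1
  have nb2 := P.hb2
  have nb3 := P.hb3
  have nb4 := P.hb4
  have nη1 := P.hη1
  have nη2 := P.hη2
  have nη3 := P.hη3
  have nn := P.n_pos
  have ns0S := P.s0_le
  have nKs0S := P.Ks0_le
  have nS1 := P.S_le'
  have nKS := P.KS_le
  have nTpos := P.T_pos
  have nhT := P.hT
  have hn : 0 < Fintype.card V := by
    rw [hPn] at nn; exact_mod_cast nn
  have hKpos : (0 : ℝ) < K := by rw [← hPK]; linarith
  have hK1 : (1 : ℝ) ≤ K := by rw [← hPK]; exact nK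
  set α : ℝ := (1 - P.ρ) / K with hα
  have hKα : (K : ℝ) * α = 1 - P.ρ := by rw [hα]; field_simp
  have hαm : α * P.m = P.am := by
    have h1 : (K : ℝ) * (α * P.m) = K * P.am := by
      rw [← mul_assoc, hKα, ← nam, hPK]
    exact mul_left_cancel₀ hKpos.ne' h1
  have hα0 : 0 < α := by rw [hα]; apply div_pos _ hKpos; linarith
  have hα1 : α ≤ 1 - P.ρ := by
    rw [hα]; apply div_le_self (by linarith) hK1
  have hαE : 7 * P.s0 ≤ α * (P.ε * P.S) := by
    have h1 : α * (P.ε * P.S) = 8 * (1 - P.ρ) * P.s0 := by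
      rw [← nKs0, hPK, ← hKα]; ring
    rw [h1]
    have h2 : P.ρ * P.s0 ≤ 1 / 10 * P.s0 := mul_le_mul_of_nonneg_right nρ1 ns0.le
    linarith
  have hES : 0 < P.ε * P.S := mul_pos nε nS
  have hEK : P.ε * P.S = 8 * K * P.s0 := by rw [← nKs0, hPK]
  have hdm : ∀ v, (dg G.edgeSet v : ℝ) ≤ P.m := fun v => by have := hd1 v; linarith
  have ham0 : 0 < P.am := by linarith
  have hamn : P.am ≤ (1 - P.ρ) * P.n := by
    rw [← hαm]
    have h1 : α * P.m ≤ (1 - P.ρ) * P.m := mul_le_mul_of_nonneg_right hα1 (by linarith)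
    have h2 : (1 - P.ρ) * P.m ≤ (1 - P.ρ) * P.n := mul_le_mul_of_nonneg_left nmn (by linarith)
    linarith
  -- targets
  set τ₀ : V → Fin K → ℝ := fun v j =>
    if v ∈ W then P.am + M v j - P.s0 else α * dg G.edgeSet v + 2 * P.s0 with hτ₀
  obtain ⟨σ, τ', hpat, hTc, hcr, hsg, hpair, hτ', hτs⟩ := signs G δ' κS hCells hn hn2 τ₀
    (by
      intro v j
      rw [← hPn]
      simp only [hτ₀]
      split_ifs with hv
      · have h1 := abs_le.1 (hM v hv j)
        rw [abs_le]
        constructor <;> linarith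
      · have h1 : α * (dg G.edgeSet v : ℝ) ≤ P.am := by
          rw [← hαm]; exact mul_le_mul_of_nonneg_left (hdm v) hα0.le
        have h2 : 0 ≤ α * (dg G.edgeSet v : ℝ) := by positivity
        rw [abs_le]
        constructor <;> linarith) Tp hTp0
  -- bursts
  set ys : V → Fin K → ℝ := fun v j =>
    if v ∈ W then M v j + 3 * P.s0 + 25 * P.S + P.s0 / 125 + P.Γ else 0 with hys
  have hys0 : ∀ v j, 0 ≤ ys v j := by
    intro v j
    simp only [hys]
    split_ifs with hv
    · have h1 := abs_le.1 (hM v hv j)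
      linarith
    · exact le_rfl
  have hys1 : ∀ v j, ys v j ≤ 31 * P.S := by
    intro v j
    simp only [hys]
    split_ifs with hv
    · have h1 := abs_le.1 (hM v hv j)
      linarith
    · linarith
  obtain ⟨β, hβ1, hβ2, hβ3, hβ4⟩ := bursts W
    (fun v j => (Tp v j).filter (fun u => σ v j ≠ σ u j)) ys (31 * P.S) (P.q * P.n / 3)
    (100 * P.S) P.err
    (fun v hv j u hu => (hTp1 v hv j u (mem_filter.1 hu).1).1) hys0 hys1 (by positivity)
    (by
      intro v hv j
      refine le_trans ?_ (hTc v j)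
      have h1 := hTp2 v hv j
      have h2 : 2 ^ K * (δ' * (Fintype.card V : ℝ)) ≤ P.q / 10 * P.n := by
        rw [hPn, ← mul_assoc]
        exact mul_le_mul_of_nonneg_right hδ'1 (by positivity)
      linarith)
    (by
      rw [← mul_div_assoc, div_le_one (by positivity), ← hPK]
      have h1 : 0 ≤ P.K * P.S := by positivity
      linarith)
    hs1 (by linarith)
    (by
      have h1 := P.hbN W.card hW (Nat.cast_nonneg _)
      linarith)
  have hβE : ∀ u v j, β s(u, v) = some j → s(u, v) ∈ G.edgeSet ∧ σ u j ≠ σ v j := by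
    intro u v j h
    rcases hβ2 u v j h with hu | hv
    · have h1 := mem_filter.1 (hβ1 u v j h hu)
      exact ⟨(hTp1 u hu j v h1.1).2.1, h1.2⟩
    · have h' : β s(v, u) = some j := by rw [Sym2.eq_swap]; exact h
      have h1 := mem_filter.1 (hβ1 v u j h' hv)
      have h2 := (hTp1 v hv j u h1.1).2.1
      rw [Sym2.eq_swap] at h2
      exact ⟨h2, h1.2.symm⟩
  have hβWW : ∀ u v j, β s(u, v) = some j → u ∈ W → v ∉ W := by
    intro u v j h hu
    have h1 := mem_filter.1 (hβ1 u v j h hu)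
    exact (hTp1 u hu j v h1.1).1
  have hbN : ∀ v ∉ W, ∀ j, ((univ.filter (fun u => β s(v, u) = some j)).card : ℝ) ≤ P.s0 / 4 :=
    fun v hv j => (hβ4 v hv j).trans (P.hbN W.card hW (Nat.cast_nonneg _))
  -- all targets
  set τ : V → Option (Fin K) → ℝ := fun v o =>
    o.elim ((dg G.edgeSet v : ℝ) - ∑ j, τ' v j) (fun j => τ' v j) with hτ
  have hτn : ∀ v, τ v none = (dg G.edgeSet v : ℝ) - ∑ j, τ' v j := fun v => rfl
  have hτj : ∀ v j, τ v (some j) = τ' v j := fun v j => rfl
  have hdl : ∀ v, |P.m - dg G.edgeSet v| ≤ P.C * P.S + P.S := by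
    intro v
    have h1 := hd1 v; have h2 := hd2 v
    have h3 : 0 ≤ P.C * P.S := by positivity
    rw [abs_le]
    constructor <;> linarith
  have hdiff : ∀ v j, |τ' v j - α * dg G.edgeSet v| ≤ P.C * P.S + 7 * P.S := by
    intro v j
    have h1 := abs_le.1 ((hτ' v j).trans hκ)
    have h3 : 0 ≤ P.C * P.S := by positivity
    simp only [hτ₀] at h1
    split_ifs at h1 with hv
    · have h2 := abs_le.1 (hM v hv j)
      have h4 := abs_le.1 (hdl v)
      have h5 : |α * (P.m - dg G.edgeSet v)| ≤ P.C * P.S + P.S := by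
        rw [abs_mul, abs_of_pos hα0]
        have h6 := hdl v
        have h7 : 0 ≤ |P.m - dg G.edgeSet v| := abs_nonneg _
        have h8 : α * |P.m - dg G.edgeSet v| ≤ 1 * |P.m - dg G.edgeSet v| :=
          mul_le_mul_of_nonneg_right (by linarith) h7
        linarith
      have h6 := abs_le.1 h5
      have h7 : α * (P.m - dg G.edgeSet v) = P.am - α * dg G.edgeSet v := by
        rw [mul_sub, hαm]
      rw [h7] at h6
      rw [abs_le]
      constructor <;> linarith
    · rw [abs_le]
      constructor <;> linarith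
  have hτ1 : ∀ v o, |τ v o - omg K P.ρ o * dg G.edgeSet v| ≤ P.δ * Fintype.card V := by
    intro v o
    have h3 : 0 ≤ P.C * P.S := by positivity
    have h4 : (K : ℝ) * (P.C * P.S + 7 * P.S) ≤ P.δ * Fintype.card V := by
      rw [← hPn, ← hPK]
      have : P.K * (P.C * P.S + 7 * P.S) ≤ 100 * P.K * (P.C + 10) * P.S := by
        have h5 : 0 ≤ P.K * (P.C * P.S) := by positivity
        have h6 : 0 ≤ P.K * P.S := by positivity
        linarith
      linarith
    have h5 : P.C * P.S + 7 * P.S ≤ K * (P.C * P.S + 7 * P.S) := by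
      have : 0 ≤ P.C * P.S + 7 * P.S := by positivity
      exact le_mul_of_one_le_left this hK1
    rcases o with _ | j
    · have h6 : τ v none - omg K P.ρ none * dg G.edgeSet v =
          -∑ j, (τ' v j - α * dg G.edgeSet v) := by
        rw [hτn, sum_sub_distrib, sum_const, card_univ, Fintype.card_fin, nsmul_eq_mul]
        have h7 : omg K P.ρ (none : Option (Fin K)) = P.ρ := rfl
        rw [h7]
        linear_combination (-(dg G.edgeSet v : ℝ)) * hKα
      rw [h6, abs_neg]
      calc |∑ j, (τ' v j - α * dg G.edgeSet v)| ≤ ∑ j, |τ' v j - α * dg G.edgeSet v| :=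
            abs_sum_le_sum_abs _ _
        _ ≤ ∑ _j : Fin K, (P.C * P.S + 7 * P.S) := sum_le_sum (fun j _ => hdiff v j)
        _ = K * (P.C * P.S + 7 * P.S) := by
            rw [sum_const, card_univ, Fintype.card_fin, nsmul_eq_mul]
        _ ≤ _ := h4
    · have h7 : omg K P.ρ (some j) = α := rfl
      rw [h7, hτj]
      exact (hdiff v j).trans (h5.trans h4)
  have hτ2 : ∀ v, ∑ o, τ v o = dg G.edgeSet v := by
    intro v
    rw [Fintype.sum_option, hτn]
    simp only [hτj]
    ring
  have hdn : ∀ v, (1 / 4 : ℝ) * P.n ≤ (dg G.edgeSet v : ℝ) := by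
    intro v
    have h1 := hd2 v
    have h2 : P.C * P.S ≤ P.n / 100 := by
      have h3 : 100 * P.K * (P.C + 10) * P.S ≤ 1 / 1000 * P.n :=
        nb3.trans (mul_le_mul_of_nonneg_right nδ1 nn.le)
      have h4 : 0 ≤ P.C * P.S := by positivity
      have h5 : P.C * P.S ≤ 100 * P.K * (P.C + 10) * P.S := by
        have h6 : P.C * P.S ≤ P.K * (P.C * P.S) := le_mul_of_one_le_left h4 nK
        have h7 : 0 ≤ P.K * P.S := by positivity
        have h8 : 0 ≤ P.K * (P.C * P.S) := by positivity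
        linarith
      linarith
    linarith
  have hcard : ∀ v, ((univ.filter (fun u => β s(v, u) ≠ none)).card : ℝ) =
      ∑ j, ((univ.filter (fun u => β s(v, u) = some j)).card : ℝ) := by
    intro v
    rw [card_ne_none]
    push_cast
    rfl
  obtain ⟨φ, hφ1, hφ2, hφ3, hφ4, hφ5⟩ := assign hExp G hQR P.ρ P.δ P.Γ hBA σ W β
    (fun e j => P.am - P.s0 ≤ (ell L g (some j) e : ℝ)) τ nδ1
    (by rw [← hPn]; exact hdn)
    (fun v X => (hpat v X).trans (mul_le_mul_of_nonneg_right hδ'3 (Nat.cast_nonneg _)))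
    (by
      intro j
      refine (hsg j).trans ?_
      have h1 := mul_le_mul_of_nonneg_right (hδ'3.trans nδ1) (Nat.cast_nonneg (Fintype.card V) : (0 : ℝ) ≤ _)
      linarith)
    (fun i j hij => (hpair i j hij).trans (mul_le_mul_of_nonneg_right hδ'3 (Nat.cast_nonneg _)))
    (by
      intro v j
      refine le_trans ?_ (hcr v j)
      have h1 : 2 ^ K * (δ' * (Fintype.card V : ℝ)) ≤ 1 / 100 * Fintype.card V := by
        rw [← mul_assoc]
        exact mul_le_mul_of_nonneg_right hδ'2 (by positivity)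
      have h2 := hdn v
      rw [hPn] at h2
      have h3 : (0 : ℝ) ≤ Fintype.card V := Nat.cast_nonneg _
      linarith)
    hβE hβWW
    (by
      intro v hv
      rw [hcard, ← hPn]
      have h1 : ∑ j, ((univ.filter (fun u => β s(v, u) = some j)).card : ℝ) ≤
          ∑ _j : Fin K, 32 * P.S := by
        apply sum_le_sum
        intro j _
        have h2 := (abs_le.1 (hβ3 v hv j)).2
        have h3 := hys1 v j
        linarith
      rw [sum_const, card_univ, Fintype.card_fin, nsmul_eq_mul] at h1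
      have h2 : (K : ℝ) * (32 * P.S) ≤ P.δ * P.n / 10 := by
        rw [← hPK]
        have h3 : 0 ≤ P.K * (P.C * P.S) := by positivity
        have h4 : 0 ≤ P.K * P.S := by positivity
        linarith
      have h3 : P.η * P.n ≤ P.δ / 10 * P.n := mul_le_mul_of_nonneg_right (by linarith) nn.le
      have h4 : 0 < P.δ * P.n := by positivity
      linarith)
    (by
      intro v hv
      rw [hcard, ← hPn]
      have h1 : ∑ j, ((univ.filter (fun u => β s(v, u) = some j)).card : ℝ) ≤
          ∑ _j : Fin K, P.s0 / 4 := by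
        apply sum_le_sum
        intro j _
        exact hbN v hv j
      rw [sum_const, card_univ, Fintype.card_fin, nsmul_eq_mul] at h1
      have h2 : (K : ℝ) * (P.s0 / 4) ≤ P.δ * P.n / 10 := by
        rw [← hPK]
        have h3 : 0 ≤ P.K * (P.C * P.S) := by positivity
        have h4 : 0 ≤ P.K * P.S := by positivity
        have h5 : P.K * P.s0 ≤ P.K * P.S := mul_le_mul_of_nonneg_left (by linarith) (by linarith)
        linarith
      have h3 : P.η * P.n ≤ P.δ / 10 * P.n := mul_le_mul_of_nonneg_right (by linarith) nn.le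
      have h4 : 0 < P.δ * P.n := by positivity
      have h5 := hbad v hv
      linarith)
    hτ1 hτ2
    (by
      intro j
      simp only [hτj]
      exact hτs j)
  -- loads
  have hlN : ∀ v ∉ W, ∀ j, (ld G.edgeSet φ v (some j) : ℝ) ≤ P.am - 4 * P.s0 := by
    intro v hv j
    have h1 := (abs_le.1 (hφ1 v (some j))).2
    have h2 := (abs_le.1 ((hτ' v j).trans hκ)).2
    rw [hτj] at h1
    simp only [hτ₀, if_neg hv] at h2
    have h3 : α * (dg G.edgeSet v : ℝ) ≤ P.am - α * (P.ε * P.S) := by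
      rw [← hαm, ← mul_sub]
      exact mul_le_mul_of_nonneg_left (hd1 v) hα0.le
    linarith
  have hlW' : ∀ v ∈ W, ∀ j, (ld G.edgeSet φ v (some j) : ℝ) ≤
      P.am + M v j - P.s0 + P.s0 / 125 + P.Γ := by
    intro v hv j
    have h1 := (abs_le.1 (hφ1 v (some j))).2
    have h2 := (abs_le.1 ((hτ' v j).trans hκ)).2
    rw [hτj] at h1
    simp only [hτ₀, if_pos hv] at h2
    linarith
  have hln : ∀ v, (ld G.edgeSet φ v none : ℝ) ≤ P.ρ * P.m - 22 / 100 * (P.ε * P.S) := by
    intro v
    have h1 := (abs_le.1 (hφ1 v none)).2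
    rw [hτn] at h1
    have h2 : ∑ j, τ₀ v j - K * (P.s0 / 125) ≤ ∑ j, τ' v j := by
      have h3 : ∑ j, (τ₀ v j - P.s0 / 125) ≤ ∑ j, τ' v j := by
        apply sum_le_sum
        intro j _
        have := (abs_le.1 ((hτ' v j).trans hκ)).1
        linarith
      rw [sum_sub_distrib, sum_const, card_univ, Fintype.card_fin, nsmul_eq_mul] at h3
      exact h3
    have hΓE : P.Γ ≤ P.ε * P.S / 1000 := by
      rw [hEK]
      have : P.s0 ≤ K * P.s0 := le_mul_of_one_le_left ns0.le hK1
      linarith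
    have hd := hd1 v
    by_cases hv : v ∈ W
    · have h3 : ∑ j, τ₀ v j = K * P.am + ∑ j, M v j - K * P.s0 := by
        have : ∀ j, τ₀ v j = P.am + M v j - P.s0 := fun j => by simp only [hτ₀, if_pos hv]
        rw [sum_congr rfl (fun j _ => this j), sum_sub_distrib, sum_add_distrib, sum_const,
          sum_const, card_univ, Fintype.card_fin, nsmul_eq_mul, nsmul_eq_mul]
      have h4 := hMs v hv
      have h5 : (K : ℝ) * P.am = (1 - P.ρ) * P.m := by rw [← hPK]; exact nam
      rw [h3, h5] at h2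
      rw [hEK] at h4 hd hΓE ⊢
      have h6 : 0 < K * P.s0 := by positivity
      linarith
    · have h3 : ∑ j, τ₀ v j = (1 - P.ρ) * dg G.edgeSet v + 2 * K * P.s0 := by
        have : ∀ j, τ₀ v j = α * dg G.edgeSet v + 2 * P.s0 := fun j => by
          simp only [hτ₀, if_neg hv]
        rw [sum_congr rfl (fun j _ => this j), sum_const, card_univ, Fintype.card_fin,
          nsmul_eq_mul, ← hKα]
        ring
      rw [h3] at h2
      have h6 : P.ρ * (dg G.edgeSet v : ℝ) ≤ P.ρ * P.m := mul_le_mul_of_nonneg_left (hdm v) nρ.le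
      rw [hEK] at hd hΓE ⊢
      have h7 : 0 < K * P.s0 := by positivity
      linarith
  -- the leftover level
  have hne : ∀ v, s(v, v) ∉ G.edgeSet := by
    intro v h
    rw [SimpleGraph.mem_edgeSet] at h
    exact G.irrefl h
  have hnone : LC {e | e ∈ G.edgeSet ∧ φ e = none} (fun e => (L e).filter (fun x => g x = none)) := by
    apply hLeft _ _ (P.ρ * P.m - 22 / 100 * (P.ε * P.S))
    · intro v h
      exact hne v h.1
    · have h1 : P.ρ * P.n ≤ 3 * (P.ρ * P.m) := by
        have := mul_le_mul_of_nonneg_left nm3 nρ.le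
        linarith
      have h2 : P.ε * P.S ≤ 1 * P.S := mul_le_mul_of_nonneg_right nε1 nS.le
      linarith
    · have h1 : P.ρ * P.m ≤ P.ρ * P.n := mul_le_mul_of_nonneg_left nmn nρ.le
      linarith
    · intro v
      rw [dg_level]
      exact hln v
    · intro e he
      have h1 := hg2 e he.1
      rw [ell_none] at h1
      have h2 : P.ε / 5 * P.S = 20 / 100 * (P.ε * P.S) := by ring
      rw [h2]
      linarith
  -- assembly
  apply core hLevel G.edgeSet L g W σ β φ M P.am P.s0 (25 * P.S) P.err (100 * P.S) ns0.le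
    (by linarith) nhT nerr0 hφ4 hφ2 (fun u v j h => hβ2 u v j h) hφ3
    (fun v u j hv h => (hTp1 v hv j u (mem_filter.1 (hβ1 v u j h hv)).1).2.2)
    hbN hlN
    (fun v hv j => by have := hlW' v hv j; linarith)
    (fun v hv j => by
      have h1 := hlW' v hv j
      have h2 := (abs_le.1 (hβ3 v hv j)).1
      simp only [hys, if_pos hv] at h2
      linarith)
    hs2 P.hC1 P.hC2 P.hx1 (P.hx2 W.card hW (Nat.cast_nonneg _))
    (fun e he j => by have := hg1 e he j; linarith)
    (fun u v j huv hj hu hv => by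
      apply hφ5 u v j huv hj _ hu hv
      rcases h : β s(u, v) with _ | j'
      · rfl
      · rcases hβ2 u v j' h with h1 | h1
        · exact absurd h1 hu
        · exact absurd h1 hv)
    hnone

end

end Pool.Agent.Helper15.LR
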