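import Pool.Agent.Helper15.LR.Eh

set_option autoImplicit false

open Finset Filter
open scoped Classical Topology

namespace Pool.Agent.Helper15.LR

noncomputable section

lemma exists_K (ρ : ℝ) (hρ : 0 < ρ) (hρ1 : ρ ≤ 1 / 10) :
    ∃ K : ℕ, 1 ≤ K ∧ (1 / 2 : ℝ) ^ K ≤ ρ / 2 ∧ 8 * (1 / 2 : ℝ) ^ (K / 3) ≤ ρ ∧
      8 * (1 / 2 : ℝ) ^ (K / 3) ≤ (1 - ρ) / K := by
  have h1 : Tendsto (fun k : ℕ => (k : ℝ) * (1 / 2 : ℝ) ^ k) atTop (𝓝 0) :=
    tendsto_self_mul_const_pow_of_lt_one (by norm_num) (by norm_num)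
  have h2 : Tendsto (fun k : ℕ => (1 / 2 : ℝ) ^ k) atTop (𝓝 0) :=
    tendsto_pow_atTop_nhds_zero_of_lt_one (by norm_num) (by norm_num)
  have h3 := h1.eventually (gt_mem_nhds (show (0 : ℝ) < 1 / 48 by norm_num))
  have h4 := h2.eventually (gt_mem_nhds (show (0 : ℝ) < ρ / 8 by positivity))
  obtain ⟨k, ⟨h5, h6⟩, h7⟩ := ((h3.and h4).and (eventually_ge_atTop 1)).exists
  have hk : (1 : ℝ) ≤ k := by exact_mod_cast h7
  have hdiv : 3 * k / 3 = k := Nat.mul_div_cancel_left k (by norm_num)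
  refine ⟨3 * k, by omega, ?_, ?_, ?_⟩
  · have : (1 / 2 : ℝ) ^ (3 * k) ≤ (1 / 2 : ℝ) ^ k :=
      pow_le_pow_of_le_one (by norm_num) (by norm_num) (by omega)
    linarith
  · rw [hdiv]
    linarith
  · rw [hdiv, le_div_iff₀ (by positivity)]
    push_cast
    nlinarith

lemma BAProp_mono {V : Type} [Fintype V] {K : ℕ} {ρ c₁ d₀ δ δ' Γ : ℝ} (hδ : δ' ≤ δ)
    (h : BAProp V K ρ c₁ d₀ δ Γ) : BAProp V K ρ c₁ d₀ δ' Γ := by
  intro F σ A τ h1 h2 h3 h4 h5 h6 h7 h8 h9 h10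
  have h11 : δ' * (Fintype.card V : ℝ) ≤ δ * Fintype.card V :=
    mul_le_mul_of_nonneg_right hδ (Nat.cast_nonneg _)
  exact h F σ A τ h1 h2 (fun v X => (h3 v X).trans h11) (fun i j hij => (h4 i j hij).trans h11) h5
    (fun v => (h6 v).trans h11) (fun v o => (h7 v o).trans h11) h8 h9 h10

lemma card_sym2_le (V : Type) [Fintype V] : Fintype.card (Sym2 V) ≤ (Fintype.card V) ^ 2 := by
  have h1 : Function.Surjective (fun p : V × V => s(p.1, p.2)) := by
    intro e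
    induction e using Sym2.ind with
    | _ u v => exact ⟨(u, v), rfl⟩
  have := Fintype.card_le_of_surjective _ h1
  rw [Fintype.card_prod] at this
  rw [sq]
  exact this

lemma sum_ell {V : Type} {K : ℕ} (L : Sym2 V → Finset ℕ) (g : ℕ → Option (Fin K)) (e : Sym2 V) :
    ∑ j, (ell L g (some j) e : ℝ) = (L e).card - (ell L g none e : ℝ) := by
  have h1 : ∑ o : Option (Fin K), ell L g o e = (L e).card := by
    unfold ell
    have h0 := card_eq_sum_card_fiberwise (s := L e) (f := g) (t := univ)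
      (fun x _ => mem_coe.2 (mem_univ (g x)))
    rw [h0]
    apply sum_congr rfl
    intro o _
    congr
  rw [Fintype.sum_option] at h1
  have h2 : (ell L g none e : ℝ) + ∑ j, (ell L g (some j) e : ℝ) = (L e).card := by
    exact_mod_cast h1
  linarith

/-- the set of exceptional vertices -/
lemma exists_W {V : Type} [Fintype V] (B : Finset (Sym2 V)) (η δ : ℝ) (hδ : 0 < δ)
    (hn : 0 < Fintype.card V)
    (hB : (B.card : ℝ) ≤ η * δ / 8 * (Fintype.card V : ℝ) ^ 2) :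
    ∃ W : Finset V, (W.card : ℝ) ≤ η * Fintype.card V ∧ ∀ v ∉ W,
      ((univ.filter (fun u => s(v, u) ∈ B)).card : ℝ) ≤ δ / 4 * Fintype.card V := by
  have hn' : (0 : ℝ) < Fintype.card V := by exact_mod_cast hn
  set n : ℝ := (Fintype.card V : ℝ) with hnn
  refine ⟨univ.filter (fun v => δ / 4 * n < ((univ.filter (fun u => s(v, u) ∈ B)).card : ℝ)),
    ?_, ?_⟩
  · set W := univ.filter (fun v => δ / 4 * n < ((univ.filter (fun u => s(v, u) ∈ B)).card : ℝ))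
    have h1 : (W.card : ℝ) * (δ / 4 * n) ≤
        ∑ v ∈ W, ((univ.filter (fun u => s(v, u) ∈ B)).card : ℝ) := by
      have : ∑ v ∈ W, (δ / 4 * n) ≤ ∑ v ∈ W, ((univ.filter (fun u => s(v, u) ∈ B)).card : ℝ) := by
        apply sum_le_sum
        intro v hv
        exact (mem_filter.1 hv).2.le
      rwa [sum_const, nsmul_eq_mul] at this
    have h2 : ∑ v ∈ W, ((univ.filter (fun u => s(v, u) ∈ B)).card : ℝ) ≤
        ∑ v : V, ((univ.filter (fun u => s(v, u) ∈ B)).card : ℝ) :=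
      sum_le_sum_of_subset_of_nonneg (subset_univ _) (fun _ _ _ => Nat.cast_nonneg _)
    have h3 : ∑ v : V, ((univ.filter (fun u => s(v, u) ∈ B)).card : ℝ) ≤ 2 * B.card := by
      exact_mod_cast sum_card_le_two B
    have h4 : (W.card : ℝ) * (δ / 4 * n) ≤ (η * n) * (δ / 4 * n) := by
      calc (W.card : ℝ) * (δ / 4 * n) ≤ 2 * B.card := h1.trans (h2.trans h3)
        _ ≤ 2 * (η * δ / 8 * n ^ 2) := by linarith
        _ = (η * n) * (δ / 4 * n) := by ring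
    exact le_of_mul_le_mul_right h4 (by positivity)
  · intro v hv
    rw [mem_filter] at hv
    push Not at hv
    exact hv (mem_univ _)

/-- choice of the top sets -/
lemma tops (hQ : Quantile_stmt) {V : Type} [Fintype V] {K : ℕ} (G : SimpleGraph V)
    (L : Sym2 V → Finset ℕ) (g : ℕ → Option (Fin K)) (W : Finset V)
    (n m S ε ρ am q : ℝ) (hS : 0 < S) (hε : 0 < ε) (hq : 0 < q) (hn : 0 < n)
    (hKq : 10 ^ 4 * K * q = ε) (hq1 : q ≤ 1 / 100)
    (ham : K * am = (1 - ρ) * m) (hqn : 1 ≤ q * n)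
    (hL : ∀ e ∈ G.edgeSet, ((L e).card : ℝ) = m)
    (hg1 : ∀ e ∈ G.edgeSet, ∀ j, |(ell L g (some j) e : ℝ) - am| ≤ 5 * S)
    (hg2 : ∀ e ∈ G.edgeSet, |(ell L g none e : ℝ) - ρ * m| ≤ ε * S / 100)
    (hdW : ∀ v, n / 4 ≤ (dg G.edgeSet v : ℝ) - W.card) :
    ∃ (M : V → Fin K → ℝ) (Tp : V → Fin K → Finset V),
      (∀ v ∈ W, ∀ j, |M v j| ≤ 5 * S) ∧
      (∀ v ∈ W, -(ε * S / 50) ≤ ∑ j, M v j) ∧
      (∀ v j, v ∉ Tp v j) ∧
      (∀ v ∈ W, ∀ j, ∀ u ∈ Tp v j, u ∉ W ∧ s(v, u) ∈ G.edgeSet ∧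
        am + M v j ≤ (ell L g (some j) s(v, u) : ℝ)) ∧
      (∀ v ∈ W, ∀ j, q * n ≤ ((Tp v j).card : ℝ)) := by
  have hTc : ∀ v, n / 4 ≤ ((nb G.edgeSet v \ W).card : ℝ) := by
    intro v
    have h1 : (nb G.edgeSet v).card ≤ (nb G.edgeSet v \ W).card + W.card := by
      have := le_card_sdiff W (nb G.edgeSet v)
      omega
    have h2 : (dg G.edgeSet v : ℝ) ≤ ((nb G.edgeSet v \ W).card : ℝ) + W.card := by
      unfold dg; exact_mod_cast h1
    have := hdW v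
    linarith
  have hk1 : 1 ≤ ⌈q * n⌉₊ := Nat.one_le_ceil_iff.2 (by linarith)
  have hk2 : (⌈q * n⌉₊ : ℝ) ≤ 2 * (q * n) := by
    have := Nat.ceil_lt_add_one (show 0 ≤ q * n by positivity)
    linarith
  have hk3 : ∀ v, ⌈q * n⌉₊ ≤ (nb G.edgeSet v \ W).card := by
    intro v
    have h1 := hTc v
    have h2 : 2 * (q * n) ≤ n / 4 := by nlinarith
    have h3 : (⌈q * n⌉₊ : ℝ) ≤ ((nb G.edgeSet v \ W).card : ℝ) := by linarith
    exact_mod_cast h3
  have key : ∀ v j, ∃ M : ℝ, |M| ≤ 5 * S ∧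
      ⌈q * n⌉₊ ≤ ((nb G.edgeSet v \ W).filter
        (fun u => M ≤ (ell L g (some j) s(v, u) : ℝ) - am)).card ∧
      (∑ u ∈ nb G.edgeSet v \ W, ((ell L g (some j) s(v, u) : ℝ) - am)) ≤
        M * (nb G.edgeSet v \ W).card + 2 * (5 * S) * ⌈q * n⌉₊ := by
    intro v j
    have h0 := hQ V (nb G.edgeSet v \ W) (fun u => (ell L g (some j) s(v, u) : ℝ) - am) (5 * S)
      ⌈q * n⌉₊ (by
        intro u hu
        rw [Finset.mem_sdiff, mem_nb] at hu
        exact hg1 _ hu.1 j) hk1 (hk3 v)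
    convert h0
  choose M hM1 hM2 hM3 using key
  refine ⟨M, fun v j => (nb G.edgeSet v \ W).filter
        (fun u => M v j ≤ (ell L g (some j) s(v, u) : ℝ) - am), fun v _ j => hM1 v j, ?_, ?_, ?_, ?_⟩
  · intro v _
    have h1 : ∑ j, (∑ u ∈ nb G.edgeSet v \ W, ((ell L g (some j) s(v, u) : ℝ) - am)) ≤
        ∑ j, (M v j * (nb G.edgeSet v \ W).card + 2 * (5 * S) * ⌈q * n⌉₊) :=
      sum_le_sum (fun j _ => hM3 v j)
    rw [sum_comm, sum_add_distrib, ← sum_mul, sum_const, card_univ, Fintype.card_fin,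
      nsmul_eq_mul] at h1
    have h2 : ∑ u ∈ nb G.edgeSet v \ W, (-(ε * S / 100)) ≤
        ∑ u ∈ nb G.edgeSet v \ W, ∑ j, ((ell L g (some j) s(v, u) : ℝ) - am) := by
      apply sum_le_sum
      intro u hu
      rw [Finset.mem_sdiff, mem_nb] at hu
      rw [sum_sub_distrib, sum_ell, hL _ hu.1, sum_const, card_univ, Fintype.card_fin,
        nsmul_eq_mul, ham]
      have := (abs_le.1 (hg2 _ hu.1)).2
      linarith
    rw [sum_const, nsmul_eq_mul] at h2
    set t : ℝ := ((nb G.edgeSet v \ W).card : ℝ) with ht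
    have ht4 : n ≤ 4 * t := by have := hTc v; linarith
    have ht0 : 0 < t := by linarith
    have h3 : (K : ℝ) * (2 * (5 * S) * ⌈q * n⌉₊) ≤ 8 / 1000 * (ε * S) * t := by
      have h4 : (K : ℝ) * (2 * (5 * S) * ⌈q * n⌉₊) ≤ K * (2 * (5 * S) * (2 * (q * n))) := by
        apply mul_le_mul_of_nonneg_left _ (Nat.cast_nonneg _)
        exact mul_le_mul_of_nonneg_left hk2 (by positivity)
      have h5 : (K : ℝ) * (2 * (5 * S) * (2 * (q * n))) = 2 / 1000 * (ε * S) * n := by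
        rw [← hKq]; ring
      have h6 : 2 / 1000 * (ε * S) * n ≤ 2 / 1000 * (ε * S) * (4 * t) :=
        mul_le_mul_of_nonneg_left ht4 (by positivity)
      linarith
    have h7 : (-(ε * S / 50)) * t ≤ (∑ j, M v j) * t := by
      have h8 : 0 < ε * S * t := by positivity
      linarith
    exact le_of_mul_le_mul_right h7 ht0
  · intro v j h
    have h1 := (Finset.mem_sdiff.1 (mem_filter.1 h).1).1
    rw [mem_nb, SimpleGraph.mem_edgeSet] at h1
    exact G.irrefl h1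
  · intro v _ j u hu
    rw [mem_filter, Finset.mem_sdiff, mem_nb] at hu
    exact ⟨hu.1.2, hu.1.1, by linarith [hu.2]⟩
  · intro v _ j
    have h1 := hM2 v j
    have h2 : (⌈q * n⌉₊ : ℝ) ≤ (((nb G.edgeSet v \ W).filter
        (fun u => M v j ≤ (ell L g (some j) s(v, u) : ℝ) - am)).card : ℝ) := by exact_mod_cast h1
    exact (Nat.le_ceil _).trans h2

end

end Pool.Agent.Helper15.LR
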