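import Pool.Agent.Helper15.LR.Defs

set_option autoImplicit false

open Finset Filter
open scoped Classical Topology

namespace Pool.Agent.Helper15.LR

noncomputable section

/-- the vector attached to a graph and a diagonal -/
def vecOf (n : ℕ) (G : SimpleGraph (Fin n)) (y : Fin n → Bool) : Sym2 (Fin n) → Bool :=
  Sym2.lift ⟨fun u v => if u = v then y u else decide (G.Adj u v), by
    intro u v
    by_cases h : u = v
    · subst h; rfl
    · have h' : ¬ v = u := fun h2 => h h2.symm
      simp only [if_neg h, if_neg h', G.adj_comm]⟩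

theorem vecOf_mk (n : ℕ) (G : SimpleGraph (Fin n)) (y : Fin n → Bool) (u v : Fin n) :
    vecOf n G y s(u, v) = if u = v then y u else decide (G.Adj u v) := rfl

theorem gr_vecOf (n : ℕ) (G : SimpleGraph (Fin n)) (y : Fin n → Bool) :
    gr n (vecOf n G y) = G := by
  ext u v
  simp only [gr, vecOf_mk]
  constructor
  · rintro ⟨h1, h2⟩
    rw [if_neg h1] at h2
    simpa using h2
  · intro h
    refine ⟨h.ne, ?_⟩
    rw [if_neg h.ne]
    simpa using h

/-- vectors are pairs (graph, diagonal) -/
def vecEquiv (n : ℕ) : (Sym2 (Fin n) → Bool) ≃ SimpleGraph (Fin n) × (Fin n → Bool) where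
  toFun x := (gr n x, fun v => x s(v, v))
  invFun p := vecOf n p.1 p.2
  left_inv x := by
    funext e
    induction e using Sym2.ind with
    | _ u v =>
      change vecOf n (gr n x) (fun v => x s(v, v)) s(u, v) = x s(u, v)
      rw [vecOf_mk]
      by_cases h : u = v
      · subst h; simp
      · rw [if_neg h]
        simp only [gr]
        by_cases hx : x s(u, v) = true
        · simp [h, hx]
        · simp [hx]
  right_inv p := by
    obtain ⟨G, y⟩ := p
    refine Prod.ext (gr_vecOf n G y) ?_
    funext v
    simp [vecOf_mk]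

theorem G0 : Count_stmt := by
  intro n Q
  set c : ℝ := (1 / 2 : ℝ) ^ (n.choose 2 + n) with hc
  have h2 : PP (fun (_ : Sym2 (Fin n)) (_ : Bool) => (1 / 2 : ℝ)) {x | Q (gr n x)}
      = ∑ p : SimpleGraph (Fin n) × (Fin n → Bool), (if Q p.1 then c else 0) := by
    unfold PP
    refine Finset.sum_equiv (vecEquiv n) (fun x => ?_) fun x _ => ?_
    · exact ⟨fun _ => Finset.mem_univ _, fun _ => by simp only [Finset.mem_univ]⟩
    have h1 : (∏ _i : Sym2 (Fin n), (1 / 2 : ℝ)) = c := by
      rw [Finset.prod_const, Finset.card_univ, Sym2.card, Fintype.card_fin,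
        Nat.choose_succ_succ' n 1, Nat.choose_one_right, Nat.add_comm]
    rw [← h1]
    by_cases h : Q (gr n x)
    · have h' : x ∈ {x | Q (gr n x)} := h
      have h'' : Q (vecEquiv n x).1 := h
      rw [if_pos h', if_pos h'']
    · have h' : x ∉ {x | Q (gr n x)} := h
      have h'' : ¬ Q (vecEquiv n x).1 := h
      rw [if_neg h', if_neg h'']
  have h4 : ∀ G : SimpleGraph (Fin n), (∑ y : Fin n → Bool, (if Q (G, y).1 then c else 0))
      = if Q G then 2 ^ n * c else 0 := by
    intro G
    by_cases h : Q G
    · rw [if_pos h]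
      have : ∀ y : Fin n → Bool, (if Q (G, y).1 then c else 0) = c := fun y => if_pos h
      rw [Finset.sum_congr rfl fun y _ => this y, Finset.sum_const, Finset.card_univ]
      simp
    · rw [if_neg h]
      exact Finset.sum_eq_zero fun y _ => if_neg h
  rw [h2, Fintype.sum_prod_type, Finset.sum_congr rfl fun G _ => h4 G, Finset.sum_ite,
    Finset.sum_const, Finset.sum_const_zero, add_zero,
    Nat.card_eq_fintype_card, Fintype.card_subtype, nsmul_eq_mul, hc, pow_add, one_div_pow,
    one_div_pow]
  field_simp

end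

end Pool.Agent.Helper15.LR
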