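import Pool.Agent.Helper15.LR.Defs

set_option autoImplicit false

/-!
Module G1: degrees of a random graph are concentrated, and few of them are large.
-/

open Finset Filter
open scoped Classical Topology

namespace Pool.Agent.Helper15.LR

noncomputable section

namespace G1

/-- fair coins -/
def wh (n : ℕ) : Sym2 (Fin n) → Bool → ℝ := fun _ _ => (1 / 2 : ℝ)

lemma wh_nonneg (n : ℕ) : ∀ i k, 0 ≤ wh n i k := fun _ _ => by norm_num [wh]

lemma wh_sum (n : ℕ) : ∀ i, ∑ k, wh n i k = 1 := fun _ => by simp [wh]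

lemma PP_union {ι κ J : Type} [Fintype ι] [Fintype κ] [Fintype J] (w : ι → κ → ℝ)
    (hw : ∀ i k, 0 ≤ w i k) (E : Set (ι → κ)) (F : J → Set (ι → κ))
    (h : ∀ x ∈ E, ∃ j, x ∈ F j) : PP w E ≤ ∑ j, PP w (F j) := by
  unfold PP
  rw [Finset.sum_comm]
  apply Finset.sum_le_sum
  intro x _
  have hp : 0 ≤ ∏ i, w i (x i) := Finset.prod_nonneg (fun i _ => hw i _)
  by_cases hx : x ∈ E
  · obtain ⟨j, hj⟩ := h x hx
    rw [if_pos hx]
    calc ∏ i, w i (x i) = (if x ∈ F j then ∏ i, w i (x i) else 0) := by rw [if_pos hj]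
      _ ≤ _ := Finset.single_le_sum
          (f := fun j => if x ∈ F j then ∏ i, w i (x i) else 0)
          (fun j _ => by
            by_cases hj' : x ∈ F j
            · simp only [if_pos hj']; exact hp
            · simp only [if_neg hj']; exact le_refl _) (Finset.mem_univ j)
  · rw [if_neg hx]
    refine Finset.sum_nonneg (fun j _ => ?_)
    by_cases hj' : x ∈ F j
    · simp only [if_pos hj']; exact hp
    · simp only [if_neg hj']; exact le_refl _

lemma PP_mono {ι κ : Type} [Fintype ι] [Fintype κ] (w : ι → κ → ℝ)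
    (hw : ∀ i k, 0 ≤ w i k) (E F : Set (ι → κ)) (h : E ⊆ F) : PP w E ≤ PP w F := by
  have := PP_union (J := Unit) w hw E (fun _ => F) (fun x hx => ⟨(), h hx⟩)
  simpa using this

lemma PP_nonneg {ι κ : Type} [Fintype ι] [Fintype κ] (w : ι → κ → ℝ)
    (hw : ∀ i k, 0 ≤ w i k) (E : Set (ι → κ)) : 0 ≤ PP w E := by
  unfold PP
  refine Finset.sum_nonneg (fun x _ => ?_)
  have hp : 0 ≤ ∏ i, w i (x i) := Finset.prod_nonneg (fun i _ => hw i _)
  by_cases hj' : x ∈ E
  · simp only [if_pos hj']; exact hp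
  · simp only [if_neg hj']; exact le_refl _

/-- the pairs at `v` -/
def TT (n : ℕ) (v : Fin n) : Finset (Sym2 (Fin n)) :=
  (univ.filter (fun u => v ≠ u)).image (fun u => s(v, u))

lemma inj_s (n : ℕ) (v : Fin n) : Function.Injective (fun u : Fin n => s(v, u)) := by
  intro a b h
  exact Sym2.congr_right.mp h

lemma card_TT (n : ℕ) (v : Fin n) : (TT n v).card = n - 1 := by
  unfold TT
  rw [Finset.card_image_of_injective _ (inj_s n v)]
  have : (univ.filter (fun u : Fin n => v ≠ u)) = univ.erase v := by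
    ext u
    simp [eq_comm]
  rw [this, Finset.card_erase_of_mem (Finset.mem_univ v), Finset.card_univ, Fintype.card_fin]

lemma dg_gr (n : ℕ) (x : Sym2 (Fin n) → Bool) (v : Fin n) :
    (dg (gr n x).edgeSet v : ℝ) =
      ∑ i ∈ TT n v, (if x i = true then (1 : ℝ) else 0) := by
  unfold TT
  rw [Finset.sum_image (fun a _ b _ h => inj_s n v h)]
  rw [Finset.sum_filter]
  unfold dg nb
  rw [Finset.card_filter]
  push_cast
  apply Finset.sum_congr rfl
  intro u _
  simp only [SimpleGraph.mem_edgeSet, gr]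
  by_cases h1 : v ≠ u <;> by_cases h2 : x s(v, u) = true <;> simp [h1, h2]

lemma dg_dev (n : ℕ) (x : Sym2 (Fin n) → Bool) (v : Fin n) :
    ∑ i ∈ TT n v, (if x i = true then (1 / 2 : ℝ) else -(1 / 2)) =
      (dg (gr n x).edgeSet v : ℝ) - (n - 1) / 2 := by
  rw [dg_gr]
  have h1 : ((n : ℝ) - 1) / 2 = ∑ i ∈ TT n v, (1 / 2 : ℝ) := by
    rw [Finset.sum_const, card_TT, nsmul_eq_mul]
    have hn : 1 ≤ n := by
      have := v.2
      omega
    push_cast [Nat.cast_sub hn]
    ring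
  rw [h1, ← Finset.sum_sub_distrib]
  apply Finset.sum_congr rfl
  intro i _
  by_cases h2 : x i = true <;> norm_num [h2]

/-- concentration of one degree -/
lemma one_deg (hH : Hoeffding_stmt) (n : ℕ) (hn : 2 ≤ n) (v : Fin n) (s : ℝ) (hs : 0 ≤ s) :
    PP (wh n) {x | s ≤ |(dg (gr n x).edgeSet v : ℝ) - (n - 1) / 2|} ≤
      2 * Real.exp (-(2 * s ^ 2 / n)) := by
  have h := hH (Sym2 (Fin n)) Bool (wh n) (TT n v)
    (fun _ k => if k = true then (1 / 2 : ℝ) else -(1 / 2)) (1 / 2) s (wh_nonneg n) (wh_sum n)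
    (by norm_num) hs (by intro i k; cases k <;> norm_num) (by intro i; simp [wh])
  have h2 : {x : Sym2 (Fin n) → Bool | s ≤ |(dg (gr n x).edgeSet v : ℝ) - (n - 1) / 2|} =
      {x | s ≤ |∑ i ∈ TT n v, (if x i = true then (1 / 2 : ℝ) else -(1 / 2))|} := by
    ext x
    simp only [Set.mem_ofPred_eq]
    rw [dg_dev]
  rw [h2]
  refine le_trans h ?_
  apply mul_le_mul_of_nonneg_left _ (by norm_num)
  apply Real.exp_le_exp.mpr
  rw [card_TT]
  have hn1 : (0 : ℝ) < (n : ℝ) - 1 := by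
    have : (2 : ℝ) ≤ n := by exact_mod_cast hn
    linarith
  have hc : ((n - 1 : ℕ) : ℝ) = (n : ℝ) - 1 := by
    push_cast [Nat.cast_sub (show 1 ≤ n by omega)]
    ring
  rw [hc, neg_div]
  apply neg_le_neg
  have hn0 : (0 : ℝ) < n := by linarith
  rw [div_le_div_iff₀ hn0 (by nlinarith)]
  nlinarith [sq_nonneg s]

lemma SS_sq (n : ℕ) : SS n ^ 2 = n * Real.log n := by
  unfold SS
  rw [Real.sq_sqrt]
  exact mul_nonneg (Nat.cast_nonneg n) (Real.log_natCast_nonneg n)

lemma SS_nonneg (n : ℕ) : 0 ≤ SS n := Real.sqrt_nonneg _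

lemma log_le (n : ℕ) (hn : 1 ≤ n) : Real.log n ≤ n := by
  have h : (0 : ℝ) < n := by exact_mod_cast hn
  have := Real.log_le_sub_one_of_pos h
  linarith

lemma SS_le (n : ℕ) (hn : 1 ≤ n) : SS n ≤ n := by
  have h := log_le n hn
  have h0 : (0 : ℝ) ≤ n := Nat.cast_nonneg n
  have h2 : SS n ^ 2 ≤ (n : ℝ) ^ 2 := by
    rw [SS_sq]
    nlinarith
  exact le_of_sq_le_sq h2 h0

lemma exp_log (n : ℕ) (hn : 1 ≤ n) (c : ℝ) : Real.exp (-(c * Real.log n)) = (n : ℝ) ^ (-c) := by
  have h : (0 : ℝ) < n := by exact_mod_cast hn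
  rw [Real.rpow_def_of_pos h]
  congr 1
  ring

lemma AA_of (hC : Count_stmt) (P : ∀ n : ℕ, SimpleGraph (Fin n) → Prop) (b : ℕ → ℝ)
    (hb : Tendsto b atTop (𝓝 0))
    (h : ∀ᶠ n : ℕ in atTop, PP (wh n) {x | ¬ P n (gr n x)} ≤ b n) : AA P := by
  unfold AA
  refine squeeze_zero' (Filter.Eventually.of_forall (fun n => by positivity)) ?_ hb
  filter_upwards [h] with n hn
  rw [hC n (fun G => ¬ P n G)]
  exact hn

lemma deg_bound (n : ℕ) (hn : 1 ≤ n) (s : ℝ) (hs : SS n - 1 / 2 = s) :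
    Real.exp (-(2 * s ^ 2 / n)) ≤ Real.exp 2 * (n : ℝ) ^ (-2 : ℝ) := by
  rw [← exp_log n hn, ← Real.exp_add]
  apply Real.exp_le_exp.mpr
  have h : (0 : ℝ) < n := by exact_mod_cast hn
  have h1 : s ^ 2 = n * Real.log n - SS n + 1 / 4 := by
    rw [← hs, ← SS_sq]
    ring
  have h2 : n * Real.log n - n ≤ s ^ 2 := by
    rw [h1]
    linarith [SS_le n hn]
  have h3 : 2 * Real.log n - 2 ≤ 2 * s ^ 2 / n := by
    rw [le_div_iff₀ h]
    nlinarith
  linarith

end G1

open G1 in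
theorem G1_Deg (hC : Count_stmt) (hH : Hoeffding_stmt) : Deg_stmt := by
  unfold Deg_stmt
  refine AA_of hC _ (fun n => (2 * Real.exp 2) * (n : ℝ) ^ (-1 : ℝ)) ?_ ?_
  · have h1 : Tendsto (fun n : ℕ => (n : ℝ) ^ (-1 : ℝ)) atTop (𝓝 0) :=
      (tendsto_rpow_neg_atTop (by norm_num : (0 : ℝ) < 1)).comp tendsto_natCast_atTop_atTop
    have := h1.const_mul (2 * Real.exp 2)
    simpa using this
  · filter_upwards [eventually_ge_atTop 10] with n hn
    have hn0 : (0 : ℝ) < n := by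
      have : 0 < n := by omega
      exact_mod_cast this
    have hS : 1 / 2 ≤ SS n := by
      have h1 : (1 : ℝ) ≤ Real.log n := by
        rw [Real.le_log_iff_exp_le hn0]
        have : (10 : ℝ) ≤ n := by exact_mod_cast hn
        have h3 := Real.exp_one_lt_d9
        linarith
      have h2 : (1 / 2 : ℝ) ^ 2 ≤ SS n ^ 2 := by
        rw [SS_sq]
        have : (10 : ℝ) ≤ n := by exact_mod_cast hn
        nlinarith
      exact le_of_sq_le_sq h2 (SS_nonneg n)
    have hU := PP_union (wh n) (wh_nonneg n)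
      {x | ¬ ∀ v, |(dg (gr n x).edgeSet v : ℝ) - n / 2| ≤ SS n}
      (fun v : Fin n => {x | SS n - 1 / 2 ≤ |(dg (gr n x).edgeSet v : ℝ) - (n - 1) / 2|}) (by
        intro x hx
        simp only [Set.mem_ofPred_eq, not_forall, not_le] at hx ⊢
        obtain ⟨v, hv⟩ := hx
        refine ⟨v, ?_⟩
        have h1 : |(dg (gr n x).edgeSet v : ℝ) - n / 2| ≤
            |(dg (gr n x).edgeSet v : ℝ) - (n - 1) / 2| + 1 / 2 := by
          have h2 : (dg (gr n x).edgeSet v : ℝ) - n / 2 =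
              ((dg (gr n x).edgeSet v : ℝ) - (n - 1) / 2) + (-(1 / 2)) := by ring
          rw [h2]
          refine le_trans (abs_add_le _ _) ?_
          rw [abs_neg, abs_of_pos (by norm_num : (0 : ℝ) < 1 / 2)]
        linarith)
    refine le_trans hU ?_
    have hB : ∀ v : Fin n,
        PP (wh n) {x | SS n - 1 / 2 ≤ |(dg (gr n x).edgeSet v : ℝ) - (n - 1) / 2|} ≤
        2 * (Real.exp 2 * (n : ℝ) ^ (-2 : ℝ)) := by
      intro v
      refine le_trans (one_deg hH n (by omega) v (SS n - 1 / 2) (by linarith)) ?_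
      exact mul_le_mul_of_nonneg_left (deg_bound n (by omega) _ rfl) (by norm_num)
    refine le_trans (Finset.sum_le_sum (fun v _ => hB v)) ?_
    rw [Finset.sum_const, Finset.card_univ, Fintype.card_fin, nsmul_eq_mul]
    apply le_of_eq
    have h4 : (n : ℝ) * (n : ℝ) ^ (-2 : ℝ) = (n : ℝ) ^ (-1 : ℝ) := by
      nth_rewrite 1 [← Real.rpow_one (n : ℝ)]
      rw [← Real.rpow_add hn0]
      norm_num
    rw [← h4]
    ring

open G1 in
theorem G1_Few (hC : Count_stmt) (hM : Markov_stmt) (hH : Hoeffding_stmt) : Few_stmt := by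
  unfold Few_stmt
  refine AA_of hC _ (fun n => 2 * (n : ℝ) ^ (-(1 / 25) : ℝ)) ?_ ?_
  · have h1 : Tendsto (fun n : ℕ => (n : ℝ) ^ (-(1 / 25) : ℝ)) atTop (𝓝 0) :=
      (tendsto_rpow_neg_atTop (by norm_num : (0 : ℝ) < 1 / 25)).comp tendsto_natCast_atTop_atTop
    have := h1.const_mul 2
    simpa using this
  · filter_upwards [eventually_ge_atTop 10] with n hn
    have hn0 : (0 : ℝ) < n := by
      have : 0 < n := by omega
      exact_mod_cast this
    have hn1 : (1 : ℝ) ≤ n := by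
      have : 1 ≤ n := by omega
      exact_mod_cast this
    have hsub : {x : Sym2 (Fin n) → Bool | ¬ ((univ.filter (fun v =>
        (n : ℝ) / 2 + 13 / 25 * SS n ≤ (dg (gr n x).edgeSet v : ℝ))).card : ℝ) ≤ Real.sqrt n} ⊆
        {x | Real.sqrt n ≤ ((univ.filter (fun v : Fin n =>
          x ∈ {y : Sym2 (Fin n) → Bool | 13 / 25 * SS n ≤
            |(dg (gr n y).edgeSet v : ℝ) - (n - 1) / 2|})).card : ℝ)} := by
      intro x hx
      simp only [Set.mem_ofPred_eq, not_le] at hx ⊢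
      refine le_trans hx.le ?_
      have : (univ.filter (fun v =>
          (n : ℝ) / 2 + 13 / 25 * SS n ≤ (dg (gr n x).edgeSet v : ℝ))) ⊆
          (univ.filter (fun v : Fin n => 13 / 25 * SS n ≤
            |(dg (gr n x).edgeSet v : ℝ) - (n - 1) / 2|)) := by
        intro v hv
        simp only [Finset.mem_filter, Finset.mem_univ, true_and] at hv ⊢
        refine le_trans ?_ (le_abs_self _)
        linarith
      exact_mod_cast Finset.card_le_card this
    refine le_trans (PP_mono (wh n) (wh_nonneg n) _ _ hsub) ?_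
    refine le_trans (hM (Sym2 (Fin n)) Bool (Fin n) (wh n)
      (fun v => {y : Sym2 (Fin n) → Bool | 13 / 25 * SS n ≤
            |(dg (gr n y).edgeSet v : ℝ) - (n - 1) / 2|}) (Real.sqrt n)
      (wh_nonneg n) (wh_sum n) (Real.sqrt_pos.mpr hn0)) ?_
    have hB : ∀ v : Fin n,
        PP (wh n) {y : Sym2 (Fin n) → Bool | 13 / 25 * SS n ≤
            |(dg (gr n y).edgeSet v : ℝ) - (n - 1) / 2|} ≤
        2 * (n : ℝ) ^ (-(27 / 50) : ℝ) := by
      intro v
      refine le_trans (one_deg hH n (by omega) v (13 / 25 * SS n)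
        (mul_nonneg (by norm_num) (SS_nonneg n))) ?_
      apply mul_le_mul_of_nonneg_left _ (by norm_num)
      rw [← exp_log n (by omega)]
      apply Real.exp_le_exp.mpr
      apply neg_le_neg
      rw [le_div_iff₀ hn0, mul_pow, SS_sq]
      have h0 : 0 ≤ Real.log n := Real.log_natCast_nonneg n
      have h1 : 0 ≤ (n : ℝ) * Real.log n := mul_nonneg hn0.le h0
      nlinarith
    rw [div_le_iff₀ (Real.sqrt_pos.mpr hn0)]
    refine le_trans (Finset.sum_le_sum (fun v _ => hB v)) ?_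
    rw [Finset.sum_const, Finset.card_univ, Fintype.card_fin, nsmul_eq_mul]
    apply le_of_eq
    rw [Real.sqrt_eq_rpow]
    have h4 : (n : ℝ) * (n : ℝ) ^ (-(27 / 50) : ℝ) = (n : ℝ) ^ (-(1 / 25) : ℝ) * (n : ℝ) ^ (1 / 2 : ℝ) := by
      rw [← Real.rpow_add hn0]
      nth_rewrite 1 [← Real.rpow_one (n : ℝ)]
      rw [← Real.rpow_add hn0]
      norm_num
    calc (n : ℝ) * (2 * (n : ℝ) ^ (-(27 / 50) : ℝ)) = 2 * ((n : ℝ) * (n : ℝ) ^ (-(27 / 50) : ℝ)) := by ring
      _ = _ := by rw [h4]; ring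

end

end Pool.Agent.Helper15.LR
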