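import Pool.Agent.Helper15.LR.Defs

set_option autoImplicit false

open Finset Filter
open scoped Classical Topology

namespace Pool.Agent.Helper15.LR

noncomputable section

/-! ### uniform measure on 0/1 vectors -/

theorem G2_PP_mono {ι κ : Type} [Fintype ι] [Fintype κ] (w : ι → κ → ℝ)
    (hw : ∀ i k, 0 ≤ w i k) {E F : Set (ι → κ)} (h : E ⊆ F) : PP w E ≤ PP w F := by
  unfold PP
  refine Finset.sum_le_sum fun x _ => ?_
  by_cases hx : x ∈ E
  · rw [if_pos hx, if_pos (h hx)]
  · rw [if_neg hx]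
    by_cases hF : x ∈ F
    · rw [if_pos hF]
      exact Finset.prod_nonneg fun i _ => hw _ _
    · rw [if_neg hF]

theorem G2_PP_nonneg {ι κ : Type} [Fintype ι] [Fintype κ] (w : ι → κ → ℝ)
    (hw : ∀ i k, 0 ≤ w i k) (E : Set (ι → κ)) : 0 ≤ PP w E := by
  unfold PP
  refine Finset.sum_nonneg fun x _ => ?_
  by_cases hx : x ∈ E
  · rw [if_pos hx]
    exact Finset.prod_nonneg fun i _ => hw _ _
  · rw [if_neg hx]

theorem G2_PP_union {ι κ : Type} [Fintype ι] [Fintype κ] (w : ι → κ → ℝ)
    (hw : ∀ i k, 0 ≤ w i k) (E F : Set (ι → κ)) : PP w (E ∪ F) ≤ PP w E + PP w F := by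
  unfold PP
  rw [← Finset.sum_add_distrib]
  refine Finset.sum_le_sum fun x _ => ?_
  have hp : 0 ≤ ∏ i, w i (x i) := Finset.prod_nonneg fun i _ => hw _ _
  by_cases hE : x ∈ E <;> by_cases hF : x ∈ F
  · rw [if_pos (Set.mem_union_left F hE), if_pos hE, if_pos hF]; linarith
  · rw [if_pos (Set.mem_union_left F hE), if_pos hE, if_neg hF]; linarith
  · rw [if_pos (Set.mem_union_right E hF), if_neg hE, if_pos hF]; linarith
  · rw [if_neg (fun h : x ∈ E ∪ F => h.elim hE hF), if_neg hE, if_neg hF]; linarith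

theorem G2_PP_biUnion {ι κ J : Type} [Fintype ι] [Fintype κ] (w : ι → κ → ℝ)
    (hw : ∀ i k, 0 ≤ w i k) (s : Finset J) (E : J → Set (ι → κ)) :
    PP w {x | ∃ j ∈ s, x ∈ E j} ≤ ∑ j ∈ s, PP w (E j) := by
  induction s using Finset.induction_on with
  | empty =>
    have : ({x | ∃ j ∈ (∅ : Finset J), x ∈ E j} : Set (ι → κ)) = ∅ := by
      ext x; simp
    rw [this]
    simp [PP]
  | insert a s ha ih =>
    rw [Finset.sum_insert ha]
    have hsub : ({x | ∃ j ∈ insert a s, x ∈ E j} : Set (ι → κ)) ⊆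
        E a ∪ {x | ∃ j ∈ s, x ∈ E j} := by
      rintro x ⟨j, hj, hx⟩
      rcases Finset.mem_insert.1 hj with rfl | hj
      · exact Or.inl hx
      · exact Or.inr ⟨j, hj, hx⟩
    exact (G2_PP_mono w hw hsub).trans ((G2_PP_union w hw _ _).trans (by linarith))

theorem G2_PP_unif {ι : Type} [Fintype ι] (E : Set (ι → Bool)) :
    PP (fun (_ : ι) (_ : Bool) => (1 / 2 : ℝ)) E =
      (Nat.card {x // x ∈ E} : ℝ) / 2 ^ (Nat.card ι) := by
  unfold PP
  simp only [Finset.prod_const, Finset.card_univ]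
  rw [← Finset.sum_filter, Finset.sum_const, nsmul_eq_mul, div_pow, one_pow,
    Nat.card_eq_fintype_card, Nat.card_eq_fintype_card, Fintype.card_subtype]
  ring

theorem G2_card_compl {B : Type} [Fintype B] (E : Set (B → Bool)) :
    (Nat.card {z // z ∉ E} : ℝ) = 2 ^ (Nat.card B) - (Nat.card {z // z ∈ E} : ℝ) := by
  have h : Nat.card {z // z ∈ E} + Nat.card {z // z ∉ E} = 2 ^ (Nat.card B) := by
    rw [← Nat.card_sum, Nat.card_congr (Equiv.sumCompl (fun z => z ∈ E)), Nat.card_fun,
      Nat.card_eq_fintype_card (α := Bool), Fintype.card_bool]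
  have h' := congrArg (Nat.cast : ℕ → ℝ) h
  push_cast at h'
  linarith

theorem G2_marg {ι I : Type} [Fintype ι] [Fintype I] (f : I → ι) (hf : Function.Injective f)
    (E : Set (I → Bool)) (F : Set (ι → Bool)) (hF : ∀ x, x ∈ F ↔ x ∘ f ∈ E) :
    PP (fun (_ : ι) (_ : Bool) => (1 / 2 : ℝ)) F =
      PP (fun (_ : I) (_ : Bool) => (1 / 2 : ℝ)) E := by
  rw [G2_PP_unif, G2_PP_unif]
  let C := {i : ι // i ∉ Set.range f}
  let e : {x // x ∈ F} ≃ {y // y ∈ E} × (C → Bool) :=
    { toFun := fun x => (⟨x.1 ∘ f, (hF x.1).1 x.2⟩, fun i => x.1 i.1)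
      invFun := fun p => ⟨fun i => if h : i ∈ Set.range f then p.1.1 h.choose else p.2 ⟨i, h⟩, by
        rw [hF]
        have : (fun i => if h : i ∈ Set.range f then p.1.1 h.choose else p.2 ⟨i, h⟩) ∘ f =
            p.1.1 := by
          funext j
          have h : f j ∈ Set.range f := ⟨j, rfl⟩
          simp only [Function.comp, dif_pos h]
          rw [hf h.choose_spec]
        rw [this]
        exact p.1.2⟩
      left_inv := by
        intro x
        refine Subtype.ext ?_
        funext i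
        by_cases h : i ∈ Set.range f
        · simp only [dif_pos h, Function.comp]
          rw [h.choose_spec]
        · simp only [dif_neg h]
      right_inv := by
        rintro ⟨y, z⟩
        refine Prod.ext (Subtype.ext ?_) ?_
        · funext j
          have h : f j ∈ Set.range f := ⟨j, rfl⟩
          simp only [Function.comp, dif_pos h]
          rw [hf h.choose_spec]
        · funext i
          simp only [dif_neg i.2]
          rfl }
  have h1 : Nat.card {x // x ∈ F} = Nat.card {y // y ∈ E} * 2 ^ (Nat.card C) := by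
    rw [Nat.card_congr e, Nat.card_prod, Nat.card_fun, Nat.card_eq_fintype_card (α := Bool),
      Fintype.card_bool]
  have h3 : Nat.card ι = Nat.card I + Nat.card C := by
    rw [← Nat.card_congr (Equiv.sumCompl (fun i => i ∈ Set.range f)), Nat.card_sum]
    congr 1
    exact Nat.card_congr (Equiv.ofInjective f hf).symm
  rw [h1, h3, pow_add]
  push_cast
  have : (2 : ℝ) ^ (Nat.card C) ≠ 0 := by positivity
  field_simp

theorem G2_prod {A B : Type} [Fintype A] [Fintype B] (E : Set (B → Bool))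
    (F : Set (A × B → Bool)) (hF : ∀ y, y ∈ F ↔ ∀ a, (fun b => y (a, b)) ∉ E) :
    PP (fun (_ : A × B) (_ : Bool) => (1 / 2 : ℝ)) F =
      (1 - PP (fun (_ : B) (_ : Bool) => (1 / 2 : ℝ)) E) ^ (Nat.card A) := by
  rw [G2_PP_unif, G2_PP_unif]
  let e : {y // y ∈ F} ≃ (A → {z // z ∉ E}) :=
    { toFun := fun y a => ⟨fun b => y.1 (a, b), (hF y.1).1 y.2 a⟩
      invFun := fun g => ⟨fun p => (g p.1).1 p.2, (hF _).2 fun a => (g a).2⟩
      left_inv := fun y => rfl
      right_inv := fun g => rfl }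
  rw [Nat.card_congr e, Nat.card_fun, Nat.card_prod]
  push_cast
  rw [G2_card_compl, mul_comm (Nat.card A), pow_mul, ← div_pow]
  congr 1
  have : (2 : ℝ) ^ (Nat.card B) ≠ 0 := by positivity
  field_simp

theorem G2_binom {B : Type} [Fintype B] (t : ℝ) :
    ((univ.filter (fun z : B → Bool =>
        t ≤ ((univ.filter (fun b => z b = true)).card : ℝ))).card : ℝ) =
      ∑ j ∈ (range (Fintype.card B + 1)).filter (fun j : ℕ => t ≤ (j : ℝ)),
        ((Fintype.card B).choose j : ℝ) := by
  have h1 : ∀ j : ℕ, (univ.filter (fun z : B → Bool =>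
      (univ.filter (fun b => z b = true)).card = j)).card = (Fintype.card B).choose j := by
    intro j
    rw [← Finset.card_univ, ← Finset.card_powersetCard]
    refine Finset.card_bij (fun z _ => univ.filter (fun b => z b = true)) ?_ ?_ ?_
    · intro z hz
      rw [Finset.mem_powersetCard]
      exact ⟨Finset.subset_univ _, (Finset.mem_filter.1 hz).2⟩
    · intro z _ z' _ h
      funext b
      have hb : b ∈ univ.filter (fun b => z b = true) ↔
          b ∈ univ.filter (fun b => z' b = true) := by rw [h]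
      simp only [Finset.mem_filter, Finset.mem_univ, true_and] at hb
      cases hz : z b <;> cases hz' : z' b <;> simp_all
    · intro s hs
      rw [Finset.mem_powersetCard] at hs
      refine ⟨fun b => decide (b ∈ s), ?_, ?_⟩
      · simp only [Finset.mem_filter, Finset.mem_univ, true_and, decide_eq_true_eq]
        rw [Finset.filter_univ_mem]
        exact hs.2
      · simp only [decide_eq_true_eq]
        exact Finset.filter_univ_mem s
  have h2 : (univ.filter (fun z : B → Bool =>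
        t ≤ ((univ.filter (fun b => z b = true)).card : ℝ))).card =
      ∑ j ∈ (range (Fintype.card B + 1)).filter (fun j : ℕ => t ≤ (j : ℝ)),
        ((Fintype.card B).choose j) := by
    rw [Finset.card_eq_sum_card_fiberwise
      (f := fun z : B → Bool => (univ.filter (fun b => z b = true)).card)
      (t := (range (Fintype.card B + 1)).filter (fun j : ℕ => t ≤ (j : ℝ)))]
    · refine Finset.sum_congr rfl fun j hj => ?_
      rw [← h1 j]
      congr 1
      ext z
      simp only [Finset.mem_filter, Finset.mem_univ, true_and]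
      constructor
      · exact fun h => h.2
      · intro h
        refine ⟨?_, h⟩
        rw [h]
        exact (Finset.mem_filter.1 hj).2
    · intro z hz
      simp only [Finset.coe_filter, Finset.mem_univ, true_and, Set.mem_ofPred_eq] at hz
      simp only [Finset.coe_filter, Set.mem_ofPred_eq, Finset.mem_range]
      refine ⟨?_, hz⟩
      have := Finset.card_le_univ (univ.filter (fun b => z b = true))
      omega
  rw [h2]
  push_cast
  rfl

theorem G2_binom' {B : Type} [Fintype B] (t : ℝ) :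
    (Nat.card {z : B → Bool // t ≤ ((univ.filter (fun b => z b = true)).card : ℝ)} : ℝ) =
      ∑ j ∈ (range (Fintype.card B + 1)).filter (fun j : ℕ => t ≤ (j : ℝ)),
        ((Fintype.card B).choose j : ℝ) := by
  rw [← G2_binom, Nat.card_eq_fintype_card, Fintype.card_subtype]

/-! ### degrees of `gr n x` -/

theorem G2_dg {n : ℕ} (x : Sym2 (Fin n) → Bool) (v : Fin n) :
    dg (gr n x).edgeSet v = (univ.filter (fun u : Fin n => v ≠ u ∧ x s(v, u) = true)).card := by
  unfold dg nb
  congr 1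
  ext u
  simp only [Finset.mem_filter, Finset.mem_univ, true_and, SimpleGraph.mem_edgeSet]
  exact Iff.rfl

/-- the coordinates of the edges from `v` to the first `k` vertices -/
def G2_T (n k : ℕ) (v : Fin n) : Finset (Sym2 (Fin n)) :=
  (univ.filter (fun u : Fin n => u.val < k ∧ u ≠ v)).image (fun u => s(v, u))

theorem G2_inj {n : ℕ} (v : Fin n) : Function.Injective (fun u : Fin n => s(v, u)) := by
  intro a b h
  exact Sym2.congr_right.1 h

theorem G2_T_card {n k : ℕ} (hk : k ≤ n) {v : Fin n} (hv : v.val < k) :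
    (G2_T n k v).card = k - 1 := by
  unfold G2_T
  rw [Finset.card_image_of_injective _ (G2_inj v)]
  have h1 : (univ.filter (fun u : Fin n => u.val < k ∧ u ≠ v)) =
      (univ.filter (fun u : Fin n => u.val < k)).erase v := by
    ext u
    simp only [Finset.mem_filter, Finset.mem_univ, true_and, Finset.mem_erase]
    tauto
  rw [h1, Finset.card_erase_of_mem (by simp [hv])]
  congr 1
  have h2 : (univ.filter (fun u : Fin n => u.val < k)).card = k := by
    have h3 : (univ.filter (fun u : Fin n => u.val < k)).card = (Finset.range k).card := by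
      refine Finset.card_bij (fun u _ => u.val) ?_ ?_ ?_
      · intro u hu
        exact Finset.mem_range.2 (Finset.mem_filter.1 hu).2
      · intro u _ u' _ h
        exact Fin.ext h
      · intro j hj
        have hj' := Finset.mem_range.1 hj
        exact ⟨⟨j, by omega⟩, by simp [hj'], rfl⟩
    rw [h3, Finset.card_range]
  exact h2

/-- centred coordinates -/
def G2_c (b : Bool) : ℝ := if b = true then 1 / 2 else -1 / 2

theorem G2_sum {n k : ℕ} (x : Sym2 (Fin n) → Bool) (v : Fin n) :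
    ∑ e ∈ G2_T n k v, G2_c (x e) =
      ((univ.filter (fun u : Fin n => (u.val < k ∧ u ≠ v) ∧ x s(v, u) = true)).card : ℝ) -
        (G2_T n k v).card / 2 := by
  have h1 : ∀ b, G2_c b = (if b = true then 1 else 0) - 1 / 2 := by
    intro b
    cases b <;> norm_num [G2_c]
  unfold G2_T
  rw [Finset.sum_image (fun a _ b _ h => G2_inj v h),
    Finset.card_image_of_injective _ (G2_inj v)]
  simp only [h1]
  rw [Finset.sum_sub_distrib, Finset.sum_boole, Finset.filter_filter, Finset.sum_const,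
    nsmul_eq_mul]
  ring

theorem G2_deg_lower {n k : ℕ} (hk : k ≤ n) (h1 : 1 ≤ k) (x : Sym2 (Fin n) → Bool) {v : Fin n}
    (hv : v.val < k) (s t : ℝ) (hs : |∑ e ∈ G2_T n k v, G2_c (x e)| < s)
    (ht : t ≤ ((univ.filter (fun b : {u : Fin n // ¬ u.val < k} => x s(v, b.1) = true)).card : ℝ)) :
    t + ((k : ℝ) - 1) / 2 - s ≤ (dg (gr n x).edgeSet v : ℝ) := by
  have e1 : (univ.filter (fun u : Fin n => v ≠ u ∧ x s(v, u) = true)).card =
      (univ.filter (fun u : Fin n => (u.val < k ∧ u ≠ v) ∧ x s(v, u) = true)).card +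
      (univ.filter (fun b : {u : Fin n // ¬ u.val < k} => x s(v, b.1) = true)).card := by
    have e2 : (univ.filter (fun b : {u : Fin n // ¬ u.val < k} => x s(v, b.1) = true)).card =
        (univ.filter (fun u : Fin n => ¬ u.val < k ∧ x s(v, u) = true)).card := by
      refine Finset.card_bij (fun b _ => b.1) ?_ ?_ ?_
      · intro b hb
        simp only [Finset.mem_filter, Finset.mem_univ, true_and] at hb ⊢
        exact ⟨b.2, hb⟩
      · intro b _ b' _ h
        exact Subtype.ext h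
      · intro u hu
        simp only [Finset.mem_filter, Finset.mem_univ, true_and] at hu
        exact ⟨⟨u, hu.1⟩, by simp only [Finset.mem_filter, Finset.mem_univ, true_and]; exact hu.2,
          rfl⟩
    rw [e2, ← Finset.card_union_of_disjoint]
    · congr 1
      ext u
      simp only [Finset.mem_filter, Finset.mem_univ, true_and, Finset.mem_union]
      constructor
      · rintro ⟨h2, h3⟩
        by_cases h4 : u.val < k
        · exact Or.inl ⟨⟨h4, fun h => h2 h.symm⟩, h3⟩
        · exact Or.inr ⟨h4, h3⟩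
      · rintro (⟨⟨h4, h5⟩, h3⟩ | ⟨h4, h3⟩)
        · exact ⟨fun h => h5 h.symm, h3⟩
        · refine ⟨?_, h3⟩
          intro h
          rw [h] at hv
          exact h4 hv
    · rw [Finset.disjoint_left]
      intro u hu hu'
      simp only [Finset.mem_filter, Finset.mem_univ, true_and] at hu hu'
      exact hu'.1 hu.1.1
  rw [G2_dg, e1]
  push_cast
  rw [G2_sum, G2_T_card hk hv, abs_lt] at hs
  rw [Nat.cast_sub h1] at hs
  push_cast at hs
  linarith [hs.1]

/-- the probability that no vertex has large degree -/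
theorem G2_prob (hH : Hoeffding_stmt) {n k : ℕ} (hk : k ≤ n) (h2 : 2 ≤ k) (s t d : ℝ)
    (hs : 0 ≤ s) (hd : d ≤ t + ((k : ℝ) - 1) / 2 - s) (p : ℝ)
    (hp : p * 2 ^ (n - k) ≤ ∑ j ∈ (range (n - k + 1)).filter (fun j : ℕ => t ≤ (j : ℝ)),
        ((n - k).choose j : ℝ)) :
    PP (fun (_ : Sym2 (Fin n)) (_ : Bool) => (1 / 2 : ℝ))
      {x | ¬ ∃ v, d ≤ (dg (gr n x).edgeSet v : ℝ)} ≤
      Real.exp (-(p * k)) + k * (2 * Real.exp (-(2 * s ^ 2 / k))) := by
  set w : Sym2 (Fin n) → Bool → ℝ := fun _ _ => 1 / 2 with hw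
  have hw0 : ∀ i b, 0 ≤ w i b := fun i b => by rw [hw]; norm_num
  have hw1 : ∀ i, ∑ b, w i b = 1 := fun i => by rw [hw]; simp
  let A := {v : Fin n // v.val < k}
  let B := {u : Fin n // ¬ u.val < k}
  have hcA : Nat.card A = k := by
    rw [Nat.card_eq_fintype_card]
    have : Fintype.card A = (univ.filter (fun u : Fin n => u.val < k)).card :=
      Fintype.card_subtype _
    rw [this]
    have h3 : (univ.filter (fun u : Fin n => u.val < k)).card = (Finset.range k).card := by
      refine Finset.card_bij (fun u _ => u.val) ?_ ?_ ?_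
      · intro u hu
        exact Finset.mem_range.2 (Finset.mem_filter.1 hu).2
      · intro u _ u' _ h
        exact Fin.ext h
      · intro j hj
        have hj' := Finset.mem_range.1 hj
        exact ⟨⟨j, by omega⟩, by simp [hj'], rfl⟩
    rw [h3, Finset.card_range]
  have hcB : Nat.card B = n - k := by
    have h := Nat.card_congr (Equiv.sumCompl (fun u : Fin n => u.val < k))
    rw [Nat.card_sum, Nat.card_eq_fintype_card (α := Fin n), Fintype.card_fin] at h
    have h' : Nat.card {a : Fin n // a.val < k} = k := hcA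
    rw [h'] at h
    show Nat.card {u : Fin n // ¬ u.val < k} = n - k
    omega
  let f : A × B → Sym2 (Fin n) := fun q => s(q.1.1, q.2.1)
  have hf : Function.Injective f := by
    rintro ⟨a, b⟩ ⟨a', b'⟩ h
    have h' : s(a.1, b.1) = s(a'.1, b'.1) := h
    rw [Sym2.eq_iff] at h'
    rcases h' with ⟨h3, h4⟩ | ⟨h3, h4⟩
    · exact Prod.ext (Subtype.ext h3) (Subtype.ext h4)
    · exfalso
      have := a.2
      rw [h3] at this
      exact b'.2 this
  let E : Set (B → Bool) := {z | t ≤ ((univ.filter (fun b => z b = true)).card : ℝ)}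
  let F1 : Set (Sym2 (Fin n) → Bool) := {x | ∀ a : A, (fun b : B => x (f (a, b))) ∉ E}
  have hPE : PP (fun (_ : B) (_ : Bool) => (1 / 2 : ℝ)) E =
      (∑ j ∈ (range (n - k + 1)).filter (fun j : ℕ => t ≤ (j : ℝ)),
        ((n - k).choose j : ℝ)) / 2 ^ (n - k) := by
    rw [G2_PP_unif, hcB]
    congr 1
    have hB' : Fintype.card B = n - k := by rw [← Nat.card_eq_fintype_card]; exact hcB
    have h3 := G2_binom' (B := B) t
    rw [hB'] at h3
    exact h3
  have hPE1 : PP (fun (_ : B) (_ : Bool) => (1 / 2 : ℝ)) E ≤ 1 := by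
    rw [G2_PP_unif, div_le_one (by positivity)]
    have h3 : Nat.card {x // x ∈ E} ≤ Nat.card (B → Bool) :=
      Nat.card_le_card_of_injective Subtype.val Subtype.val_injective
    rw [Nat.card_fun, Nat.card_eq_fintype_card (α := Bool), Fintype.card_bool] at h3
    exact_mod_cast h3
  have hPF1 : PP w F1 = (1 - PP (fun (_ : B) (_ : Bool) => (1 / 2 : ℝ)) E) ^ k := by
    let F0 : Set (A × B → Bool) := {y | ∀ a, (fun b => y (a, b)) ∉ E}
    have h3 := G2_marg f hf F0 F1 (fun x => Iff.rfl)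
    have h4 := G2_prod E F0 (fun y => Iff.rfl)
    rw [hcA] at h4
    rw [← h4, ← h3]
  have hPF1' : PP w F1 ≤ Real.exp (-(p * k)) := by
    rw [hPF1]
    have hpE : p ≤ PP (fun (_ : B) (_ : Bool) => (1 / 2 : ℝ)) E := by
      rw [hPE, le_div_iff₀ (by positivity)]
      exact hp
    have h3 : 1 - PP (fun (_ : B) (_ : Bool) => (1 / 2 : ℝ)) E ≤ Real.exp (-p) := by
      have := Real.add_one_le_exp (-p)
      linarith
    calc (1 - PP (fun (_ : B) (_ : Bool) => (1 / 2 : ℝ)) E) ^ k
        ≤ (Real.exp (-p)) ^ k := pow_le_pow_left₀ (by linarith) h3 k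
      _ = Real.exp (-(p * k)) := by
        rw [← Real.exp_nat_mul]
        congr 1
        ring
  let F2 : Fin n → Set (Sym2 (Fin n) → Bool) := fun v =>
    {x | s ≤ |∑ e ∈ G2_T n k v, G2_c (x e)|}
  have hPF2 : ∀ v : Fin n, v.val < k → PP w (F2 v) ≤ 2 * Real.exp (-(2 * s ^ 2 / k)) := by
    intro v hv
    have h3 := hH (Sym2 (Fin n)) Bool w (G2_T n k v) (fun _ b => G2_c b) (1 / 2) s hw0 hw1
      (by norm_num) hs (by
        intro i b
        cases b
        · simp only [G2_c]; norm_num [abs_div]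
        · simp only [G2_c]; norm_num [abs_div]) (by
        intro i
        rw [hw]
        simp [G2_c]
        norm_num)
    refine h3.trans ?_
    have hk0 : (0 : ℝ) < k := by
      have : (2 : ℝ) ≤ k := by exact_mod_cast h2
      linarith
    have hk1 : (0 : ℝ) < (k : ℝ) - 1 := by
      have : (2 : ℝ) ≤ k := by exact_mod_cast h2
      linarith
    rw [G2_T_card hk hv, Nat.cast_sub (by omega)]
    push_cast
    refine mul_le_mul_of_nonneg_left (Real.exp_le_exp.2 ?_) (by norm_num)
    rw [neg_div, neg_le_neg_iff]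
    have e : 2 * ((k : ℝ) - 1) * (1 / 2) ^ 2 = ((k : ℝ) - 1) / 2 := by ring
    rw [e, div_div_eq_mul_div]
    rw [mul_comm (2 : ℝ)]
    exact div_le_div_of_nonneg_left (by positivity) hk1 (by linarith)
  have hsub : ({x | ¬ ∃ v, d ≤ (dg (gr n x).edgeSet v : ℝ)} : Set (Sym2 (Fin n) → Bool)) ⊆
      F1 ∪ {x | ∃ v ∈ univ.filter (fun u : Fin n => u.val < k), x ∈ F2 v} := by
    intro x hx
    by_contra hcon
    have hc1 : x ∉ F1 := fun h => hcon (Or.inl h)
    have hc2 : ∀ v : Fin n, v.val < k → ¬ (s ≤ |∑ e ∈ G2_T n k v, G2_c (x e)|) := by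
      intro v hv h
      exact hcon (Or.inr ⟨v, by simp [hv], h⟩)
    have hc1' : ¬ ∀ a : A, (fun b : B => x (f (a, b))) ∉ E := hc1
    push Not at hc1'
    obtain ⟨a, ha⟩ := hc1'
    apply hx
    refine ⟨a.1, hd.trans ?_⟩
    exact G2_deg_lower hk (by omega) x a.2 s t (not_le.1 (hc2 a.1 a.2)) ha
  refine (G2_PP_mono w hw0 hsub).trans ((G2_PP_union w hw0 _ _).trans ?_)
  refine add_le_add hPF1' ((G2_PP_biUnion w hw0 _ _).trans ?_)
  refine (Finset.sum_le_sum fun v hv => hPF2 v (Finset.mem_filter.1 hv).2).trans ?_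
  rw [Finset.sum_const, nsmul_eq_mul]
  refine le_of_eq ?_
  congr 2
  have : Fintype.card A = (univ.filter (fun u : Fin n => u.val < k)).card :=
    Fintype.card_subtype _
  rw [← this, ← Nat.card_eq_fintype_card]
  exact hcA

/-! ### asymptotics -/

/-- the number of vertices in the first part -/
def G2_k (n : ℕ) : ℕ := ⌊(n : ℝ) ^ (3 / 4 : ℝ)⌋₊

theorem G2_SS_lower {n m : ℕ} (hm : (199 / 200 : ℝ) * n ≤ m) (hlog : 2 ≤ Real.log n)
    (hS : 200 ≤ SS n) : 1 / 2 + (27 / 50 + 1 / 400) * SS n ≤ 11 / 20 * SS m := by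
  have hn0 : (0 : ℝ) < n := by
    by_contra h
    have h1 : (n : ℝ) = 0 := le_antisymm (not_lt.1 h) (Nat.cast_nonneg n)
    rw [h1, Real.log_zero] at hlog
    linarith
  have hm0 : (0 : ℝ) < m := by linarith [mul_pos (by norm_num : (0 : ℝ) < 199 / 200) hn0]
  have h1 : Real.log n - 1 / 199 ≤ Real.log m := by
    have h2 : Real.log (199 / 200 * n) ≤ Real.log m := Real.log_le_log (by positivity) hm
    rw [Real.log_mul (by norm_num) hn0.ne'] at h2
    have h3 : -(1 / 199 : ℝ) ≤ Real.log (199 / 200) := by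
      have h4 := Real.one_sub_inv_le_log_of_pos (show (0 : ℝ) < 199 / 200 by norm_num)
      norm_num at h4 ⊢
      linarith
    linarith
  have h2 : (199 / 200 : ℝ) * Real.log n ≤ Real.log m := by linarith
  have h3 : (199 / 200 : ℝ) * SS n ≤ SS m := by
    unfold SS
    have h4 : (199 / 200 : ℝ) * Real.sqrt (n * Real.log n) =
        Real.sqrt ((199 / 200 : ℝ) ^ 2 * (n * Real.log n)) := by
      rw [Real.sqrt_mul (show (0 : ℝ) ≤ (199 / 200) ^ 2 by norm_num) (n * Real.log n),
        Real.sqrt_sq (by norm_num)]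
    rw [h4]
    refine Real.sqrt_le_sqrt ?_
    have h5 : (199 / 200 : ℝ) ^ 2 * (n * Real.log n) =
        ((199 / 200 : ℝ) * n) * ((199 / 200 : ℝ) * Real.log n) := by ring
    rw [h5]
    exact mul_le_mul hm h2 (by positivity) hm0.le
  linarith

theorem G2_k_le (n : ℕ) : (G2_k n : ℝ) ≤ (n : ℝ) ^ (3 / 4 : ℝ) :=
  Nat.floor_le (by positivity)

theorem G2_ev_k : ∀ᶠ n : ℕ in atTop, (G2_k n : ℝ) ≤ n / 200 ∧
    (n : ℝ) ^ (3 / 4 : ℝ) / 2 ≤ G2_k n ∧ 2 ≤ G2_k n ∧ 2 ≤ Real.log n ∧ 200 ≤ SS n := by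
  have hcast : Tendsto (fun n : ℕ => (n : ℝ)) atTop atTop := tendsto_natCast_atTop_atTop
  have h1 : ∀ᶠ n : ℕ in atTop, (200 : ℝ) ≤ (n : ℝ) ^ (1 / 4 : ℝ) :=
    ((tendsto_rpow_atTop (by norm_num : (0 : ℝ) < 1 / 4)).comp hcast).eventually_ge_atTop 200
  have h2 : ∀ᶠ n : ℕ in atTop, (4 : ℝ) ≤ (n : ℝ) ^ (3 / 4 : ℝ) :=
    ((tendsto_rpow_atTop (by norm_num : (0 : ℝ) < 3 / 4)).comp hcast).eventually_ge_atTop 4
  have h3 : ∀ᶠ n : ℕ in atTop, (2 : ℝ) ≤ Real.log n :=
    (Real.tendsto_log_atTop.comp hcast).eventually_ge_atTop 2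
  filter_upwards [h1, h2, h3, eventually_ge_atTop 40000] with n h1 h2 h3 h4
  have hn0 : (0 : ℝ) < n := by
    have : 0 < n := by omega
    exact_mod_cast this
  have hfl : (n : ℝ) ^ (3 / 4 : ℝ) < G2_k n + 1 := Nat.lt_floor_add_one _
  refine ⟨?_, by linarith, ?_, h3, ?_⟩
  · refine (G2_k_le n).trans ?_
    rw [le_div_iff₀ (by norm_num)]
    calc (n : ℝ) ^ (3 / 4 : ℝ) * 200 ≤ (n : ℝ) ^ (3 / 4 : ℝ) * (n : ℝ) ^ (1 / 4 : ℝ) :=
          mul_le_mul_of_nonneg_left h1 (by positivity)
      _ = n := by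
          rw [← Real.rpow_add hn0]
          norm_num
  · have : (1 : ℝ) < G2_k n := by linarith
    have h5 : 1 < G2_k n := by exact_mod_cast this
    omega
  · unfold SS
    rw [show (200 : ℝ) = Real.sqrt (200 ^ 2) by rw [Real.sqrt_sq (by norm_num)]]
    refine Real.sqrt_le_sqrt ?_
    have h5 : (40000 : ℝ) ≤ n := by exact_mod_cast h4
    nlinarith

theorem G2_lim : Tendsto (fun n : ℕ => Real.exp (-((n : ℝ) ^ (1 / 10 : ℝ) / 2)) +
    2 * n * Real.exp (-((n : ℝ) ^ (1 / 4 : ℝ) / 80000))) atTop (𝓝 0) := by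
  have hcast : Tendsto (fun n : ℕ => (n : ℝ)) atTop atTop := tendsto_natCast_atTop_atTop
  have h1 : Tendsto (fun n : ℕ => Real.exp (-((n : ℝ) ^ (1 / 10 : ℝ) / 2))) atTop (𝓝 0) := by
    refine Real.tendsto_exp_neg_atTop_nhds_zero.comp ?_
    exact ((tendsto_rpow_atTop (by norm_num : (0 : ℝ) < 1 / 10)).comp hcast).atTop_div_const
      (by norm_num)
  have h2 : Tendsto (fun n : ℕ => 2 * n * Real.exp (-((n : ℝ) ^ (1 / 4 : ℝ) / 80000))) atTop
      (𝓝 0) := by
    have h3 : Tendsto (fun y : ℝ => y ^ 4 * Real.exp (-y)) atTop (𝓝 0) :=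
      Real.tendsto_pow_mul_exp_neg_atTop_nhds_zero 4
    have h4 : Tendsto (fun n : ℕ => (n : ℝ) ^ (1 / 4 : ℝ) / 80000) atTop atTop :=
      ((tendsto_rpow_atTop (by norm_num : (0 : ℝ) < 1 / 4)).comp hcast).atTop_div_const
        (by norm_num)
    have h5 := (h3.comp h4).const_mul (2 * 80000 ^ 4)
    rw [mul_zero] at h5
    refine h5.congr fun n => ?_
    simp only [Function.comp]
    have h6 : ((n : ℝ) ^ (1 / 4 : ℝ) / 80000) ^ 4 = n / 80000 ^ 4 := by
      rw [div_pow, ← Real.rpow_natCast ((n : ℝ) ^ (1 / 4 : ℝ)), ← Real.rpow_mul (by positivity)]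
      norm_num
    rw [h6]
    ring
  have := h1.add h2
  rw [add_zero] at this
  exact this

/-- G2: some vertex has large degree. -/
theorem G2 (h0 : Count_stmt) (h5 : Tail_stmt) (hH : Hoeffding_stmt) : Big_stmt := by
  unfold Big_stmt AA
  refine squeeze_zero' (Eventually.of_forall fun n => by positivity) ?_ G2_lim
  have hsub : Tendsto (fun n : ℕ => n - G2_k n) atTop atTop := by
    have h1 : ∀ᶠ n : ℕ in atTop, n / 2 ≤ n - G2_k n := by
      filter_upwards [G2_ev_k] with n hn
      have h2 : (G2_k n : ℝ) ≤ n / 200 := hn.1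
      have h3 : 200 * G2_k n ≤ n := by
        have : (200 : ℝ) * G2_k n ≤ n := by linarith
        exact_mod_cast this
      omega
    refine tendsto_atTop_mono' atTop h1 ?_
    exact Filter.tendsto_atTop_atTop.2 fun b => ⟨2 * b, fun a ha => by omega⟩
  have hT := hsub.eventually h5
  filter_upwards [G2_ev_k, hT] with n hn hT
  obtain ⟨k1, k2, k3, k4, k5⟩ := hn
  set k := G2_k n with hk
  have hkn : k ≤ n := by
    have h3 : 200 * k ≤ n := by
      have : (200 : ℝ) * k ≤ n := by linarith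
      exact_mod_cast this
    omega
  have hn0 : (0 : ℝ) < n := by
    have h3 : 2 ≤ n := k3.trans hkn
    have : 0 < n := by omega
    exact_mod_cast this
  have hk0 : (0 : ℝ) < k := by
    have : 0 < k := by omega
    exact_mod_cast this
  have hm : ((n - k : ℕ) : ℝ) = n - k := Nat.cast_sub hkn
  have hm1 : (199 / 200 : ℝ) * n ≤ ((n - k : ℕ) : ℝ) := by rw [hm]; linarith
  have hm0 : (0 : ℝ) < ((n - k : ℕ) : ℝ) := by
    linarith [mul_pos (by norm_num : (0 : ℝ) < 199 / 200) hn0]
  rw [h0 n]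
  have hS0 : 0 ≤ SS n := Real.sqrt_nonneg _
  have hSl := G2_SS_lower hm1 k4 k5
  have hp := G2_prob hH hkn k3 (SS n / 400)
    (((n - k : ℕ) : ℝ) / 2 + 11 / 20 * SS (n - k)) (n / 2 + 27 / 50 * SS n) (by positivity)
    (by rw [hm]; linarith) (((n - k : ℕ) : ℝ) ^ (-(13 / 20) : ℝ)) hT
  refine hp.trans (add_le_add ?_ ?_)
  · refine Real.exp_le_exp.2 (neg_le_neg ?_)
    have h6 : (n : ℝ) ^ (-(13 / 20) : ℝ) ≤ ((n - k : ℕ) : ℝ) ^ (-(13 / 20) : ℝ) := by
      refine Real.rpow_le_rpow_of_nonpos hm0 ?_ (by norm_num)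
      rw [hm]; linarith
    calc (n : ℝ) ^ (1 / 10 : ℝ) / 2 = (n : ℝ) ^ (-(13 / 20) : ℝ) * ((n : ℝ) ^ (3 / 4 : ℝ) / 2) := by
          rw [← mul_div_assoc, ← Real.rpow_add hn0]
          norm_num
      _ ≤ ((n - k : ℕ) : ℝ) ^ (-(13 / 20) : ℝ) * k :=
          mul_le_mul h6 k2 (by positivity) (by positivity)
  · have h7 : (n : ℝ) ^ (1 / 4 : ℝ) / 80000 ≤ 2 * (SS n / 400) ^ 2 / k := by
      have h8 : (SS n) ^ 2 = n * Real.log n := by
        unfold SS
        exact Real.sq_sqrt (mul_nonneg hn0.le (by linarith))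
      rw [le_div_iff₀ hk0, div_pow, h8]
      calc (n : ℝ) ^ (1 / 4 : ℝ) / 80000 * k
          ≤ (n : ℝ) ^ (1 / 4 : ℝ) / 80000 * (n : ℝ) ^ (3 / 4 : ℝ) :=
            mul_le_mul_of_nonneg_left (G2_k_le n) (by positivity)
        _ = n / 80000 := by
            rw [div_mul_eq_mul_div, ← Real.rpow_add hn0]
            norm_num
        _ ≤ 2 * (n * Real.log n / 400 ^ 2) := by
            have : (n : ℝ) * 1 ≤ n * Real.log n :=
              mul_le_mul_of_nonneg_left (by linarith) hn0.le
            linarith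
    have h9 : Real.exp (-(2 * (SS n / 400) ^ 2 / k)) ≤
        Real.exp (-((n : ℝ) ^ (1 / 4 : ℝ) / 80000)) := Real.exp_le_exp.2 (neg_le_neg h7)
    have h10 : (k : ℝ) ≤ n := by exact_mod_cast hkn
    calc (k : ℝ) * (2 * Real.exp (-(2 * (SS n / 400) ^ 2 / k)))
        ≤ n * (2 * Real.exp (-((n : ℝ) ^ (1 / 4 : ℝ) / 80000))) :=
          mul_le_mul h10 (by linarith) (by positivity) hn0.le
      _ = 2 * n * Real.exp (-((n : ℝ) ^ (1 / 4 : ℝ) / 80000)) := by ring

end

end Pool.Agent.Helper15.LR
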