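import Mathlib
import Pool.Agent.Helper15.LR.Defs

set_option autoImplicit false

/-!
Module G4 (helper34): almost all graphs are quasirandom.
-/

open Finset Filter
open scoped Classical Topology

namespace Pool.Agent.Helper15.LR

noncomputable section

namespace G4aux

lemma PP_union {ι κ J : Type} [Fintype ι] [Fintype κ] [Fintype J] (w : ι → κ → ℝ)
    (hw : ∀ i k, 0 ≤ w i k) (S : Set (ι → κ)) (E : J → Set (ι → κ))
    (h : ∀ x ∈ S, ∃ j, x ∈ E j) : PP w S ≤ ∑ j, PP w (E j) := by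
  unfold PP
  rw [Finset.sum_comm]
  apply Finset.sum_le_sum
  intro x _
  have hp : 0 ≤ ∏ i, w i (x i) := Finset.prod_nonneg fun i _ => hw _ _
  have hn : ∀ j ∈ (univ : Finset J), 0 ≤ (if x ∈ E j then ∏ i, w i (x i) else 0) := by
    intro j _
    split_ifs
    · exact hp
    · exact le_rfl
  by_cases hx : x ∈ S
  · obtain ⟨j, hj⟩ := h x hx
    rw [if_pos hx]
    calc ∏ i, w i (x i) = (if x ∈ E j then ∏ i, w i (x i) else 0) := by rw [if_pos hj]
      _ ≤ _ := Finset.single_le_sum hn (mem_univ j)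
  · rw [if_neg hx]
    exact Finset.sum_nonneg hn

lemma PP_mono {ι κ : Type} [Fintype ι] [Fintype κ] (w : ι → κ → ℝ)
    (hw : ∀ i k, 0 ≤ w i k) (S S' : Set (ι → κ)) (h : S ⊆ S') : PP w S ≤ PP w S' := by
  have := PP_union w hw S (fun _ : Unit => S') (fun x hx => ⟨(), h hx⟩)
  simpa using this

lemma PP_nonneg {ι κ : Type} [Fintype ι] [Fintype κ] (w : ι → κ → ℝ)
    (hw : ∀ i k, 0 ≤ w i k) (S : Set (ι → κ)) : 0 ≤ PP w S := by
  unfold PP
  apply Finset.sum_nonneg
  intro x _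
  split_ifs
  · exact Finset.prod_nonneg fun i _ => hw _ _
  · exact le_rfl

/-- the bad event for a pair of sets -/
def Bad (n : ℕ) (X Y : Finset (Fin n)) : Set (Sym2 (Fin n) → Bool) :=
  {x | Disjoint X Y ∧ (((X ×ˢ Y).filter (fun p => (gr n x).Adj p.1 p.2)).card : ℝ) <
    (1 / 2 : ℝ) * X.card * Y.card - (n : ℝ) ^ 2 / 10 ^ 5}

lemma bad_le (hh : Hoeffding_stmt) (n : ℕ) (X Y : Finset (Fin n)) :
    PP (fun (_ : Sym2 (Fin n)) (_ : Bool) => (1 / 2 : ℝ)) (Bad n X Y) ≤
      2 * Real.exp (-(2 * (n : ℝ) ^ 2 / 10 ^ 10)) := by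
  have hw : ∀ (i : Sym2 (Fin n)) (k : Bool), (0 : ℝ) ≤ (fun _ _ => (1 / 2 : ℝ)) i k :=
    fun _ _ => by norm_num
  by_cases hd : Disjoint X Y
  swap
  · have : Bad n X Y = ∅ := by
      ext x
      simp [Bad, hd]
    rw [this]
    have h0 : PP (fun (_ : Sym2 (Fin n)) (_ : Bool) => (1 / 2 : ℝ)) ∅ = 0 := by
      simp [PP]
    rw [h0]
    positivity
  by_cases hT0 : X.card * Y.card = 0
  · have : Bad n X Y = ∅ := by
      ext x
      simp only [Bad, Set.mem_ofPred_eq, Set.mem_empty_iff_false, iff_false, not_and, not_lt]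
      intro _
      have h1 : (X.card : ℝ) * Y.card = 0 := by exact_mod_cast hT0
      have h2 : (0 : ℝ) ≤ (((X ×ˢ Y).filter (fun p => (gr n x).Adj p.1 p.2)).card : ℝ) := by
        positivity
      have h3 : (0 : ℝ) ≤ (n : ℝ) ^ 2 / 10 ^ 5 := by positivity
      nlinarith
    rw [this]
    have h0 : PP (fun (_ : Sym2 (Fin n)) (_ : Bool) => (1 / 2 : ℝ)) ∅ = 0 := by
      simp [PP]
    rw [h0]
    positivity
  -- main case
  set T : Finset (Sym2 (Fin n)) := (X ×ˢ Y).image (fun p => s(p.1, p.2)) with hT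
  have hinj : Set.InjOn (fun p : Fin n × Fin n => s(p.1, p.2)) (X ×ˢ Y : Finset _) := by
    rintro ⟨a, b⟩ hab ⟨a', b'⟩ hab' he
    simp only [Finset.coe_product, Set.mem_prod, Finset.mem_coe] at hab hab'
    simp only [Sym2.eq_iff] at he
    rcases he with ⟨h1, h2⟩ | ⟨h1, h2⟩
    · rw [h1, h2]
    · exfalso
      have : a ∈ Y := by rw [h1]; exact hab'.2
      exact Finset.disjoint_left.1 hd hab.1 this
  have hTc : T.card = X.card * Y.card := by
    rw [hT, Finset.card_image_of_injOn hinj, Finset.card_product]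
  have hTn : (T.card : ℝ) ≤ (n : ℝ) ^ 2 := by
    have h1 : X.card ≤ n := by simpa using Finset.card_le_univ X
    have h2 : Y.card ≤ n := by simpa using Finset.card_le_univ Y
    rw [hTc, pow_two]
    exact_mod_cast Nat.mul_le_mul h1 h2
  have hTpos : (0 : ℝ) < T.card := by
    rw [hTc]
    exact_mod_cast Nat.pos_of_ne_zero hT0
  let c : Sym2 (Fin n) → Bool → ℝ := fun _ k => if k = true then 1 / 2 else -(1 / 2)
  have hoef := hh (Sym2 (Fin n)) Bool (fun _ _ => (1 / 2 : ℝ)) T c (1 / 2)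
    ((n : ℝ) ^ 2 / 10 ^ 5) hw (fun i => by simp) (by norm_num) (by positivity)
    (fun i k => by
      simp only [c]
      split_ifs
      · rw [abs_of_pos (by norm_num)]
      · rw [abs_neg, abs_of_pos (by norm_num)])
    (fun i => by simp [c])
  have hsub : Bad n X Y ⊆ {x | (n : ℝ) ^ 2 / 10 ^ 5 ≤ |∑ i ∈ T, c i (x i)|} := by
    intro x hx
    obtain ⟨_, hx⟩ := hx
    have hsum : ∑ i ∈ T, c i (x i) =
        (((X ×ˢ Y).filter (fun p => (gr n x).Adj p.1 p.2)).card : ℝ) -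
          (1 / 2 : ℝ) * X.card * Y.card := by
      rw [hT, Finset.sum_image hinj]
      have h1 : ∀ p ∈ X ×ˢ Y, c s(p.1, p.2) (x s(p.1, p.2)) =
          (if (gr n x).Adj p.1 p.2 then (1 : ℝ) else 0) - 1 / 2 := by
        rintro ⟨a, b⟩ hab
        rw [Finset.mem_product] at hab
        have hne : a ≠ b := by
          rintro rfl
          exact Finset.disjoint_left.1 hd hab.1 hab.2
        by_cases hxx : x s(a, b) = true
        · have hadj : (gr n x).Adj (a, b).1 (a, b).2 := ⟨hne, hxx⟩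
          rw [if_pos hadj]
          simp only [c]
          rw [if_pos hxx]; norm_num
        · have hadj : ¬ (gr n x).Adj (a, b).1 (a, b).2 := fun h => hxx h.2
          rw [if_neg hadj]
          simp only [c]
          rw [if_neg hxx]; norm_num
      rw [Finset.sum_congr rfl h1, Finset.sum_sub_distrib, Finset.sum_const,
        Finset.card_product, Finset.sum_boole]
      push_cast
      simp only [nsmul_eq_mul, Nat.cast_mul]
      ring
    simp only [Set.mem_ofPred_eq]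
    rw [hsum]
    have h2 : (((X ×ˢ Y).filter (fun p => (gr n x).Adj p.1 p.2)).card : ℝ) -
          (1 / 2 : ℝ) * X.card * Y.card < -((n : ℝ) ^ 2 / 10 ^ 5) := by linarith
    have h3 := neg_le_abs ((((X ×ˢ Y).filter (fun p => (gr n x).Adj p.1 p.2)).card : ℝ) -
          (1 / 2 : ℝ) * X.card * Y.card)
    linarith
  refine (PP_mono _ hw _ _ hsub).trans (hoef.trans ?_)
  apply mul_le_mul_of_nonneg_left _ (by norm_num)
  apply Real.exp_le_exp.2
  have e1 : (2 * (T.card : ℝ) * (1 / 2) ^ 2) = T.card / 2 := by ring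
  rw [e1]
  have e2 : -(((n : ℝ) ^ 2 / 10 ^ 5) ^ 2) / ((T.card : ℝ) / 2) =
      -(2 * ((n : ℝ) ^ 2) ^ 2 / 10 ^ 10 / T.card) := by
    field_simp
  rw [e2]
  apply neg_le_neg
  rw [le_div_iff₀ hTpos]
  have h4 : (0 : ℝ) ≤ 2 * (n : ℝ) ^ 2 / 10 ^ 10 := by positivity
  calc 2 * (n : ℝ) ^ 2 / 10 ^ 10 * T.card ≤ 2 * (n : ℝ) ^ 2 / 10 ^ 10 * (n : ℝ) ^ 2 :=
        mul_le_mul_of_nonneg_left hTn h4
    _ = 2 * ((n : ℝ) ^ 2) ^ 2 / 10 ^ 10 := by ring

end G4aux

open G4aux in
theorem G4 (hc : Count_stmt) (hh : Hoeffding_stmt) : Quasi_stmt := by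
  unfold Quasi_stmt AA
  have hub : ∀ n : ℕ, (Nat.card {G : SimpleGraph (Fin n) //
      ¬ ∀ X Y : Finset (Fin n), Disjoint X Y →
        (1 / 2 : ℝ) * X.card * Y.card - (n : ℝ) ^ 2 / 10 ^ 5 ≤
          (((X ×ˢ Y).filter (fun p => G.Adj p.1 p.2)).card : ℝ)} : ℝ) / 2 ^ (n.choose 2) ≤
      2 * (4 ^ n * Real.exp (-(2 * (n : ℝ) ^ 2 / 10 ^ 10))) := by
    intro n
    rw [hc n]
    have hw : ∀ (i : Sym2 (Fin n)) (k : Bool), (0 : ℝ) ≤ (fun _ _ => (1 / 2 : ℝ)) i k :=
      fun _ _ => by norm_num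
    refine (PP_union _ hw _ (fun j : Finset (Fin n) × Finset (Fin n) => Bad n j.1 j.2) ?_).trans ?_
    · intro x hx
      simp only [Set.mem_ofPred_eq] at hx
      push Not at hx
      obtain ⟨X, Y, hd, hlt⟩ := hx
      exact ⟨(X, Y), hd, hlt⟩
    · refine (Finset.sum_le_sum fun j _ => bad_le hh n j.1 j.2).trans ?_
      rw [Finset.sum_const, nsmul_eq_mul]
      have hcard : ((univ : Finset (Finset (Fin n) × Finset (Fin n))).card : ℝ) = 4 ^ n := by
        rw [Finset.card_univ, Fintype.card_prod]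
        simp only [Fintype.card_finset, Fintype.card_fin]
        push_cast
        rw [← mul_pow]
        norm_num
      rw [hcard]
      apply le_of_eq
      ring
  refine squeeze_zero' (Filter.Eventually.of_forall fun n => by positivity)
    (g := fun n : ℕ => 2 * Real.exp (-(n : ℝ))) ?_ ?_
  · filter_upwards [Filter.eventually_ge_atTop (2 * 10 ^ 10)] with n hn
    refine (hub n).trans ?_
    apply mul_le_mul_of_nonneg_left _ (by norm_num)
    have h4 : (4 : ℝ) ^ n ≤ Real.exp (2 * n) := by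
      have : (4 : ℝ) ≤ Real.exp 2 := by
        have h1 : (2 : ℝ) ≤ Real.exp 1 := by
          have := Real.add_one_le_exp 1
          linarith
        have h2 : Real.exp 2 = Real.exp 1 * Real.exp 1 := by rw [← Real.exp_add]; norm_num
        rw [h2]
        nlinarith
      calc (4 : ℝ) ^ n ≤ (Real.exp 2) ^ n := pow_le_pow_left₀ (by norm_num) this n
        _ = Real.exp (2 * n) := by rw [← Real.exp_nat_mul]; ring_nf
    calc (4 : ℝ) ^ n * Real.exp (-(2 * (n : ℝ) ^ 2 / 10 ^ 10)) ≤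
          Real.exp (2 * n) * Real.exp (-(2 * (n : ℝ) ^ 2 / 10 ^ 10)) :=
          mul_le_mul_of_nonneg_right h4 (Real.exp_pos _).le
      _ = Real.exp (2 * n + -(2 * (n : ℝ) ^ 2 / 10 ^ 10)) := by rw [← Real.exp_add]
      _ ≤ Real.exp (-(n : ℝ)) := by
        apply Real.exp_le_exp.2
        have hn' : (2 * 10 ^ 10 : ℝ) ≤ n := by exact_mod_cast hn
        have h0 : (0 : ℝ) ≤ n := by positivity
        have : 4 * (n : ℝ) ≤ 2 * (n : ℝ) ^ 2 / 10 ^ 10 := by
          rw [le_div_iff₀ (by norm_num)]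
          nlinarith
        linarith
  · have h1 : Tendsto (fun n : ℕ => Real.exp (-(n : ℝ))) atTop (𝓝 0) :=
      Real.tendsto_exp_neg_atTop_nhds_zero.comp tendsto_natCast_atTop_atTop
    simpa using h1.const_mul 2

end

end Pool.Agent.Helper15.LR
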