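import Pool.Agent.Helper15.LR.Defs3
import Pool.Agent.Helper25.LR.F

set_option autoImplicit false

/-!
The gap theorem, neighbourhood version (adapted from `Pool.Agent.Helper9.LR.R10` of helper9).
-/

open Finset Filter
open scoped Classical Topology

namespace Pool.Agent.Helper15.LR.R10b

open Pool.Agent.Helper15.LR
open Pool.Agent.Helper25.LR

noncomputable section

/-- LECC for graphs in which every vertex has at most `h ≤ Δ/2` neighbours of degree larger than
`Δ - 2h - ε √(n log n)`. -/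
def Gap2_stmt : Prop :=
  ∀ ε : ℝ, 0 < ε → ∀ᶠ n : ℕ in atTop, ∀ (V : Type) [Fintype V] (G : SimpleGraph V)
    (L : Sym2 V → Finset ℕ) (Δ h : ℕ), Fintype.card V = n → 2 * h ≤ Δ →
    (∀ v, dg G.edgeSet v ≤ Δ) →
    (∀ v, ((nb G.edgeSet v).filter
      (fun u => (Δ : ℝ) - 2 * h - ε * SS n < (dg G.edgeSet u : ℝ))).card ≤ h) →
    (∀ e ∈ G.edgeSet, Δ ≤ (L e).card) → LC G.edgeSet L

theorem R10b (hB : BlockGalvin_stmt) (hM : Main2_stmt) : Gap2_stmt := by
  unfold Gap2_stmt
  intro ε hε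
  filter_upwards [hM ε hε] with n hn
  intro V _ G L Δ h hV hhΔ hΔ hH0 hL
  have hSS := SS_nonneg n
  set H : Finset V := univ.filter
    (fun v => (Δ : ℝ) - 2 * h - ε * SS n < (dg G.edgeSet v : ℝ)) with hH
  have hHh : ∀ v, ((nb G.edgeSet v).filter (fun u => u ∈ H)).card ≤ h := by
    intro v
    refine le_trans (card_le_card ?_) (hH0 v)
    intro u hu
    simp only [hH, mem_filter, mem_univ, true_and] at hu ⊢
    exact hu
  have hsmall : ∀ v, v ∉ H → (dg G.edgeSet v : ℝ) ≤ (Δ : ℝ) - 2 * h - ε * SS n := by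
    intro v hv
    by_contra hcon
    rw [not_le] at hcon
    exact hv (mem_filter.2 ⟨mem_univ _, hcon⟩)
  -- the three parts
  set F1 : Set (Sym2 V) := {e | e ∈ G.edgeSet ∧ ∀ v ∈ e, v ∈ H} with hF1
  set F2 : Set (Sym2 V) := {e | e ∈ G.edgeSet ∧ (∃ v ∈ e, v ∈ H) ∧ (∃ v ∈ e, v ∉ H)} with hF2
  set F3 : Set (Sym2 V) := {e | e ∈ G.edgeSet ∧ ∀ v ∈ e, v ∉ H} with hF3
  have hU : G.edgeSet = (F1 ∪ F2) ∪ F3 := by
    ext e
    simp only [hF1, hF2, hF3, Set.mem_union, Set.mem_setOf_eq]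
    constructor
    · intro he
      by_cases h1 : ∀ v ∈ e, v ∈ H
      · exact Or.inl (Or.inl ⟨he, h1⟩)
      by_cases h2 : ∀ v ∈ e, v ∉ H
      · exact Or.inr ⟨he, h2⟩
      push Not at h1 h2
      exact Or.inl (Or.inr ⟨he, h2, h1⟩)
    · rintro ((h | h) | h)
      · exact h.1
      · exact h.1
      · exact h.1
  have hmem1 : ∀ a b, s(a, b) ∈ F1 ↔ s(a, b) ∈ G.edgeSet ∧ a ∈ H ∧ b ∈ H := by
    intro a b
    simp only [hF1, Set.mem_setOf_eq, Sym2.mem_iff]
    constructor
    · rintro ⟨h1, h2⟩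
      exact ⟨h1, h2 a (Or.inl rfl), h2 b (Or.inr rfl)⟩
    · rintro ⟨h1, h2, h3⟩
      refine ⟨h1, ?_⟩
      rintro v (rfl | rfl)
      · exact h2
      · exact h3
  have hmem3 : ∀ a b, s(a, b) ∈ F3 ↔ s(a, b) ∈ G.edgeSet ∧ a ∉ H ∧ b ∉ H := by
    intro a b
    simp only [hF3, Set.mem_setOf_eq, Sym2.mem_iff]
    constructor
    · rintro ⟨h1, h2⟩
      exact ⟨h1, h2 a (Or.inl rfl), h2 b (Or.inr rfl)⟩
    · rintro ⟨h1, h2, h3⟩
      refine ⟨h1, ?_⟩
      rintro v (rfl | rfl)
      · exact h2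
      · exact h3
  have hmem2 : ∀ a b, s(a, b) ∈ F2 ↔ s(a, b) ∈ G.edgeSet ∧ (a ∈ H ∧ b ∉ H ∨ a ∉ H ∧ b ∈ H) := by
    intro a b
    simp only [hF2, Set.mem_setOf_eq, Sym2.mem_iff]
    constructor
    · rintro ⟨h1, ⟨v, rfl | rfl, hv⟩, ⟨w, rfl | rfl, hw⟩⟩
      · exact absurd hv hw
      · exact ⟨h1, Or.inl ⟨hv, hw⟩⟩
      · exact ⟨h1, Or.inr ⟨hw, hv⟩⟩
      · exact absurd hv hw
    · rintro ⟨h1, ⟨h2, h3⟩ | ⟨h2, h3⟩⟩
      · exact ⟨h1, ⟨a, Or.inl rfl, h2⟩, ⟨b, Or.inr rfl, h3⟩⟩
      · exact ⟨h1, ⟨b, Or.inr rfl, h3⟩, ⟨a, Or.inl rfl, h2⟩⟩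
  -- degrees
  have hd1 : ∀ a, dg F1 a ≤ h := by
    intro a
    refine le_trans (card_le_card (fun u hu => ?_)) (hHh a)
    rw [mem_nb, hmem1] at hu
    rw [mem_filter, mem_nb]
    exact ⟨hu.1, hu.2.2⟩
  have hd1' : ∀ a ∉ H, dg F1 a = 0 := by
    intro a ha
    unfold dg
    rw [card_eq_zero, eq_empty_iff_forall_notMem]
    intro u hu
    rw [mem_nb, hmem1] at hu
    exact ha hu.2.1
  have hd2 : ∀ a ∉ H, dg F2 a ≤ h := by
    intro a ha
    refine le_trans (card_le_card (fun u hu => ?_)) (hHh a)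
    rw [mem_nb, hmem2] at hu
    rw [mem_filter, mem_nb]
    rcases hu.2 with h | h
    · exact absurd h.1 ha
    · exact ⟨hu.1, h.2⟩
  have hd12 : ∀ a, dg F1 a + dg F2 a ≤ dg G.edgeSet a := by
    intro a
    unfold dg
    rw [← card_union_of_disjoint]
    · refine card_le_card (fun u hu => ?_)
      rw [mem_union, mem_nb, mem_nb, hmem1, hmem2] at hu
      rw [mem_nb]
      rcases hu with hu | hu
      · exact hu.1
      · exact hu.1
    · rw [Finset.disjoint_left]
      intro u hu hu'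
      rw [mem_nb, hmem1] at hu
      rw [mem_nb, hmem2] at hu'
      rcases hu'.2 with h | h
      · exact h.2 hu.2.2
      · exact h.1 hu.2.1
  have hd12' : ∀ a ∉ H, dg (F1 ∪ F2) a ≤ h := by
    intro a ha
    refine le_trans (card_le_card (fun u hu => ?_)) (hHh a)
    rw [mem_nb, Set.mem_union, hmem1, hmem2] at hu
    rw [mem_filter, mem_nb]
    rcases hu with hu | hu
    · exact ⟨hu.1, hu.2.2⟩
    · rcases hu.2 with h | h
      · exact absurd h.1 ha
      · exact ⟨hu.1, h.2⟩
  -- if every vertex is in `H` there are no edges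
  by_cases hex : ∃ v, v ∉ H
  swap
  · push Not at hex
    have hz : ∀ a, dg G.edgeSet a ≤ h := by
      intro a
      refine le_trans (card_le_card (fun u hu => ?_)) (hHh a)
      rw [mem_filter]
      exact ⟨hu, hex u⟩
    have hG0 := LC_greedy (F := G.edgeSet) (L := L) (fun a b hab => by
      have h1 := hL _ hab
      have h2 := hz a
      have h3 := hz b
      omega)
    exact hG0
  have hD0 : 0 ≤ (Δ : ℝ) - 2 * h - ε * SS n := by
    obtain ⟨v, hv⟩ := hex
    exact le_trans (Nat.cast_nonneg _) (hsmall v hv)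
  rw [hU]
  refine LC_union (LC_union (LC_greedy ?_) ?_) ?_
  · -- greedy
    intro a b hab
    have h1 := hL _ ((hmem1 a b).1 hab).1
    have h2 := hd1 a
    have h3 := hd1 b
    omega
  · -- Galvin
    intro L2 hL2
    refine hB V F2 (fun v => decide (v ∈ H)) L2 (fun _ => 0) ?_ ?_
    · intro u v huv
      rw [hmem2] at huv
      rcases huv.2 with h | h <;> simp [h.1, h.2]
    · intro a b hab ha hb
      simp only [decide_eq_true_eq, decide_eq_false_iff_not] at ha hb
      have h1 := hL2 a b hab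
      have h2 := hL _ ((hmem2 a b).1 hab).1
      have h3 := hd1' b hb
      have h4 := hd12 a
      have h5 := hΔ a
      have h6 := hd2 b hb
      have h7 := hd1 a
      simp only [lt_irrefl, filter_false, card_empty, filter_true]
      have e1 : (nb F2 a).card = dg F2 a := rfl
      have e2 : (nb F2 b).card = dg F2 b := rfl
      rw [e1, e2]
      have h8 : max (dg F2 a) (dg F2 b) ≤ (L2 s(a, b)).card := max_le (by omega) (by omega)
      omega
  · -- the rest
    intro L3 hL3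
    refine hn V F3 L3 ((Δ : ℝ) - 2 * h - ε * SS n) hV ?_ ?_ ?_
    · intro v hv
      rw [hmem3] at hv
      exact G.loopless.irrefl v hv.1
    · intro v
      by_cases hv : v ∈ H
      · have h0 : dg F3 v = 0 := by
          unfold dg
          rw [card_eq_zero, eq_empty_iff_forall_notMem]
          intro u hu
          rw [mem_nb, hmem3] at hu
          exact hu.2.1 hv
        rw [h0]
        simpa using hD0
      · refine le_trans ?_ (hsmall v hv)
        have h0 : dg F3 v ≤ dg G.edgeSet v := by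
          refine card_le_card (fun u hu => ?_)
          rw [mem_nb, hmem3] at hu
          rw [mem_nb]
          exact hu.1
        exact_mod_cast h0
    · intro e he
      induction e using Sym2.ind with
      | _ a b =>
        have h1 := hL3 a b he
        obtain ⟨h2, h3, h4⟩ := (hmem3 a b).1 he
        have h5 := hL _ h2
        have h6 := hd12' a h3
        have h7 := hd12' b h4
        have h8 : Δ ≤ (L3 s(a, b)).card + 2 * h := by omega
        have h9 : (Δ : ℝ) ≤ ((L3 s(a, b)).card : ℝ) + 2 * h := by exact_mod_cast h8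
        linarith

end

end Pool.Agent.Helper15.LR.R10b
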