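import Pool.Agent.Helper15.LR.R10b
import Pool.Agent.Helper58.LR.R11

set_option autoImplicit false

/-! Final form of the gap theorem (neighbourhood version). -/

open Finset Filter
open scoped Classical Topology

namespace Pool.Agent.Helper15.LR

/-- final form -/
def Gap2Final_stmt : Prop :=
  ∀ ε : ℝ, 0 < ε → ∃ n₀ : ℕ, ∀ (V : Type) [Fintype V] [DecidableEq V] (G : SimpleGraph V)
    [DecidableRel G.Adj] (h : ℕ), n₀ ≤ Fintype.card V → 2 * h ≤ G.maxDegree →
    (∀ v, ((G.neighborFinset v).filter (fun u => (G.maxDegree : ℝ) - 2 * h -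
      ε * Real.sqrt (Fintype.card V * Real.log (Fintype.card V)) < (G.degree u : ℝ))).card ≤ h) →
    ∀ k : ℕ, (G.lineGraph.Colorable k ↔ ∀ L : G.edgeSet → Finset ℕ, (∀ e, k ≤ (L e).card) →
        ∃ f : G.edgeSet → ℕ, (∀ e, f e ∈ L e) ∧
          ∀ e e', G.lineGraph.Adj e e' → f e ≠ f e') ∧
      (G.lineGraph.Colorable k ↔ G.maxDegree ≤ k)

theorem R11c (hGap : R10b.Gap2_stmt) : Gap2Final_stmt := by
  intro ε hε
  obtain ⟨n₀, hn₀⟩ := eventually_atTop.mp (hGap ε hε)
  refine ⟨n₀, ?_⟩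
  intro V _ _ G _ h hn hh hcard k
  refine R11_main G ?_ k
  intro L hL
  refine hn₀ (Fintype.card V) hn V G L G.maxDegree h rfl hh ?_ ?_ hL
  · intro v
    rw [R11_dg]
    exact G.degree_le_maxDegree v
  · intro v
    refine le_trans (card_le_card ?_) (hcard v)
    intro u hu
    simp only [mem_filter, Pool.Agent.Helper25.LR.mem_nb, SimpleGraph.mem_edgeSet,
      SimpleGraph.mem_neighborFinset] at hu ⊢
    refine ⟨hu.1, ?_⟩
    have h1 := hu.2
    rw [R11_dg] at h1
    exact h1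

end Pool.Agent.Helper15.LR
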