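import Pool.Agent.Helper15.LR.Defs3
import Pool.Agent.Helper15.LR.B3

set_option autoImplicit false

/-!
R4 (`Cells2_stmt`): random sign vectors.
-/

open Finset Filter
open scoped Classical Topology

namespace Pool.Agent.Helper15.LR

noncomputable section

open B3aux

/-- deviation event -/
def R4_ev {V : Type} {K : ℕ} (T : Finset V) (s : ℝ) (X : Finset (Fin K)) (z : Fin K → Bool) :
    Set (V → Fin K → Bool) :=
  {x | s ≤ |∑ u ∈ T, ((if univ.filter (fun j => z j ≠ x u j) = X then (1 : ℝ) else 0) -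
    (1 / 2) ^ K)|}

theorem R4_count {V : Type} {K : ℕ} (T : Finset V) (X : Finset (Fin K)) (x : V → Fin K → Bool)
    (v : V) :
    ∑ u ∈ T, ((if univ.filter (fun j => x v j ≠ x u j) = X then (1 : ℝ) else 0) - (1 / 2) ^ K) =
      ((T.filter (fun u => pat x v u = X)).card : ℝ) - (1 / 2) ^ K * T.card := by
  rw [Finset.sum_sub_distrib, Finset.sum_const, nsmul_eq_mul, Finset.sum_boole]
  have h3 : (T.filter (fun u => pat x v u = X)).card =
      (T.filter (fun u => univ.filter (fun j => x v j ≠ x u j) = X)).card := rfl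
  rw [h3, mul_comm ((1 / 2 : ℝ) ^ K)]

theorem R4_bd (hH : Hoeffding_stmt) {V : Type} [Fintype V] {K : ℕ} (T : Finset V) (s N : ℝ)
    (hs : 0 < s) (hN : (T.card : ℝ) ≤ N) (X : Finset (Fin K)) (z : Fin K → Bool) :
    PP (uw V K) (R4_ev T s X z) ≤ 2 * Real.exp (-(s ^ 2) / (2 * N)) := by
  have hw0 : ∀ v k, 0 ≤ uw V K v k := fun v k => by unfold uw; positivity
  have hw1 : ∀ v, ∑ k, uw V K v k = 1 := fun v => uw_sum V K v
  have := hoeff' hH (uw V K) hw0 hw1 T
    (fun _ k => (if univ.filter (fun j => z j ≠ k j) = X then (1 : ℝ) else 0) - (1 / 2) ^ K)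
    1 s N one_pos hs (by
      intro _ k
      have hp : (0 : ℝ) ≤ (1 / 2 : ℝ) ^ K := by positivity
      have hp1 : (1 / 2 : ℝ) ^ K ≤ 1 := pow_le_one₀ (by norm_num) (by norm_num)
      split_ifs
      · rw [abs_le]; constructor <;> linarith
      · rw [abs_le]; constructor <;> linarith) (by
      intro v
      have : ∑ k, uw V K v k * ((if univ.filter (fun j => z j ≠ k j) = X then (1 : ℝ) else 0)
          - (1 / 2) ^ K) = (1 / 2 : ℝ) ^ K * ∑ k : Fin K → Bool,
          (if univ.filter (fun j => z j ≠ k j) = X then (1 : ℝ) else 0) -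
          (1 / 2 : ℝ) ^ K * ∑ k, uw V K v k := by
        rw [Finset.mul_sum, Finset.mul_sum, ← Finset.sum_sub_distrib]
        apply Finset.sum_congr rfl
        intro k _
        simp only [uw]; ring
      rw [this, hw1, Finset.sum_boole, one_pat]
      simp) hN
  rw [one_pow, mul_one] at this
  exact this

theorem R4 (hA : Avoid_stmt) (hH : Hoeffding_stmt) (hM : Markov_stmt) : Cells2_stmt := by
  intro K κ η hκ hη
  have hlog : Tendsto (fun n : ℕ => Real.log (n : ℝ)) atTop atTop :=
    Real.tendsto_log_atTop.comp (tendsto_natCast_atTop_atTop (R := ℝ))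
  have e1 : Tendsto (fun n : ℕ => (2 * 4 ^ K : ℝ) * Real.exp (-(3 / 2 * Real.log n))) atTop
      (𝓝 0) := by
    have := (Real.tendsto_exp_neg_atTop_nhds_zero.comp
      (hlog.const_mul_atTop (show (0:ℝ) < 3 / 2 by norm_num))).const_mul (2 * 4 ^ K : ℝ)
    rw [mul_zero] at this
    exact this
  have e2 : Tendsto (fun n : ℕ => (2 * 4 ^ K / η : ℝ) * Real.exp (-(κ ^ 2 / 2 * Real.log n)))
      atTop (𝓝 0) := by
    have := (Real.tendsto_exp_neg_atTop_nhds_zero.comp
      (hlog.const_mul_atTop (show (0:ℝ) < κ ^ 2 / 2 by positivity))).const_mul (2 * 4 ^ K / η : ℝ)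
    rw [mul_zero] at this
    exact this
  have h1 := e1.eventually_lt_const (show (0 : ℝ) < 1 / 2 by norm_num)
  have h2 := e2.eventually_lt_const (show (0 : ℝ) < 1 / 2 by norm_num)
  filter_upwards [h1, h2, eventually_ge_atTop 2] with n hn1 hn2 hn
  intro V _ ι _ T c T₀ hV hι _ _
  have hnR : (2 : ℝ) ≤ n := by exact_mod_cast hn
  have hnpos : (0 : ℝ) < n := by linarith
  have hlogn : 0 < Real.log n := Real.log_pos (by linarith)
  have hw0 : ∀ v k, 0 ≤ uw V K v k := fun v k => by unfold uw; positivity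
  have hw1 : ∀ v, ∑ k, uw V K v k = 1 := fun v => uw_sum V K v
  have hSS : 0 < SS n := by unfold SS; exact Real.sqrt_pos.mpr (by positivity)
  have hSS2 : SS n ^ 2 = n * Real.log n := by unfold SS; exact Real.sq_sqrt (by positivity)
  have hTn : ∀ S : Finset V, (S.card : ℝ) ≤ n := fun S => by
    rw [← hV]; exact_mod_cast Finset.card_le_univ S
  have hcard : ((Fintype.card (Finset (Fin K)) * Fintype.card (Fin K → Bool) : ℕ) : ℝ) = 4 ^ K := by
    rw [Fintype.card_finset, Fintype.card_fun, Fintype.card_fin, Fintype.card_bool,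
      ← mul_pow]; norm_num
  let E' : V × Finset (Fin K) × (Fin K → Bool) → Set (V → Fin K → Bool) :=
    fun q => R4_ev (T₀ q.1) (κ * SS n) q.2.1 q.2.2
  let J := (ι × Finset (Fin K) × (Fin K → Bool)) ⊕ Unit
  let E : J → Set (V → Fin K → Bool) := fun q => match q with
    | Sum.inl (i, X, z) => R4_ev (T i) (3 * SS n) X z
    | Sum.inr _ => {x | η * n ≤ ((univ.filter (fun q => x ∈ E' q)).card : ℝ)}
  have bd1 : ∀ i X z, PP (uw V K) (E (Sum.inl (i, X, z))) ≤
      2 * Real.exp (-(9 / 2 * Real.log n)) := by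
    intro i X z
    have h3 := R4_bd hH (T i) (3 * SS n) n (by positivity) (hTn _) X z
    have h4 : -((3 * SS n) ^ 2) / (2 * (n : ℝ)) = -(9 / 2 * Real.log n) := by
      rw [mul_pow, hSS2]
      field_simp
      ring
    rw [h4] at h3
    exact h3
  have bd2 : ∀ q, PP (uw V K) (E' q) ≤ 2 * Real.exp (-(κ ^ 2 / 2 * Real.log n)) := by
    intro q
    have h3 := R4_bd hH (T₀ q.1) (κ * SS n) n (by positivity) (hTn _) q.2.1 q.2.2
    have h4 : -((κ * SS n) ^ 2) / (2 * (n : ℝ)) = -(κ ^ 2 / 2 * Real.log n) := by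
      rw [mul_pow, hSS2]
      field_simp
    rw [h4] at h3
    exact h3
  have hsum : ∑ q, PP (uw V K) (E q) < 1 := by
    rw [Fintype.sum_sum_type]
    have s1 : ∑ q : ι × Finset (Fin K) × (Fin K → Bool), PP (uw V K) (E (Sum.inl q)) ≤
        (2 * 4 ^ K : ℝ) * Real.exp (-(3 / 2 * Real.log n)) := by
      refine (Finset.sum_le_card_nsmul _ _ (2 * Real.exp (-(9 / 2 * Real.log n)))
        (fun q _ => bd1 q.1 q.2.1 q.2.2)).trans ?_
      rw [nsmul_eq_mul, Finset.card_univ, Fintype.card_prod, Fintype.card_prod]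
      have h3 : ((Fintype.card ι * (Fintype.card (Finset (Fin K)) * Fintype.card (Fin K → Bool))
          : ℕ) : ℝ) ≤ (n : ℝ) ^ 3 * 4 ^ K := by
        rw [Nat.cast_mul, hcard]
        apply mul_le_mul_of_nonneg_right _ (by positivity)
        exact_mod_cast hι
      have h4 : (n : ℝ) ^ 3 = Real.exp (3 * Real.log n) := by
        rw [show (3 : ℝ) * Real.log n = ((3 : ℕ) : ℝ) * Real.log n by norm_num,
          Real.exp_nat_mul, Real.exp_log hnpos]
      have h5 : Real.exp (3 * Real.log n) * Real.exp (-(9 / 2 * Real.log n)) =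
          Real.exp (-(3 / 2 * Real.log n)) := by
        rw [← Real.exp_add]
        congr 1
        ring
      calc ((Fintype.card ι * (Fintype.card (Finset (Fin K)) * Fintype.card (Fin K → Bool))
          : ℕ) : ℝ) * (2 * Real.exp (-(9 / 2 * Real.log n)))
          ≤ ((n : ℝ) ^ 3 * 4 ^ K) * (2 * Real.exp (-(9 / 2 * Real.log n))) :=
            mul_le_mul_of_nonneg_right h3 (by positivity)
        _ = (2 * 4 ^ K) * (Real.exp (3 * Real.log n) * Real.exp (-(9 / 2 * Real.log n))) := by
            rw [h4]; ring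
        _ = _ := by rw [h5]
    have s2 : ∑ q : Unit, PP (uw V K) (E (Sum.inr q)) ≤
        (2 * 4 ^ K / η : ℝ) * Real.exp (-(κ ^ 2 / 2 * Real.log n)) := by
      rw [Fintype.sum_unique]
      refine (hM V (Fin K → Bool) (V × Finset (Fin K) × (Fin K → Bool)) (uw V K) E' (η * n)
        hw0 hw1 (by positivity)).trans ?_
      rw [div_le_iff₀ (by positivity : (0:ℝ) < η * n)]
      refine (Finset.sum_le_card_nsmul _ _ (2 * Real.exp (-(κ ^ 2 / 2 * Real.log n)))
        (fun q _ => bd2 q)).trans ?_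
      rw [nsmul_eq_mul, Finset.card_univ, Fintype.card_prod, Fintype.card_prod, hV,
        Nat.cast_mul, hcard]
      have : (2 * 4 ^ K / η : ℝ) * Real.exp (-(κ ^ 2 / 2 * Real.log n)) * (η * n) =
          (n * 4 ^ K) * (2 * Real.exp (-(κ ^ 2 / 2 * Real.log n))) := by
        field_simp
      rw [this]
    linarith
  obtain ⟨x, hx, _⟩ := hA V (Fin K → Bool) J (uw V K) E hw0 hw1 hsum
  refine ⟨x, ?_, ?_⟩
  · intro i X
    have h3 := hx (Sum.inl (i, X, x (c i)))
    have h4 : ¬ (3 * SS n ≤ |∑ u ∈ T i, ((if univ.filter (fun j => x (c i) j ≠ x u j) = X then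
      (1 : ℝ) else 0) - (1 / 2) ^ K)|) := h3
    rw [R4_count] at h4
    exact (not_le.1 h4).le
  · have h3 := hx (Sum.inr ())
    have h4 : ¬ (η * n ≤ ((univ.filter (fun q => x ∈ E' q)).card : ℝ)) := h3
    refine le_trans ?_ (not_le.1 h4).le
    have h5 : ∀ v ∈ univ.filter (fun v => ∃ X : Finset (Fin K), κ * SS n <
        |(((T₀ v).filter (fun u => pat x v u = X)).card : ℝ) - (1 / 2) ^ K * (T₀ v).card|),
        ∃ X : Finset (Fin K), κ * SS n <
        |(((T₀ v).filter (fun u => pat x v u = X)).card : ℝ) - (1 / 2) ^ K * (T₀ v).card| :=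
      fun v hv => (Finset.mem_filter.1 hv).2
    have h6 : (univ.filter (fun v => ∃ X : Finset (Fin K), κ * SS n <
        |(((T₀ v).filter (fun u => pat x v u = X)).card : ℝ) - (1 / 2) ^ K * (T₀ v).card|)).card ≤
        (univ.filter (fun q => x ∈ E' q)).card := by
      let f : V → V × Finset (Fin K) × (Fin K → Bool) := fun v =>
        (v, if h : ∃ X : Finset (Fin K), κ * SS n <
          |(((T₀ v).filter (fun u => pat x v u = X)).card : ℝ) - (1 / 2) ^ K * (T₀ v).card|
          then h.choose else ∅, x v)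
      refine Finset.card_le_card_of_injOn f ?_ ?_
      · intro v hv
        have hv' := h5 v (Finset.mem_coe.1 hv)
        refine Finset.mem_coe.2 (Finset.mem_filter.2 ⟨Finset.mem_univ _, ?_⟩)
        show κ * SS n ≤ |∑ u ∈ T₀ v, ((if univ.filter (fun j => x v j ≠ x u j) = (f v).2.1 then
          (1 : ℝ) else 0) - (1 / 2) ^ K)|
        rw [R4_count]
        have h7 : (f v).2.1 = hv'.choose := dif_pos hv'
        rw [h7]
        exact hv'.choose_spec.le
      · intro v _ v' _ h
        exact congrArg Prod.fst h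
    exact_mod_cast h6

end

end Pool.Agent.Helper15.LR
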