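import Pool.Agent.Helper15.LR.Defs3

set_option autoImplicit false

/-!
R6: assignment of the edges to the levels by rounding a fractional assignment.
-/

open Finset Filter
open scoped Classical Topology

namespace Pool.Agent.Helper15.LR

noncomputable section

namespace R6

theorem mem_nb {V : Type} [Fintype V] (F : Set (Sym2 V)) (v u : V) :
    u ∈ nb F v ↔ s(v, u) ∈ F := by
  unfold nb
  simp

theorem filt_eq {V : Type} [Fintype V] (F : Set (Sym2 V)) (v : V) (P : Sym2 V → Prop) :
    (univ.filter (fun e : Sym2 V => e ∈ F ∧ v ∈ e ∧ P e)) =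
      ((nb F v).filter (fun u => P s(v, u))).image (fun u => s(v, u)) := by
  ext e
  simp only [mem_filter, mem_univ, true_and, mem_image, mem_nb]
  constructor
  · rintro ⟨h1, h2, h3⟩
    obtain ⟨u, rfl⟩ := Sym2.mem_iff_exists.1 h2
    exact ⟨u, ⟨h1, h3⟩, rfl⟩
  · rintro ⟨u, ⟨h1, h2⟩, rfl⟩
    exact ⟨h1, Sym2.mem_mk_left _ _, h2⟩

theorem inj {V : Type} (v : V) : Function.Injective (fun u : V => s(v, u)) := by
  intro a b h
  exact Sym2.congr_right.1 h

theorem sum_eq {V : Type} [Fintype V] (F : Set (Sym2 V)) (v : V) (g : Sym2 V → ℝ) :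
    ∑ e : Sym2 V, (if e ∈ F ∧ v ∈ e then g e else 0) = ∑ u ∈ nb F v, g s(v, u) := by
  have h := filt_eq F v (fun _ => True)
  have h2 : (univ.filter (fun e : Sym2 V => e ∈ F ∧ v ∈ e)) =
      (nb F v).image (fun u => s(v, u)) := by
    ext e
    have := congrArg (fun s => e ∈ s) h
    simp only [mem_filter, mem_univ, true_and, and_true, mem_image, eq_iff_iff] at this ⊢
    exact this
  rw [← Finset.sum_filter, h2, Finset.sum_image (fun a _ b _ hab => inj v hab)]

theorem ld_eq {V Λ : Type} [Fintype V] (F : Set (Sym2 V)) (φ : Sym2 V → Λ) (v : V) (o : Λ) :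
    (univ.filter (fun e : Sym2 V => e ∈ F ∧ v ∈ e ∧ o = φ e)).card = ld F φ v o := by
  rw [filt_eq F v (fun e => o = φ e), Finset.card_image_of_injective _ (inj v)]
  unfold ld
  refine congrArg Finset.card ?_
  ext u
  simp only [mem_filter]
  constructor
  · rintro ⟨h1, h2⟩; exact ⟨h1, h2.symm⟩
  · rintro ⟨h1, h2⟩; exact ⟨h1, h2.symm⟩

theorem core (hR : Round_stmt) {V : Type} [Fintype V] {K : ℕ} (F : Set (Sym2 V))
    (w0 w1 : V → V → Fin K → ℝ)
    (h0s : ∀ a b j, w0 a b j = w0 b a j) (h1s : ∀ a b j, w1 a b j = w1 b a j)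
    (h0 : ∀ a b j, s(a, b) ∈ F → 0 ≤ w0 a b j) (h1 : ∀ a b j, s(a, b) ∈ F → 0 ≤ w1 a b j)
    (hs : ∀ a b, s(a, b) ∈ F → ∑ j, (w0 a b j + w1 a b j) ≤ 1) :
    ∃ φ : Sym2 V → Option (Fin K × Bool),
      (∀ u v j, s(u, v) ∈ F → φ s(u, v) = some (j, false) → 0 < w0 u v j) ∧
      (∀ u v j, s(u, v) ∈ F → φ s(u, v) = some (j, true) → 0 < w1 u v j) ∧
      (∀ v j, (ld F φ v (some (j, false)) : ℝ) ≤ ∑ u ∈ nb F v, w0 v u j + 4) ∧
      (∀ v j, (ld F φ v (some (j, true)) : ℝ) ≤ ∑ u ∈ nb F v, w1 v u j + 4) ∧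
      (∀ v, (ld F φ v none : ℝ) ≤ ∑ u ∈ nb F v, (1 - ∑ j, (w0 v u j + w1 v u j)) + 4) := by
  -- symmetric weights
  let ww : V → V → Option (Fin K × Bool) → ℝ := fun a b o =>
    match o with
    | none => 1 - ∑ j, (w0 a b j + w1 a b j)
    | some (j, false) => w0 a b j
    | some (j, true) => w1 a b j
  have hsym : ∀ a b, ww a b = ww b a := by
    intro a b
    funext o
    rcases o with _ | ⟨j, b'⟩
    · show 1 - ∑ j, (w0 a b j + w1 a b j) = 1 - ∑ j, (w0 b a j + w1 b a j)
      simp only [h0s a b, h1s a b]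
    · cases b'
      · exact h0s a b j
      · exact h1s a b j
  let wl : Sym2 V → Option (Fin K × Bool) → ℝ := Sym2.lift ⟨ww, hsym⟩
  have hwl : ∀ a b, wl s(a, b) = ww a b := fun a b => rfl
  let w : Sym2 V → Option (Fin K × Bool) → ℝ := fun e o =>
    if e ∈ F then wl e o else if o = none then 1 else 0
  have hwF : ∀ e ∈ F, ∀ o, w e o = wl e o := by
    intro e he o
    show (if e ∈ F then wl e o else if o = none then 1 else 0) = wl e o
    rw [if_pos he]
  have hwn : ∀ e, e ∉ F → ∀ o, w e o = if o = none then 1 else 0 := by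
    intro e he o
    show (if e ∈ F then wl e o else if o = none then 1 else 0) = _
    rw [if_neg he]
  have hpos : ∀ e o, 0 ≤ w e o := by
    intro e o
    by_cases he : e ∈ F
    · rw [hwF e he o]
      induction e using Sym2.ind with
      | _ a b =>
        rw [hwl]
        rcases o with _ | ⟨j, b'⟩
        · have := hs a b he
          show 0 ≤ 1 - ∑ j, (w0 a b j + w1 a b j)
          linarith
        · cases b'
          · exact h0 a b j he
          · exact h1 a b j he
    · rw [hwn e he o]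
      split_ifs <;> norm_num
  have hsum : ∀ e, ∑ o, w e o = 1 := by
    intro e
    by_cases he : e ∈ F
    · simp only [hwF e he]
      induction e using Sym2.ind with
      | _ a b =>
        simp only [hwl]
        rw [Fintype.sum_option, Fintype.sum_prod_type]
        simp only [Fintype.sum_bool]
        show (1 - ∑ j, (w0 a b j + w1 a b j)) + ∑ j, (w1 a b j + w0 a b j) = 1
        have : ∑ j, (w1 a b j + w0 a b j) = ∑ j, (w0 a b j + w1 a b j) :=
          Finset.sum_congr rfl (fun j _ => add_comm _ _)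
        rw [this]; ring
    · simp only [hwn e he]
      simp
  obtain ⟨R, hRdef⟩ : ∃ R : Sym2 V → Option (Fin K × Bool) → (V × Option (Fin K × Bool)) → Prop,
    ∀ e o c, R e o c ↔ (e ∈ F ∧ c.1 ∈ e ∧ c.2 = o) := ⟨_, fun _ _ _ => Iff.rfl⟩
  have hR2 : ∀ e o, (univ.filter (fun c => R e o c)).card ≤ 2 := by
    intro e o
    induction e using Sym2.ind with
    | _ a b =>
      refine le_trans (Finset.card_le_card (t := {(a, o), (b, o)}) ?_) Finset.card_le_two
      intro c hc
      obtain ⟨_, h2, h3⟩ := (hRdef _ _ _).1 (mem_filter.1 hc).2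
      rcases Sym2.mem_iff.1 h2 with h | h
      · rw [mem_insert]; left; exact Prod.ext h h3
      · rw [mem_insert]; right; rw [mem_singleton]; exact Prod.ext h h3
  obtain ⟨φ, hφ1, hφ2⟩ := hR (Sym2 V) (Option (Fin K × Bool)) (V × Option (Fin K × Bool)) R w
    hpos hsum hR2
  have key : ∀ v o, (ld F φ v o : ℝ) ≤ ∑ u ∈ nb F v, ww v u o + 4 := by
    intro v o
    have h := hφ2 (v, o)
    have e1 : (univ.filter (fun i => R i (φ i) (v, o))).card = ld F φ v o := by
      rw [← ld_eq F φ v o]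
      refine congrArg Finset.card ?_
      ext e
      simp only [mem_filter, mem_univ, true_and, hRdef]
    have e2 : ∑ i, ∑ o', (if R i o' (v, o) then w i o' else 0) =
        ∑ u ∈ nb F v, ww v u o := by
      have e3 : ∀ i : Sym2 V, ∑ o', (if R i o' (v, o) then w i o' else 0) =
          if i ∈ F ∧ v ∈ i then w i o else 0 := by
        intro i
        by_cases hi : i ∈ F ∧ v ∈ i
        · rw [if_pos hi]
          rw [Finset.sum_eq_single o]
          · have : R i o (v, o) := (hRdef _ _ _).2 ⟨hi.1, hi.2, rfl⟩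
            rw [if_pos this]
          · intro o' _ hne
            have : ¬ R i o' (v, o) := fun hh => hne ((hRdef _ _ _).1 hh).2.2.symm
            rw [if_neg this]
          · intro hh; exact absurd (mem_univ o) hh
        · rw [if_neg hi]
          apply Finset.sum_eq_zero
          intro o' _
          have : ¬ R i o' (v, o) := fun hh =>
            hi ⟨((hRdef _ _ _).1 hh).1, ((hRdef _ _ _).1 hh).2.1⟩
          rw [if_neg this]
      simp only [e3]
      rw [sum_eq F v (fun e => w e o)]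
      apply Finset.sum_congr rfl
      intro u hu
      show w s(v, u) o = ww v u o
      rw [hwF _ ((mem_nb F v u).1 hu) o, hwl]
    rw [e1, e2] at h
    have := (abs_le.1 h).2
    linarith
  refine ⟨φ, ?_, ?_, ?_, ?_, ?_⟩
  · intro u v j huv hj
    have := hφ1 s(u, v)
    rw [hwF _ huv, hwl, hj] at this
    exact this
  · intro u v j huv hj
    have := hφ1 s(u, v)
    rw [hwF _ huv, hwl, hj] at this
    exact this
  · intro v j; exact key v (some (j, false))
  · intro v j; exact key v (some (j, true))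
  · intro v; exact key v none

end R6

open R6 in
theorem R6 (hR : Round_stmt) : Assign_stmt := by
  intro V _ K F σ lam θ W Wh Tp β y hF hl0 hl1 hθ hKθ h2K hWh hTp hβ hy
  let N : V → Fin K → ℝ := fun v j =>
    (((nb F v).filter (fun u => u ∉ W ∧ σ v j ≠ σ u j)).card : ℝ)
  let cr : V → V → Fin K → ℝ := fun a b j =>
    if a ∈ Wh ∧ b ∉ W then (β a j - nu F σ lam a j) / N a j else 0
  let bs : V → V → Fin K → ℝ := fun a b j =>
    if a ∈ Wh ∧ b ∈ Tp a j then y a j / ((Tp a j).card : ℝ) else 0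
  let w0 : V → V → Fin K → ℝ := fun a b j =>
    if σ a j ≠ σ b j then lam / ((pat σ a b).card : ℝ) + (cr a b j + cr b a j) else 0
  let w1 : V → V → Fin K → ℝ := fun a b j => bs a b j + bs b a j
  have cr_pos : ∀ a b j, a ∈ Wh → b ∉ W → cr a b j = (β a j - nu F σ lam a j) / N a j := by
    intro a b j h1 h2
    show (if a ∈ Wh ∧ b ∉ W then _ else _) = _
    rw [if_pos ⟨h1, h2⟩]
  have cr_zero : ∀ a b j, ¬ (a ∈ Wh ∧ b ∉ W) → cr a b j = 0 := by
    intro a b j h
    show (if a ∈ Wh ∧ b ∉ W then _ else _) = _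
    rw [if_neg h]
  have bs_pos : ∀ a b j, a ∈ Wh → b ∈ Tp a j → bs a b j = y a j / ((Tp a j).card : ℝ) := by
    intro a b j h1 h2
    show (if a ∈ Wh ∧ b ∈ Tp a j then _ else _) = _
    rw [if_pos ⟨h1, h2⟩]
  have bs_zero : ∀ a b j, ¬ (a ∈ Wh ∧ b ∈ Tp a j) → bs a b j = 0 := by
    intro a b j h
    show (if a ∈ Wh ∧ b ∈ Tp a j then _ else _) = _
    rw [if_neg h]
  have w0_pos : ∀ a b j, σ a j ≠ σ b j →
      w0 a b j = lam / ((pat σ a b).card : ℝ) + (cr a b j + cr b a j) := by
    intro a b j h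
    show (if σ a j ≠ σ b j then _ else _) = _
    rw [if_pos h]
  have w0_zero : ∀ a b j, ¬ (σ a j ≠ σ b j) → w0 a b j = 0 := by
    intro a b j h
    show (if σ a j ≠ σ b j then _ else _) = _
    rw [if_neg h]
  have pat_symm : ∀ a b, pat σ a b = pat σ b a := by
    intro a b
    ext j
    simp only [pat, mem_filter, mem_univ, true_and]
    exact ne_comm
  have hbs0 : ∀ a b j, 0 ≤ bs a b j := by
    intro a b j
    by_cases h : a ∈ Wh ∧ b ∈ Tp a j
    · rw [bs_pos a b j h.1 h.2]
      exact div_nonneg (hy a h.1 j).1 (Nat.cast_nonneg _)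
    · rw [bs_zero a b j h]
  have hbsθ : ∀ a b j, bs a b j ≤ θ := by
    intro a b j
    by_cases h : a ∈ Wh ∧ b ∈ Tp a j
    · rw [bs_pos a b j h.1 h.2]
      have hc : (0 : ℝ) < (Tp a j).card := by
        exact_mod_cast Finset.card_pos.2 ⟨b, h.2⟩
      rw [div_le_iff₀ hc]
      exact (hy a h.1 j).2
    · rw [bs_zero a b j h]; exact hθ
  -- at most one of the two is nonzero
  have hbs2 : ∀ a b j, bs a b j + bs b a j ≤ θ := by
    intro a b j
    by_cases h : a ∈ Wh ∧ b ∈ Tp a j
    · have hb : b ∉ W := (hTp a h.1 j b h.2).2.1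
      have : bs b a j = 0 := bs_zero b a j (fun hh => hb (hWh hh.1))
      rw [this, add_zero]; exact hbsθ a b j
    · rw [bs_zero a b j h, zero_add]; exact hbsθ b a j
  have hcrθ : ∀ a b j, s(a, b) ∈ F → σ a j ≠ σ b j → |cr a b j| ≤ θ := by
    intro a b j hab hj
    by_cases h : a ∈ Wh ∧ b ∉ W
    · rw [cr_pos a b j h.1 h.2]
      have hN : 0 < N a j := by
        show (0 : ℝ) < (((nb F a).filter (fun u => u ∉ W ∧ σ a j ≠ σ u j)).card : ℝ)
        have hb : b ∈ (nb F a).filter (fun u => u ∉ W ∧ σ a j ≠ σ u j) :=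
          mem_filter.2 ⟨(mem_nb F a b).2 hab, h.2, hj⟩
        exact_mod_cast Finset.card_pos.2 ⟨b, hb⟩
      rw [abs_div, abs_of_pos hN, div_le_iff₀ hN]
      exact hβ a h.1 j
    · rw [cr_zero a b j h, abs_zero]; exact hθ
  have hcr2 : ∀ a b j, s(a, b) ∈ F → σ a j ≠ σ b j → |cr a b j + cr b a j| ≤ θ := by
    intro a b j hab hj
    by_cases h : a ∈ Wh ∧ b ∉ W
    · have : cr b a j = 0 := cr_zero b a j (fun hh => h.2 (hWh hh.1))
      rw [this, add_zero]; exact hcrθ a b j hab hj
    · rw [cr_zero a b j h, zero_add]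
      exact hcrθ b a j (by rw [Sym2.eq_swap]; exact hab) (Ne.symm hj)
  have hcard : ∀ a b (j : Fin K), σ a j ≠ σ b j → (0 : ℝ) < (pat σ a b).card := by
    intro a b j hj
    exact_mod_cast Finset.card_pos.2 ⟨j, by
      simp only [pat, mem_filter, mem_univ, true_and]; exact hj⟩
  have hcardK : ∀ a b, ((pat σ a b).card : ℝ) ≤ K := by
    intro a b
    have := Finset.card_le_univ (pat σ a b)
    rw [Fintype.card_fin] at this
    exact_mod_cast this
  have hw0 : ∀ a b j, s(a, b) ∈ F → 0 ≤ w0 a b j := by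
    intro a b j hab
    by_cases hj : σ a j ≠ σ b j
    · rw [w0_pos a b j hj]
      have h1 := (abs_le.1 (hcr2 a b j hab hj)).1
      have h2 : θ ≤ lam / ((pat σ a b).card : ℝ) := by
        rw [le_div_iff₀ (hcard a b j hj)]
        calc θ * ((pat σ a b).card : ℝ) ≤ θ * K := mul_le_mul_of_nonneg_left (hcardK a b) hθ
          _ = K * θ := mul_comm _ _
          _ ≤ lam := hKθ
      linarith
    · rw [w0_zero a b j hj]
  have hw1 : ∀ a b j, 0 ≤ w1 a b j := fun a b j => add_nonneg (hbs0 a b j) (hbs0 b a j)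
  have hs : ∀ a b, s(a, b) ∈ F → ∑ j, (w0 a b j + w1 a b j) ≤ 1 := by
    intro a b hab
    have h1 : ∀ j, w0 a b j + w1 a b j ≤
        (if σ a j ≠ σ b j then lam / ((pat σ a b).card : ℝ) else 0) + 2 * θ := by
      intro j
      have h3 : w1 a b j ≤ θ := hbs2 a b j
      by_cases hj : σ a j ≠ σ b j
      · rw [w0_pos a b j hj, if_pos hj]
        have h2 := (abs_le.1 (hcr2 a b j hab hj)).2
        linarith
      · rw [w0_zero a b j hj, if_neg hj]
        linarith
    refine le_trans (Finset.sum_le_sum (fun j _ => h1 j)) ?_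
    rw [Finset.sum_add_distrib, Finset.sum_const, Finset.card_univ, Fintype.card_fin,
      nsmul_eq_mul, ← Finset.sum_filter]
    have h4 : ∑ j ∈ univ.filter (fun j => σ a j ≠ σ b j), lam / ((pat σ a b).card : ℝ) ≤ lam := by
      rw [Finset.sum_const, nsmul_eq_mul]
      show ((pat σ a b).card : ℝ) * (lam / ((pat σ a b).card : ℝ)) ≤ lam
      by_cases h0 : ((pat σ a b).card : ℝ) = 0
      · rw [h0]; simp; exact hl0.le
      · rw [mul_div_cancel₀ _ h0]
    linarith
  have hw0s : ∀ a b j, w0 a b j = w0 b a j := by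
    intro a b j
    by_cases hj : σ a j ≠ σ b j
    · rw [w0_pos a b j hj, w0_pos b a j (Ne.symm hj), pat_symm a b, add_comm (cr a b j)]
    · rw [w0_zero a b j hj, w0_zero b a j (fun h => hj (Ne.symm h))]
  have hw1s : ∀ a b j, w1 a b j = w1 b a j := fun a b j => add_comm _ _
  obtain ⟨φ, p0, p1, l0, l1, ln⟩ := core hR F w0 w1 hw0s hw1s hw0 (fun a b j _ => hw1 a b j) hs
  -- sums of the weights
  have s0 : ∀ v j, ∑ u ∈ nb F v, w0 v u j = nu F σ lam v j +
      ∑ u ∈ (nb F v).filter (fun u => σ v j ≠ σ u j), (cr v u j + cr u v j) := by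
    intro v j
    unfold nu
    rw [← Finset.sum_add_distrib, Finset.sum_filter]
    all_goals rfl
  have sn : ∀ v, ∑ u ∈ nb F v, (1 - ∑ j, (w0 v u j + w1 v u j)) =
      dg F v - ∑ j, (∑ u ∈ nb F v, w0 v u j + ∑ u ∈ nb F v, w1 v u j) := by
    intro v
    rw [Finset.sum_sub_distrib, Finset.sum_comm]
    simp only [Finset.sum_add_distrib, Finset.sum_const, nsmul_eq_mul, mul_one]
    rfl
  -- vertices in `Wh`
  have a0 : ∀ v ∈ Wh, ∀ j, ∑ u ∈ nb F v, w0 v u j = β v j := by
    intro v hv j
    rw [s0 v j]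
    have h1 : ∑ u ∈ (nb F v).filter (fun u => σ v j ≠ σ u j), (cr v u j + cr u v j) =
        N v j * ((β v j - nu F σ lam v j) / N v j) := by
      have h2 : ∀ u ∈ (nb F v).filter (fun u => σ v j ≠ σ u j), cr v u j + cr u v j =
          if u ∉ W then (β v j - nu F σ lam v j) / N v j else 0 := by
        intro u _
        have h3 : cr u v j = 0 := cr_zero u v j (fun hh => hh.2 (hWh hv))
        rw [h3, add_zero]
        by_cases hu : u ∉ W
        · rw [cr_pos v u j hv hu, if_pos hu]
        · rw [cr_zero v u j (fun hh => hu hh.2), if_neg hu]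
      rw [Finset.sum_congr rfl h2, ← Finset.sum_filter, Finset.sum_const, nsmul_eq_mul,
        Finset.filter_filter]
      have h4 : (nb F v).filter (fun u => σ v j ≠ σ u j ∧ u ∉ W) =
          (nb F v).filter (fun u => u ∉ W ∧ σ v j ≠ σ u j) := by
        ext u
        simp only [mem_filter]
        constructor
        · rintro ⟨x, y, z⟩; exact ⟨x, z, y⟩
        · rintro ⟨x, y, z⟩; exact ⟨x, z, y⟩
      rw [h4]
    rw [h1]
    by_cases h0 : N v j = 0
    · have h5 := hβ v hv j
      have h6 : (((nb F v).filter (fun u => u ∉ W ∧ σ v j ≠ σ u j)).card : ℝ) = 0 := h0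
      rw [h6, mul_zero] at h5
      have h7 : β v j - nu F σ lam v j = 0 := abs_eq_zero.1 (le_antisymm h5 (abs_nonneg _))
      rw [h0, zero_mul, add_zero]
      linarith
    · rw [mul_div_cancel₀ _ h0]; ring
  have a1 : ∀ v ∈ Wh, ∀ j, ∑ u ∈ nb F v, w1 v u j = y v j := by
    intro v hv j
    have h2 : ∀ u ∈ nb F v, w1 v u j =
        if u ∈ Tp v j then y v j / ((Tp v j).card : ℝ) else 0 := by
      intro u _
      have h3 : bs u v j = 0 := bs_zero u v j (fun hh => (hTp u hh.1 j v hh.2).2.1 (hWh hv))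
      show bs v u j + bs u v j = _
      rw [h3, add_zero]
      by_cases hu : u ∈ Tp v j
      · rw [bs_pos v u j hv hu, if_pos hu]
      · rw [bs_zero v u j (fun hh => hu hh.2), if_neg hu]
    rw [Finset.sum_congr rfl h2, ← Finset.sum_filter, Finset.sum_const, nsmul_eq_mul]
    have h4 : (nb F v).filter (fun u => u ∈ Tp v j) = Tp v j := by
      ext u
      simp only [mem_filter, mem_nb]
      exact ⟨fun h => h.2, fun h => ⟨(hTp v hv j u h).1, h⟩⟩
    rw [h4]
    by_cases h0 : ((Tp v j).card : ℝ) = 0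
    · have h5 := hy v hv j
      rw [h0, mul_zero] at h5
      rw [h0, zero_mul]
      linarith [h5.1, h5.2]
    · rw [mul_div_cancel₀ _ h0]
  -- vertices outside `W`
  have b0 : ∀ v ∉ W, ∀ j, |∑ u ∈ nb F v, w0 v u j - nu F σ lam v j| ≤ W.card * θ := by
    intro v hv j
    rw [s0 v j, add_sub_cancel_left]
    refine le_trans (Finset.abs_sum_le_sum_abs _ _) ?_
    have h2 : ∀ u ∈ (nb F v).filter (fun u => σ v j ≠ σ u j), |cr v u j + cr u v j| ≤
        if u ∈ W then θ else 0 := by
      intro u hu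
      obtain ⟨hu1, hu2⟩ := mem_filter.1 hu
      by_cases hW : u ∈ W
      · rw [if_pos hW]
        exact hcr2 v u j ((mem_nb F v u).1 hu1) hu2
      · rw [if_neg hW, cr_zero v u j (fun hh => hv (hWh hh.1)),
          cr_zero u v j (fun hh => hW (hWh hh.1))]
        simp
    refine le_trans (Finset.sum_le_sum h2) ?_
    rw [← Finset.sum_filter, Finset.sum_const, nsmul_eq_mul]
    apply mul_le_mul_of_nonneg_right _ hθ
    have : ((nb F v).filter (fun u => σ v j ≠ σ u j)).filter (fun u => u ∈ W) ⊆ W := by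
      intro u hu; exact (mem_filter.1 hu).2
    exact_mod_cast Finset.card_le_card this
  have b1 : ∀ v ∉ W, ∀ j, ∑ u ∈ nb F v, w1 v u j ≤ W.card * θ := by
    intro v hv j
    have h2 : ∀ u ∈ nb F v, w1 v u j ≤ if u ∈ W then θ else 0 := by
      intro u _
      show bs v u j + bs u v j ≤ _
      by_cases hW : u ∈ W
      · rw [if_pos hW]; exact hbs2 v u j
      · rw [if_neg hW, bs_zero v u j (fun hh => hv (hWh hh.1)),
          bs_zero u v j (fun hh => hW (hWh hh.1)), add_zero]
    refine le_trans (Finset.sum_le_sum h2) ?_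
    rw [← Finset.sum_filter, Finset.sum_const, nsmul_eq_mul]
    apply mul_le_mul_of_nonneg_right _ hθ
    have : (nb F v).filter (fun u => u ∈ W) ⊆ W := by
      intro u hu; exact (mem_filter.1 hu).2
    exact_mod_cast Finset.card_le_card this
  -- vertices in `W \ Wh`
  have c0 : ∀ v ∈ W, v ∉ Wh → ∀ j, ∑ u ∈ nb F v, w0 v u j = nu F σ lam v j := by
    intro v hv hv' j
    rw [s0 v j]
    have : ∑ u ∈ (nb F v).filter (fun u => σ v j ≠ σ u j), (cr v u j + cr u v j) = 0 := by
      apply Finset.sum_eq_zero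
      intro u _
      rw [cr_zero v u j (fun hh => hv' hh.1), cr_zero u v j (fun hh => hh.2 hv), add_zero]
    rw [this, add_zero]
  have c1 : ∀ v ∈ W, v ∉ Wh → ∀ u j, w1 v u j = 0 := by
    intro v hv hv' u j
    show bs v u j + bs u v j = 0
    rw [bs_zero v u j (fun hh => hv' hh.1),
      bs_zero u v j (fun hh => (hTp u hh.1 j v hh.2).2.1 hv), add_zero]
  refine ⟨φ, ?_, ?_, ?_, ?_, ?_, ?_, ?_, ?_⟩
  · intro u v j b huv hφ
    cases b
    · by_contra hc
      have := p0 u v j huv hφ
      rw [w0_zero u v j (fun h => h hc)] at this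
      exact lt_irrefl _ this
    · have h := p1 u v j huv hφ
      by_cases h1 : u ∈ Wh ∧ v ∈ Tp u j
      · exact (hTp u h1.1 j v h1.2).2.2
      · by_cases h2 : v ∈ Wh ∧ u ∈ Tp v j
        · exact Ne.symm (hTp v h2.1 j u h2.2).2.2
        · exfalso
          have : w1 u v j = 0 := by
            show bs u v j + bs v u j = 0
            rw [bs_zero u v j h1, bs_zero v u j h2, add_zero]
          rw [this] at h
          exact lt_irrefl _ h
  · intro u v j huv hφ
    have h := p1 u v j huv hφ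
    by_cases h1 : u ∈ Wh ∧ v ∈ Tp u j
    · exact Or.inl h1
    · by_cases h2 : v ∈ Wh ∧ u ∈ Tp v j
      · exact Or.inr h2
      · exfalso
        have : w1 u v j = 0 := by
          show bs u v j + bs v u j = 0
          rw [bs_zero u v j h1, bs_zero v u j h2, add_zero]
        rw [this] at h
        exact lt_irrefl _ h
  · intro v hv j
    have h0 := l0 v j
    have h1 := l1 v j
    rw [a0 v hv j] at h0
    rw [a1 v hv j] at h1
    exact ⟨h0, h1⟩
  · intro v hv
    have h0 := ln v
    rw [sn v] at h0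
    simp only [a0 v hv, a1 v hv] at h0
    exact h0
  · intro v hv j
    have h0 := l0 v j
    have h1 := l1 v j
    have h2 := (abs_le.1 (b0 v hv j)).2
    have h3 := b1 v hv j
    constructor <;> linarith
  · intro v hv
    have h0 := ln v
    rw [sn v] at h0
    have h1 : ∑ j, nu F σ lam v j - K * W.card * θ ≤
        ∑ j, (∑ u ∈ nb F v, w0 v u j + ∑ u ∈ nb F v, w1 v u j) := by
      have h2 : ∀ j, nu F σ lam v j - W.card * θ ≤
          ∑ u ∈ nb F v, w0 v u j + ∑ u ∈ nb F v, w1 v u j := by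
        intro j
        have h3 := (abs_le.1 (b0 v hv j)).1
        have h4 : 0 ≤ ∑ u ∈ nb F v, w1 v u j := Finset.sum_nonneg (fun u _ => hw1 v u j)
        linarith
      have h5 := Finset.sum_le_sum (s := (univ : Finset (Fin K))) (fun j _ => h2 j)
      rw [Finset.sum_sub_distrib, Finset.sum_const, Finset.card_univ, Fintype.card_fin,
        nsmul_eq_mul] at h5
      linarith
    linarith
  · intro v hv hv' j
    have h0 := l0 v j
    rw [c0 v hv hv' j] at h0
    refine ⟨h0, ?_⟩
    unfold ld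
    refine Finset.card_eq_zero.2 (Finset.eq_empty_of_forall_notMem ?_)
    intro u hu'
    simp only [mem_filter] at hu'
    obtain ⟨hu, hφ⟩ := hu'
    have h1 := p1 v u j ((mem_nb F v u).1 hu) hφ
    rw [c1 v hv hv' u j] at h1
    exact lt_irrefl _ h1
  · intro v hv hv'
    have h0 := ln v
    rw [sn v] at h0
    simp only [c0 v hv hv', c1 v hv hv', Finset.sum_const_zero, add_zero] at h0
    exact h0

end

end Pool.Agent.Helper15.LR
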