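import Pool.Agent.Helper15.LR.R8b

set_option autoImplicit false

open Finset Filter
open scoped Classical Topology

namespace Pool.Agent.Helper15.LR

noncomputable section

/-- choice of the top sets -/
lemma tops2 (hQ : Quantile_stmt) {V : Type} [Fintype V] {K : ℕ} (F : Set (Sym2 V))
    (L : Sym2 V → Finset ℕ) (g : ℕ → Option (Fin K)) (W : Finset V)
    (n m S ε ρ am q c lo : ℝ) (hS : 0 < S) (hε : 0 < ε) (hq : 0 < q) (hn : 0 < n) (hc : 0 < c)
    (hKq : 10 ^ 4 * K * q ≤ ε * c) (hq1 : 4 * q ≤ c)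
    (ham : K * am = (1 - ρ) * m) (hqn : 1 ≤ q * n)
    (hL : ∀ e ∈ F, ((L e).card : ℝ) = m)
    (hg1 : ∀ e ∈ F, ∀ j, |(ell L g (some j) e : ℝ) - am| ≤ 8 * S)
    (hg2 : ∀ e ∈ F, |(ell L g none e : ℝ) - ρ * m| ≤ ε * S / 100)
    (hdW : ∀ v, lo ≤ (dg F v : ℝ) → c * n / 2 ≤ (dg F v : ℝ) - W.card) :
    ∃ (M : V → Fin K → ℝ) (Tp : V → Fin K → Finset V),
      (∀ v, lo ≤ (dg F v : ℝ) → ∀ j, |M v j| ≤ 8 * S) ∧
      (∀ v, lo ≤ (dg F v : ℝ) → -(ε * S / 50) ≤ ∑ j, M v j) ∧
      (∀ v j, ∀ u ∈ Tp v j, u ∉ W ∧ s(v, u) ∈ F ∧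
        am + M v j ≤ (ell L g (some j) s(v, u) : ℝ)) ∧
      (∀ v, lo ≤ (dg F v : ℝ) → ∀ j, q * n ≤ ((Tp v j).card : ℝ)) := by
  have hTc : ∀ v, lo ≤ (dg F v : ℝ) → c * n / 2 ≤ ((nb F v \ W).card : ℝ) := by
    intro v hv
    have h1 : (nb F v).card ≤ (nb F v \ W).card + W.card := by
      have := le_card_sdiff W (nb F v)
      omega
    have h2 : (dg F v : ℝ) ≤ ((nb F v \ W).card : ℝ) + W.card := by
      unfold dg; exact_mod_cast h1
    have := hdW v hv
    linarith
  have hk1 : 1 ≤ ⌈q * n⌉₊ := Nat.one_le_ceil_iff.2 (by linarith)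
  have hk2 : (⌈q * n⌉₊ : ℝ) ≤ 2 * (q * n) := by
    have := Nat.ceil_lt_add_one (show 0 ≤ q * n by positivity)
    linarith
  have hk3 : ∀ v, lo ≤ (dg F v : ℝ) → ⌈q * n⌉₊ ≤ (nb F v \ W).card := by
    intro v hv
    have h1 := hTc v hv
    have h2 : 2 * (q * n) ≤ c * n / 2 := by nlinarith
    have h3 : (⌈q * n⌉₊ : ℝ) ≤ ((nb F v \ W).card : ℝ) := by linarith
    exact_mod_cast h3
  have key : ∀ v j, ∃ M : ℝ, lo ≤ (dg F v : ℝ) → (|M| ≤ 8 * S ∧
      ⌈q * n⌉₊ ≤ ((nb F v \ W).filter
        (fun u => M ≤ (ell L g (some j) s(v, u) : ℝ) - am)).card ∧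
      (∑ u ∈ nb F v \ W, ((ell L g (some j) s(v, u) : ℝ) - am)) ≤
        M * (nb F v \ W).card + 2 * (8 * S) * ⌈q * n⌉₊) := by
    intro v j
    by_cases hv : lo ≤ (dg F v : ℝ)
    · obtain ⟨M, h1, h2, h3⟩ := hQ V (nb F v \ W)
        (fun u => (ell L g (some j) s(v, u) : ℝ) - am) (8 * S) ⌈q * n⌉₊ (by
          intro u hu
          rw [Finset.mem_sdiff, mem_nb] at hu
          exact hg1 _ hu.1 j) hk1 (hk3 v hv)
      refine ⟨M, fun _ => ⟨h1, ?_, h3⟩⟩
      refine h2.trans (card_le_card ?_)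
      intro u hu
      simp only [mem_filter] at hu ⊢
      exact hu
    · exact ⟨0, fun h => absurd h hv⟩
  choose M hM using key
  refine ⟨M, fun v j => (nb F v \ W).filter
        (fun u => M v j ≤ (ell L g (some j) s(v, u) : ℝ) - am), fun v hv j => (hM v j hv).1,
        ?_, ?_, ?_⟩
  · intro v hv
    have h1 : ∑ j, (∑ u ∈ nb F v \ W, ((ell L g (some j) s(v, u) : ℝ) - am)) ≤
        ∑ j, (M v j * (nb F v \ W).card + 2 * (8 * S) * ⌈q * n⌉₊) :=
      sum_le_sum (fun j _ => (hM v j hv).2.2)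
    rw [sum_comm, sum_add_distrib, ← sum_mul, sum_const, card_univ, Fintype.card_fin,
      nsmul_eq_mul] at h1
    have h2 : ∑ u ∈ nb F v \ W, (-(ε * S / 100)) ≤
        ∑ u ∈ nb F v \ W, ∑ j, ((ell L g (some j) s(v, u) : ℝ) - am) := by
      apply sum_le_sum
      intro u hu
      rw [Finset.mem_sdiff, mem_nb] at hu
      rw [sum_sub_distrib, sum_ell, hL _ hu.1, sum_const, card_univ, Fintype.card_fin,
        nsmul_eq_mul, ham]
      have := (abs_le.1 (hg2 _ hu.1)).2
      linarith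
    rw [sum_const, nsmul_eq_mul] at h2
    set t : ℝ := ((nb F v \ W).card : ℝ) with ht
    have ht4 : c * n ≤ 2 * t := by have := hTc v hv; linarith
    have ht0 : 0 < t := by
      have : 0 < c * n := by positivity
      linarith
    have h3 : (K : ℝ) * (2 * (8 * S) * ⌈q * n⌉₊) ≤ 8 / 1000 * (ε * S) * t := by
      have h4 : (K : ℝ) * (2 * (8 * S) * ⌈q * n⌉₊) ≤ K * (2 * (8 * S) * (2 * (q * n))) := by
        apply mul_le_mul_of_nonneg_left _ (Nat.cast_nonneg _)
        exact mul_le_mul_of_nonneg_left hk2 (by positivity)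
      have h5 : (K : ℝ) * (2 * (8 * S) * (2 * (q * n))) = 32 / 10 ^ 4 * (10 ^ 4 * K * q) * (S * n) := by
        ring
      have h6 : 32 / 10 ^ 4 * (10 ^ 4 * K * q) * (S * n) ≤ 32 / 10 ^ 4 * (ε * c) * (S * n) := by
        apply mul_le_mul_of_nonneg_right _ (by positivity)
        exact mul_le_mul_of_nonneg_left hKq (by norm_num)
      have h7 : 32 / 10 ^ 4 * (ε * c) * (S * n) = 32 / 10 ^ 4 * (ε * S) * (c * n) := by ring
      have h8 : 32 / 10 ^ 4 * (ε * S) * (c * n) ≤ 32 / 10 ^ 4 * (ε * S) * (2 * t) :=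
        mul_le_mul_of_nonneg_left ht4 (by positivity)
      have h9 : 0 < ε * S * t := by positivity
      linarith
    have h7 : (-(ε * S / 50)) * t ≤ (∑ j, M v j) * t := by
      have h8 : 0 < ε * S * t := by positivity
      linarith
    exact le_of_mul_le_mul_right h7 ht0
  · intro v j u hu
    rw [mem_filter, Finset.mem_sdiff, mem_nb] at hu
    exact ⟨hu.1.2, hu.1.1, by linarith [hu.2]⟩
  · intro v hv j
    have h1 := (hM v j hv).2.1
    have h2 : (⌈q * n⌉₊ : ℝ) ≤ (((nb F v \ W).filter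
        (fun u => M v j ≤ (ell L g (some j) s(v, u) : ℝ) - am)).card : ℝ) := by exact_mod_cast h1
    exact (Nat.le_ceil _).trans h2

/-- a lower bound for `n` -/
lemma ev_ge2 (c : ℝ) : ∀ᶠ n : ℕ in atTop, c ≤ (n : ℝ) :=
  (tendsto_natCast_atTop_atTop (R := ℝ)).eventually (eventually_ge_atTop c)

lemma ev_log (c : ℝ) : ∀ᶠ n : ℕ in atTop, c ≤ Real.log (n : ℝ) :=
  (Real.tendsto_log_atTop.comp (tendsto_natCast_atTop_atTop (R := ℝ))).eventually
    (eventually_ge_atTop c)

/-- `SS n` is small compared with `n` -/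
lemma ev_small (a b : ℝ) (ha : 0 ≤ a) (hb : 0 < b) : ∀ᶠ n : ℕ in atTop, a * SS n ≤ b * n := by
  filter_upwards [SS_small (b / (a + 1)) (by positivity)] with n hn
  have h1 : b / (a + 1) * n = b * n / (a + 1) := by ring
  rw [h1, le_div_iff₀ (by positivity)] at hn
  have := SS_nonneg n
  linarith

theorem R8 (hCS : ColorSplit2_stmt) (hCells : Cells2_stmt) (hLeft : Leftover_stmt)
    (hLevel : Level3_stmt) (hAssign : Assign_stmt) (hNat : Nat_stmt) (hQ : Quantile_stmt) :
    Main3_stmt := by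
  intro ε c₀ hε hε1 hc₀
  set c : ℝ := min c₀ 1 with hcdef
  have hc : 0 < c := by rw [hcdef]; positivity
  have hcc₀ : c ≤ c₀ := min_le_left _ _
  have hc1 : c ≤ 1 := min_le_right _ _
  obtain ⟨ρ₀, hρ₀, hL0⟩ := hLeft (ε / 5) (by positivity)
  set ρ : ℝ := min (min (ρ₀ / 2) (ε ^ 2 / 10 ^ 7)) (1 / 10) with hρdef
  have hρ : 0 < ρ := by rw [hρdef]; positivity
  have hρ1 : ρ ≤ 1 / 10 := min_le_right _ _
  have hρ2 : ρ ≤ ρ₀ / 2 := (min_le_left _ _).trans (min_le_left _ _)
  have hρ3 : ρ ≤ ε ^ 2 / 10 ^ 7 := (min_le_left _ _).trans (min_le_right _ _)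
  obtain ⟨K, hK1, hK2, _, _⟩ := exists_K ρ hρ hρ1
  have hKr : (1 : ℝ) ≤ K := by exact_mod_cast hK1
  have hKp : (0 : ℝ) < K := by linarith
  set E : ℝ := 2 ^ K with hEdef
  have hE0 : 0 < E := by rw [hEdef]; positivity
  have hEE : (1 / 2 : ℝ) ^ K * E = 1 := by rw [hEdef, ← mul_pow]; norm_num
  have hE2 : 2 ≤ ρ * E := by
    have : (1 / 2 : ℝ) ^ K * E ≤ ρ / 2 * E := mul_le_mul_of_nonneg_right hK2 hE0.le
    linarith
  have hE1 : 1 ≤ E := by
    rw [hEdef]; exact one_le_pow₀ (by norm_num)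
  have hρ' : 0 < 1 - ρ := by linarith
  set α : ℝ := (1 - ρ) / K with hα
  have hα0 : 0 < α := by rw [hα]; positivity
  have hα1 : α ≤ 1 := by
    rw [hα, div_le_one hKp]; linarith
  set C : ℝ := K * (3 * E + 22) / (1 - ρ) + (3 * K * E + 1) / ρ with hC
  have hC0 : 0 < C := by rw [hC]; positivity
  have hC1 : K * (3 * E + 22) ≤ (1 - ρ) * C := by
    have h1 : 0 < (3 * K * E + 1) / ρ := by positivity
    have h2 : (1 - ρ) * (K * (3 * E + 22) / (1 - ρ)) = K * (3 * E + 22) := by field_simp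
    rw [hC, mul_add (1 - ρ), h2]
    have : 0 ≤ (1 - ρ) * ((3 * K * E + 1) / ρ) := by positivity
    linarith
  have hC2 : 3 * K * E + 1 ≤ ρ * C := by
    have h1 : 0 < K * (3 * E + 22) / (1 - ρ) := by positivity
    have h2 : ρ * ((3 * K * E + 1) / ρ) = 3 * K * E + 1 := by field_simp
    rw [hC, mul_add ρ, h2]
    have : 0 ≤ ρ * (K * (3 * E + 22) / (1 - ρ)) := by positivity
    linarith
  set q : ℝ := ε * c / (10 ^ 4 * K) with hqdef
  have hq : 0 < q := by rw [hqdef]; positivity
  have hqK : 10 ^ 4 * K * q = ε * c := by rw [hqdef]; field_simp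
  have hq1 : 4 * q ≤ c := by
    have h1 : q * 10 ^ 4 ≤ 10 ^ 4 * K * q := by nlinarith
    have h2 : ε * c ≤ 1 * c := mul_le_mul_of_nonneg_right hε1 hc.le
    linarith
  set D₄ : ℝ := 4 * (C + 3 * E + 22) / c + 93 / q with hD₄
  have hD0 : 0 < D₄ := by rw [hD₄]; positivity
  have hD1 : 4 * (C + 3 * E + 22) ≤ D₄ * c := by
    have h1 : 4 * (C + 3 * E + 22) / c * c = 4 * (C + 3 * E + 22) := by field_simp
    rw [hD₄, add_mul, h1]
    have : 0 ≤ 93 / q * c := by positivity
    linarith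
  have hD2 : 93 ≤ D₄ * q := by
    have h1 : 93 / q * q = 93 := by field_simp
    rw [hD₄, add_mul, h1]
    have : 0 ≤ 4 * (C + 3 * E + 22) / c * q := by positivity
    linarith
  set δ : ℝ := ε * α * c / (64000 * K) with hδdef
  have hδ : 0 < δ := by rw [hδdef]; positivity
  have hδK : 64000 * K * δ = ε * α * c := by rw [hδdef]; field_simp
  set kp : ℝ := ε / (800 * K * E) with hkp
  have hkp0 : 0 < kp := by rw [hkp]; positivity
  set η : ℝ := min (min (δ / 2) (q / 10)) (min (c / 100) (ε / (800 * K * D₄))) with hηdef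
  have hη : 0 < η := by rw [hηdef]; positivity
  have hη1 : η ≤ δ / 2 := (min_le_left _ _).trans (min_le_left _ _)
  have hη2 : η ≤ q / 10 := (min_le_left _ _).trans (min_le_right _ _)
  have hη3 : η ≤ c / 100 := (min_le_right _ _).trans (min_le_left _ _)
  have hη4 : 800 * K * (η * D₄) ≤ ε := by
    have h1 : η ≤ ε / (800 * K * D₄) := (min_le_right _ _).trans (min_le_right _ _)
    rw [le_div_iff₀ (by positivity)] at h1
    linarith
  have hη5 : 0 < η / 2 := by positivity
  filter_upwards [hCS K ε ρ (η / 2 * δ / 8) hK1 hε hε1 hρ hρ3 (by positivity),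
    hCells K kp (η / 2) hkp0 hη5, hL0, SS_large (32000 * K / ε), SS_large 1,
    ev_small 2000 (α * c) (by norm_num) (by positivity),
    ev_small (10 * (C + 6 * E)) c (by positivity) hc,
    ev_small (45 * E) q (by positivity) hq,
    ev_small 12 (ρ * c) (by norm_num) (by positivity),
    ev_small (6 * K * D₄) ρ (by positivity) hρ,
    ev_log (204800 * K ^ 2 / ε ^ 2), ev_ge2 (1 / q), ev_ge2 (K + 1), ev_ge2 1] with n hn1 hn2
      hn3 hn4 hn5 hn6 hn7 hn8 hn9 hn10 hn11 hn12 hn13 hn14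
  intro V _ F m L hV hF hm1' hm2 hL hd1
  have hS : 0 < SS n := by linarith
  have hn0 : (0 : ℝ) < n := by linarith
  have hVn : (Fintype.card V : ℝ) = n := by rw [hV]
  have hm1 : c * n ≤ m := (mul_le_mul_of_nonneg_right hcc₀ hn0.le).trans hm1'
  have hm2' : (m : ℝ) ≤ 2 * n := by exact_mod_cast hm2
  have hm0 : (0 : ℝ) < m := lt_of_lt_of_le (by positivity) hm1
  set s0 : ℝ := ε * SS n / (8 * K) with hs0def
  have hs0 : 0 < s0 := by rw [hs0def]; positivity
  have hKs0 : 8 * K * s0 = ε * SS n := by rw [hs0def]; field_simp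
  have hs0S : 8 * s0 ≤ SS n := by
    have h1 : ε * SS n ≤ 1 * SS n := mul_le_mul_of_nonneg_right hε1 hS.le
    have h2 : s0 ≤ K * s0 := le_mul_of_one_le_left hs0.le hKr
    linarith
  set am : ℝ := (1 - ρ) / K * m with ham
  have hamα : am = α * m := rfl
  have ham1 : α * c * n ≤ am := by
    rw [hamα, mul_assoc]
    exact mul_le_mul_of_nonneg_left hm1 hα0.le
  have ham2 : am ≤ 2 * n := by
    rw [hamα]
    calc α * m ≤ 1 * m := mul_le_mul_of_nonneg_right hα1 hm0.le
      _ ≤ 2 * n := by linarith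
  have hamT : α * c * n / 2 ≤ am - 4 * s0 := by
    have : 2000 * SS n ≤ α * c * n := hn6
    linarith
  have hKam : K * am = (1 - ρ) * m := by rw [ham]; field_simp
  have hlamdef : ((K : ℝ) * ((am + 2 * s0) / m) * E / (E - 1)) * (E - 1) =
      K * ((am + 2 * s0) / m) * E := by
    have hE20 : 20 ≤ E := by
      have : ρ * E ≤ 1 / 10 * E := mul_le_mul_of_nonneg_right hρ1 hE0.le
      linarith
    have : E - 1 ≠ 0 := by linarith
    field_simp
  let P : Par2 :=
    { n := n
      m := m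
      K := K
      E := E
      S := SS n
      ε := ε
      ρ := ρ
      c := c
      s0 := s0
      am := am
      lam := (K : ℝ) * ((am + 2 * s0) / m) * E / (E - 1)
      at' := (am + 2 * s0) / m
      δ := δ
      q := q
      η := η
      θ := D₄ * SS n / n
      kS := kp * SS n
      C := C
      hK := hKr
      hE := hE1
      hE2 := hE2
      hS := hS
      hε := hε
      hε1 := hε1
      hρ := hρ
      hρ1 := hρ1
      hc := hc
      hc1 := hc1
      hs0 := hs0
      hKs0 := hKs0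
      ham := hKam
      hat := by field_simp
      hlam := hlamdef
      hcm := hm1
      hmn := hm2'
      hδ := hδ
      hq := hq
      hη0 := hη.le
      hθ0 := by positivity
      hkS := by
        rw [hkp, hs0def]
        apply le_of_eq
        field_simp
        norm_num
      hC0 := hC0.le
      hC1 := hC1
      hC2 := hC2
      hθ1 := by
        have h1 : D₄ * SS n / n * (c * n / 4) = D₄ * c * SS n / 4 := by field_simp
        rw [h1]
        have h2 : 4 * (C + 3 * E + 22) * SS n ≤ D₄ * c * SS n := mul_le_mul_of_nonneg_right hD1 hS.le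
        linarith
      hθ2 := by
        have h1 : D₄ * SS n / n * (q * n / 3) = D₄ * q * SS n / 3 := by field_simp
        rw [h1]
        have h2 : 93 * SS n ≤ D₄ * q * SS n := mul_le_mul_of_nonneg_right hD2 hS.le
        linarith
      hθ3 := by
        have h1 : η * n * (D₄ * SS n / n) = η * D₄ * SS n := by field_simp
        rw [h1]
        have h2 : 800 * K * (η * D₄) * SS n ≤ ε * SS n := mul_le_mul_of_nonneg_right hη4 hS.le
        have h3 : K * (η * D₄ * SS n) ≤ K * (s0 / 100) := by linarith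
        exact le_of_mul_le_mul_left h3 hKp
      hθ4 := by
        rw [← mul_div_assoc, div_le_iff₀ hn0]
        linarith
      hη1 := hη3
      hω := by
        have h1 : (δ / 4 + η) * n ≤ 3 / 4 * δ * n := mul_le_mul_of_nonneg_right (by linarith) hn0.le
        have h2 : 1000 * SS n * ((δ / 4 + η) * n) ≤ 1000 * SS n * (3 / 4 * δ * n) :=
          mul_le_mul_of_nonneg_left h1 (by positivity)
        have h3 : s0 / 4 * (α * c * n / 2) ≤ s0 / 4 * (am - 4 * s0) :=
          mul_le_mul_of_nonneg_left hamT (by positivity)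
        have h4 : 1000 * SS n * (3 / 4 * δ * n) ≤ s0 / 4 * (α * c * n / 2) := by
          have h5 : K * (1000 * SS n * (3 / 4 * δ * n)) ≤ K * (s0 / 4 * (α * c * n / 2)) := by
            have h6 : K * (1000 * SS n * (3 / 4 * δ * n)) =
                3 / 256 * (64000 * K * δ) * (SS n * n) := by ring
            have h7 : K * (s0 / 4 * (α * c * n / 2)) = (8 * K * s0) * (α * c * n) / 64 := by ring
            rw [h6, h7, hδK, hKs0]
            have h8 : 0 ≤ ε * α * c * (SS n * n) := by positivity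
            linarith
          exact le_of_mul_le_mul_left h5 hKp
        linarith
      hb1 := by
        have : 2000 * SS n ≤ α * c * n := hn6
        linarith
      hb2 := by
        have h1 : s0 ^ 2 = ε ^ 2 * (SS n ^ 2) / (64 * K ^ 2) := by
          rw [hs0def]; field_simp; norm_num
        rw [h1, SS_sq, le_div_iff₀ (by positivity)]
        rw [div_le_iff₀ (by positivity)] at hn11
        have h2 : 1600 * (am - 4 * s0) * (64 * K ^ 2) ≤ 1600 * (2 * n) * (64 * K ^ 2) := by
          apply mul_le_mul_of_nonneg_right _ (by positivity)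
          linarith
        have h3 : 204800 * K ^ 2 * n ≤ Real.log n * ε ^ 2 * n :=
          mul_le_mul_of_nonneg_right hn11 hn0.le
        linarith
      hb3 := hn7
      hb5 := by
        rw [div_le_iff₀ hε] at hn4
        rw [hs0def, le_div_iff₀ (by positivity)]
        linarith
      hb6 := by
        have : 12 * SS n ≤ ρ * c * n := hn9
        linarith }
  -- splitting of the colours
  obtain ⟨g, hg1, hg2, hg3⟩ := hn1 {e : Sym2 V // e ∈ F} m (fun i => L i.1)
    (by
      refine (Fintype.card_subtype_le _).trans ?_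
      rw [← hV]
      exact card_sym2_le V) hm2 (fun i => hL i.1 i.2)
  have hell1 : ∀ e ∈ F, ∀ j, |(ell L g (some j) e : ℝ) - am| ≤ 8 * SS n := by
    intro e he j
    rw [ell_some]
    exact hg1 ⟨e, he⟩ j
  have hell2 : ∀ e ∈ F, |(ell L g none e : ℝ) - ρ * m| ≤ ε * SS n / 100 := by
    intro e he
    rw [ell_none]
    exact hg2 ⟨e, he⟩
  -- bad edges
  set B : Finset (Sym2 V) := univ.filter (fun e => e ∈ F ∧
    ∃ j, ¬ (am - s0 ≤ (ell L g (some j) e : ℝ))) with hB
  have hBc : (B.card : ℝ) ≤ η / 2 * δ / 8 * (Fintype.card V : ℝ) ^ 2 := by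
    rw [hVn]
    refine le_trans ?_ hg3
    have : B ⊆ (univ.filter (fun i : {e : Sym2 V // e ∈ F} =>
        ∃ j, (((L i.1).filter (fun x => g x = some j)).card : ℝ)
            < (1 - ρ) / K * m - s0)).image Subtype.val := by
      intro e he
      rw [hB, mem_filter] at he
      obtain ⟨_, he1, j, hj⟩ := he
      rw [mem_image]
      refine ⟨⟨e, he1⟩, ?_, rfl⟩
      rw [mem_filter]
      refine ⟨mem_univ _, j, ?_⟩
      rw [ell_some] at hj
      exact not_le.1 hj
    exact_mod_cast (card_le_card this).trans card_image_le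
  obtain ⟨Wc, hW1, hW2⟩ := exists_W B (η / 2) δ hδ (by rw [hV]; exact_mod_cast hn0) hBc
  rw [hVn] at hW1 hW2
  have hCS' : C * SS n ≤ c * n / 10 := by
    have h1 : 10 * (C + 6 * E) * SS n ≤ c * n := hn7
    have h2 : 0 ≤ E * SS n := by positivity
    linarith
  have hηn : η * n ≤ c / 100 * n := mul_le_mul_of_nonneg_right hη3 hn0.le
  obtain ⟨M, Tp₀, t1, t2, t3, t4⟩ := tops2 hQ F L g Wc n m (SS n) ε ρ am q c (m - C * SS n)
    hS hε hq hn0 hc hqK.le hq1 hKam
    (by
      rw [div_le_iff₀ hq] at hn12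
      linarith)
    (fun e he => by rw [hL e he]) hell1 hell2
    (by
      intro v hv
      linarith)
  -- cells
  have hnb : ∀ v, v ∉ nb F v := by
    intro v h
    rw [mem_nb] at h
    exact hF v h
  obtain ⟨σ, c1, c2⟩ := hn2 V (V × Option (Fin K))
    (fun p => p.2.elim (nb F p.1) (Tp₀ p.1)) (fun p => p.1) (fun v => nb F v) hV
    (by
      rw [Fintype.card_prod, Fintype.card_option, Fintype.card_fin, hV]
      have h1 : K + 1 ≤ n := by exact_mod_cast hn13
      have h2 : 1 ≤ n := by exact_mod_cast hn14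
      calc n * (K + 1) ≤ n * n := Nat.mul_le_mul_left _ h1
        _ ≤ n * n * n := Nat.le_mul_of_pos_right _ (by omega)
        _ = n ^ 3 := by ring)
    (by
      rintro ⟨v, o⟩
      rcases o with _ | j
      · exact hnb v
      · intro h
        exact hF v (t3 v j v h).2.1)
    hnb
  set Wp : Finset V := univ.filter (fun v => ∃ X : Finset (Fin K), kp * SS n <
          |(((nb F v).filter (fun u => pat σ v u = X)).card : ℝ) - (1 / 2) ^ K * (nb F v).card|)
    with hWp
  have c2' : (Wp.card : ℝ) ≤ η / 2 * n := by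
    refine le_trans (Nat.cast_le.2 (card_le_card ?_)) c2
    intro v hv
    simp only [hWp, mem_filter] at hv ⊢
    obtain ⟨h1, X, h2⟩ := hv
    exact ⟨h1, X, h2⟩
  have cp1 : ∀ v (X : Finset (Fin K)), |(((nb F v).filter (fun u => pat σ v u = X)).card : ℝ)
          - (1 / 2) ^ K * dg F v| ≤ 3 * SS n := fun v X => c1 (v, none) X
  have cp2 : ∀ v j (X : Finset (Fin K)),
      |(((Tp₀ v j).filter (fun u => pat σ v u = X)).card : ℝ)
          - (1 / 2) ^ K * (Tp₀ v j).card| ≤ 3 * SS n := fun v j X => c1 (v, some j) X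
  apply local2 hLevel hAssign hNat F hF P hK1 rfl rfl hVn.symm L g σ (Wc ∪ Wp) M
    (fun v j => (Tp₀ v j).filter (fun u => u ∉ Wp ∧ σ v j ≠ σ u j)) hd1
    (fun e he j => by have := (abs_le.1 (hell1 e he j)).1; linarith)
    (fun e he => by have := (abs_le.1 (hell2 e he)).1; linarith)
    (by
      have h1 : ((Wc ∪ Wp).card : ℝ) ≤ Wc.card + Wp.card := by exact_mod_cast card_union_le _ _
      linarith)
    (by
      intro v hv
      rw [mem_union, not_or] at hv
      refine le_trans ?_ (hW2 v hv.1)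
      have : (nb F v).filter
          (fun u => ∃ j, ¬ (P.am - P.s0 ≤ (ell L g (some j) s(v, u) : ℝ))) ⊆
          univ.filter (fun u => s(v, u) ∈ B) := by
        intro u hu
        rw [mem_filter, mem_nb] at hu
        rw [mem_filter, hB, mem_filter]
        exact ⟨mem_univ _, mem_univ _, hu.1, hu.2⟩
      exact_mod_cast card_le_card this)
    cp1
    (by
      intro v hv X
      rw [mem_union, not_or] at hv
      by_contra h
      push Not at h
      apply hv.2
      rw [hWp, mem_filter]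
      exact ⟨mem_univ _, X, h⟩)
    t1 t2
    (by
      intro v j u hu
      rw [mem_filter] at hu
      have h1 := t3 v j u hu.1
      refine ⟨?_, h1.2.1, hu.2.2, h1.2.2⟩
      rw [mem_union, not_or]
      exact ⟨h1.1, hu.2.1⟩)
    (by
      intro v hv j
      have h1 := t4 v hv j
      have h2 := cross_ge σ (Tp₀ v j) v (3 * SS n) (cp2 v j) j
      have h3 : ((Tp₀ v j).filter (fun u => σ v j ≠ σ u j)).card ≤
          ((Tp₀ v j).filter (fun u => u ∉ Wp ∧ σ v j ≠ σ u j)).card + Wp.card := by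
        refine le_trans (card_le_card ?_) (card_union_le _ _)
        intro u hu
        rw [mem_filter] at hu
        rw [mem_union, mem_filter]
        by_cases hw : u ∈ Wp
        · exact Or.inr hw
        · exact Or.inl ⟨hu.1, hw, hu.2⟩
      have h4 : (((Tp₀ v j).filter (fun u => σ v j ≠ σ u j)).card : ℝ) ≤
          (((Tp₀ v j).filter (fun u => u ∉ Wp ∧ σ v j ≠ σ u j)).card : ℝ) + Wp.card := by
        exact_mod_cast h3
      have h5 : η * n ≤ q / 10 * n := mul_le_mul_of_nonneg_right hη2 hn0.le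
      have h6 : 45 * E * SS n ≤ q * n := hn8
      have h7 : 0 < q * n := by positivity
      have h8 : P.q * P.n / 3 = q * n / 3 := rfl
      rw [h8]
      linarith)
    (by
      intro F' L' D h1 h2 h3 h4 h5
      refine hn3 V F' L' D hV h1 h2 (h3.trans ?_) h4 h5
      have h6 : ρ * (2 * (n : ℝ)) ≤ ρ₀ / 2 * (2 * n) := mul_le_mul_of_nonneg_right hρ2 (by positivity)
      have h7 : P.ρ * (2 * P.n) = ρ * (2 * (n : ℝ)) := rfl
      rw [h7]
      linarith)

end

end Pool.Agent.Helper15.LR
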