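import Pool.Agent.Helper15.LR.Defs3
import Pool.Agent.Helper15.LR.Ei

set_option autoImplicit false

open Finset Filter
open scoped Classical Topology

namespace Pool.Agent.Helper15.LR

noncomputable section

/-- the numerical constants -/
structure Par2 where
  n : ℝ
  m : ℝ
  K : ℝ
  E : ℝ
  S : ℝ
  ε : ℝ
  ρ : ℝ
  c : ℝ
  s0 : ℝ
  am : ℝ
  lam : ℝ
  at' : ℝ
  δ : ℝ
  q : ℝ
  η : ℝ
  θ : ℝ
  kS : ℝ
  C : ℝ
  hK : 1 ≤ K
  hE : 1 ≤ E
  hE2 : 2 ≤ ρ * E
  hS : 0 < S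
  hε : 0 < ε
  hε1 : ε ≤ 1
  hρ : 0 < ρ
  hρ1 : ρ ≤ 1 / 10
  hc : 0 < c
  hc1 : c ≤ 1
  hs0 : 0 < s0
  hKs0 : 8 * K * s0 = ε * S
  ham : K * am = (1 - ρ) * m
  hat : at' * m = am + 2 * s0
  hlam : lam * (E - 1) = K * at' * E
  hcm : c * n ≤ m
  hmn : m ≤ 2 * n
  hδ : 0 < δ
  hq : 0 < q
  hη0 : 0 ≤ η
  hθ0 : 0 ≤ θ
  hkS : E * kS ≤ s0 / 100
  hC0 : 0 ≤ C
  hC1 : K * (3 * E + 22) ≤ (1 - ρ) * C
  hC2 : 3 * K * E + 1 ≤ ρ * C
  hθ1 : (C + 3 * E + 22) * S ≤ θ * (c * n / 4)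
  hθ2 : 31 * S ≤ θ * (q * n / 3)
  hθ3 : η * n * θ ≤ s0 / 100
  hθ4 : 6 * K * θ ≤ ρ
  hη1 : η ≤ c / 100
  hω : 1000 * S * ((δ / 4 + η) * n) ≤ s0 / 4 * (am - 4 * s0)
  hb1 : 1000 * S ≤ am - 4 * s0
  hb2 : 1600 * (am - 4 * s0) ≤ s0 ^ 2
  hb3 : 10 * (C + 6 * E) * S ≤ c * n
  hb5 : 4000 ≤ s0
  hb6 : 12 * S ≤ ρ * (c * n)

namespace Par2

variable (P : Par2)

lemma n_pos : 0 < P.n := by
  have h1 := P.hb3; have h2 := P.hS; have h3 := P.hE; have h4 := P.hc; have h5 := P.hC0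
  have h6 : 0 < 10 * (P.C + 6 * P.E) * P.S := by positivity
  have h7 : 0 < P.c * P.n := lt_of_lt_of_le h6 h1
  exact (mul_pos_iff_of_pos_left h4).1 h7

lemma m_pos : 0 < P.m := by
  have h1 := P.hcm; have h2 := P.n_pos; have h3 := P.hc
  have : 0 < P.c * P.n := by positivity
  linarith

lemma s0_le : 8 * P.s0 ≤ P.S := by
  have h1 := P.hKs0; have h2 := P.hS; have h3 := P.hK; have h4 := P.hε1; have h5 := P.hs0
  nlinarith [mul_le_mul_of_nonneg_right h3 h5.le, mul_le_mul_of_nonneg_right h4 h2.le]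

lemma am_pos : 0 < P.am := by
  have := P.hb1; have := P.hS; have := P.hs0; linarith

lemma at_pos : 0 < P.at' := by
  have h1 := P.hat; have h2 := P.m_pos; have h3 := P.am_pos; have h4 := P.hs0
  have : 0 < P.at' * P.m := by rw [h1]; positivity
  exact (mul_pos_iff_of_pos_right h2).1 this

/-- `K at' = 1 - ρ + εS/(4m)` -/
lemma Kat : P.K * P.at' * P.m = (1 - P.ρ) * P.m + P.ε * P.S / 4 := by
  have h1 := P.hat; have h2 := P.ham; have h3 := P.hKs0
  linear_combination P.K * h1 + h2 + h3 / 4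

lemma eS_le : P.ε * P.S ≤ P.S := by
  have h1 := P.hε1; have h2 := P.hS
  nlinarith

lemma ρm_ge : 12 * P.S ≤ P.ρ * P.m := by
  have h1 := P.hb6; have h2 := mul_le_mul_of_nonneg_left P.hcm P.hρ.le
  linarith

lemma Kat_le : P.K * P.at' ≤ 1 - P.ρ * (11 / 12) := by
  have h1 := P.Kat; have h2 := P.m_pos; have h3 := P.ρm_ge; have h4 := P.eS_le; have h5 := P.hS
  have h6 : P.K * P.at' * P.m ≤ (1 - P.ρ * (11 / 12)) * P.m := by
    rw [h1]; linarith
  exact le_of_mul_le_mul_right h6 h2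

lemma Kat_ge : 1 - P.ρ ≤ P.K * P.at' := by
  have h1 := P.Kat; have h2 := P.m_pos; have h4 := P.hε; have h5 := P.hS
  have h6 : (1 - P.ρ) * P.m ≤ P.K * P.at' * P.m := by
    rw [h1]; have : 0 < P.ε * P.S := by positivity
    linarith
  exact le_of_mul_le_mul_right h6 h2

lemma E_big : 20 ≤ P.E := by
  have h1 := P.hE2; have h2 := P.hρ1; have h3 := P.hE; have h4 := P.hρ
  nlinarith

lemma lam_le : P.lam ≤ 1 - P.ρ / 3 := by
  have h1 := P.hlam; have h2 := P.Kat_le; have h3 := P.E_big; have h4 := P.hE2; have h5 := P.hρ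
  have h6 : P.lam * (P.E - 1) ≤ (1 - P.ρ / 3) * (P.E - 1) := by
    rw [h1]
    have h7 : P.K * P.at' * P.E ≤ (1 - P.ρ * (11 / 12)) * P.E :=
      mul_le_mul_of_nonneg_right h2 (by linarith)
    nlinarith
  exact le_of_mul_le_mul_right h6 (by linarith)

lemma lam_ge : 9 / 10 ≤ P.lam := by
  have h1 := P.hlam; have h2 := P.Kat_ge; have h3 := P.E_big; have h4 := P.hρ1
  have h6 : 9 / 10 * (P.E - 1) ≤ P.lam * (P.E - 1) := by
    rw [h1]
    have h7 : (1 - P.ρ) * P.E ≤ P.K * P.at' * P.E := mul_le_mul_of_nonneg_right h2 (by linarith)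
    have h8 : (9 / 10) * P.E ≤ (1 - P.ρ) * P.E := mul_le_mul_of_nonneg_right (by linarith) (by linarith)
    linarith
  exact le_of_mul_le_mul_right h6 (by linarith)

lemma at_le : P.at' ≤ 1 := by
  have h1 := P.Kat_le; have h2 := P.hK; have h3 := P.at_pos; have h4 := P.hρ
  nlinarith

/-- natural load with degree at most `m - εS` -/
lemma load_le (d : ℝ) (hd : d ≤ P.m - P.ε * P.S) : P.at' * d ≤ P.am - 5 * P.s0 := by
  have h1 := P.at_pos; have h2 := P.hat; have h3 := P.Kat_ge; have h4 := P.hKs0; have h5 := P.hs0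
  have h6 := P.hρ1; have h7 := P.hK
  have h8 : P.at' * d ≤ P.at' * (P.m - P.ε * P.S) := mul_le_mul_of_nonneg_left hd h1.le
  have h9 : P.at' * (P.ε * P.S) = 8 * (P.K * P.at') * P.s0 := by rw [← h4]; ring
  have h10 : 9 / 10 * P.s0 ≤ P.K * P.at' * P.s0 := mul_le_mul_of_nonneg_right (by linarith) h5.le
  have h11 : P.at' * (P.m - P.ε * P.S) = P.am + 2 * P.s0 - P.at' * (P.ε * P.S) := by
    rw [mul_sub, h2]
  linarith

/-- leftover load with degree at most `m - εS` -/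
lemma left_le (d : ℝ) (hd0 : 0 ≤ d) (hd : d ≤ P.m - P.ε * P.S) :
    d - P.K * P.at' * d ≤ P.ρ * P.m - P.ε * P.S / 4 := by
  have h1 := P.Kat; have h2 := P.m_pos; have h3 := P.Kat_le; have h4 := P.hρ
  have h5 : 0 ≤ 1 - P.K * P.at' := by
    have : 0 ≤ P.ρ * (11 / 12) := by positivity
    linarith
  have hES : 0 < P.ε * P.S := mul_pos P.hε P.hS
  have h6 : (1 - P.K * P.at') * d ≤ (1 - P.K * P.at') * P.m :=
    mul_le_mul_of_nonneg_left (by linarith) h5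
  have h7 : (1 - P.K * P.at') * P.m = P.ρ * P.m - P.ε * P.S / 4 := by linarith
  linarith

/-- low degree vertices, level load -/
lemma low_level (d : ℝ) (hd : d ≤ P.m - P.C * P.S) :
    P.at' * d + P.E * (3 * P.S) + 4 ≤ P.am - 4 * P.s0 - 20 * P.S := by
  have h1 := P.at_pos; have h2 := P.hat; have h3 := P.Kat_ge; have h5 := P.hs0
  have h6 := P.hC1; have h7 := P.hK; have hS := P.hS; have h8 := P.s0_le; have h9 := P.hb5
  have hC := P.hC0
  have h10 : P.at' * d ≤ P.at' * (P.m - P.C * P.S) := mul_le_mul_of_nonneg_left hd h1.le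
  have h11 : P.at' * (P.m - P.C * P.S) = P.am + 2 * P.s0 - P.at' * P.C * P.S := by
    rw [mul_sub, h2]; ring
  have h12 : P.K * (3 * P.E + 22) ≤ P.K * (P.at' * P.C) := by
    have : (1 - P.ρ) * P.C ≤ P.K * P.at' * P.C := mul_le_mul_of_nonneg_right h3 hC
    linarith
  have h13 : 3 * P.E + 22 ≤ P.at' * P.C := le_of_mul_le_mul_left h12 (by linarith)
  have h14 : (3 * P.E + 22) * P.S ≤ P.at' * P.C * P.S := mul_le_mul_of_nonneg_right h13 hS.le
  linarith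

/-- low degree vertices, leftover load -/
lemma low_left (d : ℝ) (hd0 : 0 ≤ d) (hd : d ≤ P.m - P.C * P.S) :
    d - P.K * P.at' * d + P.K * (P.E * (3 * P.S)) + 4 ≤ P.ρ * P.m - 22 / 100 * (P.ε * P.S) := by
  have h1 := P.Kat_ge; have h4 := P.hρ; have h6 := P.hC2; have hS := P.hS; have h9 := P.hb5
  have h8 := P.s0_le; have h10 := P.eS_le
  have h5 : (1 - P.K * P.at') * d ≤ P.ρ * d := mul_le_mul_of_nonneg_right (by linarith) hd0
  have h7 : P.ρ * d ≤ P.ρ * (P.m - P.C * P.S) := mul_le_mul_of_nonneg_left hd h4.le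
  have h11 : (3 * P.K * P.E + 1) * P.S ≤ P.ρ * P.C * P.S := mul_le_mul_of_nonneg_right h6 hS.le
  linarith

/-- high degree vertices: change of the level load -/
lemma high_level (d nu : ℝ) (hd : d ≤ P.m) (hd' : P.m - P.C * P.S ≤ d)
    (hnu : |nu - P.at' * d| ≤ P.E * (3 * P.S)) :
    |(P.am - 4 * P.s0 - 20 * P.S - P.s0 / 8) - nu| ≤ P.θ * (P.c * P.n / 4) := by
  refine le_trans ?_ P.hθ1
  have h1 := P.at_pos; have h2 := P.hat; have h3 := P.at_le; have h5 := P.hs0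
  have hS := P.hS; have h8 := P.s0_le; have hC := P.hC0; have hE := P.hE
  have h9 := abs_le.1 hnu
  have h10 : P.at' * d ≤ P.am + 2 * P.s0 := by
    rw [← h2]; exact mul_le_mul_of_nonneg_left hd h1.le
  have h11 : P.am + 2 * P.s0 - P.C * P.S ≤ P.at' * d := by
    have h12 : P.at' * (P.m - P.C * P.S) ≤ P.at' * d := mul_le_mul_of_nonneg_left hd' h1.le
    have h13 : P.at' * (P.C * P.S) ≤ 1 * (P.C * P.S) := mul_le_mul_of_nonneg_right h3 (by positivity)
    have h14 : P.at' * (P.m - P.C * P.S) = P.am + 2 * P.s0 - P.at' * (P.C * P.S) := by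
      rw [mul_sub, h2]
    linarith
  rw [abs_le]
  constructor <;> nlinarith

lemma Kθ : P.K * P.θ ≤ P.lam := by
  have h1 := P.hθ4; have h2 := P.lam_ge; have h3 := P.hρ1; have h4 := P.hK; have h5 := P.hθ0
  have : 0 ≤ P.K * P.θ := by positivity
  linarith

lemma Kθ2 : 2 * P.K * P.θ ≤ 1 - P.lam := by
  have h1 := P.hθ4; have h2 := P.lam_le
  linarith

end Par2

end

end Pool.Agent.Helper15.LR
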