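import Pool.Agent.Helper15.LR.R8a

set_option autoImplicit false

open Finset Filter
open scoped Classical Topology

namespace Pool.Agent.Helper15.LR

noncomputable section

/-- level of a label -/
def lvl {K : ℕ} (o : Option (Fin K × Bool)) : Option (Fin K) := o.map Prod.fst

lemma lvl_none {K : ℕ} (o : Option (Fin K × Bool)) : lvl o = none ↔ o = none := by
  unfold lvl
  exact Option.map_eq_none_iff

lemma lvl_some {K : ℕ} (o : Option (Fin K × Bool)) (j : Fin K) :
    lvl o = some j ↔ o = some (j, false) ∨ o = some (j, true) := by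
  unfold lvl
  rcases o with _ | ⟨j', b⟩
  · simp
  · cases b <;> simp

lemma dg_lvl_none {V : Type} [Fintype V] {K : ℕ} (F : Set (Sym2 V))
    (φ : Sym2 V → Option (Fin K × Bool)) (v : V) :
    dg {e | e ∈ F ∧ lvl (φ e) = none} v = ld F φ v none := by
  unfold dg ld nb
  congr 1
  ext u
  simp [lvl_none]

lemma dg_lvl_some {V : Type} [Fintype V] {K : ℕ} (F : Set (Sym2 V))
    (φ : Sym2 V → Option (Fin K × Bool)) (v : V) (j : Fin K) :
    dg {e | e ∈ F ∧ lvl (φ e) = some j} v =
      ld F φ v (some (j, false)) + ld F φ v (some (j, true)) := by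
  unfold dg ld nb
  rw [← card_union_of_disjoint]
  · congr 1
    ext u
    simp only [mem_filter, mem_univ, true_and, mem_union, Set.mem_setOf_eq, lvl_some]
    constructor
    · rintro ⟨h1, h2 | h2⟩
      · exact Or.inl ⟨h1, h2⟩
      · exact Or.inr ⟨h1, h2⟩
    · rintro (⟨h1, h2⟩ | ⟨h1, h2⟩)
      · exact ⟨h1, Or.inl h2⟩
      · exact ⟨h1, Or.inr h2⟩
  · rw [disjoint_left]
    intro u h1 h2
    simp only [mem_filter] at h1 h2
    have := h1.2.symm.trans h2.2
    simp at this

/-- assembly for a fixed graph -/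
theorem local2 (hLevel : Level3_stmt) (hAssign : Assign_stmt) (hNat : Nat_stmt)
    {V : Type} [Fintype V] {K : ℕ} (F : Set (Sym2 V)) (hF : ∀ v, s(v, v) ∉ F) (P : Par2)
    (hK1 : 1 ≤ K) (hPK : P.K = K) (hPE : P.E = 2 ^ K) (hPn : P.n = Fintype.card V)
    (L : Sym2 V → Finset ℕ) (g : ℕ → Option (Fin K)) (σ : V → Fin K → Bool) (W : Finset V)
    (M : V → Fin K → ℝ) (Tp : V → Fin K → Finset V)
    (hd1 : ∀ v, (dg F v : ℝ) ≤ P.m - P.ε * P.S)
    (hg1 : ∀ e ∈ F, ∀ j, P.am - 8 * P.S ≤ (ell L g (some j) e : ℝ))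
    (hg2 : ∀ e ∈ F, P.ρ * P.m - P.ε * P.S / 100 ≤ (ell L g none e : ℝ))
    (hW : (W.card : ℝ) ≤ P.η * P.n)
    (hbad : ∀ v ∉ W, (((nb F v).filter
      (fun u => ∃ j, ¬ (P.am - P.s0 ≤ (ell L g (some j) s(v, u) : ℝ)))).card : ℝ)
        ≤ P.δ / 4 * P.n)
    (hpat1 : ∀ v (X : Finset (Fin K)), |(((nb F v).filter (fun u => pat σ v u = X)).card : ℝ)
          - (1 / 2) ^ K * dg F v| ≤ 3 * P.S)
    (hpat2 : ∀ v ∉ W, ∀ X : Finset (Fin K),
        |(((nb F v).filter (fun u => pat σ v u = X)).card : ℝ)
          - (1 / 2) ^ K * dg F v| ≤ P.kS)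
    (hM : ∀ v, P.m - P.C * P.S ≤ (dg F v : ℝ) → ∀ j, |M v j| ≤ 8 * P.S)
    (hMs : ∀ v, P.m - P.C * P.S ≤ (dg F v : ℝ) → -(P.ε * P.S / 50) ≤ ∑ j, M v j)
    (hTp1 : ∀ v j, ∀ u ∈ Tp v j, u ∉ W ∧ s(v, u) ∈ F ∧ σ v j ≠ σ u j ∧
      P.am + M v j ≤ (ell L g (some j) s(v, u) : ℝ))
    (hTp2 : ∀ v, P.m - P.C * P.S ≤ (dg F v : ℝ) → ∀ j, P.q * P.n / 3 ≤ ((Tp v j).card : ℝ))
    (hLeft : LeftProp V (P.ρ * (2 * P.n)) (P.ε / 5 * P.S)) : LC F L := by
  have nK := P.hK
  have nS := P.hS
  have nε := P.hε
  have nρ := P.hρ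
  have ns0 := P.hs0
  have nKs0 := P.hKs0
  have nam := P.ham
  have nθ0 := P.hθ0
  have nθ3 := P.hθ3
  have nkS := P.hkS
  have nb5 := P.hb5
  have ns0S := P.s0_le
  have nn := P.n_pos
  have nm := P.m_pos
  have nE := P.E_big
  have natp := P.at_pos
  have hKr : (1 : ℝ) ≤ K := by exact_mod_cast hK1
  have hKp : (0 : ℝ) < K := by linarith
  have hlamE : P.lam * (1 - (1 / 2) ^ K) / K = P.at' := by
    have h1 := P.hlam
    have h2 : (1 / 2 : ℝ) ^ K * P.E = 1 := by
      rw [hPE, ← mul_pow]; norm_num
    rw [hPK] at h1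
    rw [div_eq_iff hKp.ne']
    have h3 : P.lam * (1 - (1 / 2) ^ K) * P.E = P.at' * K * P.E := by
      linear_combination h1 - P.lam * h2
    exact mul_right_cancel₀ (by linarith : P.E ≠ 0) h3
  -- natural loads
  have hnu1 : ∀ v j, |nu F σ P.lam v j - P.at' * dg F v| ≤ P.E * (3 * P.S) := by
    intro v j
    have h1 := hNat V K F σ P.lam (3 * P.S) v hK1 (by linarith [P.lam_ge])
      (by linarith [P.lam_le]) (hpat1 v) j
    rw [hlamE, ← hPE] at h1
    exact h1
  have hnu2 : ∀ v ∉ W, ∀ j, |nu F σ P.lam v j - P.at' * dg F v| ≤ P.s0 / 100 := by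
    intro v hv j
    have h1 := hNat V K F σ P.lam P.kS v hK1 (by linarith [P.lam_ge])
      (by linarith [P.lam_le]) (hpat2 v hv) j
    rw [hlamE, ← hPE] at h1
    exact h1.trans nkS
  have hdm : ∀ v, (dg F v : ℝ) ≤ P.m := fun v => by
    have := hd1 v; have : 0 < P.ε * P.S := by positivity
    linarith
  set Wh : Finset V := W.filter (fun v => P.m - P.C * P.S ≤ (dg F v : ℝ)) with hWh
  have hWθ : (W.card : ℝ) * P.θ ≤ P.s0 / 100 :=
    (mul_le_mul_of_nonneg_right hW nθ0).trans nθ3
  obtain ⟨φ, f1, f2, f3, f4, f5, f6, f7, f8⟩ := hAssign V K F σ P.lam P.θ W Wh Tp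
    (fun _ _ => P.am - 4 * P.s0 - 20 * P.S - P.s0 / 8)
    (fun v j => M v j + P.s0 + 20 * P.S) hF (by linarith [P.lam_ge]) (by linarith [P.lam_le]) nθ0
    (by rw [← hPK]; exact P.Kθ) (by rw [← hPK]; exact P.Kθ2) (filter_subset _ _)
    (fun v _ j u hu => ⟨(hTp1 v j u hu).2.1, (hTp1 v j u hu).1, (hTp1 v j u hu).2.2.1⟩)
    (by
      intro v hv j
      have hv2 := (mem_filter.1 hv).2
      refine (P.high_level (dg F v) (nu F σ P.lam v j) (hdm v) hv2 (hnu1 v j)).trans ?_
      apply mul_le_mul_of_nonneg_left _ nθ0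
      -- many neighbours outside `W` across
      have h1 := cross_ge σ (nb F v) v (3 * P.S) (hpat1 v) j
      have h2 : ((nb F v).filter (fun u => σ v j ≠ σ u j)).card ≤
          ((nb F v).filter (fun u => u ∉ W ∧ σ v j ≠ σ u j)).card + W.card := by
        refine le_trans (card_le_card ?_) (card_union_le _ _)
        intro u hu
        rw [mem_filter] at hu
        rw [mem_union, mem_filter]
        by_cases hw : u ∈ W
        · exact Or.inr hw
        · exact Or.inl ⟨hu.1, hw, hu.2⟩
      have h3 : (((nb F v).filter (fun u => σ v j ≠ σ u j)).card : ℝ) ≤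
          (((nb F v).filter (fun u => u ∉ W ∧ σ v j ≠ σ u j)).card : ℝ) + W.card := by
        exact_mod_cast h2
      have h4 : ((nb F v).card : ℝ) = dg F v := rfl
      rw [h4, ← hPE] at h1
      have h5 := P.hcm
      have h6 := P.hb3
      have h7 : P.η * P.n ≤ P.c / 100 * P.n := mul_le_mul_of_nonneg_right P.hη1 nn.le
      have h8 : 0 < P.c * P.n := mul_pos P.hc nn
      have h9 : 0 ≤ P.C * P.S := mul_nonneg P.hC0 nS.le
      linarith)
    (by
      intro v hv j
      have hv2 := (mem_filter.1 hv).2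
      have h1 := abs_le.1 (hM v hv2 j)
      have h2 := hTp2 v hv2 j
      have h3 := P.hθ2
      constructor
      · linarith
      · have h4 : P.θ * (P.q * P.n / 3) ≤ P.θ * ((Tp v j).card : ℝ) :=
          mul_le_mul_of_nonneg_left h2 nθ0
        linarith)
  have hWhW : ∀ v ∈ Wh, v ∈ W := fun v hv => (mem_filter.1 hv).1
  have hWhC : ∀ v ∈ Wh, P.m - P.C * P.S ≤ (dg F v : ℝ) := fun v hv => (mem_filter.1 hv).2
  have hWl : ∀ v ∈ W, v ∉ Wh → (dg F v : ℝ) ≤ P.m - P.C * P.S := by
    intro v hv hv'
    by_contra h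
    push Not at h
    exact hv' (mem_filter.2 ⟨hv, h.le⟩)
  have hES : P.ε * P.S = 8 * K * P.s0 := by rw [← nKs0, hPK]
  have hsum1 : ∀ v, ∑ j, nu F σ P.lam v j ≥ P.K * P.at' * dg F v - K * (P.E * (3 * P.S)) := by
    intro v
    have h1 : ∑ _j : Fin K, (P.at' * dg F v - P.E * (3 * P.S)) ≤ ∑ j, nu F σ P.lam v j := by
      apply sum_le_sum
      intro j _
      have := (abs_le.1 (hnu1 v j)).1
      linarith
    rw [sum_const, card_univ, Fintype.card_fin, nsmul_eq_mul] at h1
    rw [hPK]
    linarith
  have hsum2 : ∀ v ∉ W, ∑ j, nu F σ P.lam v j ≥ P.K * P.at' * dg F v - K * (P.s0 / 100) := by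
    intro v hv
    have h1 : ∑ _j : Fin K, (P.at' * dg F v - P.s0 / 100) ≤ ∑ j, nu F σ P.lam v j := by
      apply sum_le_sum
      intro j _
      have := (abs_le.1 (hnu2 v hv j)).1
      linarith
    rw [sum_const, card_univ, Fintype.card_fin, nsmul_eq_mul] at h1
    rw [hPK]
    linarith
  have hKs0 : P.s0 ≤ K * P.s0 := le_mul_of_one_le_left ns0.le hKr
  -- leftover loads
  have hln : ∀ v, (ld F φ v none : ℝ) ≤ P.ρ * P.m - 22 / 100 * (P.ε * P.S) := by
    intro v
    by_cases hv : v ∈ W
    · by_cases hv' : v ∈ Wh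
      · have h1 := f4 v hv'
        have h2 := hMs v (hWhC v hv')
        have h3 := hd1 v
        rw [sum_add_distrib, sum_const, sum_add_distrib, sum_add_distrib, sum_const, sum_const,
          card_univ, Fintype.card_fin, nsmul_eq_mul, nsmul_eq_mul, nsmul_eq_mul] at h1
        have h4 : (K : ℝ) * P.am = (1 - P.ρ) * P.m := by rw [← hPK]; exact nam
        rw [hES] at h2 h3 ⊢
        linarith
      · have h1 := f8 v hv hv'
        have h2 := P.low_left (dg F v) (Nat.cast_nonneg _) (hWl v hv hv')
        have h3 := hsum1 v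
        rw [hPK] at h2 h3
        linarith
    · have h1 := f6 v hv
      have h2 := P.left_le (dg F v) (Nat.cast_nonneg _) (hd1 v)
      have h3 := hsum2 v hv
      have h4 : (K : ℝ) * W.card * P.θ ≤ K * (P.s0 / 100) := by
        rw [mul_assoc]
        exact mul_le_mul_of_nonneg_left hWθ hKp.le
      rw [hPK] at h2 h3
      rw [hES] at h2 ⊢
      linarith
  have hnone : LC {e | e ∈ F ∧ lvl (φ e) = none} (fun e => (L e).filter (fun x => g x = none)) := by
    apply hLeft _ _ (P.ρ * P.m - 22 / 100 * (P.ε * P.S))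
    · intro v h
      exact hF v h.1
    · have h1 := P.ρm_ge
      have h2 := P.eS_le
      linarith
    · have h1 : P.ρ * P.m ≤ P.ρ * (2 * P.n) := mul_le_mul_of_nonneg_left P.hmn nρ.le
      have : 0 < P.ε * P.S := by positivity
      linarith
    · intro v
      rw [dg_lvl_none]
      exact hln v
    · intro e he
      have h1 := hg2 e he.1
      rw [ell_none] at h1
      have h2 : P.ε / 5 * P.S = 20 / 100 * (P.ε * P.S) := by ring
      rw [h2]
      linarith
  -- the levels
  apply LC_combine F L (fun e => lvl (φ e)) g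
  intro o
  rcases o with _ | j
  · convert hnone
  · have hmem : ∀ e, e ∈ {e | e ∈ F ∧ lvl (φ e) = some j} ↔ e ∈ F ∧ lvl (φ e) = some j :=
      fun e => Iff.rfl
    have hcross : ∀ u v, s(u, v) ∈ F → lvl (φ s(u, v)) = some j → σ u j ≠ σ v j := by
      intro u v h1 h2
      rcases (lvl_some _ _).1 h2 with h3 | h3
      · exact f1 u v j false h1 h3
      · exact f1 u v j true h1 h3
    have hbu : ∀ u v, s(u, v) ∈ F → φ s(u, v) = some (j, true) → u ∈ W → u ∈ Wh ∧ v ∈ Tp u j := by
      intro u v h1 h2 h3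
      rcases f2 u v j h1 h2 with h4 | h4
      · exact h4
      · exact absurd h3 (hTp1 v j u h4.2).1
    have key := hLevel V {e | e ∈ F ∧ lvl (φ e) = some j} (fun v => σ v j)
      (fun e => (L e).filter (fun x => g x = some j)) (↑W)
      {e | e ∈ F ∧ (∀ v ∈ e, v ∉ W) ∧ ¬ (P.am - P.s0 ≤ (ell L g (some j) e : ℝ))}
      {e | e ∈ F ∧ φ e = some (j, true)} (P.am - 4 * P.s0) (10 * P.S) (P.s0 / 4)
      ((P.δ / 4 + P.η) * P.n) (by linarith) (by linarith)
      (by have := P.hb1; linarith) (by have := P.hb2; linarith)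
      (by have := P.hω; linarith)
      (fun u v h => hcross u v h.1 h.2)
      (fun u v h => by
        have := h.2.1 u (by simp)
        exact fun h' => this (mem_coe.1 h'))
      (fun u v h => by
        rw [mem_coe, mem_coe]
        constructor
        · intro hu
          exact (hTp1 u j v (hbu u v h.1 h.2 hu).2).1
        · intro hv
          rcases f2 u v j h.1 h.2 with h4 | h4
          · exact hWhW u h4.1
          · exact absurd (hWhW v h4.1) hv)
      (by
        intro v
        by_cases hv : v ∈ W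
        · refine le_trans (Nat.cast_le.2 (card_le_card (t := W) ?_)) ?_
          · intro u hu
            simp only [mem_filter] at hu
            rcases hu.2 with h2 | h2
            · exact absurd hv (h2.2.1 v (by simp))
            · exact mem_coe.1 h2
          · have h3 : 0 ≤ P.δ / 4 * P.n := mul_nonneg (by linarith [P.hδ]) nn.le
            linarith
        · refine le_trans (Nat.cast_le.2 ((card_le_card (t := (nb F v).filter
              (fun u => ∃ j, ¬ (P.am - P.s0 ≤ (ell L g (some j) s(v, u) : ℝ))) ∪ W) ?_).trans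
              (card_union_le _ _))) ?_
          · intro u hu
            simp only [mem_filter, mem_nb] at hu
            rw [mem_union, mem_filter, mem_nb]
            rcases hu.2 with h2 | h2
            · exact Or.inl ⟨hu.1.1, j, h2.2.2⟩
            · exact Or.inr (mem_coe.1 h2)
          · push_cast
            have h3 := hbad v hv
            linarith)
      (by
        intro v hv
        rw [mem_coe] at hv
        rw [dg_lvl_some]
        push_cast
        have h1 := f5 v hv j
        have h2 := (abs_le.1 (hnu2 v hv j)).2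
        have h3 := P.load_le (dg F v) (hd1 v)
        linarith [h1.1, h1.2])
      (by
        intro v hv
        rw [mem_coe] at hv
        refine le_trans (b := (ld F φ v (some (j, true)) : ℝ)) (Nat.cast_le.2 ?_) ?_
        · unfold ld
          apply card_le_card
          intro u hu
          simp only [mem_filter] at hu
          simp only [mem_filter, mem_nb]
          exact hu.2
        · have h3 := (f5 v hv j).2
          linarith)
      (by
        intro v hv
        rw [mem_coe] at hv
        have hsub : ∀ (D : DecidablePred (fun u => s(v, u) ∉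
            {e | e ∈ F ∧ φ e = some (j, true)})),
            ((@filter V (fun u => s(v, u) ∉ {e | e ∈ F ∧ φ e = some (j, true)}) D
              (nb {e | e ∈ F ∧ lvl (φ e) = some j} v)).card : ℝ) ≤
              ld F φ v (some (j, false)) := by
          intro D
          apply Nat.cast_le.2
          unfold ld
          apply card_le_card
          intro u hu
          simp only [mem_filter, mem_nb] at hu
          simp only [mem_filter, mem_nb]
          refine ⟨hu.1.1, ?_⟩
          rcases (lvl_some _ _).1 hu.1.2 with h3 | h3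
          · exact h3
          · exact absurd ⟨hu.1.1, h3⟩ hu.2
        refine (hsub _).trans ?_
        by_cases hv' : v ∈ Wh
        · have h3 := (f3 v hv' j).1
          linarith
        · have h3 := (f7 v hv hv' j).1
          have h4 := (abs_le.1 (hnu1 v j)).2
          have h5 := P.low_level (dg F v) (hWl v hv hv')
          linarith)
      (by
        intro u v h1 hu hv hb
        rw [mem_coe] at hu hv
        have h2 : P.am - P.s0 ≤ (ell L g (some j) s(u, v) : ℝ) := by
          by_contra h3
          refine hb ⟨h1.1, ?_, h3⟩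
          intro w hw
          rcases Sym2.mem_iff.1 hw with h | h
          · rw [h]; exact hu
          · rw [h]; exact hv
        rw [ell_some] at h2
        linarith)
      (by
        intro e he _
        have h2 := hg1 e he.1 j
        rw [ell_some] at h2
        linarith)
      (by
        intro u v h1 h2 hu
        rw [mem_coe] at hu
        have h3 := hbu u v h1.1 h2.2 hu
        have h4 := (hTp1 u j v h3.2).2.2.2
        rw [ell_some] at h4
        have h5 := f3 u h3.1 j
        rw [dg_lvl_some]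
        push_cast
        linarith [h5.1, h5.2])
    convert key

end

end Pool.Agent.Helper15.LR
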